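import Pool.Agent.Run7.h201.CS.Code

set_option autoImplicit false

/-!
# Coherent preorders: the base family
-/

namespace Pool.Agent.Run7.h201.CS

open Set
open Pool.Agent.H899R2.VP (St Adj PIso BF IsoOn idOn inv comp zipSet mem_inv BF_iff zipSet_cons
  zipSet_nil_left labels idOn_mono)
open Pool.Agent.H533R2.VO (RS lift RIso Dich resBF resIso)
open Pool.Agent.H566P (ar R2 lt ac co mk)

variable {α : Ordinal.{0}} {K : Set R2}

theorem base (hK : G α K) : ∃ S : Set (R2 × Set ℕ), Fam K S ∧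
    (∀ M ∈ K, ∀ x, (M, Ic M x x) ∈ S) ∧
    ∀ M ∈ K, ∀ x y, lt M x y → (M, Ic M x y) ∉ S → ¬ Small K α M x y := by
  obtain ⟨c, hc⟩ := lab hK hK.lt1
  obtain ⟨b, hb⟩ := blkC hK
  classical
  -- the choice of the functions
  have hg : ∀ κ : ℕ, ∃ g : ℕ → R2 × Set ℕ, ∀ M ∈ K, ∀ x y, lt M x y → c M [x, y] = κ →
      Small K α M x y → ∃ n, IsoOn (lift (g n).1) (lift M) (g n).2 (Ic M x y) ∅ := by
    intro κ
    by_cases h : ∃ M ∈ K, ∃ x y, lt M x y ∧ c M [x, y] = κ ∧ Small K α M x y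
    · obtain ⟨M, hM, x, y, hxy, hκ, g, hg⟩ := h
      refine ⟨g, fun N hN x' y' hxy' hκ' _ => ?_⟩
      have hbf := hc M hM N hN [x, y] [x', y'] rfl (by rw [hκ, hκ'])
      rw [zip2] at hbf
      have hle : ¬ lt N y' x' := (hK.wo N hN).asymm hxy'
      exact hg N hN x' y' hbf x' (left_mem_Ic (hK.wo N hN) hle) y'
        (right_mem_Ic (hK.wo N hN) hle) hle
    · exact ⟨b, fun M hM x y hxy hκ hs => absurd ⟨M, hM, x, y, hxy, hκ, hs⟩ h⟩
  choose g hg using hg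
  obtain ⟨S, hS, hSf⟩ := genf hK.wo hK.law (fun n => if n.unpair.1 = 0 then b n.unpair.2
    else g (n.unpair.1 - 1) n.unpair.2)
  have hSb : ∀ n, b n ∈ S := by
    intro n
    have := hSf (Nat.pair 0 n)
    simpa using this
  have hSg : ∀ κ n, g κ n ∈ S := by
    intro κ n
    have := hSf (Nat.pair (κ + 1) n)
    simpa using this
  refine ⟨S, hS, ?_, ?_⟩
  · intro M hM x
    obtain ⟨n, hn⟩ := hb M hM x
    exact hS.iso _ _ _ _ (hSb n) hn
  · intro M hM x y hxy hnot hsm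
    obtain ⟨n, hn⟩ := hg (c M [x, y]) M hM x y hxy rfl hsm
    exact hnot (hS.iso _ _ _ _ (hSg _ n) hn)

end Pool.Agent.Run7.h201.CS
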