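import Pool.Agent.Y417.TF.PL
import Pool.Agent.Y275.TG.Trq
import Pool.Agent.Y563.TG.Mat
import Pool.Agent.Y117.TG.BP
import Pool.Agent.Y560.TT.Fin5
import Pool.Agent.H533R2.VO.All

set_option autoImplicit false

/-!
# Coherent preorders: atomic types of pairs, labels, the law, cuts

Structures `R : R2` on `ℕ`: a strict weak order `lt R`, binary relations `ac R n`, unary relations
`co R n`.
-/

namespace Pool.Agent.Run7.h201.CS

open Set
open Pool.Agent.H899R2.VP (St Adj PIso BF IsoOn idOn inv comp zipSet mem_inv BF_iff)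
open Pool.Agent.H533R2.VO (RS lift RIso Dich)
open Pool.Agent.H566P (ar R2 lt ac co mk)
open Pool.Agent.Y560.TG (lt_mk ac_mk co_mk piso_iff ex lt_ex ac_ex co_ex_even co_ex_odd piso_ex)

/-- strict weak orders -/
structure WO (R : R2) : Prop where
  irr : ∀ x, ¬ lt R x x
  tr : ∀ x y z, lt R x y → lt R y z → lt R x z
  ntr : ∀ x y z, lt R x z → lt R x y ∨ lt R y z

section order

variable {R : R2} {x y z : ℕ}

theorem WO.asymm (h : WO R) (h1 : lt R x y) : ¬ lt R y x := fun h2 => h.irr x (h.tr x y x h1 h2)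

/-- `x ≤ y ≤ z → x ≤ z`. -/
theorem WO.le_trans (h : WO R) (h1 : ¬ lt R y x) (h2 : ¬ lt R z y) : ¬ lt R z x := by
  intro h3
  rcases h.ntr z y x h3 with h4 | h4
  · exact h2 h4
  · exact h1 h4

/-- `x < y ≤ z → x < z`. -/
theorem WO.lt_le (h : WO R) (h1 : lt R x y) (h2 : ¬ lt R z y) : lt R x z := by
  rcases h.ntr x z y h1 with h4 | h4
  · exact h4
  · exact absurd h4 h2

/-- `x ≤ y < z → x < z`. -/
theorem WO.le_lt (h : WO R) (h1 : ¬ lt R y x) (h2 : lt R y z) : lt R x z := by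
  rcases h.ntr y x z h2 with h4 | h4
  · exact absurd h4 h1
  · exact h4

end order

/-- the atomic facts on a pair -/
def At (R : R2) (x y k : ℕ) : Prop :=
  if k = 0 then lt R x y else if k = 1 then lt R y x else
    if k % 2 = 0 then ac R (k / 2 - 1) x y else ac R (k / 2 - 1) y x

/-- the pairs have the same type -/
def E (R R' : R2) (x y x' y' : ℕ) : Prop := ∀ k, At R x y k ↔ At R' x' y' k

theorem E_iff {R R' : R2} {x y x' y' : ℕ} : E R R' x y x' y' ↔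
    (lt R x y ↔ lt R' x' y') ∧ (lt R y x ↔ lt R' y' x') ∧
    ∀ n, (ac R n x y ↔ ac R' n x' y') ∧ (ac R n y x ↔ ac R' n y' x') := by
  constructor
  · intro h
    refine ⟨by simpa [At] using h 0, by simpa [At] using h 1, fun n => ⟨?_, ?_⟩⟩
    · have := h (2 * n + 2)
      have e1 : (2 * n + 2) / 2 - 1 = n := by omega
      simpa [At, e1] using this
    · have := h (2 * n + 3)
      have e1 : (2 * n + 3) / 2 - 1 = n := by omega
      have e2 : (2 * n + 3) % 2 = 1 := by omega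
      simpa [At, e1, e2] using this
  · rintro ⟨h1, h2, h3⟩ k
    unfold At
    by_cases k0 : k = 0
    · simpa [k0] using h1
    · by_cases k1 : k = 1
      · simpa [k1] using h2
      · by_cases k2 : k % 2 = 0
        · simpa [k0, k1, k2] using (h3 (k / 2 - 1)).1
        · simpa [k0, k1, k2] using (h3 (k / 2 - 1)).2

section E

variable {R R' R'' : R2} {x y x' y' x'' y'' : ℕ}

theorem E.l (h : E R R' x y x' y') : lt R x y ↔ lt R' x' y' := (E_iff.1 h).1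
theorem E.g (h : E R R' x y x' y') : lt R y x ↔ lt R' y' x' := (E_iff.1 h).2.1
theorem E.a (h : E R R' x y x' y') (n : ℕ) : ac R n x y ↔ ac R' n x' y' := ((E_iff.1 h).2.2 n).1
theorem E.rfl : E R R x y x y := fun _ => Iff.rfl
theorem E.symm (h : E R R' x y x' y') : E R' R x' y' x y := fun k => (h k).symm
theorem E.trans (h : E R R' x y x' y') (h' : E R' R'' x' y' x'' y'') : E R R'' x y x'' y'' :=
  fun k => (h k).trans (h' k)
theorem E.swap (h : E R R' x y x' y') : E R R' y x y' x' := by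
  rw [E_iff] at h ⊢
  exact ⟨h.2.1, h.1, fun n => ⟨(h.2.2 n).2, (h.2.2 n).1⟩⟩

end E

theorem piso_E {R R' : R2} {p : Set (ℕ × ℕ)} : PIso (lift R) (lift R') p ↔
    (∀ u ∈ p, ∀ v ∈ p, (u.1 = v.1 ↔ u.2 = v.2)) ∧
    (∀ u ∈ p, ∀ v ∈ p, E R R' u.1 v.1 u.2 v.2) ∧
    (∀ n, ∀ u ∈ p, (co R n u.1 ↔ co R' n u.2)) := by
  rw [piso_iff]
  constructor
  · rintro ⟨h1, h2, h3, h4⟩
    exact ⟨h1, fun u hu v hv => E_iff.2 ⟨h2 u hu v hv, h2 v hv u hu, fun n =>
      ⟨h3 n u hu v hv, h3 n v hv u hu⟩⟩, h4⟩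
  · rintro ⟨h1, h2, h3⟩
    exact ⟨h1, fun u hu v hv => (h2 u hu v hv).l, fun n u hu v hv => (h2 u hu v hv).a n, h3⟩

theorem piso_pair {R R' : R2} {p : Set (ℕ × ℕ)} (h : PIso (lift R) (lift R') p) {x x' y y' : ℕ}
    (hx : (x, x') ∈ p) (hy : (y, y') ∈ p) : E R R' x y x' y' :=
  (piso_E.1 h).2.1 _ hx _ hy

/-- The label of `z` over the points `b i`. -/
def La (R : R2) (b : ℕ → ℕ) (k z : ℕ) : Prop := At R (b k.unpair.1) z k.unpair.2

theorem La_iff {R R' : R2} {b b' : ℕ → ℕ} {z z' : ℕ} :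
    (∀ k, La R b k z ↔ La R' b' k z') ↔ ∀ i, E R R' (b i) z (b' i) z' := by
  constructor
  · intro h i k
    have := h (Nat.pair i k)
    simpa [La] using this
  · intro h k
    exact h k.unpair.1 k.unpair.2

/-- the structure with labels -/
noncomputable def lc (R : R2) (b : ℕ → ℕ) : R2 := ex (La R b) R

theorem At_ex {P : ℕ → ℕ → Prop} {R : R2} {x y k : ℕ} : At (ex P R) x y k ↔ At R x y k := by
  unfold At
  simp only [lt_ex, ac_ex]

theorem E_ex {P P' : ℕ → ℕ → Prop} {R R' : R2} {x y x' y' : ℕ} :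
    E (ex P R) (ex P' R') x y x' y' ↔ E R R' x y x' y' := by
  simp only [E, At_ex]

theorem piso_lc {R R' : R2} {b b' : ℕ → ℕ} {p : Set (ℕ × ℕ)} :
    PIso (lift (lc R b)) (lift (lc R' b')) p ↔
    PIso (lift R) (lift R') p ∧ ∀ u ∈ p, ∀ i, E R R' (b i) u.1 (b' i) u.2 := by
  unfold lc
  rw [piso_ex]
  refine and_congr_right fun _ => ?_
  constructor
  · intro h u hu
    exact La_iff.1 fun k => h k u hu
  · intro h k u hu
    exact La_iff.2 (h u hu) k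

/-- the labels over the points `b i` agree -/
theorem sl_lc {R R' : R2} {b b' : ℕ → ℕ} {p : Set (ℕ × ℕ)}
    (h : PIso (lift (lc R b)) (lift (lc R' b')) p) {x x' : ℕ} (hx : (x, x') ∈ p) (i : ℕ) :
    E R R' (b i) x (b' i) x' := (piso_lc.1 h).2 _ hx i

/-! ### Sums -/

section sum

variable {ι : Type}

/-- General sum lemma for `BF`. -/
theorem gsumBF (π π' : ℕ → ι) {M N : R2} (Mc Nc : ι → R2) (X Y : Set ℕ) (p0 : Set (ℕ × ℕ))
    (H : ∀ q : Set (ℕ × ℕ), p0 ⊆ q → (∀ u ∈ q, π u.1 = π' u.2) →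
      (∀ u ∈ q, u ∈ p0 ∨ u ∈ X ×ˢ Y) →
      (∀ c, PIso (lift (Mc c)) (lift (Nc c)) {u | u ∈ q ∧ π u.1 = c}) →
      PIso (lift M) (lift N) q) :
    ∀ (o : Ordinal.{0}) (p : Set (ℕ × ℕ)), p0 ⊆ p → (∀ u ∈ p, π u.1 = π' u.2) →
      (∀ u ∈ p, u ∈ p0 ∨ u ∈ X ×ˢ Y) →
      (∀ c, BF (lift (Mc c)) (lift (Nc c)) {x | x ∈ X ∧ π x = c} {y | y ∈ Y ∧ π' y = c} o
        {u | u ∈ p ∧ π u.1 = c}) →
      BF (lift M) (lift N) X Y o p := by
  intro o
  induction o using WellFoundedLT.induction with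
  | ind o ih =>
    intro p hp0 h3 hp h
    rw [BF_iff]
    have hins : ∀ x y : ℕ, ∀ c, π x = c →
        {u | u ∈ insert (x, y) p ∧ π u.1 = c} = insert (x, y) {u | u ∈ p ∧ π u.1 = c} := by
      intro x y c hc
      ext u
      constructor
      · rintro ⟨hu | hu, hu'⟩
        · exact Or.inl hu
        · exact Or.inr ⟨hu, hu'⟩
      · rintro (hu | hu)
        · refine ⟨Or.inl hu, ?_⟩
          rw [hu]
          exact hc
        · exact ⟨Or.inr hu.1, hu.2⟩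
    have hout : ∀ x y : ℕ, ∀ c, π x ≠ c →
        {u | u ∈ insert (x, y) p ∧ π u.1 = c} = {u | u ∈ p ∧ π u.1 = c} := by
      intro x y c hc
      ext u
      constructor
      · rintro ⟨hu | hu, hu'⟩
        · exfalso
          rw [hu] at hu'
          exact hc hu'
        · exact ⟨hu, hu'⟩
      · exact fun hu => ⟨Or.inr hu.1, hu.2⟩
    refine ⟨H p hp0 h3 hp fun c => (h c).piso, fun o' ho' => ⟨fun x hx => ?_, fun y hy => ?_⟩⟩
    · obtain ⟨y, hy, hb⟩ := (h (π x)).forth ho' (x := x) ⟨hx, rfl⟩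
      refine ⟨y, hy.1, ih o' ho' _ (hp0.trans (subset_insert _ _)) ?_ ?_ ?_⟩
      · rintro u (hu | hu)
        · rw [hu]
          exact hy.2.symm
        · exact h3 u hu
      · rintro u (hu | hu)
        · rw [hu]
          exact Or.inr ⟨hx, hy.1⟩
        · exact hp u hu
      · intro c
        by_cases hc : π x = c
        · rw [hins x y c hc, ← hc]
          exact hb
        · rw [hout x y c hc]
          exact (h c).mono ho'.le
    · obtain ⟨x, hx, hb⟩ := (h (π' y)).back ho' (y := y) ⟨hy, rfl⟩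
      refine ⟨x, hx.1, ih o' ho' _ (hp0.trans (subset_insert _ _)) ?_ ?_ ?_⟩
      · rintro u (hu | hu)
        · rw [hu]
          exact hx.2
        · exact h3 u hu
      · rintro u (hu | hu)
        · rw [hu]
          exact Or.inr ⟨hx.1, hy⟩
        · exact hp u hu
      · intro c
        by_cases hc : π x = c
        · rw [hins x y c hc, ← hc, hx.2]
          exact hb
        · rw [hout x y c hc]
          exact (h c).mono ho'.le

/-- General sum lemma for `IsoOn`. -/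
theorem gsumIso (π π' : ℕ → ι) {M N : R2} (Mc Nc : ι → R2) (X Y : Set ℕ) (p : Set (ℕ × ℕ))
    (H : ∀ q : Set (ℕ × ℕ), p ⊆ q → (∀ u ∈ q, π u.1 = π' u.2) → q ⊆ X ×ˢ Y →
      (∀ c, PIso (lift (Mc c)) (lift (Nc c)) {u | u ∈ q ∧ π u.1 = c}) →
      PIso (lift M) (lift N) q)
    (h : ∀ c, IsoOn (lift (Mc c)) (lift (Nc c)) {x | x ∈ X ∧ π x = c} {y | y ∈ Y ∧ π' y = c}
      {u | u ∈ p ∧ π u.1 = c}) :
    IsoOn (lift M) (lift N) X Y p := by
  choose q hq1 hq2 hq3 hq4 hq5 using h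
  have hQ : {u : ℕ × ℕ | ∃ c, u ∈ q c} ⊆ X ×ˢ Y := by
    rintro u ⟨c, hu⟩
    exact ⟨(hq2 c hu).1.1, (hq2 c hu).2.1⟩
  have hpQ : p ⊆ {u : ℕ × ℕ | ∃ c, u ∈ q c} := fun u hu => ⟨π u.1, hq1 _ ⟨hu, rfl⟩⟩
  refine ⟨{u | ∃ c, u ∈ q c}, hpQ, hQ, ?_, ?_, ?_⟩
  · refine H _ hpQ ?_ hQ ?_
    · rintro u ⟨c, hu⟩
      rw [(hq2 c hu).1.2, (hq2 c hu).2.2]
    · intro c
      refine (hq3 c).mono ?_
      rintro u ⟨⟨d, hu⟩, hu'⟩
      have e : d = c := by rw [← hu', (hq2 d hu).1.2]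
      rw [← e]
      exact hu
  · intro x hx
    obtain ⟨y, hy⟩ := hq4 (π x) x ⟨hx, rfl⟩
    exact ⟨y, π x, hy⟩
  · intro y hy
    obtain ⟨x, hx⟩ := hq5 (π' y) y ⟨hy, rfl⟩
    exact ⟨x, π' y, hx⟩

end sum

/-! ### Transfer -/

theorem extBF {M M' N N' : R2} {X X' Y Y' : Set ℕ} {p : Set (ℕ × ℕ)} {o : Ordinal.{0}}
    (hY : Y ⊆ X) (hY' : Y' ⊆ X')
    (H : ∀ q, p ⊆ q → PIso (lift M) (lift M') q →
      PIso (lift N) (lift N') {u | u ∈ q ∧ u.1 ∈ Y} ∧ ∀ u ∈ q, (u.1 ∈ Y ↔ u.2 ∈ Y'))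
    (h : BF (lift M) (lift M') X X' o p) :
    BF (lift N) (lift N') Y Y' o {u | u ∈ p ∧ u.1 ∈ Y} := by
  have h1 := Pool.Agent.Y275.TG.t_EXT M M' N N' X X' Y Y' p ∅ 0 hY hY'
    (fun q hq hb => by
      rw [union_empty]
      exact H q hq hb.piso) o (by rwa [zero_add])
  rwa [union_empty] at h1

theorem extIso {M M' N N' : R2} {X X' Y Y' : Set ℕ} {p : Set (ℕ × ℕ)}
    (hY : Y ⊆ X) (hY' : Y' ⊆ X')
    (H : ∀ q, p ⊆ q → PIso (lift M) (lift M') q →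
      PIso (lift N) (lift N') {u | u ∈ q ∧ u.1 ∈ Y} ∧ ∀ u ∈ q, (u.1 ∈ Y ↔ u.2 ∈ Y'))
    (h : IsoOn (lift M) (lift M') X X' p) :
    IsoOn (lift N) (lift N') Y Y' {u | u ∈ p ∧ u.1 ∈ Y} := by
  obtain ⟨q, h1, h2, h3, h4, h5⟩ := h
  obtain ⟨h6, h7⟩ := H q h1 h3
  refine ⟨{u | u ∈ q ∧ u.1 ∈ Y}, fun u hu => ⟨h1 hu.1, hu.2⟩, ?_, h6, ?_, ?_⟩
  · rintro u ⟨hu, hu'⟩
    exact ⟨hu', (h7 u hu).1 hu'⟩
  · intro x hx
    obtain ⟨y, hy⟩ := h4 x (hY hx)
    exact ⟨y, hy, hx⟩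
  · intro y hy
    obtain ⟨x, hx⟩ := h5 y (hY' hy)
    exact ⟨x, hx, (h7 _ hx).2 hy⟩

/-- labels over points in the base -/
theorem bf_lc {M M' : R2} {X X' Y Y' : Set ℕ} {p : Set (ℕ × ℕ)} {b b' : ℕ → ℕ} {o : Ordinal.{0}}
    (hY : Y ⊆ X) (hY' : Y' ⊆ X') (hb : ∀ i, (b i, b' i) ∈ p)
    (H : ∀ q, p ⊆ q → PIso (lift M) (lift M') q → ∀ u ∈ q, (u.1 ∈ Y ↔ u.2 ∈ Y'))
    (h : BF (lift M) (lift M') X X' o p) :
    BF (lift (lc M b)) (lift (lc M' b')) Y Y' o {u | u ∈ p ∧ u.1 ∈ Y} := by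
  refine extBF hY hY' (fun q hq hi => ⟨?_, H q hq hi⟩) h
  rw [piso_lc]
  refine ⟨hi.mono fun u hu => hu.1, fun u hu i => ?_⟩
  exact piso_pair hi (hq (hb i)) (show (u.1, u.2) ∈ q from hu.1)

theorem iso_lc {M M' : R2} {X X' Y Y' : Set ℕ} {p : Set (ℕ × ℕ)} {b b' : ℕ → ℕ}
    (hY : Y ⊆ X) (hY' : Y' ⊆ X') (hb : ∀ i, (b i, b' i) ∈ p)
    (H : ∀ q, p ⊆ q → PIso (lift M) (lift M') q → ∀ u ∈ q, (u.1 ∈ Y ↔ u.2 ∈ Y'))
    (h : IsoOn (lift M) (lift M') X X' p) :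
    IsoOn (lift (lc M b)) (lift (lc M' b')) Y Y' {u | u ∈ p ∧ u.1 ∈ Y} := by
  refine extIso hY hY' (fun q hq hi => ⟨?_, H q hq hi⟩) h
  rw [piso_lc]
  refine ⟨hi.mono fun u hu => hu.1, fun u hu i => ?_⟩
  exact piso_pair hi (hq (hb i)) (show (u.1, u.2) ∈ q from hu.1)

/-- Add the base points to an isomorphism of labelled structures. -/
theorem iso_add {M M' : R2} {O O' : Set ℕ} {b b' : ℕ → ℕ}
    (hb : ∀ i, b i ∉ O) (hb' : ∀ i, b' i ∉ O')
    (hp : PIso (lift M) (lift M') {u | ∃ i, u = (b i, b' i)})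
    (h : IsoOn (lift (lc M b)) (lift (lc M' b')) O O' ∅) :
    IsoOn (lift M) (lift M') (O ∪ range b) (O' ∪ range b') {u | ∃ i, u = (b i, b' i)} := by
  obtain ⟨q, -, h2, h3, h4, h5⟩ := h
  have h3' := (piso_E.1 (piso_lc.1 h3).1)
  have hl := (piso_lc.1 h3).2
  have hp' := piso_E.1 hp
  refine ⟨q ∪ {u | ∃ i, u = (b i, b' i)}, subset_union_right, ?_, ?_, ?_, ?_⟩
  · rintro u (hu | ⟨i, rfl⟩)
    · exact ⟨Or.inl (h2 hu).1, Or.inl (h2 hu).2⟩
    · exact ⟨Or.inr ⟨i, rfl⟩, Or.inr ⟨i, rfl⟩⟩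
  · rw [piso_E]
    refine ⟨?_, ?_, ?_⟩
    · rintro u (hu | hu) v (hv | hv)
      · exact h3'.1 u hu v hv
      · obtain ⟨i, rfl⟩ := hv
        constructor
        · intro e
          have e' : u.1 = b i := e
          exact absurd (e' ▸ (h2 hu).1) (hb i)
        · intro e
          have e' : u.2 = b' i := e
          exact absurd (e' ▸ (h2 hu).2) (hb' i)
      · obtain ⟨i, rfl⟩ := hu
        constructor
        · intro e
          have e' : v.1 = b i := e.symm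
          exact absurd (e' ▸ (h2 hv).1) (hb i)
        · intro e
          have e' : v.2 = b' i := e.symm
          exact absurd (e' ▸ (h2 hv).2) (hb' i)
      · exact hp'.1 u hu v hv
    · rintro u (hu | hu) v (hv | hv)
      · exact h3'.2.1 u hu v hv
      · obtain ⟨i, rfl⟩ := hv
        exact (hl u hu i).swap
      · obtain ⟨i, rfl⟩ := hu
        exact hl v hv i
      · exact hp'.2.1 u hu v hv
    · rintro n u (hu | hu)
      · exact h3'.2.2 n u hu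
      · exact hp'.2.2 n u hu
  · rintro x (hx | ⟨i, rfl⟩)
    · obtain ⟨y, hy⟩ := h4 x hx
      exact ⟨y, Or.inl hy⟩
    · exact ⟨b' i, Or.inr ⟨i, rfl⟩⟩
  · rintro y (hy | ⟨i, rfl⟩)
    · obtain ⟨x, hx⟩ := h5 y hy
      exact ⟨x, Or.inl hx⟩
    · exact ⟨b i, Or.inr ⟨i, rfl⟩⟩

end Pool.Agent.Run7.h201.CS
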