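import Pool.Agent.Run7.h201.CS.Piece

set_option autoImplicit false

/-!
# Coherent preorders: countability of labels; the blocks
-/

namespace Pool.Agent.Run7.h201.CS

open Set
open Pool.Agent.H899R2.VP (St Adj PIso BF IsoOn idOn inv comp zipSet mem_inv BF_iff zipSet_cons
  zipSet_nil_left labels)
open Pool.Agent.H533R2.VO (RS lift RIso Dich resBF resIso)
open Pool.Agent.H566P (ar R2 lt ac co mk)
open Pool.Agent.Y560.TG (lt_mk ac_mk co_mk piso_iff ex lt_ex ac_ex co_ex_even co_ex_odd piso_ex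
  bf_trans0 bf_symm0 iso_trans0 iso_symm0 iso_refl0 Off riso_isoOn piso_lt piso_co mat)

theorem lift_meas {K : Set R2} (hK : MeasurableSet K) :
    MeasurableSet {M : St ar | M.1 = (fun _ _ => false) ∧ M.2 ∈ K} := by
  have e1 : {M : St ar | M.1 = (fun _ _ => false) ∧ M.2 ∈ K} =
      (Prod.fst ⁻¹' {fun _ _ => false}) ∩ (Prod.snd ⁻¹' K) := rfl
  rw [e1]
  exact (measurable_fst (measurableSet_singleton _)).inter (measurable_snd hK)

theorem lift_few {K : Set R2} (few : ¬ ∃ c : (ℕ → Bool) → R2, Continuous c ∧ (∀ A, c A ∈ K) ∧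
    ∀ A A', RIso (c A) (c A') → A = A') :
    ¬ ∃ g : (ℕ → Bool) → St ar, Continuous g ∧
      (∀ c, g c ∈ {M : St ar | M.1 = (fun _ _ => false) ∧ M.2 ∈ K}) ∧
      ∀ c d, IsoOn (g c) (g d) univ univ ∅ → c = d := by
  rintro ⟨k, hkc, hkK, hkd⟩
  refine few ⟨fun A => (k A).2, continuous_snd.comp hkc, fun A => (hkK A).2, ?_⟩
  intro A A' hAA
  refine hkd A A' ?_
  have h7 : ∀ A, k A = lift (k A).2 := by
    intro A
    exact Prod.ext (hkK A).1 rfl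
  have h8 := riso_isoOn.1 hAA
  rw [← h7 A, ← h7 A'] at h8
  exact h8

/-- LAB -/
theorem lab {α : Ordinal.{0}} {K : Set R2} (hK : G α K) {β : Ordinal.{0}}
    (hβ : β < Ordinal.omega 1) :
    ∃ c : R2 → List ℕ → ℕ, ∀ M ∈ K, ∀ N ∈ K, ∀ s t : List ℕ, s.length = t.length →
      c M s = c N t → BF (lift M) (lift N) univ univ β (zipSet s t) := by
  obtain ⟨c, hc⟩ := labels (lift_meas hK.meas) (lift_few hK.few) β hβ
  refine ⟨fun M s => c (lift M) s, fun M hM N hN s t hl h => ?_⟩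
  exact hc (lift M) ⟨rfl, hM⟩ (lift N) ⟨rfl, hN⟩ s t hl h

theorem zip1 (x x' : ℕ) : zipSet [x] [x'] = {(x, x')} := by
  rw [zipSet_cons, zipSet_nil_left]
  exact insert_empty_eq _

theorem zip2 (x x' y y' : ℕ) : zipSet [x, y] [x', y'] = {(x, x'), (y, y')} := by
  rw [zipSet_cons, zip1]

/-- The blocks. -/
theorem blk_iso {M N : R2} {c c' : ℕ} (hL : Law M N)
    (h : BF (lift (lc M fun _ => c)) (lift (lc N fun _ => c')) (Ic M c c) (Ic N c' c')
      Ordinal.omega0 ∅) :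
    IsoOn (lift M) (lift N) (Ic M c c) (Ic N c' c') ∅ := by
  set mt : ℕ → ℕ → Prop := fun v w => E M N c v c' w ∧ ∀ n, co M n v ↔ co N n w with hmt
  obtain ⟨m1, m2, m3⟩ := Pool.Agent.Y563.TG.t_MAT (lc M fun _ => c) (lc N fun _ => c')
    (Ic M c c) (Ic N c' c') mt
    (fun v w v' w' a b d => ⟨a.1.trans (b.1.symm.trans d.1), fun n =>
      (a.2 n).trans ((b.2 n).symm.trans (d.2 n))⟩) h
    (by
      intro q x y hxy hb
      refine ⟨sl_lc hb.piso hxy 0, fun n => ?_⟩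
      exact piso_co (piso_lc.1 hb.piso).1 hxy)
  set φ := mat (Ic M c c) (Ic N c' c') mt with hφ
  refine ⟨{u | u.1 ∈ Ic M c c ∧ u.2 = φ u.1}, empty_subset _, ?_, ?_, ?_, ?_⟩
  · rintro ⟨u, v⟩ ⟨h1, h2⟩
    simp only at h1 h2
    rw [h2]
    exact ⟨h1, (m1 u h1).1⟩
  · rw [piso_E]
    refine ⟨?_, ?_, ?_⟩
    · rintro ⟨u, u'⟩ ⟨h1, h2⟩ ⟨v, v'⟩ ⟨h3, h4⟩
      simp only at h1 h2 h3 h4 ⊢
      rw [h2, h4]
      exact ⟨fun e => by rw [e], fun e => m2 h1 h3 e⟩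
    · rintro ⟨u, u'⟩ ⟨h1, h2⟩ ⟨v, v'⟩ ⟨h3, h4⟩
      simp only at h1 h2 h3 h4 ⊢
      rw [h2, h4]
      exact hL u c v _ c' _ h1.2 h3.1 (m1 u h1).2.1.swap (m1 v h3).2.1
    · rintro n ⟨u, u'⟩ ⟨h1, h2⟩
      simp only at h1 h2 ⊢
      rw [h2]
      exact (m1 u h1).2.2 n
  · intro x hx
    exact ⟨φ x, hx, rfl⟩
  · intro y hy
    obtain ⟨x, hx, hxy⟩ := m3 y hy
    exact ⟨x, hx, hxy.symm⟩

/-- The blocks of the members of `K` have countably many isomorphism types. -/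
theorem blkC {α : Ordinal.{0}} {K : Set R2} (hK : G α K) :
    ∃ f : ℕ → R2 × Set ℕ, ∀ M ∈ K, ∀ x,
      ∃ n, IsoOn (lift (f n).1) (lift M) (f n).2 (Ic M x x) ∅ := by
  classical
  obtain ⟨c, hc⟩ := lab hK (Ordinal.omega0_lt_omega_one)
  refine ⟨fun n => if h : ∃ P : R2 × ℕ, P.1 ∈ K ∧ c P.1 [P.2] = n then
    (h.choose.1, Ic h.choose.1 h.choose.2 h.choose.2) else (mk (fun _ _ => False)
      (fun _ _ _ => False) (fun _ _ => False), ∅), fun M hM x => ⟨c M [x], ?_⟩⟩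
  have hex : ∃ P : R2 × ℕ, P.1 ∈ K ∧ c P.1 [P.2] = c M [x] := ⟨(M, x), hM, rfl⟩
  simp only [dif_pos hex]
  obtain ⟨h1, h2⟩ := hex.choose_spec
  set P := hex.choose with hP
  have h3 := hc P.1 h1 M hM [P.2] [x] rfl h2
  rw [zip1] at h3
  refine blk_iso (hK.law _ h1 _ hM) ?_
  have h4 := bf_lc (Y := Ic P.1 P.2 P.2) (Y' := Ic M x x) (p := {(P.2, x)}) (subset_univ _)
    (subset_univ _) (b := fun _ => P.2) (b' := fun _ => x) (fun _ => mem_singleton _)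
    (fun q hq hi u hu => mem_Ic_iff hi (hq (mem_singleton _)) (hq (mem_singleton _))
      (show (u.1, u.2) ∈ q from hu)) h3
  exact h4.subset (empty_subset _)

end Pool.Agent.Run7.h201.CS
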