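import Pool.Agent.Run7.h201.CS.Small

set_option autoImplicit false

/-!
# Coherent preorders: coding by fillings of big intervals
-/

namespace Pool.Agent.Run7.h201.CS

open Set
open Pool.Agent.H899R2.VP (St Adj PIso BF IsoOn idOn inv comp zipSet mem_inv BF_iff zipSet_cons
  zipSet_nil_left labels idOn_mono)
open Pool.Agent.H533R2.VO (RS lift RIso Dich resBF resIso seqRec seq_rec)
open Pool.Agent.H566P (ar R2 lt ac co mk)
open Pool.Agent.Y560.TG (lt_mk ac_mk co_mk piso_iff ex lt_ex ac_ex co_ex_even co_ex_odd piso_ex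
  bf_trans0 bf_symm0 iso_trans0 iso_symm0 iso_refl0 Off riso_isoOn piso_lt piso_co mat msg
  meas_lt R2_ext cont_into piso_eq)

/-- The standing assumptions on the intervals. -/
structure LH (M : R2) (lo hi : ℕ → ℕ → ℕ) : Prop where
  os : WO M
  lt : ∀ n k, lt M (lo n k) (hi n k)
  dn : ∀ n k, Pool.Agent.H566P.lt M (hi n (k + 1)) (lo n k)
  up : ∀ n k j, Pool.Agent.H566P.lt M (hi n k) (lo (n + 1) j)

/-- The points below all intervals of the `n`-th group. -/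
def En (M : R2) (lo : ℕ → ℕ → ℕ) (n : ℕ) : Set ℕ := {z | ∀ k, lt M z (lo n k)}

theorem lhf_dn {M : R2} {lo hi : ℕ → ℕ → ℕ} (h : LH M lo hi) (n k : ℕ) :
    ∀ k', k < k' → lt M (hi n k') (lo n k) := by
  intro k' hk
  induction k', hk using Nat.le_induction with
  | base => exact h.dn n k
  | succ k' _ ih =>
    exact h.os.tr _ _ _ (h.dn n k') (h.os.tr _ _ _ (h.lt n k') ih)

theorem lhf_up {M : R2} {lo hi : ℕ → ℕ → ℕ} (h : LH M lo hi) (m k : ℕ) :
    ∀ n, m < n → ∀ j, lt M (hi m k) (lo n j) := by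
  intro n hn
  induction n, hn using Nat.le_induction with
  | base => exact fun j => h.up m k j
  | succ n _ ih =>
    intro j
    exact h.os.tr _ _ _ (ih 0) (h.os.tr _ _ _ (h.lt n 0) (h.up n 0 j))

theorem lhf_dj {M : R2} {lo hi : ℕ → ℕ → ℕ} (h : LH M lo hi) (m k n l : ℕ)
    (hlt : lt M (hi m k) (lo n l)) :
    Disjoint (Ic M (lo m k) (hi m k)) (Ic M (lo n l) (hi n l)) := by
  rw [Set.disjoint_left]
  intro z hz hz'
  exact hz'.1 (h.os.le_lt hz.2 hlt)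

theorem lhf {M : R2} {lo hi : ℕ → ℕ → ℕ} (h : LH M lo hi) :
  (∀ i j : ℕ × ℕ, i ≠ j →
    Disjoint (Ic M (lo i.1 i.2) (hi i.1 i.2)) (Ic M (lo j.1 j.2) (hi j.1 j.2))) ∧
  (∀ m n k, m < n → Ic M (lo m k) (hi m k) ⊆ En M lo n) ∧
  (∀ n k, ∀ z ∈ Ic M (lo n k) (hi n k), ∀ m, m ≤ n → z ∉ En M lo m) ∧
  (∀ m n, m ≤ n → En M lo m ⊆ En M lo n) ∧
  (∀ m n, m < n → ∃ z ∈ En M lo n, z ∉ En M lo m) ∧
  (∀ n z, z ∉ En M lo n → ∃ k, ∀ w ∈ Ic M (lo n k) (hi n k), lt M w z) := by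
  have hO := h.os
  refine ⟨?_, ?_, ?_, ?_, ?_, ?_⟩
  · rintro ⟨m, k⟩ ⟨n, l⟩ hne
    show Disjoint (Ic M (lo m k) (hi m k)) (Ic M (lo n l) (hi n l))
    rcases lt_trichotomy m n with h1 | h1 | h1
    · exact lhf_dj h m k n l (lhf_up h m k n h1 l)
    · subst h1
      rcases lt_trichotomy k l with h2 | h2 | h2
      · exact (lhf_dj h m l m k (lhf_dn h m k l h2)).symm
      · exact absurd (by rw [h2]) hne
      · exact lhf_dj h m k m l (lhf_dn h m l k h2)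
    · exact (lhf_dj h n l m k (lhf_up h n l m h1 k)).symm
  · intro m n k hmn z hz j
    exact hO.le_lt hz.2 (lhf_up h m k n hmn j)
  · intro n k z hz m hmn hE
    rcases Nat.lt_or_eq_of_le hmn with h1 | h1
    · have h2 : lt M (lo m 0) (lo n k) := hO.tr _ _ _ (h.lt m 0) (lhf_up h m 0 n h1 k)
      exact hz.1 (hO.tr _ _ _ (hE 0) h2)
    · subst h1
      exact hz.1 (hE k)
  · intro m n hmn z hz j
    rcases Nat.lt_or_eq_of_le hmn with h1 | h1
    · exact hO.tr _ _ _ (hz 0) (hO.tr _ _ _ (h.lt m 0) (lhf_up h m 0 n h1 j))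
    · subst h1
      exact hz j
  · intro m n hmn
    refine ⟨lo m 0, fun k => hO.tr _ _ _ (h.lt m 0) (lhf_up h m 0 n hmn k), fun hE => ?_⟩
    exact hO.irr _ (hE 0)
  · intro n z hz
    have h1 : ∃ k, ¬ lt M z (lo n k) := by
      by_contra hcon
      push Not at hcon
      exact hz hcon
    obtain ⟨k, hk⟩ := h1
    exact ⟨k + 1, fun w hw => hO.lt_le (hO.le_lt hw.2 (h.dn n k)) hk⟩

/-- The modules. -/
def OO (M : R2) (lo hi : ℕ → ℕ → ℕ) (j : ℕ × ℕ) : Set ℕ := Io M (lo j.1 j.2) (hi j.1 j.2)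

/-- The structure obtained from `M` by filling the intervals `[lo n k, hi n k]` according to the
bits of `σ`. -/
noncomputable def DS (M : R2) (lo hi : ℕ → ℕ → ℕ) (t : ℕ → ℕ → R2) (σ : ℕ → Bool) : R2 :=
  Glu M (OO M lo hi) (fun j => t (2 * j.1 + (σ j.1).toNat) j.2)

/-- Truncation. -/
noncomputable def trunc (M : R2) (t : ℕ → ℕ → R2) (s : ℕ) : ℕ → ℕ → R2 :=
  fun r k => if r < s then t r k else M

/-- The countable set of pieces to be avoided at stage `s`. -/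
def FF (M : R2) (lo hi : ℕ → ℕ → ℕ) (t : ℕ → ℕ → R2) (s : ℕ) : Set (R2 × Set ℕ) :=
  {P | ∃ r ≤ s, ∃ c x y : ℕ, P = (DS M lo hi (trunc M t r) (fun j => c.testBit j),
    Ic (DS M lo hi (trunc M t r) (fun j => c.testBit j)) x y)}

/-- The cut coded by a set of pieces. -/
def CS (F : Set (R2 × Set ℕ)) (D : R2) : Set ℕ :=
  {z | ∀ x y, ¬ lt D y x → ¬ lt D z y →
    ∃ P ∈ F, IsoOn (lift P.1) (lift D) P.2 (Ic D x y) ∅}

/-- What the recursion provides. -/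
def GoodT (K : Set R2) (α : Ordinal.{0}) (M : R2) (lo hi : ℕ → ℕ → ℕ) (t : ℕ → ℕ → R2) :
    Prop := ∀ s k, Off (Io M (lo (s / 2) k) (hi (s / 2) k)) M (t s k) ∧
    BF (lift (lc M (bs (lo (s / 2) k) (hi (s / 2) k))))
      (lift (lc (t s k) (bs (lo (s / 2) k) (hi (s / 2) k))))
      (Io M (lo (s / 2) k) (hi (s / 2) k)) (Io M (lo (s / 2) k) (hi (s / 2) k)) α ∅ ∧
    t s k ∈ K ∧
    ∃ x ∈ Ic M (lo (s / 2) k) (hi (s / 2) k), ∃ y ∈ Ic M (lo (s / 2) k) (hi (s / 2) k),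
      ¬ lt (t s k) y x ∧ ∀ P ∈ FF M lo hi t s,
        ¬ IsoOn (lift P.1) (lift (t s k)) P.2 (Ic (t s k) x y) ∅

theorem seq_trunc {M : R2} {t t' : ℕ → ℕ → R2} {s r : ℕ} (h : ∀ i < s, t i = t' i)
    (hr : r ≤ s) : trunc M t r = trunc M t' r := by
  funext i k
  unfold trunc
  by_cases hi : i < r
  · simp only [hi, if_true]
    rw [h i (by omega)]
  · simp only [hi, if_false]

theorem seq_FF_congr {M : R2} {lo hi : ℕ → ℕ → ℕ} {t t' : ℕ → ℕ → R2} {s : ℕ}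
    (h : ∀ i < s, t i = t' i) : FF M lo hi t s = FF M lo hi t' s := by
  ext P
  unfold FF
  simp only [Set.mem_ofPred_eq]
  refine exists_congr fun r => and_congr_right fun hr => ?_
  rw [seq_trunc h hr]

theorem seq_FF_countable (M : R2) (lo hi : ℕ → ℕ → ℕ) (t : ℕ → ℕ → R2) (s : ℕ) :
    (FF M lo hi t s).Countable := by
  have h : FF M lo hi t s ⊆ Set.range (fun q : ℕ × ℕ × ℕ × ℕ =>
      ((DS M lo hi (trunc M t q.1) (fun j => q.2.1.testBit j),
        Ic (DS M lo hi (trunc M t q.1) (fun j => q.2.1.testBit j)) q.2.2.1 q.2.2.2) :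
        R2 × Set ℕ)) := by
    rintro P ⟨r, _, c, x, y, rfl⟩
    exact ⟨(r, c, x, y), rfl⟩
  exact (Set.countable_range _).mono h

variable {α : Ordinal.{0}} {K : Set R2} {M : R2}

theorem seqT (hK : G α K) (hM : M ∈ K) {lo hi : ℕ → ℕ → ℕ} (hlt : ∀ n k, lt M (lo n k) (hi n k))
    (hb : ∀ n k, ¬ Small K α M (lo n k) (hi n k)) :
    ∃ t : ℕ → ℕ → R2, GoodT K α M lo hi t := by
  have key : ∃ t : ℕ → ℕ → R2, ∀ s, ∀ k, Off (Io M (lo (s / 2) k) (hi (s / 2) k)) M (t s k) ∧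
    BF (lift (lc M (bs (lo (s / 2) k) (hi (s / 2) k))))
      (lift (lc (t s k) (bs (lo (s / 2) k) (hi (s / 2) k))))
      (Io M (lo (s / 2) k) (hi (s / 2) k)) (Io M (lo (s / 2) k) (hi (s / 2) k)) α ∅ ∧
    t s k ∈ K ∧
    ∃ x ∈ Ic M (lo (s / 2) k) (hi (s / 2) k), ∃ y ∈ Ic M (lo (s / 2) k) (hi (s / 2) k),
      ¬ lt (t s k) y x ∧ ∀ P ∈ FF M lo hi t s,
        ¬ IsoOn (lift P.1) (lift (t s k)) P.2 (Ic (t s k) x y) ∅ := by
    refine seq_rec (X := ℕ → R2) (fun _ => M) (fun s t σ => ∀ k,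
      Off (Io M (lo (s / 2) k) (hi (s / 2) k)) M (σ k) ∧
      BF (lift (lc M (bs (lo (s / 2) k) (hi (s / 2) k))))
        (lift (lc (σ k) (bs (lo (s / 2) k) (hi (s / 2) k))))
        (Io M (lo (s / 2) k) (hi (s / 2) k)) (Io M (lo (s / 2) k) (hi (s / 2) k)) α ∅ ∧
      σ k ∈ K ∧
      ∃ x ∈ Ic M (lo (s / 2) k) (hi (s / 2) k), ∃ y ∈ Ic M (lo (s / 2) k) (hi (s / 2) k),
        ¬ lt (σ k) y x ∧ ∀ P ∈ FF M lo hi t s,
          ¬ IsoOn (lift P.1) (lift (σ k)) P.2 (Ic (σ k) x y) ∅) ?_ ?_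
    · intro s t
      have h1 := fun k => fillS hK hM (hlt (s / 2) k) (hb (s / 2) k)
        (FF M lo hi t s) (seq_FF_countable M lo hi t s)
      choose T hT using h1
      exact ⟨T, fun k => hT k⟩
    · intro s t t' σ htt hσ k
      rw [← seq_FF_congr htt]
      exact hσ k
  obtain ⟨t, ht⟩ := key
  exact ⟨t, fun s k => ht s k⟩

private theorem dec1_bits (σ : ℕ → Bool) (e : ℕ) : ∃ c : ℕ, ∀ m < e, c.testBit m = σ m := by
  refine ⟨Nat.ofBits (fun i : Fin e => σ i), fun m hm => ?_⟩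
  rw [Nat.testBit_ofBits_lt _ _ hm]

theorem OO_dj {lo hi : ℕ → ℕ → ℕ} (hLH : LH M lo hi) :
    ∀ i j, i ≠ j → Disjoint (OO M lo hi i) (OO M lo hi j) := fun i j hij =>
  ((lhf hLH).1 i j hij).mono sdiff_subset sdiff_subset

theorem Ic_OO {lo hi : ℕ → ℕ → ℕ} (hLH : LH M lo hi) {i j : ℕ × ℕ} {z : ℕ}
    (h1 : z ∈ Ic M (lo i.1 i.2) (hi i.1 i.2)) (h2 : z ∈ OO M lo hi j) : j = i := by
  by_contra hne
  exact Set.disjoint_left.1 ((lhf hLH).1 _ _ hne) h2.1 h1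

theorem dec1_aux {lo hi : ℕ → ℕ → ℕ} (t : ℕ → ℕ → R2) (σ : ℕ → Bool) (hLH : LH M lo hi)
    (e r s : ℕ) (hrs : r ≤ s) (hr : ∀ m < e, 2 * m + (σ m).toNat < r) :
    En M lo e ⊆ CS (FF M lo hi t s) (DS M lo hi t σ) := by
  obtain ⟨c, hc⟩ := dec1_bits σ e
  obtain ⟨-, hin, hout, -, -, -⟩ := lhf hLH
  have hM := hLH.os
  obtain ⟨J, hJ⟩ : ∃ J : ℕ × ℕ → Set ℕ, J = OO M lo hi := ⟨_, rfl⟩
  have hdJ : ∀ i j, i ≠ j → Disjoint (J i) (J j) := by
    rw [hJ]
    exact OO_dj hLH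
  have hJin : ∀ j : ℕ × ℕ, j.1 < e → J j ⊆ En M lo e := by
    intro j hj
    rw [hJ]
    exact sdiff_subset.trans (hin j.1 e j.2 hj)
  have hJlt : ∀ j : ℕ × ℕ, ∀ z ∈ J j, z ∈ En M lo e → j.1 < e := by
    intro j z hz hzE
    by_contra hge
    rw [hJ] at hz
    exact hout j.1 j.2 z hz.1 e (not_lt.1 hge) hzE
  have hlt : ∀ z ∈ En M lo e, ∀ w, w ∉ En M lo e → lt M z w := by
    intro z hz w hw
    have : ∃ k, ¬ lt M w (lo e k) := by
      by_contra hcon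
      push Not at hcon
      exact hw hcon
    obtain ⟨k, hk⟩ := this
    exact hM.lt_le (hz k) hk
  have hsep : ∀ z ∈ En M lo e, ∀ w, w ∉ En M lo e → ∀ j, z ∈ J j → w ∉ J j := by
    intro z hz w hw j hzj hwj
    exact hw (hJin j (hJlt j z hzj hz) hwj)
  have hG1 : ∀ T : ℕ × ℕ → R2, ∀ z ∈ En M lo e, ∀ w, w ∉ En M lo e →
      lt (Glu M J T) z w := by
    intro T z hz w hw
    rw [(Glu_out (hsep z hz w hw)).l]
    exact hlt z hz w hw
  obtain ⟨T, hT⟩ : ∃ T : ℕ × ℕ → R2, T = fun j => t (2 * j.1 + (σ j.1).toNat) j.2 := ⟨_, rfl⟩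
  obtain ⟨T1, hT1⟩ : ∃ T1 : ℕ × ℕ → R2,
    T1 = fun j => trunc M t r (2 * j.1 + (c.testBit j.1).toNat) j.2 := ⟨_, rfl⟩
  have hTT : ∀ j : ℕ × ℕ, j.1 < e → T1 j = T j := by
    intro j hj
    rw [hT, hT1]
    simp only
    rw [hc j.1 hj]
    unfold trunc
    rw [if_pos (hr j.1 hj)]
  have hD : DS M lo hi t σ = Glu M J T := by
    rw [hJ, hT]
    rfl
  have hD1 : DS M lo hi (trunc M t r) (fun j => c.testBit j) = Glu M J T1 := by
    rw [hJ, hT1]
    rfl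
  have hagr : ∀ x ∈ En M lo e, ∀ y ∈ En M lo e, E (Glu M J T1) (Glu M J T) x y x y := by
    intro x hx y hy
    by_cases hj : ∃ j, x ∈ J j ∧ y ∈ J j
    · obtain ⟨j, hxj, hyj⟩ := hj
      have h1 := Glu_in (M := M) (V := T1) hdJ hxj hyj
      have h2 := Glu_in (M := M) (V := T) hdJ hxj hyj
      rw [hTT j (hJlt j x hxj hx)] at h1
      exact h1.trans h2.symm
    · push Not at hj
      exact (Glu_out hj).trans (Glu_out hj).symm
  have hagr2 : ∀ n, ∀ x ∈ En M lo e, (co (Glu M J T1) n x ↔ co (Glu M J T) n x) := by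
    intro n x hx
    by_cases hj : ∃ j, x ∈ J j
    · obtain ⟨j, hj⟩ := hj
      rw [Glu_co hdJ hj, Glu_co hdJ hj, hTT j (hJlt j x hj hx)]
    · push Not at hj
      rw [Glu_co_out hj, Glu_co_out hj]
  intro z hz x y hyx hzy
  rw [hD] at hyx hzy
  have hyE : y ∈ En M lo e := by
    by_contra hcon
    exact hzy (hG1 T z hz y hcon)
  have hxE : x ∈ En M lo e := by
    by_contra hcon
    exact hyx (hG1 T y hyE x hcon)
  have hsub : ∀ T' : ℕ × ℕ → R2, Ic (Glu M J T') x y ⊆ En M lo e := by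
    intro T' w hw
    by_contra hcon
    exact hw.2 (hG1 T' y hyE w hcon)
  have hIc : Ic (Glu M J T1) x y = Ic (Glu M J T) x y := by
    ext w
    constructor
    · intro hw
      have hwE := hsub T1 hw
      rw [mem_Ic] at hw ⊢
      rwa [← (hagr w hwE x hxE).l, ← (hagr y hyE w hwE).l]
    · intro hw
      have hwE := hsub T hw
      rw [mem_Ic] at hw ⊢
      rwa [(hagr w hwE x hxE).l, (hagr y hyE w hwE).l]
  refine ⟨(DS M lo hi (trunc M t r) (fun j => c.testBit j),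
    Ic (DS M lo hi (trunc M t r) (fun j => c.testBit j)) x y), ⟨r, hrs, c, x, y, rfl⟩, ?_⟩
  simp only
  rw [hD, hD1, hIc]
  refine (iso_agree (fun u hu v hv => ?_) (fun n u hu => ?_)).mono (empty_subset _)
  · exact hagr u (hsub T hu) v (hsub T hv)
  · exact hagr2 n u (hsub T hu)

theorem dec1 {lo hi : ℕ → ℕ → ℕ} (t : ℕ → ℕ → R2) (σ : ℕ → Bool) (hLH : LH M lo hi) :
    (∀ n, En M lo n ⊆ CS (FF M lo hi t (2 * n)) (DS M lo hi t σ)) ∧
    (∀ n, En M lo n ⊆ CS (FF M lo hi t (2 * n + 1)) (DS M lo hi t σ)) ∧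
    (∀ n, σ n = false → En M lo (n + 1) ⊆ CS (FF M lo hi t (2 * n + 1)) (DS M lo hi t σ)) := by
  refine ⟨fun n => ?_, fun n => ?_, fun n hn => ?_⟩
  · apply dec1_aux t σ hLH n (2 * n) (2 * n) le_rfl
    intro m hm
    have := Bool.toNat_le (σ m)
    omega
  · apply dec1_aux t σ hLH n (2 * n) (2 * n + 1) (by omega)
    intro m hm
    have := Bool.toNat_le (σ m)
    omega
  · apply dec1_aux t σ hLH (n + 1) (2 * n + 1) (2 * n + 1) le_rfl
    intro m hm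
    have := Bool.toNat_le (σ m)
    rcases Nat.lt_succ_iff_lt_or_eq.1 hm with h1 | h1
    · omega
    · subst h1
      rw [hn]
      simp

theorem code_div (n : ℕ) (b : Bool) : (2 * n + b.toNat) / 2 = n := by
  cases b
  · simp
  · simp only [Bool.toNat_true]; omega

theorem DS_mem (hK : G α K) (hM : M ∈ K) {lo hi : ℕ → ℕ → ℕ} {t : ℕ → ℕ → R2}
    (hLH : LH M lo hi) (hT : GoodT K α M lo hi t) (σ : ℕ → Bool) : DS M lo hi t σ ∈ K := by
  refine hK.closed M hM _ ((glu_bf (OO_dj hLH) (b := fun j => bs (lo j.1 j.2) (hi j.1 j.2))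
    (fun j => mod_int hLH.os (hK.law M hM M hM)) (fun j => ?_) (fun j => ?_)).subset
      (empty_subset _))
  · have := (hT (2 * j.1 + (σ j.1).toNat) j.2).1
    rw [code_div] at this
    exact this
  · have := (hT (2 * j.1 + (σ j.1).toNat) j.2).2.1
    rw [code_div] at this
    exact this

theorem dec2_key (hK : G α K) (hM : M ∈ K) {lo hi : ℕ → ℕ → ℕ} {t : ℕ → ℕ → R2}
    (σ : ℕ → Bool) (hLH : LH M lo hi) (hT : GoodT K α M lo hi t) (n r : ℕ)
    (hr : r ≤ 2 * n + (σ n).toNat) :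
    CS (FF M lo hi t r) (DS M lo hi t σ) ⊆ En M lo n := by
  obtain ⟨g1, g2, g3, g4, g5, g6⟩ := lhf hLH
  intro z hz
  by_contra hzn
  obtain ⟨k, hk⟩ := g6 n z hzn
  have hDK := DS_mem hK hM hLH hT σ
  have hOS : WO (DS M lo hi t σ) := hK.wo _ hDK
  obtain ⟨hoff, -, hTK, x, hx, y, hy, hxy, hP⟩ := hT (2 * n + (σ n).toNat) k
  rw [code_div] at hx hy hoff
  have hTo := hK.wo _ hTK
  have hzJ : z ∉ Ic M (lo n k) (hi n k) := fun hzJ => hLH.os.irr z (hk z hzJ)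
  have hout : ∀ u ∈ Ic M (lo n k) (hi n k), ∀ v, v ∉ Ic M (lo n k) (hi n k) →
      E (DS M lo hi t σ) M u v u v := by
    intro u hu v hv
    refine Glu_out fun j hj hj' => ?_
    have := Ic_OO (i := (n, k)) hLH hu hj
    rw [this] at hj'
    exact hv hj'.1
  have hin : ∀ u ∈ Ic M (lo n k) (hi n k), ∀ v ∈ Ic M (lo n k) (hi n k),
      E (t (2 * n + (σ n).toNat) k) (DS M lo hi t σ) u v u v := by
    intro u hu v hv
    by_cases huv : u ∈ Io M (lo n k) (hi n k) ∧ v ∈ Io M (lo n k) (hi n k)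
    · exact (Glu_in (V := fun j : ℕ × ℕ => t (2 * j.1 + (σ j.1).toNat) j.2) (j := (n, k))
        (OO_dj hLH) huv.1 huv.2).symm
    · refine (off_E hoff huv).trans (Glu_out fun j hj hj' => ?_).symm
      have := Ic_OO (i := (n, k)) hLH hu hj
      rw [this] at hj hj'
      exact huv ⟨hj, hj'⟩
  have hco : ∀ m, ∀ u ∈ Ic M (lo n k) (hi n k), (co (t (2 * n + (σ n).toNat) k) m u ↔
      co (DS M lo hi t σ) m u) := by
    intro m u hu
    by_cases hu' : u ∈ Io M (lo n k) (hi n k)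
    · exact (Glu_co (V := fun j : ℕ × ℕ => t (2 * j.1 + (σ j.1).toNat) j.2) (j := (n, k))
        (OO_dj hLH) hu').symm
    · rw [hoff.2.2 m u hu']
      refine (Glu_co_out fun j hj => ?_).symm
      have := Ic_OO (i := (n, k)) hLH hu hj
      rw [this] at hj
      exact hu' hj
  have hyx : ¬ lt (DS M lo hi t σ) y x := by
    rw [← (hin y hy x hx).l]
    exact hxy
  have hyz : lt (DS M lo hi t σ) y z := by
    rw [(hout y hy z hzJ).l]
    exact hk y hy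
  obtain ⟨P, hPF, hPiso⟩ := hz x y hyx (hOS.asymm hyz)
  -- the intervals agree
  have hsub1 : Ic (t (2 * n + (σ n).toNat) k) x y ⊆ Ic M (lo n k) (hi n k) := by
    rw [← ic_off hoff] at hx hy ⊢
    exact Ic_sub hTo hx.1 hy.2
  have hsub2 : Ic (DS M lo hi t σ) x y ⊆ Ic M (lo n k) (hi n k) := by
    intro w hw
    by_contra hcon
    have h1 : ¬ lt M w x := by
      rw [← (hout x hx w hcon).g]
      exact hw.1
    have h2 : ¬ lt M y w := by
      rw [← (hout y hy w hcon).l]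
      exact hw.2
    exact hcon ⟨hLH.os.le_trans hx.1 h1, hLH.os.le_trans h2 hy.2⟩
  have hIc : Ic (DS M lo hi t σ) x y = Ic (t (2 * n + (σ n).toNat) k) x y := by
    ext w
    constructor
    · intro hw
      have hw' := hsub2 hw
      rw [mem_Ic] at hw ⊢
      rwa [(hin w hw' x hx).l, (hin y hy w hw').l]
    · intro hw
      have hw' := hsub1 hw
      rw [mem_Ic] at hw ⊢
      rwa [← (hin w hw' x hx).l, ← (hin y hy w hw').l]
  rw [hIc] at hPiso
  refine hP P ?_ (iso_trans0 hPiso (iso_symm0 ?_))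
  · obtain ⟨r', hr', c, x', y', hPe⟩ := hPF
    exact ⟨r', hr'.trans hr, c, x', y', hPe⟩
  · exact (iso_agree (fun u hu v hv => hin u (hsub1 hu) v (hsub1 hv))
      (fun m u hu => hco m u (hsub1 hu))).mono (empty_subset _)

theorem csi_mem (F : Set (R2 × Set ℕ)) {D D' : R2} {q : Set (ℕ × ℕ)}
    (h3 : PIso (lift D) (lift D') q) (h4 : ∀ x, ∃ y, (x, y) ∈ q) (h5 : ∀ y, ∃ x, (x, y) ∈ q)
    {z z' : ℕ} (hz : (z, z') ∈ q) (h : z ∈ CS F D) : z' ∈ CS F D' := by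
  intro x' y' h6 h7
  obtain ⟨x, hx⟩ := h5 x'
  obtain ⟨y, hy⟩ := h5 y'
  obtain ⟨P, hP, hP2⟩ := h x y (fun hc => h6 ((piso_lt h3 hy hx).1 hc))
    (fun hc => h7 ((piso_lt h3 hz hy).1 hc))
  refine ⟨P, hP, iso_trans0 hP2 ?_⟩
  have h8 : IsoOn (lift D) (lift D') univ univ {(x, x'), (y, y')} := by
    refine ⟨q, ?_, fun _ _ => ⟨mem_univ _, mem_univ _⟩, h3, fun x _ => h4 x, fun y _ => h5 y⟩
    rintro w (rfl | rfl)
    · exact hx
    · exact hy
  have h9 := isoIc (c := x) (c' := x') (d := y) (d' := y') (Or.inl rfl) (Or.inr rfl) h8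
  rw [univ_inter, univ_inter] at h9
  exact h9.mono (empty_subset _)

theorem csi (F F' : Set (R2 × Set ℕ)) {D D' : R2}
    (hiso : IsoOn (lift D) (lift D') univ univ ∅) (h : CS F D = CS F' D) :
    CS F D' = CS F' D' := by
  obtain ⟨q, -, -, h3, h4, h5⟩ := hiso
  have h4' : ∀ x, ∃ y, (x, y) ∈ q := fun x => h4 x (mem_univ _)
  have h5' : ∀ y, ∃ x, (x, y) ∈ q := fun y => h5 y (mem_univ _)
  have key : ∀ (G : Set (R2 × Set ℕ)) (z z' : ℕ), (z, z') ∈ q →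
      (z ∈ CS G D ↔ z' ∈ CS G D') := by
    intro G z z' hz
    exact ⟨fun h => csi_mem G h3 h4' h5' hz h,
      fun h => csi_mem G h3.symm h5' h4' (show (z', z) ∈ inv q from hz) h⟩
  ext z'
  obtain ⟨z, hz⟩ := h5' z'
  rw [← key F z z' hz, ← key F' z z' hz, h]

theorem code_iff (hK : G α K) (hM : M ∈ K) {lo hi : ℕ → ℕ → ℕ}
    (hLH : LH M lo hi) {t : ℕ → ℕ → R2} (ht : GoodT K α M lo hi t) (σ : ℕ → Bool) (n : ℕ) :
    σ n = true ↔ CS (FF M lo hi t (2 * n)) (DS M lo hi t σ) =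
      CS (FF M lo hi t (2 * n + 1)) (DS M lo hi t σ) := by
  obtain ⟨ha1, ha2, ha3⟩ := dec1 t σ hLH
  have h0 : CS (FF M lo hi t (2 * n)) (DS M lo hi t σ) = En M lo n :=
    Subset.antisymm (dec2_key hK hM σ hLH ht n (2 * n) (Nat.le_add_right _ _)) (ha1 n)
  rw [h0]
  constructor
  · intro h
    refine Subset.antisymm (ha2 n) (dec2_key hK hM σ hLH ht n (2 * n + 1) ?_)
    rw [h]
    exact le_refl _
  · intro h
    cases hσ : σ n with
    | true => rfl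
    | false =>
      exfalso
      obtain ⟨z, hz1, hz2⟩ := (lhf hLH).2.2.2.2.1 n (n + 1) (by omega)
      exact hz2 (h ▸ ha3 n hσ hz1)

/-- CODE -/
theorem code (hK : G α K) (hM : M ∈ K) {lo hi : ℕ → ℕ → ℕ} (hLH : LH M lo hi)
    (hns : ∀ n k, ¬ Small K α M (lo n k) (hi n k)) : False := by
  obtain ⟨t, ht⟩ := seqT hK hM hLH.lt hns
  refine hK.few ⟨fun σ => DS M lo hi t σ, ?_, fun σ => DS_mem hK hM hLH ht σ, fun c d hcd => ?_⟩
  · refine Glu_cont (OO M lo hi) (fun (j : ℕ × ℕ) (σ : ℕ → Bool) =>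
      t (2 * j.1 + (σ j.1).toNat) j.2) fun j => ?_
    exact (continuous_of_discreteTopology (f := fun b : Bool => t (2 * j.1 + b.toNat) j.2)).comp
      (continuous_apply j.1)
  · have hcd' := riso_isoOn.1 hcd
    funext n
    have hc := code_iff hK hM hLH ht c n
    have hd := code_iff hK hM hLH ht d n
    have hiff : c n = true ↔ d n = true := by
      rw [hc, hd]
      exact ⟨csi _ _ hcd', csi _ _ (iso_symm0 hcd')⟩
    exact Bool.eq_iff_iff.2 hiff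

end Pool.Agent.Run7.h201.CS
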