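import Pool.Agent.Run7.h201.CS.Basic

set_option autoImplicit false

/-!
# Coherent preorders: the law, intervals, families of pieces
-/

namespace Pool.Agent.Run7.h201.CS

open Set
open Pool.Agent.H899R2.VP (St Adj PIso BF IsoOn idOn inv comp zipSet mem_inv BF_iff)
open Pool.Agent.H533R2.VO (RS lift RIso Dich)
open Pool.Agent.H566P (ar R2 lt ac co mk)
open Pool.Agent.Y560.TG (lt_mk ac_mk co_mk piso_iff ex lt_ex ac_ex co_ex_even co_ex_odd piso_ex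
  bf_trans0 bf_symm0 iso_trans0 iso_symm0 iso_refl0 Off riso_isoOn)

/-- The types of pairs compose. -/
def Law (R R' : R2) : Prop := ∀ x c y x' c' y', ¬ lt R c x → ¬ lt R y c →
  E R R' x c x' c' → E R R' c y c' y' → E R R' x y x' y'

/-- Every cut is pointed on both sides. -/
def PC (M : R2) : Prop := ∀ A : Set ℕ, (∀ x ∈ A, ∀ y, y ∉ A → lt M x y) → A.Nonempty →
  (∃ y, y ∉ A) →
  (∃ b, b ∉ A ∧ ∀ z ∈ A, ∀ z' ∈ A, E M M z b z' b → ∀ w, w ∉ A → E M M z w z' w) ∧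
  (∃ a ∈ A, ∀ w, w ∉ A → ∀ w', w' ∉ A → E M M a w a w' → ∀ z ∈ A, E M M z w z w')

/-- Closed interval `[x, y]`; `Ic M x x` is the block of `x`. -/
def Ic (M : R2) (x y : ℕ) : Set ℕ := {z | ¬ lt M z x ∧ ¬ lt M y z}

/-- `[x, ∞)`. -/
def Ge (M : R2) (x : ℕ) : Set ℕ := {z | ¬ lt M z x}

/-- `(-∞, x]`. -/
def Le (M : R2) (x : ℕ) : Set ℕ := {z | ¬ lt M x z}

/-- two base points -/
def bs (x y : ℕ) : ℕ → ℕ := fun n => if n = 0 then x else y

/-- the labels over `b` of the elements of `O` determine their relations to the outside -/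
def Mod (O : Set ℕ) (b : ℕ → ℕ) (M : R2) : Prop :=
  (∀ i, b i ∉ O) ∧ ∀ z ∈ O, ∀ z' ∈ O, (∀ i, E M M (b i) z (b i) z') →
    ∀ w, w ∉ O → E M M w z w z'

/-- A family of (isomorphism types of) pieces. -/
structure Fam (K : Set R2) (S : Set (R2 × Set ℕ)) : Prop where
  iso : ∀ M X N Y, (M, X) ∈ S → IsoOn (lift M) (lift N) X Y ∅ → (N, Y) ∈ S
  cnt : ∃ f : ℕ → R2 × Set ℕ, ∀ M X, (M, X) ∈ S →
    ∃ n, IsoOn (lift (f n).1) (lift M) (f n).2 X ∅
  sub : ∀ M ∈ K, ∀ x y x' y', (M, Ic M x y) ∈ S → ¬ lt M x' x → ¬ lt M y' x' →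
    ¬ lt M y y' → (M, Ic M x' y') ∈ S
  glue : ∀ M ∈ K, ∀ x y z, ¬ lt M y x → ¬ lt M z y → (M, Ic M x y) ∈ S →
    (M, Ic M y z) ∈ S → (M, Ic M x z) ∈ S

/-- The standing hypotheses on the class `K`. -/
structure G (α : Ordinal.{0}) (K : Set R2) : Prop where
  meas : MeasurableSet K
  lt1 : α < Ordinal.omega 1
  om : Ordinal.omega0 ≤ α
  closed : ∀ M ∈ K, ∀ N : R2, BF (lift M) (lift N) univ univ α ∅ → N ∈ K
  few : ¬ ∃ c : (ℕ → Bool) → R2, Continuous c ∧ (∀ A, c A ∈ K) ∧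
    ∀ A A', RIso (c A) (c A') → A = A'
  wo : ∀ M ∈ K, WO M
  law : ∀ M ∈ K, ∀ N ∈ K, Law M N
  pc : ∀ M ∈ K, PC M

/-- The points `x ≥ u` with `[u, x]` in the family. -/
def Lw (S : Set (R2 × Set ℕ)) (M : R2) (u : ℕ) : Set ℕ :=
  {x | ¬ lt M x u ∧ (M, Ic M u x) ∈ S}

/-- The points `x ≤ u` with `[x, u]` in the family. -/
def Uw (S : Set (R2 × Set ℕ)) (M : R2) (u : ℕ) : Set ℕ :=
  {x | ¬ lt M u x ∧ (M, Ic M x u) ∈ S}

/-- `x < y` and `[x, y]` is not in the family. -/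
def Bg (S : Set (R2 × Set ℕ)) (M : R2) (x y : ℕ) : Prop := lt M x y ∧ (M, Ic M x y) ∉ S

/-- `[x, y]` is small: the closed subintervals of all variations of rank `α` (in `K`) have only
countably many isomorphism types. -/
def Small (K : Set R2) (α : Ordinal.{0}) (M : R2) (x y : ℕ) : Prop :=
  ∃ f : ℕ → R2 × Set ℕ, ∀ N ∈ K, ∀ x' y', BF (lift M) (lift N) univ univ α {(x, x'), (y, y')} →
    ∀ s ∈ Ic N x' y', ∀ t ∈ Ic N x' y', ¬ lt N t s →
      ∃ n, IsoOn (lift (f n).1) (lift N) (f n).2 (Ic N s t) ∅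

section

variable {M N : R2} {x y z x' y' : ℕ}

theorem bs_zero (x y : ℕ) : bs x y 0 = x := rfl
theorem bs_one (x y : ℕ) : bs x y 1 = y := rfl
theorem bs_cases (x y i : ℕ) : bs x y i = x ∨ bs x y i = y := by
  unfold bs
  split_ifs
  · exact Or.inl rfl
  · exact Or.inr rfl
theorem bs_pair (x y x' y' i : ℕ) :
    (bs x y i, bs x' y' i) = (x, x') ∨ (bs x y i, bs x' y' i) = (y, y') := by
  unfold bs
  split_ifs
  · exact Or.inl rfl
  · exact Or.inr rfl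
theorem bs_mem {p : Set (ℕ × ℕ)} (h1 : (x, x') ∈ p) (h2 : (y, y') ∈ p) (i : ℕ) :
    (bs x y i, bs x' y' i) ∈ p := by
  rcases bs_pair x y x' y' i with h | h
  · rw [h]; exact h1
  · rw [h]; exact h2
theorem bs_notMem {O : Set ℕ} (h1 : x ∉ O) (h2 : y ∉ O) (i : ℕ) : bs x y i ∉ O := by
  rcases bs_cases x y i with h | h
  · rw [h]; exact h1
  · rw [h]; exact h2
theorem range_bs : range (bs x y) = {x, y} := by
  ext z
  constructor
  · rintro ⟨i, rfl⟩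
    rcases bs_cases x y i with h | h
    · exact Or.inl h
    · exact Or.inr h
  · rintro (h | h)
    · exact ⟨0, h.symm⟩
    · exact ⟨1, h.symm⟩
theorem bs_set : {u : ℕ × ℕ | ∃ i, u = (bs x y i, bs x' y' i)} = {(x, x'), (y, y')} := by
  ext u
  constructor
  · rintro ⟨i, rfl⟩
    rcases bs_pair x y x' y' i with h | h
    · exact Or.inl h
    · exact Or.inr h
  · rintro (h | h)
    · exact ⟨0, h⟩
    · exact ⟨1, h⟩
theorem E_bs {z' : ℕ} : (∀ i, E M N (bs x y i) z (bs x' y' i) z') ↔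
    E M N x z x' z' ∧ E M N y z y' z' := by
  constructor
  · intro h
    exact ⟨h 0, h 1⟩
  · rintro ⟨h1, h2⟩ i
    unfold bs
    split_ifs
    · exact h1
    · exact h2

theorem mem_Ic : z ∈ Ic M x y ↔ ¬ lt M z x ∧ ¬ lt M y z := Iff.rfl
theorem mem_Ge : z ∈ Ge M x ↔ ¬ lt M z x := Iff.rfl
theorem mem_Le : z ∈ Le M x ↔ ¬ lt M x z := Iff.rfl

theorem left_mem_Ic (h : WO M) (h1 : ¬ lt M y x) : x ∈ Ic M x y := ⟨h.irr x, h1⟩
theorem right_mem_Ic (h : WO M) (h1 : ¬ lt M y x) : y ∈ Ic M x y := ⟨h1, h.irr y⟩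

end

end Pool.Agent.Run7.h201.CS
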