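import Pool.Agent.Run7.h201.CS.Fin

set_option autoImplicit false

/-!
# Finite cut types: the coded structures satisfy the law and have pointed cuts
-/

namespace Pool.Agent.Run7.h201.CS.FC

open Set
open Pool.Agent.H566P (ar R2 lt ac co mk)
open Pool.Agent.Run7.h201.CS

/-- the relations of the coded structure -/
def r (W : R2) (k x y : ℕ) : Prop := ac W (5 * k) x y
/-- `t` is in the class number `j` of `x` -/
def q (W : R2) (j t x : ℕ) : Prop := ac W (5 * j + 1) t x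
/-- the class `i` of `x` is in the class `j` of `y` -/
def m (W : R2) (i j x y : ℕ) : Prop := ac W (5 * Nat.pair i j + 2) x y
/-- the relation `k` between the class `i` of `x` and `y` -/
def p (W : R2) (i k x y : ℕ) : Prop := ac W (5 * Nat.pair i k + 3) x y
/-- the inverse relation -/
def p' (W : R2) (i k x y : ℕ) : Prop := ac W (5 * Nat.pair i k + 4) x y
/-- the unary predicates -/
def P (W : R2) (k x : ℕ) : Prop := co W (2 * k) x
/-- the number of classes -/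
def len (W : R2) (k x : ℕ) : Prop := co W (2 * k + 1) x

/-- the same relations to the elements above `v` -/
def ev (W : R2) (v t t' : ℕ) : Prop :=
  ∀ y, ¬ lt W y v → ∀ k, (r W k t y ↔ r W k t' y) ∧ (r W k y t ↔ r W k y t')

theorem ev_refl {W : R2} {v t : ℕ} : ev W v t t := fun _ _ _ => ⟨Iff.rfl, Iff.rfl⟩
theorem ev_symm {W : R2} {v t t' : ℕ} (h : ev W v t t') : ev W v t' t :=
  fun y hy k => ⟨(h y hy k).1.symm, (h y hy k).2.symm⟩
theorem ev_trans {W : R2} {v t t' t'' : ℕ} (h : ev W v t t') (h' : ev W v t' t'') :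
    ev W v t t'' :=
  fun y hy k => ⟨(h y hy k).1.trans (h' y hy k).1, (h y hy k).2.trans (h' y hy k).2⟩

/-- The axioms of the coded structures. -/
structure Ax (W : R2) : Prop where
  irr : ∀ x, ¬ lt W x x
  tr : ∀ x y z, lt W x y → lt W y z → lt W x z
  ntr : ∀ x y z, lt W x z → lt W x y ∨ lt W y z
  inf : ∀ l : List ℕ, ∃ x, ∀ y ∈ l, lt W x y ∨ lt W y x
  rc : ∀ x x', ¬ lt W x x' → ¬ lt W x' x → ∀ y k, (r W k x y ↔ r W k x' y) ∧
    (r W k y x ↔ r W k y x') ∧ (P W k x ↔ P W k x')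
  ln : ∀ x, ∃ k, ∀ k', len W k' x ↔ k' = k
  qd : ∀ j t x, q W j t x → lt W t x ∧ ∃ k, len W k x ∧ j < k
  qe : ∀ t x, lt W t x → ∃ j, q W j t x
  qf : ∀ k j x, len W k x → j < k → ∃ t, q W j t x
  qg : ∀ j t t' x, q W j t x → lt W t' x → (q W j t' x ↔ ev W x t t')
  mh : ∀ i j x y, m W i j x y ↔ ¬ lt W y x ∧ ∃ t, q W i t x ∧ q W j t y
  ph : ∀ i k x y, p W i k x y ↔ ¬ lt W y x ∧ ∃ t, q W i t x ∧ r W k t y
  ph' : ∀ i k x y, p' W i k x y ↔ ¬ lt W y x ∧ ∃ t, q W i t x ∧ r W k y t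
  rich : ∀ (x : ℕ) (ts av : List ℕ), (∀ t ∈ ts, lt W t x) →
    (∀ s, lt W s x → ∃ t ∈ ts, ev W x s t) →
    ∃ x', x' ∉ av ∧ ¬ lt W x x' ∧ ¬ lt W x' x ∧ len W ts.length x' ∧
      ∀ (j t : ℕ), ts[j]? = some t → q W j t x'

theorem Ax.wo {W : R2} (h : Ax W) : WO W := ⟨h.irr, h.tr, h.ntr⟩

/-- Types of pairs in terms of the relations. -/
theorem E5 {W W' : R2} {x y x' y' : ℕ} : E W W' x y x' y' ↔
    (lt W x y ↔ lt W' x' y') ∧ (lt W y x ↔ lt W' y' x') ∧
    (∀ k, r W k x y ↔ r W' k x' y') ∧ (∀ k, r W k y x ↔ r W' k y' x') ∧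
    (∀ j, q W j x y ↔ q W' j x' y') ∧ (∀ j, q W j y x ↔ q W' j y' x') ∧
    (∀ i j, m W i j x y ↔ m W' i j x' y') ∧ (∀ i j, m W i j y x ↔ m W' i j y' x') ∧
    (∀ i k, p W i k x y ↔ p W' i k x' y') ∧ (∀ i k, p W i k y x ↔ p W' i k y' x') ∧
    (∀ i k, p' W i k x y ↔ p' W' i k x' y') ∧ (∀ i k, p' W i k y x ↔ p' W' i k y' x') := by
  rw [E_iff]
  constructor
  · rintro ⟨h1, h2, h3⟩
    exact ⟨h1, h2, fun k => (h3 _).1, fun k => (h3 _).2, fun j => (h3 _).1, fun j => (h3 _).2,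
      fun i j => (h3 _).1, fun i j => (h3 _).2, fun i k => (h3 _).1, fun i k => (h3 _).2,
      fun i k => (h3 _).1, fun i k => (h3 _).2⟩
  · rintro ⟨h1, h2, r1, r2, q1, q2, m1, m2, p1, p2, p3, p4⟩
    refine ⟨h1, h2, fun n => ?_⟩
    obtain ⟨a, ha⟩ : ∃ a, n = 5 * a ∨ n = 5 * a + 1 ∨ n = 5 * a + 2 ∨ n = 5 * a + 3 ∨
        n = 5 * a + 4 := ⟨n / 5, by omega⟩
    rcases ha with rfl | rfl | rfl | rfl | rfl
    · exact ⟨r1 a, r2 a⟩
    · exact ⟨q1 a, q2 a⟩
    · have := m1 a.unpair.1 a.unpair.2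
      have h := m2 a.unpair.1 a.unpair.2
      unfold m at this h
      rw [Nat.pair_unpair] at this h
      exact ⟨this, h⟩
    · have := p1 a.unpair.1 a.unpair.2
      have h := p2 a.unpair.1 a.unpair.2
      unfold p at this h
      rw [Nat.pair_unpair] at this h
      exact ⟨this, h⟩
    · have := p3 a.unpair.1 a.unpair.2
      have h := p4 a.unpair.1 a.unpair.2
      unfold p' at this h
      rw [Nat.pair_unpair] at this h
      exact ⟨this, h⟩

/-- Types of pairs of coded structures, for pairs in order. -/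
theorem E5le {W W' : R2} (h : Ax W) (h' : Ax W') {x y x' y' : ℕ} (hyx : ¬ lt W y x)
    (hyx' : ¬ lt W' y' x')
    (hl : lt W x y ↔ lt W' x' y')
    (hr : ∀ k, r W k x y ↔ r W' k x' y') (hr' : ∀ k, r W k y x ↔ r W' k y' x')
    (hq : ∀ j, q W j x y ↔ q W' j x' y')
    (hm : ∀ i j, m W i j x y ↔ m W' i j x' y')
    (hp : ∀ i k, p W i k x y ↔ p W' i k x' y')
    (hp' : ∀ i k, p' W i k x y ↔ p' W' i k x' y')
    (ho : ¬ lt W x y → (∀ i k, p W i k y x ↔ p W' i k y' x') ∧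
      ∀ i k, p' W i k y x ↔ p' W' i k y' x') : E W W' x y x' y' := by
  refine E5.2 ⟨hl, iff_of_false hyx hyx', hr, hr', hq, fun j => iff_of_false
    (fun h1 => hyx (h.qd _ _ _ h1).1) (fun h1 => hyx' (h'.qd _ _ _ h1).1), hm,
    fun i j => ?_, hp, fun i k => ?_, hp', fun i k => ?_⟩
  · have e1 := hm j i
    rw [h.mh, h'.mh] at e1
    rw [h.mh, h'.mh, hl]
    simp only [hyx, hyx', not_false_eq_true, true_and] at e1
    refine and_congr_right fun _ => ?_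
    constructor
    · rintro ⟨t, h1, h2⟩
      obtain ⟨t', h3, h4⟩ := e1.1 ⟨t, h2, h1⟩
      exact ⟨t', h4, h3⟩
    · rintro ⟨t, h1, h2⟩
      obtain ⟨t', h3, h4⟩ := e1.2 ⟨t, h2, h1⟩
      exact ⟨t', h4, h3⟩
  · by_cases hxy : lt W x y
    · refine iff_of_false ?_ ?_
      · rw [h.ph]; exact fun h1 => h1.1 hxy
      · rw [h'.ph]; exact fun h1 => h1.1 (hl.1 hxy)
    · exact (ho hxy).1 i k
  · by_cases hxy : lt W x y
    · refine iff_of_false ?_ ?_
      · rw [h.ph']; exact fun h1 => h1.1 hxy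
      · rw [h'.ph']; exact fun h1 => h1.1 (hl.1 hxy)
    · exact (ho hxy).2 i k

section one

variable {W : R2} (h : Ax W) {x c y : ℕ}

include h

theorem ev_up {t t' : ℕ} (hcy : ¬ lt W y c) (he : ev W c t t') : ev W y t t' :=
  fun z hz k => he z (h.wo.le_trans hcy hz) k

theorem qq {j s t : ℕ} (h1 : q W j s c) (h2 : q W j t c) : ev W c s t :=
  (h.qg j s t c h1 (h.qd _ _ _ h2).1).1 h2

/-- `r` by composition -/
theorem r_comp (hcy : ¬ lt W y c) {j : ℕ} (hj : q W j x c) (k : ℕ) :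
    (r W k x y ↔ p W j k c y) ∧ (r W k y x ↔ p' W j k c y) := by
  rw [h.ph, h.ph']
  refine ⟨⟨fun h1 => ⟨hcy, x, hj, h1⟩, ?_⟩, ⟨fun h1 => ⟨hcy, x, hj, h1⟩, ?_⟩⟩
  · rintro ⟨-, t, h1, h2⟩
    exact ((qq h h1 hj) y hcy k).1.1 h2
  · rintro ⟨-, t, h1, h2⟩
    exact ((qq h h1 hj) y hcy k).2.1 h2

/-- `q` by composition -/
theorem q_comp (hcy : ¬ lt W y c) {i : ℕ} (hi : q W i x c) (j : ℕ) :
    q W j x y ↔ m W i j c y := by
  rw [h.mh]
  refine ⟨fun h1 => ⟨hcy, x, hi, h1⟩, ?_⟩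
  rintro ⟨-, t, h1, h2⟩
  have h3 := ev_up h hcy (qq h h1 hi)
  exact (h.qg j t x y h2 (h.wo.lt_le (h.qd _ _ _ hi).1 hcy)).2 h3

/-- `m` by composition -/
theorem m_comp (hxc : ¬ lt W c x) (hcy : ¬ lt W y c) (i j : ℕ) :
    m W i j x y ↔ ∃ k, m W i k x c ∧ m W k j c y := by
  constructor
  · intro h1
    obtain ⟨-, t, h2, h3⟩ := (h.mh _ _ _ _).1 h1
    obtain ⟨k, hk⟩ := h.qe t c (h.wo.lt_le (h.qd _ _ _ h2).1 hxc)
    exact ⟨k, (h.mh _ _ _ _).2 ⟨hxc, t, h2, hk⟩, (h.mh _ _ _ _).2 ⟨hcy, t, hk, h3⟩⟩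
  · rintro ⟨k, h1, h2⟩
    obtain ⟨-, t, h3, h4⟩ := (h.mh _ _ _ _).1 h1
    exact (h.mh _ _ _ _).2 ⟨h.wo.le_trans hxc hcy, t, h3, (q_comp h hcy h4 j).2 h2⟩

/-- `p` by composition -/
theorem p_comp (hxc : ¬ lt W c x) (hcy : ¬ lt W y c) (i k : ℕ) :
    (p W i k x y ↔ ∃ j, m W i j x c ∧ p W j k c y) ∧
    (p' W i k x y ↔ ∃ j, m W i j x c ∧ p' W j k c y) := by
  refine ⟨⟨fun h1 => ?_, ?_⟩, ⟨fun h1 => ?_, ?_⟩⟩
  · obtain ⟨-, t, h2, h3⟩ := (h.ph _ _ _ _).1 h1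
    obtain ⟨j, hj⟩ := h.qe t c (h.wo.lt_le (h.qd _ _ _ h2).1 hxc)
    exact ⟨j, (h.mh _ _ _ _).2 ⟨hxc, t, h2, hj⟩, (h.ph _ _ _ _).2 ⟨hcy, t, hj, h3⟩⟩
  · rintro ⟨j, h1, h2⟩
    obtain ⟨-, t, h3, h4⟩ := (h.mh _ _ _ _).1 h1
    exact (h.ph _ _ _ _).2 ⟨h.wo.le_trans hxc hcy, t, h3, (r_comp h hcy h4 k).1.2 h2⟩
  · obtain ⟨-, t, h2, h3⟩ := (h.ph' _ _ _ _).1 h1
    obtain ⟨j, hj⟩ := h.qe t c (h.wo.lt_le (h.qd _ _ _ h2).1 hxc)
    exact ⟨j, (h.mh _ _ _ _).2 ⟨hxc, t, h2, hj⟩, (h.ph' _ _ _ _).2 ⟨hcy, t, hj, h3⟩⟩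
  · rintro ⟨j, h1, h2⟩
    obtain ⟨-, t, h3, h4⟩ := (h.mh _ _ _ _).1 h1
    exact (h.ph' _ _ _ _).2 ⟨h.wo.le_trans hxc hcy, t, h3, (r_comp h hcy h4 k).2.2 h2⟩

/-- the converse direction of `p` inside a block -/
theorem p_back (hxc : ¬ lt W c x) (hcy : ¬ lt W y c) (hxy : ¬ lt W x y) (i k : ℕ) :
    (p W i k y x ↔ p W i k y c) ∧ (p' W i k y x ↔ p' W i k y c) := by
  have hcx : ¬ lt W x c := fun h1 => hxy (h.wo.lt_le h1 hcy)
  have hyc : ¬ lt W c y := fun h1 => hxy (h.wo.le_lt hxc h1)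
  have e := h.rc x c hcx hxc
  rw [h.ph, h.ph, h.ph', h.ph']
  simp only [hxy, hyc, not_false_eq_true, true_and]
  exact ⟨exists_congr fun t => and_congr_right fun _ => (e t k).2.1,
    exists_congr fun t => and_congr_right fun _ => (e t k).1⟩

end one

/-- The law. -/
theorem law {W W' : R2} (h : Ax W) (h' : Ax W') : Law W W' := by
  intro x c y x' c' y' hxc hcy h1 h2
  have hxc' : ¬ lt W' c' x' := fun h3 => hxc (h1.g.2 h3)
  have hcy' : ¬ lt W' y' c' := fun h3 => hcy (h2.g.2 h3)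
  have hyx := h.wo.le_trans hxc hcy
  have hyx' := h'.wo.le_trans hxc' hcy'
  have hl : lt W x y ↔ lt W' x' y' := by
    constructor
    · intro h3
      rcases h.ntr x c y h3 with h4 | h4
      · exact h'.wo.lt_le (h1.l.1 h4) hcy'
      · exact h'.wo.le_lt hxc' (h2.l.1 h4)
    · intro h3
      rcases h'.ntr x' c' y' h3 with h4 | h4
      · exact h.wo.lt_le (h1.l.2 h4) hcy
      · exact h.wo.le_lt hxc (h2.l.2 h4)
  have h1' := h1
  have h2' := h2
  rw [E5] at h1' h2'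
  obtain ⟨a1, a2, a3, a4, a5, a6, a7, a8, a9, a10, a11, a12⟩ := h1'
  obtain ⟨b1, b2, b3, b4, b5, b6, b7, b8, b9, b10, b11, b12⟩ := h2'
  have hrr : ∀ k, (r W k x y ↔ r W' k x' y') ∧ (r W k y x ↔ r W' k y' x') := by
    intro k
    by_cases hx : lt W x c
    · obtain ⟨j, hj⟩ := h.qe x c hx
      have hj' := (a5 j).1 hj
      rw [(r_comp h hcy hj k).1, (r_comp h hcy hj k).2, (r_comp h' hcy' hj' k).1,
        (r_comp h' hcy' hj' k).2]
      exact ⟨b9 j k, b11 j k⟩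
    · have e1 := h.rc x c hx hxc y k
      have e2 := h'.rc x' c' (fun h3 => hx (a1.2 h3)) hxc' y' k
      rw [e1.1, e1.2.1, e2.1, e2.2.1]
      exact ⟨b3 k, b4 k⟩
  refine E5le h h' hyx hyx' hl (fun k => (hrr k).1) (fun k => (hrr k).2) ?_ ?_ ?_ ?_ ?_
  · intro j
    by_cases hx : lt W x c
    · obtain ⟨i, hi⟩ := h.qe x c hx
      have hi' := (a5 i).1 hi
      rw [q_comp h hcy hi j, q_comp h' hcy' hi' j]
      exact b7 i j
    · have hx' : ¬ lt W' x' c' := fun h3 => hx (a1.2 h3)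
      have key : ∀ (V : R2) (hV : Ax V) (u c v : ℕ), ¬ lt V u c → ¬ lt V c u →
          (q V j u v → q V j c v) := by
        intro V hV u c v g1 g2 g3
        have g4 := (hV.qd _ _ _ g3).1
        have g5 : lt V c v := hV.wo.le_lt g1 g4
        refine (hV.qg j u c v g3 g5).2 fun z _ k => ?_
        have := hV.rc u c g1 g2 z k
        exact ⟨this.1, this.2.1⟩
      constructor
      · intro h3
        exact key W' h' c' x' y' hxc' hx' ((b5 j).1 (key W h x c y hx hxc h3))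
      · intro h3
        exact key W h c x y hxc hx ((b5 j).2 (key W' h' x' c' y' hx' hxc' h3))
  · intro i j
    rw [m_comp h hxc hcy, m_comp h' hxc' hcy']
    exact exists_congr fun k => and_congr (a7 i k) (b7 k j)
  · intro i k
    rw [(p_comp h hxc hcy i k).1, (p_comp h' hxc' hcy' i k).1]
    exact exists_congr fun j => and_congr (a7 i j) (b9 j k)
  · intro i k
    rw [(p_comp h hxc hcy i k).2, (p_comp h' hxc' hcy' i k).2]
    exact exists_congr fun j => and_congr (a7 i j) (b11 j k)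
  · intro hxy
    have hxy' : ¬ lt W' x' y' := fun h3 => hxy (hl.2 h3)
    refine ⟨fun i k => ?_, fun i k => ?_⟩
    · rw [(p_back h hxc hcy hxy i k).1, (p_back h' hxc' hcy' hxy' i k).1]
      exact b10 i k
    · rw [(p_back h hxc hcy hxy i k).2, (p_back h' hxc' hcy' hxy' i k).2]
      exact b12 i k

/-- the same relations to the elements outside `A` -/
def eA (W : R2) (A : Set ℕ) (t t' : ℕ) : Prop :=
  ∀ y, y ∉ A → ∀ k, (r W k t y ↔ r W k t' y) ∧ (r W k y t ↔ r W k y t')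

/-- finitely many types over every cut -/
def FI (W : R2) : Prop := ∀ A : Set ℕ, (∀ x ∈ A, ∀ y, y ∉ A → lt W x y) →
  ∃ F : Set ℕ, F.Finite ∧ F ⊆ A ∧ ∀ x ∈ A, ∃ f ∈ F, eA W A x f

/-- a finite nonempty set has a least element -/
theorem fin_min {W : R2} (hW : WO W) {F : Set ℕ} (hF : F.Finite) (hne : F.Nonempty) :
    ∃ b ∈ F, ∀ x ∈ F, ¬ lt W x b := by
  induction F, hF using Set.Finite.induction_on with
  | empty => exact absurd hne Set.not_nonempty_empty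
  | @insert a s _ _ ih =>
    by_cases hs : s.Nonempty
    · obtain ⟨b, hb, hb'⟩ := ih hs
      by_cases hab : lt W a b
      · refine ⟨a, mem_insert _ _, ?_⟩
        rintro x (rfl | hx)
        · exact hW.irr _
        · exact hW.le_trans (hW.asymm hab) (hb' x hx)
      · refine ⟨b, mem_insert_of_mem _ hb, ?_⟩
        rintro x (rfl | hx)
        · exact hab
        · exact hb' x hx
    · refine ⟨a, mem_insert _ _, ?_⟩
      rintro x (rfl | hx)
      · exact hW.irr _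
      · exact absurd ⟨x, hx⟩ hs

theorem fin_max {W : R2} (hW : WO W) {F : Set ℕ} (hF : F.Finite) (hne : F.Nonempty) :
    ∃ b ∈ F, ∀ x ∈ F, ¬ lt W b x := by
  obtain ⟨b, hb, h⟩ := fin_min (wo_rev hW) hF hne
  exact ⟨b, hb, fun x hx h1 => h x hx ((lt_rev _ _ _).2 h1)⟩

/-- a point from which the types over the cut can be read off, from above -/
theorem cut_up {W : R2} (hW : WO W) (hF : FI W) {A : Set ℕ}
    (hA : ∀ x ∈ A, ∀ y, y ∉ A → lt W x y) (hne : ∃ y, y ∉ A) :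
    ∃ b, b ∉ A ∧ ∀ s ∈ A, ∀ s' ∈ A, ev W b s s' → eA W A s s' := by
  obtain ⟨F, hF1, hF2, hF3⟩ := hF A hA
  obtain ⟨y0, hy0⟩ := hne
  have hwit : ∀ f f' : ℕ, ∃ y, y ∉ A ∧ ((∀ k, (r W k f y ↔ r W k f' y) ∧
      (r W k y f ↔ r W k y f')) → eA W A f f') := by
    intro f f'
    by_cases h : eA W A f f'
    · exact ⟨y0, hy0, fun _ => h⟩
    · simp only [eA, not_forall] at h
      obtain ⟨y, hy, k, hk⟩ := h
      exact ⟨y, hy, fun h1 => absurd (h1 k) hk⟩
  choose wt hwt1 hwt2 using hwit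
  set T : Set ℕ := insert y0 ((fun P : ℕ × ℕ => wt P.1 P.2) '' (F ×ˢ F)) with hT
  have hTf : T.Finite := ((hF1.prod hF1).image _).insert _
  obtain ⟨b, hb, hb'⟩ := fin_min hW hTf ⟨y0, mem_insert _ _⟩
  have hbA : b ∉ A := by
    rcases hb with hb | ⟨⟨f, f'⟩, -, hb⟩
    · rw [hb]; exact hy0
    · rw [← hb]; exact hwt1 f f'
  refine ⟨b, hbA, fun s hs s' hs' hss => ?_⟩
  obtain ⟨f, hf, hsf⟩ := hF3 s hs
  obtain ⟨f', hf', hsf'⟩ := hF3 s' hs'
  have hff : eA W A f f' := by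
    refine hwt2 f f' fun k => ?_
    have h1 := hsf (wt f f') (hwt1 f f') k
    have h2 := hsf' (wt f f') (hwt1 f f') k
    have h3 := hss (wt f f') (hb' _ (mem_insert_of_mem _ ⟨(f, f'), ⟨hf, hf'⟩, rfl⟩)) k
    exact ⟨h1.1.symm.trans (h3.1.trans h2.1), h1.2.symm.trans (h3.2.trans h2.2)⟩
  intro y hy k
  have h1 := hsf y hy k
  have h2 := hsf' y hy k
  have h3 := hff y hy k
  exact ⟨h1.1.trans (h3.1.trans h2.1.symm), h1.2.trans (h3.2.trans h2.2.symm)⟩

/-- a point below which all types over the cut are represented -/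
theorem cut_dn {W : R2} (hW : WO W) (hF : FI W) {A : Set ℕ}
    (hA : ∀ x ∈ A, ∀ y, y ∉ A → lt W x y) (hne : A.Nonempty) :
    ∃ a ∈ A, (∀ x ∈ A, ¬ lt W a x) ∨ ∀ x ∈ A, ∃ t, lt W t a ∧ eA W A x t := by
  obtain ⟨F, hF1, hF2, hF3⟩ := hF A hA
  obtain ⟨x0, hx0⟩ := hne
  obtain ⟨f0, hf0, -⟩ := hF3 x0 hx0
  obtain ⟨a, ha, ha'⟩ := fin_max hW hF1 ⟨f0, hf0⟩
  by_cases h : ∀ x ∈ A, ¬ lt W a x
  · exact ⟨a, hF2 ha, Or.inl h⟩
  · push Not at h
    obtain ⟨b, hb, hab⟩ := h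
    refine ⟨b, hb, Or.inr fun x hx => ?_⟩
    obtain ⟨f, hf, hxf⟩ := hF3 x hx
    exact ⟨f, hW.le_lt (ha' f hf) hab, hxf⟩

theorem eA_ev {W : R2} {A : Set ℕ} (hA : ∀ x ∈ A, ∀ y, y ∉ A → lt W x y)
    {y s s' : ℕ} (hy : y ∉ A) (h : eA W A s s') : ev W y s s' :=
  fun z hz k => h z (fun hzA => hz (hA z hzA y hy)) k

/-- Cuts are pointed. -/
theorem pcut {W : R2} (h : Ax W) (hF : FI W) : PC W := by
  intro A hA hne hne'
  have hW := h.wo
  have hLaw := law h h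
  have hdn : ∀ x ∈ A, ∀ t, lt W t x → t ∈ A := by
    intro x hx t ht
    by_contra hcon
    exact hW.asymm ht (hA x hx t hcon)
  refine ⟨?_, ?_⟩
  · obtain ⟨b, hb, hb'⟩ := cut_up hW hF hA hne'
    refine ⟨b, hb, fun x hx x' hx' hE y hy => ?_⟩
    by_cases hyb : lt W y b
    swap
    · exact hLaw x b y x' b y (hW.asymm (hA x hx b hb)) hyb hE E.rfl
    have hxb := hA x hx b hb
    have hxb' := hA x' hx' b hb
    have hxy := hA x hx y hy
    have hxy' := hA x' hx' y hy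
    have h5 := E5.1 hE
    obtain ⟨-, -, -, -, e5, -, e7, -, -, -, -, -⟩ := h5
    -- the elements themselves
    have hxx : eA W A x x' := by
      obtain ⟨j, hj⟩ := h.qe x b hxb
      exact hb' x hx x' hx' (qq h hj ((e5 j).1 hj))
    -- the classes
    have hcl : ∀ x ∈ A, ∀ x' ∈ A, (∀ i j, m W i j x b ↔ m W i j x' b) → ∀ i t, q W i t x →
        ∃ t', q W i t' x' ∧ eA W A t t' := by
      intro x hx x' hx' e7 i t ht
      have htA := hdn x hx t (h.qd _ _ _ ht).1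
      obtain ⟨k, hk⟩ := h.qe t b (hA t htA b hb)
      obtain ⟨-, t', h1, h2⟩ := (h.mh _ _ _ _).1 ((e7 i k).1 ((h.mh _ _ _ _).2
        ⟨hW.asymm (hA x hx b hb), t, ht, hk⟩))
      have htA' := hdn x' hx' t' (h.qd _ _ _ h1).1
      exact ⟨t', h1, hb' t htA t' htA' (qq h hk h2)⟩
    have c1 := hcl x hx x' hx' e7
    have c2 := hcl x' hx' x hx (fun i j => (e7 i j).symm)
    refine E5le h h (hW.asymm hxy) (hW.asymm hxy') (iff_of_true hxy hxy')
      (fun k => (hxx y hy k).1) (fun k => (hxx y hy k).2) ?_ ?_ ?_ ?_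
      (fun h1 => absurd hxy h1)
    · intro j
      constructor
      · exact fun h1 => (h.qg j x x' y h1 hxy').2 (eA_ev hA hy hxx)
      · exact fun h1 => (h.qg j x' x y h1 hxy).2 (ev_symm (eA_ev hA hy hxx))
    · intro i j
      rw [h.mh, h.mh]
      simp only [hW.asymm hxy, hW.asymm hxy', not_false_eq_true, true_and]
      constructor
      · rintro ⟨t, h1, h2⟩
        obtain ⟨t', h3, h4⟩ := c1 i t h1
        exact ⟨t', h3, (h.qg j t t' y h2 (hA t' (hdn x' hx' t' (h.qd _ _ _ h3).1) y hy)).2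
          (eA_ev hA hy h4)⟩
      · rintro ⟨t, h1, h2⟩
        obtain ⟨t', h3, h4⟩ := c2 i t h1
        exact ⟨t', h3, (h.qg j t t' y h2 (hA t' (hdn x hx t' (h.qd _ _ _ h3).1) y hy)).2
          (eA_ev hA hy h4)⟩
    · intro i k
      rw [h.ph, h.ph]
      simp only [hW.asymm hxy, hW.asymm hxy', not_false_eq_true, true_and]
      constructor
      · rintro ⟨t, h1, h2⟩
        obtain ⟨t', h3, h4⟩ := c1 i t h1
        exact ⟨t', h3, (h4 y hy k).1.1 h2⟩
      · rintro ⟨t, h1, h2⟩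
        obtain ⟨t', h3, h4⟩ := c2 i t h1
        exact ⟨t', h3, (h4 y hy k).1.1 h2⟩
    · intro i k
      rw [h.ph', h.ph']
      simp only [hW.asymm hxy, hW.asymm hxy', not_false_eq_true, true_and]
      constructor
      · rintro ⟨t, h1, h2⟩
        obtain ⟨t', h3, h4⟩ := c1 i t h1
        exact ⟨t', h3, (h4 y hy k).2.1 h2⟩
      · rintro ⟨t, h1, h2⟩
        obtain ⟨t', h3, h4⟩ := c2 i t h1
        exact ⟨t', h3, (h4 y hy k).2.1 h2⟩
  · obtain ⟨a, ha, ha'⟩ := cut_dn hW hF hA hne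
    refine ⟨a, ha, fun y hy y' hy' hE x hx => ?_⟩
    rcases ha' with ha' | ha'
    · exact hLaw x a y x a y' (ha' x hx) (hW.asymm (hA a ha y hy)) E.rfl hE
    have hay := hW.asymm (hA a ha y hy)
    have hay' := hW.asymm (hA a ha y' hy')
    obtain ⟨-, -, -, -, -, -, e7, -, e9, -, e11, -⟩ := E5.1 hE
    have hrr : ∀ x ∈ A, ∀ k, (r W k x y ↔ r W k x y') ∧ (r W k y x ↔ r W k y' x) := by
      intro x hx k
      obtain ⟨t, hta, ht⟩ := ha' x hx
      obtain ⟨j, hj⟩ := h.qe t a hta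
      rw [(ht y hy k).1, (ht y hy k).2, (ht y' hy' k).1, (ht y' hy' k).2,
        (r_comp h hay hj k).1, (r_comp h hay hj k).2, (r_comp h hay' hj k).1,
        (r_comp h hay' hj k).2]
      exact ⟨e9 j k, e11 j k⟩
    have hqq : ∀ x ∈ A, ∀ j, q W j x y ↔ q W j x y' := by
      intro x hx j
      obtain ⟨t, hta, ht⟩ := ha' x hx
      obtain ⟨i, hi⟩ := h.qe t a hta
      have htA : t ∈ A := hdn a ha t hta
      have key : ∀ y, y ∉ A → (q W j x y ↔ q W j t y) := by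
        intro y hy
        constructor
        · exact fun h1 => (h.qg j x t y h1 (hA t htA y hy)).2 (eA_ev hA hy ht)
        · exact fun h1 => (h.qg j t x y h1 (hA x hx y hy)).2 (ev_symm (eA_ev hA hy ht))
      rw [key y hy, key y' hy', q_comp h hay hi j, q_comp h hay' hi j]
      exact e7 i j
    have hxy := hA x hx y hy
    have hxy' := hA x hx y' hy'
    refine E5le h h (hW.asymm hxy) (hW.asymm hxy') (iff_of_true hxy hxy')
      (fun k => (hrr x hx k).1) (fun k => (hrr x hx k).2) (hqq x hx) ?_ ?_ ?_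
      (fun h1 => absurd hxy h1)
    · intro i j
      rw [h.mh, h.mh]
      simp only [hW.asymm hxy, hW.asymm hxy', not_false_eq_true, true_and]
      exact exists_congr fun t => and_congr_right fun h1 =>
        hqq t (hdn x hx t (h.qd _ _ _ h1).1) j
    · intro i k
      rw [h.ph, h.ph]
      simp only [hW.asymm hxy, hW.asymm hxy', not_false_eq_true, true_and]
      exact exists_congr fun t => and_congr_right fun h1 =>
        (hrr t (hdn x hx t (h.qd _ _ _ h1).1) k).1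
    · intro i k
      rw [h.ph', h.ph']
      simp only [hW.asymm hxy, hW.asymm hxy', not_false_eq_true, true_and]
      exact exists_congr fun t => and_congr_right fun h1 =>
        (hrr t (hdn x hx t (h.qd _ _ _ h1).1) k).2

end Pool.Agent.Run7.h201.CS.FC
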