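import Pool.Agent.Run7.h201.CS.Enc1

set_option autoImplicit false

/-!
# Finite cut types: linear orders and their coded structures
-/

namespace Pool.Agent.Run7.h201.CS.FC

open Set MeasureTheory
open Pool.Agent.H899R2.VP (St PIso IsoOn isoOn_of_system)
open Pool.Agent.H533R2.VO (RS lift RIso Dich)
open Pool.Agent.H566P (ar R2 lt ac co mk)
open Pool.Agent.Y560.TG (lt_mk ac_mk co_mk piso_iff riso_iff riso_isoOn R2_ext meas_lt meas_ac
  meas_co meas_into)
open Pool.Agent.Run7.h201.CS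

/-- strict linear orders -/
structure SLO (z : R2) : Prop where
  irr : ∀ x, ¬ lt z x x
  tr : ∀ x y w, lt z x y → lt z y w → lt z x w
  tot : ∀ x y, x ≠ y → lt z x y ∨ lt z y x

/-- `z` is the quotient of `W` -/
structure Q (W z : R2) (π : ℕ → ℕ) : Prop where
  surj : Function.Surjective π
  hlt : ∀ x y, lt W x y ↔ lt z (π x) (π y)
  hr : ∀ k x y, r W k x y ↔ ac z k (π x) (π y)
  hP : ∀ k x, P W k x ↔ co z k (π x)

/-- the same relations to the elements which are not below `v` -/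
def evz (z : R2) (v t t' : ℕ) : Prop :=
  ∀ y, ¬ lt z y v → ∀ k, (ac z k t y ↔ ac z k t' y) ∧ (ac z k y t ↔ ac z k y t')

/-- the same relations to the elements outside `A` -/
def ez (z : R2) (A : Set ℕ) (t t' : ℕ) : Prop :=
  ∀ y, y ∉ A → ∀ k, (ac z k t y ↔ ac z k t' y) ∧ (ac z k y t ↔ ac z k y t')

/-- finitely many types over every cut -/
def FIz (z : R2) : Prop := ∀ A : Set ℕ, (∀ x ∈ A, ∀ y, y ∉ A → lt z x y) →
  ∃ F : Set ℕ, F.Finite ∧ F ⊆ A ∧ ∀ x ∈ A, ∃ f ∈ F, ez z A x f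

section Qs

variable {W W' z z' : R2} {π π' : ℕ → ℕ}

theorem Q.same (h : Q W z π) (hz : SLO z) {x y : ℕ} :
    (¬ lt W x y ∧ ¬ lt W y x) ↔ π x = π y := by
  rw [h.hlt, h.hlt]
  constructor
  · rintro ⟨h1, h2⟩
    by_contra hne
    rcases hz.tot _ _ hne with h3 | h3
    · exact h1 h3
    · exact h2 h3
  · intro h1
    rw [h1]
    exact ⟨hz.irr _, hz.irr _⟩

theorem Q.ev (h : Q W z π) {x t t' : ℕ} : ev W x t t' ↔ evz z (π x) (π t) (π t') := by
  constructor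
  · intro h1 y hy k
    obtain ⟨y, rfl⟩ := h.surj y
    have h2 := h1 y (fun h3 => hy ((h.hlt _ _).1 h3)) k
    rw [h.hr, h.hr, h.hr, h.hr] at h2
    exact h2
  · intro h1 y hy k
    rw [h.hr, h.hr, h.hr, h.hr]
    exact h1 (π y) (fun h3 => hy ((h.hlt _ _).2 h3)) k

theorem Q.fi (h : Q W z π) (hz : SLO z) (hf : FIz z) : FI W := by
  intro A hA
  have hA' : ∀ x, π x ∈ π '' A → x ∈ A := by
    rintro x ⟨y, hy, hyx⟩
    by_contra hx
    exact ((h.same hz).2 hyx).1 (hA y hy x hx)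
  obtain ⟨F, hF1, hF2, hF3⟩ := hf (π '' A) (by
    rintro _ ⟨x, hx, rfl⟩ y hy
    obtain ⟨y, rfl⟩ := h.surj y
    exact (h.hlt _ _).1 (hA x hx y fun hyA => hy ⟨y, hyA, rfl⟩))
  have hc : ∀ f : ℕ, ∃ g, f ∈ F → g ∈ A ∧ π g = f := by
    intro f
    by_cases hf : f ∈ F
    · obtain ⟨g, hg, hgf⟩ := hF2 hf
      exact ⟨g, fun _ => ⟨hg, hgf⟩⟩
    · exact ⟨0, fun h => absurd h hf⟩
  choose g hg using hc
  refine ⟨g '' F, hF1.image _, ?_, ?_⟩
  · rintro _ ⟨f, hf, rfl⟩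
    exact (hg f hf).1
  · intro x hx
    obtain ⟨f, hf, hxf⟩ := hF3 (π x) ⟨x, hx, rfl⟩
    refine ⟨g f, ⟨f, hf, rfl⟩, fun y hy k => ?_⟩
    rw [h.hr, h.hr, h.hr, h.hr, (hg f hf).2]
    exact hxf (π y) (fun h1 => hy (hA' y h1)) k

theorem Q.left (h : Q W' z π) (hi : RIso W W') : ∃ π', Q W z π' := by
  obtain ⟨σ, h1, h2, h3⟩ := riso_iff.1 hi
  exact ⟨fun x => π (σ x), h.surj.comp σ.surjective, fun x y => (h1 x y).symm.trans (h.hlt _ _),
    fun k x y => (h2 _ x y).symm.trans (h.hr _ _ _), fun k x => (h3 _ x).symm.trans (h.hP _ _)⟩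

theorem Q.right (h : Q W z π) (hi : RIso z z') : ∃ π', Q W z' π' := by
  obtain ⟨σ, h1, h2, h3⟩ := riso_iff.1 hi
  exact ⟨fun x => σ (π x), σ.surjective.comp h.surj, fun x y => (h.hlt _ _).trans (h1 _ _).symm,
    fun k x y => (h.hr _ _ _).trans (h2 _ _ _).symm, fun k x => (h.hP _ _).trans (h3 _ _).symm⟩

theorem Q.uniq (h : Q W z π) (h' : Q W z' π') (hz : SLO z) (hz' : SLO z') : RIso z z' := by
  have e1 : ∀ x y, π x = π y ↔ π' x = π' y := fun x y =>
    (h.same hz).symm.trans (h'.same hz')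
  obtain ⟨s, hs⟩ := h.surj.hasRightInverse
  obtain ⟨s', hs'⟩ := h'.surj.hasRightInverse
  have k1 : ∀ x, π' (s (π x)) = π' x := fun x => (e1 _ _).1 (hs _)
  have k2 : ∀ x, π (s' (π' x)) = π x := fun x => (e1 _ _).2 (hs' _)
  refine riso_iff.2 ⟨⟨fun u => π' (s u), fun v => π (s' v), fun u => ?_, fun v => ?_⟩, ?_, ?_, ?_⟩
  · show π (s' (π' (s u))) = u
    rw [k2, hs]
  · show π' (s (π (s' v))) = v
    rw [k1, hs']
  · intro u v
    obtain ⟨x, rfl⟩ := h.surj u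
    obtain ⟨y, rfl⟩ := h.surj v
    show lt z' (π' (s (π x))) (π' (s (π y))) ↔ _
    rw [k1, k1, ← h.hlt, ← h'.hlt]
  · intro k u v
    obtain ⟨x, rfl⟩ := h.surj u
    obtain ⟨y, rfl⟩ := h.surj v
    show ac z' k (π' (s (π x))) (π' (s (π y))) ↔ _
    rw [k1, k1, ← h.hr, ← h'.hr]
  · intro k u
    obtain ⟨x, rfl⟩ := h.surj u
    show co z' k (π' (s (π x))) ↔ _
    rw [k1, ← h.hP, ← h'.hP]

/-- corresponding elements -/
def C (W W' : R2) (π π' : ℕ → ℕ) (x x' : ℕ) : Prop :=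
  π x = π' x' ∧ (∀ k, len W k x ↔ len W' k x') ∧
    ∀ j t t', π t = π' t' → (q W j t x ↔ q W' j t' x')

theorem C.symm {x x' : ℕ} (h : C W W' π π' x x') : C W' W π' π x' x :=
  ⟨h.1.symm, fun k => (h.2.1 k).symm, fun j t t' h1 => (h.2.2 j t' t h1.symm).symm⟩

theorem ext1 (hW : Ax W) (hW' : Ax W') (hz : SLO z) (h : Q W z π) (h' : Q W' z π') (x : ℕ)
    (av : List ℕ) : ∃ x', x' ∉ av ∧ C W W' π π' x x' := by
  obtain ⟨x0, hx0⟩ := h'.surj (π x)
  obtain ⟨n, hn⟩ := hW.ln x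
  have hn' : len W n x := (hn n).2 rfl
  have ht : ∀ j : ℕ, ∃ t t' : ℕ, π t = π' t' ∧ (j < n → q W j t x) := by
    intro j
    by_cases hj : j < n
    · obtain ⟨t, ht⟩ := hW.qf n j x hn' hj
      obtain ⟨t', ht'⟩ := h'.surj (π t)
      exact ⟨t, t', ht'.symm, fun _ => ht⟩
    · obtain ⟨t', ht'⟩ := h'.surj (π 0)
      exact ⟨0, t', ht'.symm, fun h => absurd h hj⟩
  choose τ τ' hτ hτq using ht
  have hev : ∀ s s' t t' y y', π s = π' s' → π t = π' t' → π y = π' y' →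
      (ev W y s t ↔ ev W' y' s' t') := by
    intro s s' t t' y y' e1 e2 e3
    rw [h.ev, h'.ev, e1, e2, e3]
  have hlt : ∀ s s' t t', π s = π' s' → π t = π' t' → (lt W s t ↔ lt W' s' t') := by
    intro s s' t t' e1 e2
    rw [h.hlt, h'.hlt, e1, e2]
  obtain ⟨x', hx1, hx2, hx3, hx4, hx5⟩ := hW'.rich x0 ((List.range n).map τ') av
    (by
      intro t ht
      obtain ⟨j, hj, rfl⟩ := List.mem_map.1 ht
      exact (hlt _ _ _ _ (hτ j) hx0.symm).1 (hW.qd _ _ _ (hτq j (List.mem_range.1 hj))).1)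
    (by
      intro s' hs'
      obtain ⟨s, hs⟩ := h.surj (π' s')
      obtain ⟨j, hj⟩ := hW.qe s x ((hlt _ _ _ _ hs hx0.symm).2 hs')
      obtain ⟨k, hk, hjk⟩ := (hW.qd _ _ _ hj).2
      rw [(hn k).1 hk] at hjk
      exact ⟨τ' j, List.mem_map.2 ⟨j, List.mem_range.2 hjk, rfl⟩,
        (hev _ _ _ _ _ _ hs (hτ j) hx0.symm).1 (qq hW hj (hτq j hjk))⟩)
  rw [List.length_map, List.length_range] at hx4
  have hπ : π x = π' x' := by
    rw [← hx0]
    exact (h'.same hz).1 ⟨hx2, hx3⟩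
  obtain ⟨n', hn2⟩ := hW'.ln x'
  have hnn : n = n' := (hn2 n).1 hx4
  subst hnn
  refine ⟨x', hx1, hπ, fun k => (hn k).trans (hn2 k).symm, fun j t t' htt => ?_⟩
  have hqj : j < n → q W' j (τ' j) x' := fun hj => hx5 j (τ' j) (by
    rw [List.getElem?_map, List.getElem?_range hj]
    rfl)
  constructor
  · intro h1
    obtain ⟨hl, k, hk, hjk⟩ := hW.qd _ _ _ h1
    rw [(hn k).1 hk] at hjk
    exact (hW'.qg j (τ' j) t' x' (hqj hjk) ((hlt _ _ _ _ htt hπ).1 hl)).2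
      ((hev _ _ _ _ _ _ (hτ j) htt hπ).1 (qq hW (hτq j hjk) h1))
  · intro h1
    obtain ⟨hl, k, hk, hjk⟩ := hW'.qd _ _ _ h1
    rw [(hn2 k).1 hk] at hjk
    exact (hW.qg j (τ j) t x (hτq j hjk) ((hlt _ _ _ _ htt hπ).2 hl)).2
      ((hev _ _ _ _ _ _ (hτ j) htt hπ).2 (qq hW' (hqj hjk) h1))

theorem C.piso (hW : Ax W) (hW' : Ax W') (h : Q W z π) (h' : Q W' z π')
    {p : Set (ℕ × ℕ)} (hp : ∀ u ∈ p, ∀ v ∈ p, (u.1 = v.1 ↔ u.2 = v.2))
    (hC : ∀ u ∈ p, C W W' π π' u.1 u.2) : PIso (lift W) (lift W') p := by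
  have hlt : ∀ s s' t t', π s = π' s' → π t = π' t' → (lt W s t ↔ lt W' s' t') := by
    intro s s' t t' e1 e2
    rw [h.hlt, h'.hlt, e1, e2]
  have hr : ∀ k s s' t t', π s = π' s' → π t = π' t' → (r W k s t ↔ r W' k s' t') := by
    intro k s s' t t' e1 e2
    rw [h.hr, h'.hr, e1, e2]
  refine piso_iff.2 ⟨hp, fun u hu v hv => hlt _ _ _ _ (hC u hu).1 (hC v hv).1, ?_, ?_⟩
  · intro n u hu v hv
    have hu' := hC u hu
    have hv' := hC v hv
    have hnlt := not_congr (hlt _ _ _ _ hv'.1 hu'.1)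
    obtain ⟨a, ha⟩ : ∃ a, n = 5 * a ∨ n = 5 * a + 1 ∨ n = 5 * a + 2 ∨ n = 5 * a + 3 ∨
        n = 5 * a + 4 := ⟨n / 5, by omega⟩
    have hex : ∀ (F F' : ℕ → Prop), (∀ t t', π t = π' t' → (F t ↔ F' t')) →
        ((∃ t, F t) ↔ ∃ t, F' t) := by
      intro F F' hF
      constructor
      · rintro ⟨t, ht⟩
        obtain ⟨t', ht'⟩ := h'.surj (π t)
        exact ⟨t', (hF t t' ht'.symm).1 ht⟩
      · rintro ⟨t', ht'⟩
        obtain ⟨t, ht⟩ := h.surj (π' t')
        exact ⟨t, (hF t t' ht).2 ht'⟩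
    rcases ha with rfl | rfl | rfl | rfl | rfl
    · exact hr a _ _ _ _ hu'.1 hv'.1
    · exact hv'.2.2 a _ _ hu'.1
    · have e : ∀ V x y, ac V (5 * a + 2) x y ↔ m V a.unpair.1 a.unpair.2 x y := by
        intro V x y
        unfold m
        rw [Nat.pair_unpair]
      rw [e, e, hW.mh, hW'.mh]
      exact and_congr hnlt (hex _ _ fun t t' ht => and_congr (hu'.2.2 _ _ _ ht)
        (hv'.2.2 _ _ _ ht))
    · have e : ∀ V x y, ac V (5 * a + 3) x y ↔ FC.p V a.unpair.1 a.unpair.2 x y := by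
        intro V x y
        unfold FC.p
        rw [Nat.pair_unpair]
      rw [e, e, hW.ph, hW'.ph]
      exact and_congr hnlt (hex _ _ fun t t' ht => and_congr (hu'.2.2 _ _ _ ht)
        (hr _ _ _ _ _ ht hv'.1))
    · have e : ∀ V x y, ac V (5 * a + 4) x y ↔ p' V a.unpair.1 a.unpair.2 x y := by
        intro V x y
        unfold p'
        rw [Nat.pair_unpair]
      rw [e, e, hW.ph', hW'.ph']
      exact and_congr hnlt (hex _ _ fun t t' ht => and_congr (hu'.2.2 _ _ _ ht)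
        (hr _ _ _ _ _ hv'.1 ht))
  · intro n u hu
    have hu' := hC u hu
    obtain ⟨a, ha⟩ : ∃ a, n = 2 * a ∨ n = 2 * a + 1 := ⟨n / 2, by omega⟩
    rcases ha with rfl | rfl
    · have e1 := h.hP a u.1
      have e2 := h'.hP a u.2
      rw [hu'.1] at e1
      exact e1.trans e2.symm
    · exact hu'.2.1 a

theorem Q.iso (hW : Ax W) (hW' : Ax W') (hz : SLO z) (h : Q W z π) (h' : Q W' z π') :
    RIso W W' := by
  refine riso_isoOn.2 (isoOn_of_system
    {p : Set (ℕ × ℕ) | p.Finite ∧ (∀ u ∈ p, ∀ v ∈ p, (u.1 = v.1 ↔ u.2 = v.2)) ∧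
      ∀ u ∈ p, C W W' π π' u.1 u.2} ?_ ?_ ?_ ?_)
  · exact ⟨finite_empty, fun u hu => absurd hu (notMem_empty _),
      fun u hu => absurd hu (notMem_empty _)⟩
  · rintro p ⟨-, h1, h2⟩
    exact ⟨C.piso hW hW' h h' h1 h2, fun u _ => ⟨trivial, trivial⟩⟩
  · rintro p ⟨hf, h1, h2⟩ x -
    by_cases hx : ∃ u ∈ p, u.1 = x
    · obtain ⟨u, hu, rfl⟩ := hx
      exact ⟨p, ⟨hf, h1, h2⟩, Subset.rfl, u.2, hu⟩
    · obtain ⟨x', hx1, hx2⟩ := ext1 hW hW' hz h h' x (hf.toFinset.image Prod.snd).toList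
      have hx3 : ∀ u ∈ p, u.2 ≠ x' := by
        intro u hu he
        apply hx1
        rw [Finset.mem_toList, Finset.mem_image]
        exact ⟨u, hf.mem_toFinset.2 hu, he⟩
      refine ⟨insert (x, x') p, ⟨hf.insert _, ?_, ?_⟩, subset_insert _ _, x', mem_insert _ _⟩
      · rintro u (rfl | hu) v (rfl | hv)
        · exact ⟨fun _ => rfl, fun _ => rfl⟩
        · exact iff_of_false (fun he => hx ⟨v, hv, he.symm⟩) (fun he => hx3 v hv he.symm)
        · exact iff_of_false (fun he => hx ⟨u, hu, he⟩) (fun he => hx3 u hu he)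
        · exact h1 u hu v hv
      · rintro u (rfl | hu)
        · exact hx2
        · exact h2 u hu
  · rintro p ⟨hf, h1, h2⟩ x -
    by_cases hx : ∃ u ∈ p, u.2 = x
    · obtain ⟨u, hu, rfl⟩ := hx
      exact ⟨p, ⟨hf, h1, h2⟩, Subset.rfl, u.1, hu⟩
    · obtain ⟨x', hx1, hx2⟩ := ext1 hW' hW hz h' h x (hf.toFinset.image Prod.fst).toList
      have hx3 : ∀ u ∈ p, u.1 ≠ x' := by
        intro u hu he
        apply hx1
        rw [Finset.mem_toList, Finset.mem_image]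
        exact ⟨u, hf.mem_toFinset.2 hu, he⟩
      refine ⟨insert (x', x) p, ⟨hf.insert _, ?_, ?_⟩, subset_insert _ _, x', mem_insert _ _⟩
      · rintro u (rfl | hu) v (rfl | hv)
        · exact ⟨fun _ => rfl, fun _ => rfl⟩
        · exact iff_of_false (fun he => hx3 v hv he.symm) (fun he => hx ⟨v, hv, he.symm⟩)
        · exact iff_of_false (fun he => hx3 u hu he) (fun he => hx ⟨u, hu, he⟩)
        · exact h1 u hu v hv
      · rintro u (rfl | hu)
        · exact hx2.symm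
        · exact h2 u hu

end Qs

/-! ### Invariance -/

theorem Ax.iso {W W' : R2} (hi : RIso W W') (h : Ax W') : Ax W := by
  obtain ⟨σ, h1, h2, h3⟩ := riso_iff.1 hi
  have el : ∀ x y, lt W x y ↔ lt W' (σ x) (σ y) := fun x y => (h1 x y).symm
  have er : ∀ k x y, r W k x y ↔ r W' k (σ x) (σ y) := fun k x y => (h2 _ x y).symm
  have eq : ∀ k x y, q W k x y ↔ q W' k (σ x) (σ y) := fun k x y => (h2 _ x y).symm
  have em : ∀ i k x y, m W i k x y ↔ m W' i k (σ x) (σ y) := fun i k x y => (h2 _ x y).symm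
  have ep : ∀ i k x y, p W i k x y ↔ p W' i k (σ x) (σ y) := fun i k x y => (h2 _ x y).symm
  have ep' : ∀ i k x y, p' W i k x y ↔ p' W' i k (σ x) (σ y) := fun i k x y => (h2 _ x y).symm
  have eP : ∀ k x, P W k x ↔ P W' k (σ x) := fun k x => (h3 _ x).symm
  have en : ∀ k x, len W k x ↔ len W' k (σ x) := fun k x => (h3 _ x).symm
  have eev : ∀ x t t', ev W x t t' ↔ ev W' (σ x) (σ t) (σ t') := by
    intro x t t'
    constructor
    · intro g y hy k
      have := g (σ.symm y) (by rw [el, Equiv.apply_symm_apply]; exact hy) k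
      rwa [er, er, er, er, Equiv.apply_symm_apply] at this
    · intro g y hy k
      rw [er, er, er, er]
      exact g (σ y) (by rw [← el]; exact hy) k
  have hex : ∀ F : ℕ → Prop, (∃ t, F t) ↔ ∃ t, F (σ t) := by
    intro F
    exact ⟨fun ⟨t, ht⟩ => ⟨σ.symm t, by rwa [Equiv.apply_symm_apply]⟩, fun ⟨t, ht⟩ => ⟨_, ht⟩⟩
  constructor
  · intro x; rw [el]; exact h.irr _
  · intro x y z; rw [el, el, el]; exact h.tr _ _ _
  · intro x y z; rw [el, el, el]; exact h.ntr _ _ _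
  · intro l
    obtain ⟨x, hx⟩ := h.inf (l.map σ)
    refine ⟨σ.symm x, fun y hy => ?_⟩
    rw [el, el, Equiv.apply_symm_apply]
    exact hx _ (List.mem_map.2 ⟨y, hy, rfl⟩)
  · intro x x'
    rw [el, el]
    intro g1 g2 y k
    rw [er, er, er, er, eP, eP]
    exact h.rc _ _ g1 g2 _ k
  · intro x
    simp only [en]
    exact h.ln _
  · intro j t x
    simp only [eq, el, en]
    exact h.qd _ _ _
  · intro t x
    simp only [eq, el]
    exact h.qe _ _
  · intro k j x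
    simp only [eq, en]
    intro g1 g2
    exact (hex _).1 (h.qf k j _ g1 g2)
  · intro j t t' x
    simp only [eq, el, eev]
    exact h.qg _ _ _ _
  · intro i j x y
    simp only [em, eq, el]
    rw [h.mh]
    exact and_congr_right fun _ => hex _
  · intro i j x y
    simp only [ep, eq, el, er]
    rw [h.ph]
    exact and_congr_right fun _ => hex _
  · intro i j x y
    simp only [ep', eq, el, er]
    rw [h.ph']
    exact and_congr_right fun _ => hex _
  · intro x ts av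
    simp only [el, eev, en, eq]
    intro g1 g2
    obtain ⟨x', k1, k2, k3, k4, k5⟩ := h.rich (σ x) (ts.map σ) (av.map σ)
      (by
        intro t ht
        obtain ⟨t, ht', rfl⟩ := List.mem_map.1 ht
        exact g1 t ht')
      (by
        intro s hs
        obtain ⟨t, ht, hst⟩ := g2 (σ.symm s) (by rw [Equiv.apply_symm_apply]; exact hs)
        rw [Equiv.apply_symm_apply] at hst
        exact ⟨σ t, List.mem_map.2 ⟨t, ht, rfl⟩, hst⟩)
    refine ⟨σ.symm x', ?_, ?_, ?_, ?_, ?_⟩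
    · intro hx
      exact k1 (List.mem_map.2 ⟨_, hx, Equiv.apply_symm_apply _ _⟩)
    · rw [Equiv.apply_symm_apply]; exact k2
    · rw [Equiv.apply_symm_apply]; exact k3
    · rw [Equiv.apply_symm_apply, ← List.length_map (f := σ)]; exact k4
    · intro j t hj
      rw [Equiv.apply_symm_apply]
      exact k5 j (σ t) (by rw [List.getElem?_map, hj]; rfl)

end Pool.Agent.Run7.h201.CS.FC
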