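import Pool.Agent.Run7.h201.CS.Enc2
import Pool.Agent.Y560.TG.PL
import Pool.Agent.Y117.TG.BP

set_option autoImplicit false

/-!
# Finite cut types: decoding, coding and the theorem
-/

namespace Pool.Agent.Run7.h201.CS.FC

open Set MeasureTheory
open Pool.Agent.H899R2.VP (St PIso IsoOn isoOn_of_system)
open Pool.Agent.H533R2.VO (RS lift RIso Dich)
open Pool.Agent.H566P (ar R2 lt ac co mk)
open Pool.Agent.Y560.TG (lt_mk ac_mk co_mk piso_iff riso_iff riso_isoOn R2_ext meas_lt meas_ac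
  meas_co meas_into iso_trans0 iso_symm0 iso_refl0)
open Pool.Agent.Run7.h201.CS

/-! ### Decoding -/

/-- the least elements of the blocks -/
def Lb (W : R2) (x : ℕ) : Prop := ∀ y, y < x → lt W x y ∨ lt W y x

/-- the quotient -/
noncomputable def zd (W : R2) : R2 :=
  mk (fun i j => lt W (Nat.nth (Lb W) i) (Nat.nth (Lb W) j))
    (fun k i j => r W k (Nat.nth (Lb W) i) (Nat.nth (Lb W) j))
    (fun k i => P W k (Nat.nth (Lb W) i))

theorem lb_ex {W : R2} (h : WO W) (x : ℕ) : ∃ y, Lb W y ∧ ¬ lt W x y ∧ ¬ lt W y x := by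
  classical
  have hex : ∃ y, ¬ lt W x y ∧ ¬ lt W y x := ⟨x, h.irr x, h.irr x⟩
  refine ⟨Nat.find hex, fun y hy => ?_, (Nat.find_spec hex).1, (Nat.find_spec hex).2⟩
  by_contra hc
  rw [not_or] at hc
  have h1 := Nat.find_spec hex
  exact Nat.find_min hex hy ⟨h.le_trans hc.1 h1.1, h.le_trans h1.2 hc.2⟩

theorem lb_inf {W : R2} (h : Ax W) : (Set.ofPred (Lb W)).Infinite := by
  intro hf
  obtain ⟨x, hx⟩ := h.inf hf.toFinset.toList
  obtain ⟨y, hy1, hy2, hy3⟩ := lb_ex h.wo x
  rcases hx y (Finset.mem_toList.2 (hf.mem_toFinset.2 hy1)) with h1 | h1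
  · exact hy2 h1
  · exact hy3 h1

theorem lb_uniq {W : R2} {x y : ℕ} (hx : Lb W x) (hy : Lb W y) (h1 : ¬ lt W x y)
    (h2 : ¬ lt W y x) : x = y := by
  rcases lt_trichotomy x y with h3 | h3 | h3
  · rcases hy x h3 with h4 | h4
    · exact absurd h4 h2
    · exact absurd h4 h1
  · exact h3
  · rcases hx y h3 with h4 | h4
    · exact absurd h4 h1
    · exact absurd h4 h2

theorem zd_Q {W : R2} (h : Ax W) : SLO (zd W) ∧ ∃ π, Q W (zd W) π := by
  classical
  have hinf := lb_inf h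
  have hL : ∀ n, Lb W (Nat.nth (Lb W) n) := fun n => Nat.nth_mem_of_infinite hinf n
  refine ⟨⟨?_, ?_, ?_⟩, ?_⟩
  · intro x
    rw [zd, lt_mk]
    exact h.irr _
  · intro x y w
    rw [zd, lt_mk, lt_mk, lt_mk]
    exact h.tr _ _ _
  · intro x y hne
    rw [zd, lt_mk, lt_mk]
    by_contra hc
    rw [not_or] at hc
    exact hne (Nat.nth_injective hinf (lb_uniq (hL _) (hL _) hc.1 hc.2))
  · choose e he1 he2 he3 using lb_ex h.wo
    have hn : ∀ x, Nat.nth (Lb W) (Nat.count (Lb W) (e x)) = e x :=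
      fun x => Nat.nth_count (he1 x)
    have hl : ∀ x y, lt W x y ↔ lt W (e x) (e y) := by
      intro x y
      constructor
      · exact fun h1 => h.wo.le_lt (he2 x) (h.wo.lt_le h1 (he3 y))
      · exact fun h1 => h.wo.le_lt (he3 x) (h.wo.lt_le h1 (he2 y))
    refine ⟨fun x => Nat.count (Lb W) (e x), ?_, ?_, ?_, ?_⟩
    · intro n
      refine ⟨Nat.nth (Lb W) n, ?_⟩
      show Nat.count (Lb W) (e (Nat.nth (Lb W) n)) = n
      rw [← lb_uniq (hL n) (he1 _) (he2 _) (he3 _)]
      exact Nat.count_nth_of_infinite hinf n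
    · intro x y
      rw [zd, lt_mk, hn, hn]
      exact hl x y
    · intro k x y
      rw [zd, ac_mk, hn, hn]
      exact (h.rc x (e x) (he2 x) (he3 x) y k).1.trans
        (h.rc y (e y) (he2 y) (he3 y) (e x) k).2.1
    · intro k x
      rw [zd, co_mk, hn]
      exact (h.rc x (e x) (he2 x) (he3 x) 0 k).2.2

/-! ### Measurability -/

theorem m_lt (x y : ℕ) : Measurable fun W : R2 => lt W x y :=
  measurableSet_setOfPred.1 (meas_lt x y)
theorem m_ac (k x y : ℕ) : Measurable fun W : R2 => ac W k x y :=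
  measurableSet_setOfPred.1 (meas_ac k x y)
theorem m_co (k x : ℕ) : Measurable fun W : R2 => co W k x :=
  measurableSet_setOfPred.1 (meas_co k x)
theorem m_ev (v t t' : ℕ) : Measurable fun W : R2 => ev W v t t' := by
  unfold ev r
  refine Measurable.forall fun y => (m_lt _ _).not.imp (Measurable.forall fun k => ?_)
  exact ((m_ac _ _ _).iff (m_ac _ _ _)).and ((m_ac _ _ _).iff (m_ac _ _ _))
theorem m_Lb (x : ℕ) : Measurable fun W : R2 => Lb W x := by
  unfold Lb
  exact Measurable.forall fun y => measurable_const.imp ((m_lt _ _).or (m_lt _ _))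

theorem meas_zd : Measurable zd := by
  have hn : ∀ n y, Measurable fun W : R2 => Nat.nth (Lb W) n = y :=
    fun n y => Pool.Agent.Y560.TG.PL.meas_nth (fun W : R2 => Lb W) m_Lb n y
  refine meas_into ?_ ?_ ?_
  · intro i j
    have e : {W : R2 | lt (zd W) i j} = {W : R2 | ∃ a b, Nat.nth (Lb W) i = a ∧
        Nat.nth (Lb W) j = b ∧ lt W a b} := by
      ext W
      simp only [mem_ofPred_eq, zd, lt_mk]
      exact ⟨fun h => ⟨_, _, rfl, rfl, h⟩, fun ⟨a, b, h1, h2, h3⟩ => by rwa [h1, h2]⟩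
    rw [e]
    exact measurableSet_setOfPred.2 (Measurable.exists fun a => Measurable.exists fun b =>
      (hn _ _).and ((hn _ _).and (m_lt _ _)))
  · intro k i j
    have e : {W : R2 | ac (zd W) k i j} = {W : R2 | ∃ a b, Nat.nth (Lb W) i = a ∧
        Nat.nth (Lb W) j = b ∧ r W k a b} := by
      ext W
      simp only [mem_ofPred_eq, zd, ac_mk]
      exact ⟨fun h => ⟨_, _, rfl, rfl, h⟩, fun ⟨a, b, h1, h2, h3⟩ => by rwa [h1, h2]⟩
    rw [e]
    exact measurableSet_setOfPred.2 (Measurable.exists fun a => Measurable.exists fun b =>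
      (hn _ _).and ((hn _ _).and (m_ac _ _ _)))
  · intro k i
    have e : {W : R2 | co (zd W) k i} = {W : R2 | ∃ a, Nat.nth (Lb W) i = a ∧ P W k a} := by
      ext W
      simp only [mem_ofPred_eq, zd, co_mk]
      exact ⟨fun h => ⟨_, rfl, h⟩, fun ⟨a, h1, h3⟩ => by rwa [h1]⟩
    rw [e]
    exact measurableSet_setOfPred.2 (Measurable.exists fun a => (hn _ _).and (m_co _ _))

theorem meas_Ax : MeasurableSet {W : R2 | Ax W} := by
  have e : ∀ W : R2, Ax W ↔
    (∀ x, ¬ lt W x x) ∧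
    (∀ x y z, lt W x y → lt W y z → lt W x z) ∧
    (∀ x y z, lt W x z → lt W x y ∨ lt W y z) ∧
    (∀ l : List ℕ, ∃ x, ∀ y, y ∈ l → lt W x y ∨ lt W y x) ∧
    (∀ x x', ¬ lt W x x' → ¬ lt W x' x → ∀ y k, (r W k x y ↔ r W k x' y) ∧
      (r W k y x ↔ r W k y x') ∧ (P W k x ↔ P W k x')) ∧
    (∀ x, ∃ k, ∀ k', len W k' x ↔ k' = k) ∧
    (∀ j t x, q W j t x → lt W t x ∧ ∃ k, len W k x ∧ j < k) ∧
    (∀ t x, lt W t x → ∃ j, q W j t x) ∧
    (∀ k j x, len W k x → j < k → ∃ t, q W j t x) ∧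
    (∀ j t t' x, q W j t x → lt W t' x → (q W j t' x ↔ ev W x t t')) ∧
    (∀ i j x y, m W i j x y ↔ ¬ lt W y x ∧ ∃ t, q W i t x ∧ q W j t y) ∧
    (∀ i k x y, p W i k x y ↔ ¬ lt W y x ∧ ∃ t, q W i t x ∧ r W k t y) ∧
    (∀ i k x y, p' W i k x y ↔ ¬ lt W y x ∧ ∃ t, q W i t x ∧ r W k y t) ∧
    (∀ (x : ℕ) (ts av : List ℕ), (∀ t, t ∈ ts → lt W t x) →
      (∀ s, lt W s x → ∃ t, t ∈ ts ∧ ev W x s t) →
      ∃ x', x' ∉ av ∧ ¬ lt W x x' ∧ ¬ lt W x' x ∧ len W ts.length x' ∧
        ∀ (j t : ℕ), ts[j]? = some t → q W j t x') := by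
    intro W
    constructor
    · intro h
      exact ⟨h.irr, h.tr, h.ntr, h.inf, h.rc, h.ln, h.qd, h.qe, h.qf, h.qg, h.mh, h.ph, h.ph',
        h.rich⟩
    · rintro ⟨a1, a2, a3, a4, a5, a6, a7, a8, a9, a10, a11, a12, a13, a14⟩
      exact ⟨a1, a2, a3, a4, a5, a6, a7, a8, a9, a10, a11, a12, a13, a14⟩
  rw [show {W : R2 | Ax W} = {W : R2 | _} from Set.ext fun W => e W]
  refine measurableSet_setOfPred.2 ?_
  refine (Measurable.forall fun x => (m_lt _ _).not).and ?_
  refine (Measurable.forall fun x => Measurable.forall fun y => Measurable.forall fun z =>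
    (m_lt _ _).imp ((m_lt _ _).imp (m_lt _ _))).and ?_
  refine (Measurable.forall fun x => Measurable.forall fun y => Measurable.forall fun z =>
    (m_lt _ _).imp ((m_lt _ _).or (m_lt _ _))).and ?_
  refine (Measurable.forall fun l => Measurable.exists fun x => Measurable.forall fun y =>
    measurable_const.imp ((m_lt _ _).or (m_lt _ _))).and ?_
  refine (Measurable.forall fun x => Measurable.forall fun x' => (m_lt _ _).not.imp
    ((m_lt _ _).not.imp (Measurable.forall fun y => Measurable.forall fun k =>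
      ((m_ac _ _ _).iff (m_ac _ _ _)).and (((m_ac _ _ _).iff (m_ac _ _ _)).and
        ((m_co _ _).iff (m_co _ _)))))).and ?_
  refine (Measurable.forall fun x => Measurable.exists fun k => Measurable.forall fun k' =>
    (m_co _ _).iff measurable_const).and ?_
  refine (Measurable.forall fun j => Measurable.forall fun t => Measurable.forall fun x =>
    (m_ac _ _ _).imp ((m_lt _ _).and (Measurable.exists fun k => (m_co _ _).and measurable_const))).and ?_
  refine (Measurable.forall fun t => Measurable.forall fun x => (m_lt _ _).imp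
    (Measurable.exists fun j => m_ac _ _ _)).and ?_
  refine (Measurable.forall fun k => Measurable.forall fun j => Measurable.forall fun x =>
    (m_co _ _).imp (measurable_const.imp (Measurable.exists fun t => m_ac _ _ _))).and ?_
  refine (Measurable.forall fun j => Measurable.forall fun t => Measurable.forall fun t' =>
    Measurable.forall fun x => (m_ac _ _ _).imp ((m_lt _ _).imp
      ((m_ac _ _ _).iff (m_ev _ _ _)))).and ?_
  refine (Measurable.forall fun i => Measurable.forall fun j => Measurable.forall fun x =>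
    Measurable.forall fun y => (m_ac _ _ _).iff ((m_lt _ _).not.and (Measurable.exists fun t =>
      (m_ac _ _ _).and (m_ac _ _ _)))).and ?_
  refine (Measurable.forall fun i => Measurable.forall fun j => Measurable.forall fun x =>
    Measurable.forall fun y => (m_ac _ _ _).iff ((m_lt _ _).not.and (Measurable.exists fun t =>
      (m_ac _ _ _).and (m_ac _ _ _)))).and ?_
  refine (Measurable.forall fun i => Measurable.forall fun j => Measurable.forall fun x =>
    Measurable.forall fun y => (m_ac _ _ _).iff ((m_lt _ _).not.and (Measurable.exists fun t =>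
      (m_ac _ _ _).and (m_ac _ _ _)))).and ?_
  refine Measurable.forall fun x => Measurable.forall fun ts => Measurable.forall fun av =>
    (Measurable.forall fun t => measurable_const.imp (m_lt _ _)).imp
    ((Measurable.forall fun s => (m_lt _ _).imp (Measurable.exists fun t => measurable_const.and
      (m_ev _ _ _))).imp (Measurable.exists fun x' => measurable_const.and ((m_lt _ _).not.and
        ((m_lt _ _).not.and ((m_co _ _).and (Measurable.forall fun j => Measurable.forall fun t =>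
          measurable_const.imp (m_ac _ _ _)))))))

/-! ### Coding -/

section code

variable (z : R2)

/-- the words which may be attached to `u` -/
def Val (u : ℕ) (ts : List ℕ) : Prop :=
  (∀ t ∈ ts, lt z t u) ∧ ∀ s, lt z s u → ∃ t ∈ ts, evz z u s t

open Classical in
/-- some word -/
noncomputable def dw (u : ℕ) : List ℕ := if h : ∃ ts, Val z u ts then h.choose else []

/-- the element of `z` -/
def pu (n : ℕ) : ℕ := n.unpair.1

open Classical in
/-- the word -/
noncomputable def wd (n : ℕ) : List ℕ :=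
  if Val z (pu n) ((Encodable.decode (α := List ℕ) n.unpair.2.unpair.1).getD []) then
    (Encodable.decode (α := List ℕ) n.unpair.2.unpair.1).getD [] else dw z (pu n)

/-- classes -/
def cq (j a b : ℕ) : Prop :=
  lt z (pu a) (pu b) ∧ ∃ t, (wd z b)[j]? = some t ∧ evz z (pu b) (pu a) t

/-- The coded structure. -/
noncomputable def Co : R2 :=
  mk (fun a b => lt z (pu a) (pu b))
    (fun n a b => (n % 5 = 0 ∧ ac z (n / 5) (pu a) (pu b)) ∨ (n % 5 = 1 ∧ cq z (n / 5) a b) ∨
      (n % 5 = 2 ∧ ¬ lt z (pu b) (pu a) ∧ ∃ t, cq z (n / 5).unpair.1 t a ∧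
        cq z (n / 5).unpair.2 t b) ∨
      (n % 5 = 3 ∧ ¬ lt z (pu b) (pu a) ∧ ∃ t, cq z (n / 5).unpair.1 t a ∧
        ac z (n / 5).unpair.2 (pu t) (pu b)) ∨
      (n % 5 = 4 ∧ ¬ lt z (pu b) (pu a) ∧ ∃ t, cq z (n / 5).unpair.1 t a ∧
        ac z (n / 5).unpair.2 (pu b) (pu t)))
    (fun n a => (n % 2 = 0 ∧ co z (n / 2) (pu a)) ∨ (n % 2 = 1 ∧ (wd z a).length = n / 2))

variable {z}

theorem lt_Co {a b : ℕ} : lt (Co z) a b ↔ lt z (pu a) (pu b) := by rw [Co, lt_mk]
theorem r_Co {k a b : ℕ} : r (Co z) k a b ↔ ac z k (pu a) (pu b) := by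
  rw [r, Co, ac_mk, show 5 * k % 5 = 0 by omega, show 5 * k / 5 = k by omega]
  simp
theorem q_Co {k a b : ℕ} : q (Co z) k a b ↔ cq z k a b := by
  rw [q, Co, ac_mk, show (5 * k + 1) % 5 = 1 by omega, show (5 * k + 1) / 5 = k by omega]
  simp
theorem m_Co {i k a b : ℕ} : m (Co z) i k a b ↔ ¬ lt z (pu b) (pu a) ∧
    ∃ t, cq z i t a ∧ cq z k t b := by
  rw [m, Co, ac_mk, show (5 * Nat.pair i k + 2) % 5 = 2 by omega,
    show (5 * Nat.pair i k + 2) / 5 = Nat.pair i k by omega, Nat.unpair_pair]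
  simp
theorem p_Co {i k a b : ℕ} : p (Co z) i k a b ↔ ¬ lt z (pu b) (pu a) ∧
    ∃ t, cq z i t a ∧ ac z k (pu t) (pu b) := by
  rw [p, Co, ac_mk, show (5 * Nat.pair i k + 3) % 5 = 3 by omega,
    show (5 * Nat.pair i k + 3) / 5 = Nat.pair i k by omega, Nat.unpair_pair]
  simp
theorem p'_Co {i k a b : ℕ} : p' (Co z) i k a b ↔ ¬ lt z (pu b) (pu a) ∧
    ∃ t, cq z i t a ∧ ac z k (pu b) (pu t) := by
  rw [p', Co, ac_mk, show (5 * Nat.pair i k + 4) % 5 = 4 by omega,
    show (5 * Nat.pair i k + 4) / 5 = Nat.pair i k by omega, Nat.unpair_pair]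
  simp
theorem P_Co {k a : ℕ} : P (Co z) k a ↔ co z k (pu a) := by
  rw [P, Co, co_mk, show 2 * k % 2 = 0 by omega, show 2 * k / 2 = k by omega]
  simp
theorem len_Co {k a : ℕ} : len (Co z) k a ↔ (wd z a).length = k := by
  rw [len, Co, co_mk, show (2 * k + 1) % 2 = 1 by omega, show (2 * k + 1) / 2 = k by omega]
  simp

theorem pu_pair (a b : ℕ) : pu (Nat.pair a b) = a := by rw [pu, Nat.unpair_pair]

theorem Q_Co : Q (Co z) z pu :=
  ⟨fun a => ⟨Nat.pair a 0, pu_pair _ _⟩, fun _ _ => lt_Co, fun _ _ _ => r_Co, fun _ _ => P_Co⟩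

theorem evz_refl {v t : ℕ} : evz z v t t := fun _ _ _ => ⟨Iff.rfl, Iff.rfl⟩
theorem evz_symm {v t t' : ℕ} (h : evz z v t t') : evz z v t' t :=
  fun y hy k => ⟨(h y hy k).1.symm, (h y hy k).2.symm⟩
theorem evz_trans {v t t' t'' : ℕ} (h : evz z v t t') (h' : evz z v t' t'') : evz z v t t'' :=
  fun y hy k => ⟨(h y hy k).1.trans (h' y hy k).1, (h y hy k).2.trans (h' y hy k).2⟩

theorem val_dw (hz : SLO z) (hf : FIz z) (u : ℕ) : Val z u (dw z u) := by
  have hex : ∃ ts, Val z u ts := by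
    obtain ⟨F, hF1, hF2, hF3⟩ := hf {x | lt z x u} (by
      intro x hx y hy
      by_cases hyu : y = u
      · rw [hyu]; exact hx
      · rcases hz.tot y u hyu with h | h
        · exact absurd h hy
        · exact hz.tr _ _ _ hx h)
    refine ⟨hF1.toFinset.toList, ?_, ?_⟩
    · intro t ht
      exact hF2 (hF1.mem_toFinset.1 (Finset.mem_toList.1 ht))
    · intro s hs
      obtain ⟨f, hf, hsf⟩ := hF3 s hs
      exact ⟨f, Finset.mem_toList.2 (hF1.mem_toFinset.2 hf), fun y hy k => hsf y hy k⟩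
  rw [dw, dif_pos hex]
  exact hex.choose_spec

theorem val_wd (hz : SLO z) (hf : FIz z) (n : ℕ) : Val z (pu n) (wd z n) := by
  unfold wd
  split
  · assumption
  · exact val_dw hz hf _

theorem ax_Co (hz : SLO z) (hf : FIz z) : Ax (Co z) := by
  have hQ : Q (Co z) z pu := Q_Co
  constructor
  · intro x; rw [lt_Co]; exact hz.irr _
  · intro x y w; rw [lt_Co, lt_Co, lt_Co]; exact hz.tr _ _ _
  · intro x y w; rw [lt_Co, lt_Co, lt_Co]
    intro h
    by_cases hyw : pu y = pu w
    · rw [hyw]; exact Or.inl h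
    · rcases hz.tot _ _ hyw with h1 | h1
      · exact Or.inr h1
      · exact Or.inl (hz.tr _ _ _ h h1)
  · intro l
    obtain ⟨u, hu⟩ := Infinite.exists_notMem_finset (l.map pu).toFinset
    refine ⟨Nat.pair u 0, fun y hy => ?_⟩
    rw [lt_Co, lt_Co, pu_pair]
    refine hz.tot _ _ fun he => hu ?_
    rw [List.mem_toFinset, he]
    exact List.mem_map.2 ⟨y, hy, rfl⟩
  · intro x x' h1 h2 y k
    have e := (hQ.same hz).1 ⟨h1, h2⟩
    rw [r_Co, r_Co, r_Co, r_Co, P_Co, P_Co, e]
    exact ⟨Iff.rfl, Iff.rfl, Iff.rfl⟩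
  · intro x
    refine ⟨(wd z x).length, fun k' => ?_⟩
    rw [len_Co]
    exact eq_comm
  · intro j t x
    rw [q_Co, lt_Co]
    rintro ⟨h1, t0, h2, h3⟩
    refine ⟨h1, (wd z x).length, len_Co.2 rfl, ?_⟩
    exact (List.getElem?_eq_some_iff.1 h2).1
  · intro t x
    rw [lt_Co]
    intro h1
    obtain ⟨t0, h2, h3⟩ := (val_wd hz hf x).2 _ h1
    obtain ⟨j, hj, hj'⟩ := List.getElem_of_mem h2
    refine ⟨j, q_Co.2 ⟨h1, t0, ?_, h3⟩⟩
    rw [List.getElem?_eq_some_iff]
    exact ⟨hj, hj'⟩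
  · intro k j x
    rw [len_Co]
    rintro rfl hj
    refine ⟨Nat.pair ((wd z x)[j]) 0, q_Co.2 ⟨?_, (wd z x)[j], ?_, ?_⟩⟩
    · rw [pu_pair]
      exact (val_wd hz hf x).1 _ (List.getElem_mem _)
    · exact List.getElem?_eq_getElem _
    · rw [pu_pair]
      exact evz_refl
  · intro j t t' x
    rw [q_Co, lt_Co, q_Co, hQ.ev]
    rintro ⟨h1, t0, h2, h3⟩ h4
    constructor
    · rintro ⟨-, t1, h5, h6⟩
      rw [h2] at h5
      obtain rfl := Option.some.inj h5
      exact evz_trans h3 (evz_symm h6)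
    · intro h5
      exact ⟨h4, t0, h2, evz_trans (evz_symm h5) h3⟩
  · intro i j x y
    rw [m_Co, lt_Co]
    simp only [q_Co]
  · intro i j x y
    rw [p_Co, lt_Co]
    simp only [q_Co, r_Co]
  · intro i j x y
    rw [p'_Co, lt_Co]
    simp only [q_Co, r_Co]
  · intro x ts av h1 h2
    have hval : Val z (pu x) (ts.map pu) := by
      constructor
      · intro t ht
        obtain ⟨t, ht', rfl⟩ := List.mem_map.1 ht
        exact lt_Co.1 (h1 t ht')
      · intro s hs
        obtain ⟨t, ht, hst⟩ := h2 (Nat.pair s 0) (lt_Co.2 (by rwa [pu_pair]))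
        refine ⟨pu t, List.mem_map.2 ⟨t, ht, rfl⟩, ?_⟩
        rw [hQ.ev, pu_pair] at hst
        exact hst
    have hinj : Function.Injective fun d : ℕ =>
        Nat.pair (pu x) (Nat.pair (Encodable.encode (ts.map pu)) d) := by
      intro d d' h
      have h' := congrArg (fun n => (Nat.unpair n).2) h
      simp only [Nat.unpair_pair] at h'
      have h'' := congrArg (fun n => (Nat.unpair n).2) h'
      simpa only [Nat.unpair_pair] using h''
    obtain ⟨d, hd⟩ : ∃ d : ℕ,
        Nat.pair (pu x) (Nat.pair (Encodable.encode (ts.map pu)) d) ∉ av := by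
      by_contra hcon
      push Not at hcon
      exact Set.infinite_range_of_injective hinj (av.toFinset.finite_toSet.subset (by
        rintro _ ⟨d, rfl⟩
        exact List.mem_toFinset.2 (hcon d)))
    have hwd : wd z (Nat.pair (pu x) (Nat.pair (Encodable.encode (ts.map pu)) d)) =
        ts.map pu := by
      have hdec : (Encodable.decode (α := List ℕ) (Nat.pair (pu x)
          (Nat.pair (Encodable.encode (ts.map pu)) d)).unpair.2.unpair.1).getD [] =
          ts.map pu := by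
        rw [Nat.unpair_pair, Nat.unpair_pair, Encodable.encodek, Option.getD_some]
      unfold wd
      rw [hdec, pu_pair, if_pos hval]
    refine ⟨_, hd, ?_, ?_, ?_, ?_⟩
    · rw [lt_Co, pu_pair]; exact hz.irr _
    · rw [lt_Co, pu_pair]; exact hz.irr _
    · rw [len_Co, hwd, List.length_map]
    · intro j t hj
      rw [q_Co]
      refine ⟨?_, pu t, ?_, evz_refl⟩
      · rw [pu_pair]
        exact lt_Co.1 (h1 t (List.mem_of_getElem? hj))
      · rw [hwd, List.getElem?_map, hj]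
        rfl

end code

theorem riso_symm {a b : R2} (h : RIso a b) : RIso b a :=
  riso_isoOn.2 (iso_symm0 (riso_isoOn.1 h))
theorem riso_trans {a b c : R2} (h : RIso a b) (h' : RIso b c) : RIso a c :=
  riso_isoOn.2 (iso_trans0 (riso_isoOn.1 h) (riso_isoOn.1 h'))

/-- **Theorem.** Vaught's conjecture for classes of linear orders with finitely many types over
every cut. -/
theorem t1 (B : Set R2) (hB : MeasurableSet B) (hinv : ∀ x y, RIso x y → x ∈ B → y ∈ B)
    (hslo : ∀ z ∈ B, SLO z) (hfi : ∀ z ∈ B, FIz z) : Dich B := by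
  set K : Set R2 := {W : R2 | Ax W} ∩ zd ⁻¹' B with hK
  have hKm : MeasurableSet K := meas_Ax.inter (meas_zd hB)
  have hzz : ∀ W W' : R2, Ax W → Ax W' → RIso W W' → RIso (zd W) (zd W') := by
    intro W W' hW hW' hi
    obtain ⟨h1, π, h2⟩ := zd_Q hW
    obtain ⟨h3, π', h4⟩ := zd_Q hW'
    obtain ⟨π'', h5⟩ := h4.left hi
    exact h2.uniq h5 h1 h3
  have hKi : ∀ x y, RIso x y → x ∈ K → y ∈ K := by
    rintro W W' hi ⟨hW, hz⟩
    have hW' : Ax W' := Ax.iso (riso_symm hi) hW
    exact ⟨hW', hinv _ _ (hzz W W' hW hW' hi) hz⟩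
  have hpc : ∀ W ∈ K, PC W := by
    rintro W ⟨hW, hz⟩
    obtain ⟨h1, π, h2⟩ := zd_Q hW
    exact pcut hW (h2.fi h1 (hfi _ hz))
  have hco : ∀ z ∈ B, RIso (zd (Co z)) z := by
    intro z hz
    obtain ⟨h1, π, h2⟩ := zd_Q (ax_Co (hslo z hz) (hfi z hz))
    exact h2.uniq Q_Co h1 (hslo z hz)
  by_cases hP : ∃ c : (ℕ → Bool) → R2, Continuous c ∧ (∀ A, c A ∈ B) ∧
      ∀ A A', RIso (c A) (c A') → A = A'
  · exact Or.inr hP
  · rcases dich K hKm hKi (fun W hW => hW.1.wo) (fun W hW W' hW' => law hW.1 hW'.1) hpc with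
      ⟨f, hf⟩ | ⟨c, hc1, hc2, hc3⟩
    · left
      refine ⟨fun n => zd (f n), fun z hz => ?_⟩
      have hax := ax_Co (hslo z hz) (hfi z hz)
      have hmem : Co z ∈ K := ⟨hax, hinv _ _ (riso_symm (hco z hz)) hz⟩
      obtain ⟨n, hn⟩ := hf (Co z) hmem
      exact ⟨n, riso_trans (hzz _ _ (Ax.iso hn hax) hax hn) (hco z hz)⟩
    · exfalso
      refine Pool.Agent.Y117.TG.t_BP B hB hP (ℕ → Bool) ?_ (fun ω => zd (c ω)) (fun _ => 0)
        ?_ measurable_const ?_ ?_
      · exact Pool.Agent.H899R2.VP.not_countable_cantor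
      · exact meas_zd.comp hc1.measurable
      · exact fun ω => (hc2 ω).2
      · intro ω ω' h
        have h' : RIso (zd (c ω)) (zd (c ω')) := riso_isoOn.2 (h.mono (empty_subset _))
        apply hc3
        obtain ⟨h1, π, h2⟩ := zd_Q (hc2 ω).1
        obtain ⟨h3, π', h4⟩ := zd_Q (hc2 ω').1
        obtain ⟨π'', h5⟩ := h2.right h'
        exact Q.iso (hc2 ω).1 (hc2 ω').1 h3 h5 h4

end Pool.Agent.Run7.h201.CS.FC
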