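import Pool.Agent.Run7.h201.CS.Sim

set_option autoImplicit false

/-!
# Coherent preorders: the end of the proof
-/

namespace Pool.Agent.Run7.h201.CS

open Set MeasureTheory
open Pool.Agent.H899R2.VP (St Adj PIso BF IsoOn idOn inv comp zipSet mem_inv BF_iff zipSet_cons
  zipSet_nil_left labels idOn_mono BF_of_total closed_rank)
open Pool.Agent.H533R2.VO (RS lift RIso Dich resBF resIso Rr cnt_countable)
open Pool.Agent.H566P (ar R2 lt ac co mk)
open Pool.Agent.Y560.TG (lt_mk ac_mk co_mk piso_iff ex lt_ex ac_ex co_ex_even co_ex_odd piso_ex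
  bf_trans0 bf_symm0 iso_trans0 iso_symm0 iso_refl0 Off riso_isoOn piso_lt piso_co mat msg
  meas_lt meas_ac meas_co R2_ext cont_into piso_eq meas_into)

variable {α : Ordinal.{0}} {K : Set R2} {S : Set (R2 × Set ℕ)} {M N : R2}

/-! ### CNT -/

theorem cnt (hK : G α K) (hS : Fam K S) (hblk : ∀ M ∈ K, ∀ x, (M, Ic M x x) ∈ S) :
    ∀ ξ : Ordinal.{0}, ξ < Ordinal.omega 1 → ∃ S' : Set (R2 × Set ℕ), Fam K S' ∧ S ⊆ S' ∧
      ∀ M ∈ K, ∀ x y, lt M x y → ¬ Rr (Bg S M) ξ x y → (M, Ic M x y) ∈ S' := by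
  intro ξ
  induction ξ using WellFoundedLT.induction with
  | ind ξ ih =>
    intro hξ
    have hc := cnt_countable hξ
    have ih' : ∀ i : Set.Iio ξ, ∃ S' : Set (R2 × Set ℕ), Fam K S' ∧ S ⊆ S' ∧
        ∀ M ∈ K, ∀ x y, lt M x y → ¬ Rr (Bg S M) i.1 x y → (M, Ic M x y) ∈ S' :=
      fun i => ih i.1 i.2 (lt_trans i.2 hξ)
    choose T hTf hTS hT using ih'
    have hsim : ∀ i : Set.Iio ξ, ∃ S' : Set (R2 × Set ℕ), Fam K S' ∧ T i ⊆ S' ∧
        ∀ M ∈ K, ∀ x y, lt M x y → (M, Ic M x y) ∉ S' →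
          ∃ z, lt M x z ∧ lt M z y ∧ (M, Ic M x z) ∉ T i ∧ (M, Ic M z y) ∉ T i :=
      fun i => sim hK (hTf i) (fun M hM x => hTS i (hblk M hM x))
    choose T' hT'f hT'T hT' using hsim
    obtain ⟨S', hS'f, hS'⟩ := genu hK.wo hK.law (ι := Option (Set.Iio ξ))
      (fun o => match o with
        | none => S
        | some i => T' i) (by
          intro o
          cases o with
          | none => exact hS
          | some i => exact hT'f i)
    refine ⟨S', hS'f, hS' none, ?_⟩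
    intro M hM x y hxy hr
    by_cases hmem : (M, Ic M x y) ∈ S
    · exact hS' none hmem
    · rw [Rr] at hr
      have h3 : ¬ ∀ o' : Ordinal.{0}, ∀ _h : o' < ξ, ∃ z, Rr (Bg S M) o' x z ∧
          Rr (Bg S M) o' z y := fun h => hr ⟨⟨hxy, hmem⟩, h⟩
      push Not at h3
      obtain ⟨o', ho', h4⟩ := h3
      apply hS' (some ⟨o', ho'⟩)
      show (M, Ic M x y) ∈ T' ⟨o', ho'⟩
      by_contra hcon
      obtain ⟨z, hxz, hzy, hz1, hz2⟩ := hT' ⟨o', ho'⟩ M hM x y hxy hcon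
      have e1 : Rr (Bg S M) o' x z := by
        by_contra h
        exact hz1 (hT ⟨o', ho'⟩ M hM x z hxz h)
      have e2 : Rr (Bg S M) o' z y := by
        by_contra h
        exact hz2 (hT ⟨o', ho'⟩ M hM z y hzy h)
      exact h4 z e1 e2

/-! ### END -/

theorem end_ge (hM : WO M) (h0 : (M, Ic M 0 0) ∈ S) (h : ∀ x, lt M 0 x → (M, Ic M 0 x) ∈ S) :
    Lw S M 0 = Ge M 0 := by
  ext x
  constructor
  · exact fun hx => hx.1
  · intro hx
    refine ⟨hx, ?_⟩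
    by_cases hx' : lt M 0 x
    · exact h x hx'
    · have : Ic M 0 x = Ic M 0 0 := by
        ext z
        constructor
        · rintro ⟨h1, h2⟩
          exact ⟨h1, fun h3 => h2 (hM.le_lt hx' h3)⟩
        · rintro ⟨h1, h2⟩
          exact ⟨h1, fun h3 => h2 (hM.le_lt hx h3)⟩
      rw [this]; exact h0

theorem end_le (hM : WO M) (h0 : (M, Ic M 0 0) ∈ S) (h : ∀ x, lt M x 0 → (M, Ic M x 0) ∈ S) :
    Uw S M 0 = Le M 0 := by
  ext x
  constructor
  · exact fun hx => hx.1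
  · intro hx
    refine ⟨hx, ?_⟩
    by_cases hx' : lt M x 0
    · exact h x hx'
    · have : Ic M x 0 = Ic M 0 0 := by
        ext z
        constructor
        · rintro ⟨h1, h2⟩
          exact ⟨fun h3 => h1 (hM.lt_le h3 hx'), h2⟩
        · rintro ⟨h1, h2⟩
          exact ⟨fun h3 => h1 (hM.lt_le h3 hx), h2⟩
      rw [this]; exact h0

theorem mod_ge (hM : WO M) (hL : Law M M) : Mod (Ge M 0 \ {0}) (bs 0 0) M := by
  refine ⟨bs_notMem (fun h => h.2 rfl) (fun h => h.2 rfl), ?_⟩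
  intro z hz z' hz' hE w hw
  rw [E_bs] at hE
  by_cases hw0 : w = 0
  · rw [hw0]; exact hE.1
  · have h1 : lt M w 0 := by
      by_contra hcon
      exact hw ⟨hcon, hw0⟩
    exact hL w 0 z w 0 z' (hM.asymm h1) hz.1 E.rfl hE.1

theorem mod_le (hM : WO M) (hL : Law M M) : Mod (Le M 0 \ {0}) (bs 0 0) M := by
  refine ⟨bs_notMem (fun h => h.2 rfl) (fun h => h.2 rfl), ?_⟩
  intro z hz z' hz' hE w hw
  rw [E_bs] at hE
  by_cases hw0 : w = 0
  · rw [hw0]; exact hE.1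
  · have h1 : lt M 0 w := by
      by_contra hcon
      exact hw ⟨hcon, hw0⟩
    exact (hL z 0 w z' 0 w hz.1 (hM.asymm h1) hE.1.swap E.rfl).swap

theorem iso_point {X Y : Set ℕ} (hX : 0 ∈ X) (hY : 0 ∈ Y)
    (hp : PIso (lift M) (lift N) {(0, 0)})
    (h : IsoOn (lift (lc M (bs 0 0))) (lift (lc N (bs 0 0))) (X \ {0}) (Y \ {0}) ∅) :
    IsoOn (lift M) (lift N) X Y {(0, 0)} := by
  have e : ({(0, 0), (0, 0)} : Set (ℕ × ℕ)) = {(0, 0)} := by simp
  have h1 := iso_add (bs_notMem (fun h => h.2 rfl) (fun h => h.2 rfl))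
    (bs_notMem (fun h => h.2 rfl) (fun h => h.2 rfl)) (by rw [bs_set, e]; exact hp) h
  rw [bs_set, e, range_bs] at h1
  have e2 : ∀ X : Set ℕ, 0 ∈ X → X \ {0} ∪ ({0, 0} : Set ℕ) = X := by
    intro X hX
    ext z
    simp only [mem_union, mem_sdiff, mem_singleton_iff, mem_insert_iff, or_self]
    constructor
    · rintro (h | h)
      · exact h.1
      · rw [h]; exact hX
    · intro h
      by_cases h0 : z = 0
      · exact Or.inr h0
      · exact Or.inl ⟨h, h0⟩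
  rwa [e2 X hX, e2 Y hY] at h1

theorem endT (hK : G α K) (hS : Fam K S) (hblk : ∀ M ∈ K, ∀ x, (M, Ic M x x) ∈ S)
    (hall : ∀ M ∈ K, ∀ x y, lt M x y → (M, Ic M x y) ∈ S) :
    ∃ f : ℕ → R2, ∀ M ∈ K, ∃ n, RIso (f n) M := by
  obtain ⟨νL, hνL⟩ := towc hK hS
  obtain ⟨νU, hνU⟩ := towr hK hS
  obtain ⟨c, hc⟩ := lab hK (β := 1) (Ordinal.one_lt_omega0.trans Ordinal.omega0_lt_omega_one)
  refine g_code (C := ℕ × ℕ × ℕ) K (fun κ M => c M [0] = κ.1 ∧ νL M 0 0 = κ.2.1 ∧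
    νU M 0 0 = κ.2.2) (fun M N => RIso M N) R0 (fun M _ => ⟨(_, _, _), rfl, rfl, rfl⟩) ?_
  rintro ⟨κ1, κ2, κ3⟩ M hM N hN ⟨a1, a2, a3⟩ ⟨b1, b2, b3⟩
  simp only at a1 a2 a3 b1 b2 b3
  have hbf := hc M hM N hN [0] [0] rfl (by rw [a1, b1])
  rw [zip1] at hbf
  have hMo := hK.wo M hM
  have hNo := hK.wo N hN
  have g1 : ∀ M ∈ K, Lw S M 0 = Ge M 0 := fun M hM =>
    end_ge (hK.wo M hM) (hblk M hM 0) (fun x hx => hall M hM 0 x hx)
  have g2 : ∀ M ∈ K, Uw S M 0 = Le M 0 := fun M hM =>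
    end_le (hK.wo M hM) (hblk M hM 0) (fun x hx => hall M hM x 0 hx)
  have v1 : ∀ M ∈ K, VL S M 0 0 := fun M hM => by
    refine ⟨?_, Or.inl rfl⟩
    rw [g1 M hM]
    exact mod_ge (hK.wo M hM) (hK.law M hM M hM)
  have v2 : ∀ M ∈ K, VU S M 0 0 := fun M hM => by
    refine ⟨?_, Or.inl rfl⟩
    rw [g2 M hM]
    exact mod_le (hK.wo M hM) (hK.law M hM M hM)
  have k1 := hνL M hM N hN 0 0 0 0 (v1 M hM) (v1 N hN) (by rw [a2, b2])
  have k2 := hνU M hM N hN 0 0 0 0 (v2 M hM) (v2 N hN) (by rw [a3, b3])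
  rw [g1 M hM, g1 N hN] at k1
  rw [g2 M hM, g2 N hN] at k2
  rw [riso_isoOn]
  refine (lawIso hMo hNo (hK.law M hM N hN) (c := 0) (c' := 0) ?_ ?_).mono (empty_subset _)
  · rw [univ_inter, univ_inter]
    exact iso_point (hMo.irr 0) (hNo.irr 0) hbf.piso k2
  · rw [univ_inter, univ_inter]
    exact iso_point (hMo.irr 0) (hNo.irr 0) hbf.piso k1

/-! ### MAIN -/

theorem main_trans (hS : Fam K S) (hM : M ∈ K) (hMo : WO M)
    (x y z : ℕ) (h1 : Bg S M x y) (h2 : Bg S M y z) : Bg S M x z := by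
  refine ⟨hMo.tr x y z h1.1 h2.1, fun h => h1.2 ?_⟩
  exact hS.sub M hM x z x y h (hMo.irr x) (hMo.asymm h1.1) (hMo.asymm h2.1)

/-- MAIN -/
theorem main (hK : G α K) : ∃ f : ℕ → R2, ∀ M ∈ K, ∃ n, RIso (f n) M := by
  obtain ⟨S, hS, hSb, hSsmall⟩ := base hK
  by_cases hall : ∀ ξ : Ordinal.{0}, ξ < Ordinal.omega 1 → ∃ M ∈ K, ∃ x y, Rr (Bg S M) ξ x y
  · exfalso
    obtain ⟨l, hl, -, hlev⟩ := lev hS
    set K' : Set (St ar) := {M : St ar | M.1 = (fun _ _ => false) ∧ M.2 ∈ K} with hK'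
    have hmeas : ∀ x y, MeasurableSet {M : St ar | M ∈ K' ∧ Bg S M.2 x y} := by
      intro x y
      have e : {M : St ar | M ∈ K' ∧ Bg S M.2 x y} =
          K' ∩ (Prod.snd ⁻¹' ({M : R2 | lt M x y} ∩ {M : R2 | (M, Ic M x y) ∈ S}ᶜ)) := by
        ext M
        exact Iff.rfl
      rw [e]
      exact (lift_meas hK.meas).inter
        (measurable_snd ((meas_lt x y).inter (meas_mem hS hlev hl x y).compl))
    obtain ⟨M, hM, P, hP1, hP2⟩ := Pool.Agent.H533R2.VO.t_BL ar K' (fun M => Bg S M.2)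
      (lift_meas hK.meas) hmeas (fun ξ hξ => by
        obtain ⟨M, hM, x, y, h⟩ := hall ξ hξ
        exact ⟨lift M, ⟨rfl, hM⟩, x, y, h⟩)
    have hMK : M.2 ∈ K := hM.2
    obtain ⟨lo, hi, hlt, hdn, hup⟩ := Pool.Agent.H533R2.VO.t_DYA (Bg S M.2) P
      (main_trans hS hMK (hK.wo _ hMK)) hP1 hP2
    have hLH : LH M.2 lo hi := ⟨hK.wo _ hMK, fun n k => (hlt n k).1, fun n k => (hdn n k).1,
      fun n k j => (hup n k j).1⟩
    exact code hK hMK hLH (fun n k => hSsmall M.2 hMK _ _ (hlt n k).1 (hlt n k).2)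
  · push Not at hall
    obtain ⟨ξ, hξ, hno⟩ := hall
    obtain ⟨S', hS', hsub, hS'b⟩ := cnt hK hS hSb ξ hξ
    exact endT hK hS' (fun M hM x => hsub (hSb M hM x))
      (fun M hM x y hxy => hS'b M hM x y hxy (hno M hM x y))

/-- The dichotomy for coherent preorders with pointed cuts. -/
theorem dich (B : Set R2) (hB : MeasurableSet B) (hinv : ∀ x y, RIso x y → x ∈ B → y ∈ B)
    (hwo : ∀ M ∈ B, WO M) (hlaw : ∀ M ∈ B, ∀ N ∈ B, Law M N) (hpc : ∀ M ∈ B, PC M) :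
    Dich B := by
  by_cases hg : ∃ g : (ℕ → Bool) → R2, Continuous g ∧ (∀ c, g c ∈ B) ∧ ∀ c d : ℕ → Bool,
    RIso (g c) (g d) → c = d
  · exact Or.inr hg
  left
  obtain ⟨α, hα, hcl⟩ := closed_rank (lift_meas hB) (by
    rintro M ⟨hM1, hM2⟩ N hMN
    have hM : M = lift M.2 := Prod.ext hM1 rfl
    have hN1 : N.1 = fun _ _ => false := by
      funext x y
      obtain ⟨q, -, -, h3, -, h5⟩ := hMN
      obtain ⟨x', hx'⟩ := h5 x (mem_univ _)
      obtain ⟨y', hy'⟩ := h5 y (mem_univ _)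
      have := h3.2.1 _ hx' _ hy'
      rw [hM1] at this
      exact this.symm
    have hN : N = lift N.2 := Prod.ext hN1 rfl
    refine ⟨hN1, hinv M.2 N.2 (riso_isoOn.2 ?_) hM2⟩
    rw [← hM, ← hN]
    exact hMN)
  have hG : G (max α Ordinal.omega0) B := by
    refine ⟨hB, max_lt hα Ordinal.omega0_lt_omega_one, le_max_right _ _, ?_, hg, hwo, hlaw, hpc⟩
    intro M hM N hMN
    exact (hcl (lift M) ⟨rfl, hM⟩ (lift N) (hMN.mono (le_max_left _ _))).2
  exact main hG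

end Pool.Agent.Run7.h201.CS
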