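import Pool.Agent.Run7.h201.CS.Blk

set_option autoImplicit false

/-!
# Coherent preorders: generated families, Scott levels, measurability
-/

namespace Pool.Agent.Run7.h201.CS

open Set
open Pool.Agent.H899R2.VP (St Adj PIso BF IsoOn idOn inv comp zipSet mem_inv BF_iff zipSet_cons
  zipSet_nil_left labels)
open Pool.Agent.H533R2.VO (RS lift RIso Dich resBF resIso)
open Pool.Agent.H566P (ar R2 lt ac co mk)
open Pool.Agent.Y560.TG (lt_mk ac_mk co_mk piso_iff ex lt_ex ac_ex co_ex_even co_ex_odd piso_ex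
  bf_trans0 bf_symm0 iso_trans0 iso_symm0 iso_refl0 Off riso_isoOn piso_lt piso_co mat msg
  meas_lt)

/-- the empty structure -/
noncomputable def R0 : R2 := mk (fun _ _ => False) (fun _ _ _ => False) (fun _ _ => False)

/-- Countably many types. -/
def gCnt (S : Set (R2 × Set ℕ)) : Prop :=
  ∃ f : ℕ → R2 × Set ℕ, ∀ M X, (M, X) ∈ S → ∃ n, IsoOn (lift (f n).1) (lift M) (f n).2 X ∅

/-- Sub-intervals. -/
def gSub (K : Set R2) (S : Set (R2 × Set ℕ)) : Set (R2 × Set ℕ) :=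
  {P | ∃ (M : R2) (x y x' y' : ℕ), P = (M, Ic M x' y') ∧ M ∈ K ∧ (M, Ic M x y) ∈ S ∧
    ¬ lt M x' x ∧ ¬ lt M y' x' ∧ ¬ lt M y y'}

/-- Glued intervals. -/
def gGlue (K : Set R2) (S : Set (R2 × Set ℕ)) : Set (R2 × Set ℕ) :=
  {P | ∃ (M : R2) (x y z : ℕ), P = (M, Ic M x z) ∧ M ∈ K ∧ ¬ lt M y x ∧ ¬ lt M z y ∧
    (M, Ic M x y) ∈ S ∧ (M, Ic M y z) ∈ S}

/-- Closure under isomorphism. -/
def gIso (S : Set (R2 × Set ℕ)) : Set (R2 × Set ℕ) :=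
  {P | ∃ Q ∈ S, IsoOn (lift Q.1) (lift P.1) Q.2 P.2 ∅}

/-- The stages. -/
def gS (K : Set R2) (f : ℕ → R2 × Set ℕ) : ℕ → Set (R2 × Set ℕ)
  | 0 => gIso (range f)
  | k + 1 => gIso (gS K f k ∪ (gSub K (gS K f k) ∪ gGlue K (gS K f k)))

theorem g_code {T : Type*} {C : Type*} [Countable C] (S : Set T)
    (R : C → T → Prop) (I : T → T → Prop) (t0 : T) (h1 : ∀ P ∈ S, ∃ c, R c P)
    (h2 : ∀ c, ∀ P ∈ S, ∀ Q ∈ S, R c P → R c Q → I P Q) :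
    ∃ f : ℕ → T, ∀ P ∈ S, ∃ n, I (f n) P := by
  classical
  by_cases hC : Nonempty C
  · obtain ⟨e, he⟩ := exists_surjective_nat C
    let g : C → T := fun c => if h : ∃ P, P ∈ S ∧ R c P then h.choose else t0
    refine ⟨fun n => g (e n), fun P hM => ?_⟩
    obtain ⟨c, hc⟩ := h1 _ hM
    obtain ⟨n, hn⟩ := he c
    refine ⟨n, ?_⟩
    have hex : ∃ P, P ∈ S ∧ R c P := ⟨_, hM, hc⟩
    have hg : g (e n) = hex.choose := by
      rw [hn]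
      exact dif_pos hex
    show I (g (e n)) P
    rw [hg]
    exact h2 c _ hex.choose_spec.1 _ hM hex.choose_spec.2 hc
  · refine ⟨fun _ => t0, fun P hM => ?_⟩
    obtain ⟨c, _⟩ := h1 _ hM
    exact absurd ⟨c⟩ hC

theorem genf_code {C : Type*} [Countable C] (S : Set (R2 × Set ℕ))
    (R : C → R2 × Set ℕ → Prop) (h1 : ∀ P ∈ S, ∃ c, R c P)
    (h2 : ∀ c, ∀ P ∈ S, ∀ Q ∈ S, R c P → R c Q → IsoOn (lift P.1) (lift Q.1) P.2 Q.2 ∅) :
    gCnt S := by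
  obtain ⟨f, hf⟩ := g_code S R (fun P Q => IsoOn (lift P.1) (lift Q.1) P.2 Q.2 ∅) (R0, ∅) h1 h2
  exact ⟨f, fun M X h => hf _ h⟩

theorem genf_cnt_iso {S : Set (R2 × Set ℕ)} (h : gCnt S) : gCnt (gIso S) := by
  obtain ⟨g, hg⟩ := h
  refine ⟨g, ?_⟩
  rintro M X ⟨Q, hQ, hi⟩
  obtain ⟨n, hn⟩ := hg Q.1 Q.2 hQ
  exact ⟨n, iso_trans0 hn hi⟩

theorem genf_cnt_union {S T : Set (R2 × Set ℕ)} (h : gCnt S) (h' : gCnt T) :
    gCnt (S ∪ T) := by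
  obtain ⟨g, hg⟩ := h
  obtain ⟨g', hg'⟩ := h'
  refine genf_code (C := ℕ ⊕ ℕ) (S ∪ T) (fun c P => match c with
    | Sum.inl n => IsoOn (lift (g n).1) (lift P.1) (g n).2 P.2 ∅
    | Sum.inr n => IsoOn (lift (g' n).1) (lift P.1) (g' n).2 P.2 ∅) ?_ ?_
  · rintro P (hP | hP)
    · obtain ⟨n, hn⟩ := hg P.1 P.2 hP
      exact ⟨Sum.inl n, hn⟩
    · obtain ⟨n, hn⟩ := hg' P.1 P.2 hP
      exact ⟨Sum.inr n, hn⟩
  · rintro (n | n) P - Q - h1 h2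
    · exact iso_trans0 (iso_symm0 h1) h2
    · exact iso_trans0 (iso_symm0 h1) h2

variable {K : Set R2}

theorem genf_cnt_sub (hwo : ∀ M ∈ K, WO M) {S : Set (R2 × Set ℕ)} (h : gCnt S) :
    gCnt (gSub K S) := by
  obtain ⟨g, hg⟩ := h
  refine genf_code (C := ℕ × ℕ × ℕ) (gSub K S) (fun c P =>
    IsoOn (lift (g c.1).1) (lift P.1) ((g c.1).2 ∩ Ic (g c.1).1 c.2.1 c.2.2) P.2 ∅) ?_ ?_
  · rintro P ⟨M, x, y, x', y', rfl, hM, hS, h1, h2, h3⟩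
    have hM := hwo M hM
    obtain ⟨n, q, hq0, hq1, hq2, hq3, hq4⟩ := hg M _ hS
    have hx' : x' ∈ Ic M x y := ⟨h1, hM.le_trans h2 h3⟩
    have hy' : y' ∈ Ic M x y := ⟨hM.le_trans h1 h2, h3⟩
    obtain ⟨x1, hx1⟩ := hq4 x' hx'
    obtain ⟨y1, hy1⟩ := hq4 y' hy'
    refine ⟨(n, x1, y1), ?_⟩
    have hb : IsoOn (lift (g n).1) (lift M) (g n).2 (Ic M x y) q :=
      ⟨q, Subset.rfl, hq1, hq2, hq3, hq4⟩
    have := isoIc hx1 hy1 hb
    rw [inter_eq_right.2 (Ic_sub hM h1 h3)] at this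
    exact this.mono (empty_subset _)
  · rintro c P - Q - h1 h2
    exact iso_trans0 (iso_symm0 h1) h2

theorem Ic_Le {M : R2} (hM : WO M) {x y z : ℕ} (h2 : ¬ lt M z y) :
    Ic M x z ∩ Le M y = Ic M x y := by
  ext w
  constructor
  · exact fun h => ⟨h.1.1, h.2⟩
  · exact fun h => ⟨⟨h.1, hM.le_trans h.2 h2⟩, h.2⟩

theorem Ic_Ge {M : R2} (hM : WO M) {x y z : ℕ} (h1 : ¬ lt M y x) :
    Ic M x z ∩ Ge M y = Ic M y z := by
  ext w
  constructor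
  · exact fun h => ⟨h.2, h.1.2⟩
  · exact fun h => ⟨⟨hM.le_trans h1 h.1, h.2⟩, h.1⟩

theorem genf_cnt_glue (hwo : ∀ M ∈ K, WO M) (hlaw : ∀ M ∈ K, ∀ N ∈ K, Law M N)
    {S : Set (R2 × Set ℕ)} (h : gCnt S) : gCnt (gGlue K S) := by
  obtain ⟨g, hg⟩ := h
  refine genf_code (C := (ℕ × ℕ) × ℕ × ℕ) (gGlue K S) (fun c P =>
    ∃ (M : R2) (x y z : ℕ), P = (M, Ic M x z) ∧ M ∈ K ∧ ¬ lt M y x ∧ ¬ lt M z y ∧
      IsoOn (lift (g c.1.1).1) (lift M) (g c.1.1).2 (Ic M x y) {(c.1.2, y)} ∧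
      IsoOn (lift (g c.2.1).1) (lift M) (g c.2.1).2 (Ic M y z) {(c.2.2, y)}) ?_ ?_
  · rintro P ⟨M, x, y, z, rfl, hM, h1, h2, hS, hS'⟩
    have hMo := hwo M hM
    obtain ⟨n, q, hq0, hq1, hq2, hq3, hq4⟩ := hg M _ hS
    obtain ⟨m, r, hr0, hr1, hr2, hr3, hr4⟩ := hg M _ hS'
    obtain ⟨y1, hy1⟩ := hq4 y ⟨h1, hMo.irr y⟩
    obtain ⟨y2, hy2⟩ := hr4 y ⟨hMo.irr y, h2⟩
    exact ⟨((n, y1), m, y2), M, x, y, z, rfl, hM, h1, h2,
      ⟨q, singleton_subset_iff.2 hy1, hq1, hq2, hq3, hq4⟩,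
      ⟨r, singleton_subset_iff.2 hy2, hr1, hr2, hr3, hr4⟩⟩
  · rintro ⟨⟨n, y1⟩, m, y2⟩ P - Q - ⟨M, x, y, z, rfl, hM, h1, h2, i1, i2⟩
      ⟨M', x', y', z', rfl, hM', h1', h2', i1', i2'⟩
    simp only at i1 i2 i1' i2' ⊢
    have j1 : IsoOn (lift M) (lift M') (Ic M x y) (Ic M' x' y') {(y, y')} := by
      refine (i1.symm.trans i1').mono ?_
      rintro u rfl
      exact ⟨y1, rfl, rfl⟩
    have j2 : IsoOn (lift M) (lift M') (Ic M y z) (Ic M' y' z') {(y, y')} := by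
      refine (i2.symm.trans i2').mono ?_
      rintro u rfl
      exact ⟨y2, rfl, rfl⟩
    refine (lawIso (hwo M hM) (hwo M' hM') (hlaw M hM M' hM') (c := y) (c' := y')
      ?_ ?_).mono (empty_subset _)
    · rw [Ic_Le (hwo M hM) h2, Ic_Le (hwo M' hM') h2']
      exact j1
    · rw [Ic_Ge (hwo M hM) h1, Ic_Ge (hwo M' hM') h1']
      exact j2

theorem genf_cnt (hwo : ∀ M ∈ K, WO M) (hlaw : ∀ M ∈ K, ∀ N ∈ K, Law M N)
    (f : ℕ → R2 × Set ℕ) (k : ℕ) : gCnt (gS K f k) := by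
  induction k with
  | zero =>
    refine genf_cnt_iso ⟨f, ?_⟩
    rintro M X ⟨n, hn⟩
    refine ⟨n, ?_⟩
    rw [hn]
    exact iso_refl0 _ _
  | succ k ih =>
    exact genf_cnt_iso (genf_cnt_union ih (genf_cnt_union (genf_cnt_sub hwo ih)
      (genf_cnt_glue hwo hlaw ih)))

theorem genf_subset_iso (S : Set (R2 × Set ℕ)) : S ⊆ gIso S :=
  fun P hP => ⟨P, hP, iso_refl0 _ _⟩

theorem genf_iso_iso (S : Set (R2 × Set ℕ)) {P Q : R2 × Set ℕ} (h : P ∈ gIso S)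
    (hi : IsoOn (lift P.1) (lift Q.1) P.2 Q.2 ∅) : Q ∈ gIso S := by
  obtain ⟨R, hR, hj⟩ := h
  exact ⟨R, hR, iso_trans0 hj hi⟩

theorem genf_mono (f : ℕ → R2 × Set ℕ) {k l : ℕ} (h : k ≤ l) : gS K f k ⊆ gS K f l := by
  induction l, h using Nat.le_induction with
  | base => exact Subset.rfl
  | succ l _ ih =>
    exact ih.trans (subset_union_left.trans (genf_subset_iso _))

theorem genf (hwo : ∀ M ∈ K, WO M) (hlaw : ∀ M ∈ K, ∀ N ∈ K, Law M N)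
    (f : ℕ → R2 × Set ℕ) : ∃ S : Set (R2 × Set ℕ), Fam K S ∧ ∀ n, f n ∈ S := by
  refine ⟨⋃ k, gS K f k, ⟨?_, ?_, ?_, ?_⟩, fun n => ?_⟩
  · intro M X N Y hM hi
    obtain ⟨k, hk⟩ := mem_iUnion.1 hM
    refine mem_iUnion.2 ⟨k, ?_⟩
    cases k with
    | zero => exact genf_iso_iso _ hk hi
    | succ k => exact genf_iso_iso _ hk hi
  · refine genf_code (C := ℕ × ℕ) _ (fun c P =>
      IsoOn (lift ((genf_cnt hwo hlaw f c.1).choose c.2).1) (lift P.1)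
        ((genf_cnt hwo hlaw f c.1).choose c.2).2 P.2 ∅) ?_ ?_
    · intro P hP
      obtain ⟨k, hk⟩ := mem_iUnion.1 hP
      obtain ⟨n, hn⟩ := (genf_cnt hwo hlaw f k).choose_spec P.1 P.2 hk
      exact ⟨(k, n), hn⟩
    · rintro c P - Q - h1 h2
      exact iso_trans0 (iso_symm0 h1) h2
  · intro M hM x y x' y' hS h1 h2 h3
    obtain ⟨k, hk⟩ := mem_iUnion.1 hS
    refine mem_iUnion.2 ⟨k + 1, genf_subset_iso _ (Or.inr (Or.inl ?_))⟩
    exact ⟨M, x, y, x', y', rfl, hM, hk, h1, h2, h3⟩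
  · intro M hM x y z h1 h2 hS hS'
    obtain ⟨k, hk⟩ := mem_iUnion.1 hS
    obtain ⟨l, hl⟩ := mem_iUnion.1 hS'
    refine mem_iUnion.2 ⟨max k l + 1, genf_subset_iso _ (Or.inr (Or.inr ?_))⟩
    exact ⟨M, x, y, z, rfl, hM, h1, h2, genf_mono f (le_max_left k l) hk,
      genf_mono f (le_max_right k l) hl⟩
  · exact mem_iUnion.2 ⟨0, genf_subset_iso _ (mem_range_self n)⟩

/-- GENU -/
theorem genu (hwo : ∀ M ∈ K, WO M) (hlaw : ∀ M ∈ K, ∀ N ∈ K, Law M N) {ι : Type*} [Countable ι]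
    (F : ι → Set (R2 × Set ℕ)) (hF : ∀ i, Fam K (F i)) :
    ∃ S : Set (R2 × Set ℕ), Fam K S ∧ ∀ i, F i ⊆ S := by
  choose g hg using fun i => (hF i).cnt
  rcases isEmpty_or_nonempty ι with he | hne
  · obtain ⟨S, hS, -⟩ := genf hwo hlaw (fun _ => (R0, ∅))
    exact ⟨S, hS, fun i => (he.false i).elim⟩
  · obtain ⟨e, he⟩ := exists_surjective_nat (ι × ℕ)
    obtain ⟨S, hS, hf⟩ := genf hwo hlaw (fun n => g (e n).1 (e n).2)
    refine ⟨S, hS, fun i => ?_⟩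
    rintro ⟨M, X⟩ hMX
    obtain ⟨n, hn⟩ := hg i M X hMX
    obtain ⟨k, hk⟩ := he (i, n)
    have h1 : g i n ∈ S := by
      have := hf k
      rw [hk] at this
      exact this
    exact hS.iso _ _ M X h1 hn

/-- Scott levels for pieces -/
def Lev (S : Set (R2 × Set ℕ)) (l : Ordinal.{0}) : Prop :=
  ∀ (M : R2) (X : Set ℕ) (N : R2) (Y : Set ℕ) (p : Set (ℕ × ℕ)), (M, X) ∈ S → p.Finite →
    p ⊆ X ×ˢ Y → BF (lift M) (lift N) X Y l p → IsoOn (lift M) (lift N) X Y p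

theorem lev {S : Set (R2 × Set ℕ)} (hS : Fam K S) :
    ∃ l : Ordinal.{0}, l < Ordinal.omega 1 ∧ Ordinal.omega0 ≤ l ∧ Lev S l := by
  obtain ⟨f, hf⟩ := hS.cnt
  obtain ⟨S', hS', hf'⟩ := Pool.Agent.H533R2.VO.t_GENF ar (fun n => (lift (f n).1, (f n).2))
  obtain ⟨l, h1, h2, h3⟩ := Pool.Agent.H533R2.VO.t_LEV ar S' hS'
  refine ⟨l, h1, h2, fun M X N Y p hM hp hp' hb => h3 _ _ _ _ p ?_ hp hp' hb⟩
  obtain ⟨n, hn⟩ := hf M X hM
  exact hS'.iso _ _ _ _ (hf' n) hn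

theorem lift_measurable : Measurable (lift : R2 → St ar) := measurable_const.prodMk measurable_id

theorem meas_mem {S : Set (R2 × Set ℕ)} {l : Ordinal.{0}} (hS : Fam K S) (hl : Lev S l)
    (hl1 : l < Ordinal.omega 1) (x y : ℕ) : MeasurableSet {M : R2 | (M, Ic M x y) ∈ S} := by
  obtain ⟨f, hf⟩ := hS.cnt
  have hZ : ∀ z, MeasurableSet {M : R2 | z ∈ Ic M x y} := fun z =>
    (meas_lt z x).compl.inter (meas_lt y z).compl
  have he : {M : R2 | (M, Ic M x y) ∈ S} = ⋃ n ∈ {n : ℕ | f n ∈ S},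
      {M : R2 | BF (lift (f n).1) (lift M) (f n).2 (Ic M x y) l ∅} := by
    ext M
    simp only [Set.mem_iUnion]
    constructor
    · intro hM
      obtain ⟨n, hn⟩ := hf M _ hM
      exact ⟨n, hS.iso _ _ _ _ hM (iso_symm0 hn), hn.bf l⟩
    · rintro ⟨n, hn, hb⟩
      have hn' : ((f n).1, (f n).2) ∈ S := hn
      have := hl _ _ _ _ ∅ hn' Set.finite_empty (empty_subset _) hb
      exact hS.iso _ _ _ _ hn' this
  rw [he]
  exact MeasurableSet.biUnion (Set.to_countable _)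
    (fun n _ => msg ar (lift (f n).1) (f n).2 R2 lift (fun M => Ic M x y) lift_measurable hZ l
      hl1 ∅)

/-- membership in the family is preserved by equivalences of rank `l` -/
theorem mem_bf {S : Set (R2 × Set ℕ)} {l : Ordinal.{0}} (hS : Fam K S) (hl : Lev S l)
    {M N : R2} {x y x' y' : ℕ}
    (h : BF (lift M) (lift N) univ univ l {(x, x'), (y, y')}) :
    (M, Ic M x y) ∈ S ↔ (N, Ic N x' y') ∈ S := by
  have h1 := resIcU (c := x) (c' := x') (d := y) (d' := y') (Or.inl rfl) (Or.inr rfl) h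
  have h2 := h1.subset (empty_subset _)
  constructor
  · intro hm
    exact hS.iso _ _ _ _ hm (hl _ _ _ _ ∅ hm Set.finite_empty (empty_subset _) h2)
  · intro hm
    exact hS.iso _ _ _ _ hm
      (hl _ _ _ _ ∅ hm Set.finite_empty (empty_subset _) (bf_symm0 h2))

theorem mem_Lw_bf {S : Set (R2 × Set ℕ)} {l : Ordinal.{0}} (hS : Fam K S) (hl : Lev S l)
    {M N : R2} {x y x' y' : ℕ} {q : Set (ℕ × ℕ)} (h : BF (lift M) (lift N) univ univ l q)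
    (hx : (x, x') ∈ q) (hy : (y, y') ∈ q) : y ∈ Lw S M x ↔ y' ∈ Lw S N x' := by
  have h1 : BF (lift M) (lift N) univ univ l {(x, x'), (y, y')} :=
    h.subset (by rintro u (rfl | rfl) <;> assumption)
  unfold Lw
  rw [mem_ofPred_eq, mem_ofPred_eq, mem_bf hS hl h1, piso_lt h.piso hy hx]

theorem mem_Uw_bf {S : Set (R2 × Set ℕ)} {l : Ordinal.{0}} (hS : Fam K S) (hl : Lev S l)
    {M N : R2} {x y x' y' : ℕ} {q : Set (ℕ × ℕ)} (h : BF (lift M) (lift N) univ univ l q)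
    (hx : (x, x') ∈ q) (hy : (y, y') ∈ q) : y ∈ Uw S M x ↔ y' ∈ Uw S N x' := by
  have h1 : BF (lift M) (lift N) univ univ l {(y, y'), (x, x')} :=
    h.subset (by rintro u (rfl | rfl) <;> assumption)
  unfold Uw
  rw [mem_ofPred_eq, mem_ofPred_eq, mem_bf hS hl h1, piso_lt h.piso hx hy]

end Pool.Agent.Run7.h201.CS
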