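import Pool.Agent.Run7.h201.CS.Gen
import Pool.Agent.Y839.TF.Fill

set_option autoImplicit false

/-!
# Coherent preorders: variations in place
-/

namespace Pool.Agent.Run7.h201.CS

open Set
open Pool.Agent.H899R2.VP (St Adj PIso BF IsoOn idOn inv comp zipSet mem_inv BF_iff zipSet_cons
  zipSet_nil_left labels idOn_mono)
open Pool.Agent.H533R2.VO (RS lift RIso Dich resBF resIso)
open Pool.Agent.H566P (ar R2 lt ac co mk)
open Pool.Agent.Y560.TG (lt_mk ac_mk co_mk piso_iff ex lt_ex ac_ex co_ex_even co_ex_odd piso_ex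
  bf_trans0 bf_symm0 iso_trans0 iso_symm0 iso_refl0 Off riso_isoOn piso_lt piso_co mat msg
  meas_lt R2_ext cont_into)
open Pool.Agent.Y839.TF (Var off_var off_refl)

theorem off_E {O : Set ℕ} {R V : R2} (h : Off O R V) {x y : ℕ} (hxy : ¬ (x ∈ O ∧ y ∈ O)) :
    E V R x y x y := by
  have hyx : ¬ (y ∈ O ∧ x ∈ O) := fun h => hxy ⟨h.2, h.1⟩
  exact E_iff.2 ⟨h.1 x y hxy, h.1 y x hyx, fun n => ⟨h.2.1 n x y hxy, h.2.1 n y x hyx⟩⟩

section glu

variable {ι : Type} {M : R2} {O : ι → Set ℕ} {V : ι → R2}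

open Classical in
/-- Replace, for every `j`, the structure on `O j` by that of `V j`. -/
noncomputable def Glu (M : R2) (O : ι → Set ℕ) (V : ι → R2) : R2 :=
  mk (fun x y => if h : ∃ j, x ∈ O j ∧ y ∈ O j then lt (V h.choose) x y else lt M x y)
    (fun n x y => if h : ∃ j, x ∈ O j ∧ y ∈ O j then ac (V h.choose) n x y else ac M n x y)
    (fun n x => if h : ∃ j, x ∈ O j then co (V h.choose) n x else co M n x)

theorem Glu_in (hd : ∀ i j, i ≠ j → Disjoint (O i) (O j)) {j : ι} {x y : ℕ} (hx : x ∈ O j)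
    (hy : y ∈ O j) : E (Glu M O V) (V j) x y x y := by
  have key : ∀ x y, x ∈ O j → y ∈ O j → ∀ h : ∃ j, x ∈ O j ∧ y ∈ O j, h.choose = j := by
    intro x y hx hy h
    by_contra hne
    exact Set.disjoint_left.1 (hd _ _ hne) h.choose_spec.1 hx
  have h1 : ∃ j, x ∈ O j ∧ y ∈ O j := ⟨j, hx, hy⟩
  have h2 : ∃ j, y ∈ O j ∧ x ∈ O j := ⟨j, hy, hx⟩
  unfold Glu
  rw [E_iff]
  simp only [lt_mk, ac_mk, dif_pos h1, dif_pos h2, key x y hx hy h1, key y x hy hx h2]
  exact ⟨trivial, trivial, fun _ => ⟨trivial, trivial⟩⟩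

theorem Glu_co (hd : ∀ i j, i ≠ j → Disjoint (O i) (O j)) {j : ι} {x n : ℕ} (hx : x ∈ O j) :
    co (Glu M O V) n x ↔ co (V j) n x := by
  have h1 : ∃ j, x ∈ O j := ⟨j, hx⟩
  have h2 : h1.choose = j := by
    by_contra hne
    exact Set.disjoint_left.1 (hd _ _ hne) h1.choose_spec hx
  unfold Glu
  simp only [co_mk, dif_pos h1, h2]

theorem Glu_out {x y : ℕ} (h : ∀ j, x ∈ O j → y ∉ O j) : E (Glu M O V) M x y x y := by
  have h1 : ¬ ∃ j, x ∈ O j ∧ y ∈ O j := fun ⟨j, h1, h2⟩ => h j h1 h2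
  have h2 : ¬ ∃ j, y ∈ O j ∧ x ∈ O j := fun ⟨j, h1, h2⟩ => h j h2 h1
  unfold Glu
  rw [E_iff]
  simp only [lt_mk, ac_mk, dif_neg h1, dif_neg h2]
  exact ⟨trivial, trivial, fun _ => ⟨trivial, trivial⟩⟩

theorem Glu_co_out {x n : ℕ} (h : ∀ j, x ∉ O j) : co (Glu M O V) n x ↔ co M n x := by
  have h1 : ¬ ∃ j, x ∈ O j := fun ⟨j, h1⟩ => h j h1
  unfold Glu
  simp only [co_mk, dif_neg h1]

/-- Continuity of gluing. -/
theorem Glu_cont (O : ι → Set ℕ) (T : ι → (ℕ → Bool) → R2) (hT : ∀ j, Continuous (T j)) :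
    Continuous fun σ : ℕ → Bool => Glu M O (fun j => T j σ) := by
  have hclo : ∀ (j : ι) (i : ℕ) (v : Fin (ar i) → ℕ), IsClopen {σ | (T j σ) i v = true} := by
    intro j i v
    have : Continuous fun σ => (T j σ) i v :=
      (continuous_apply v).comp ((continuous_apply i).comp (hT j))
    exact (isClopen_discrete {true}).preimage this
  refine cont_into (fun x y => ?_) (fun n x y => ?_) (fun n x => ?_)
  · by_cases h : ∃ j, x ∈ O j ∧ y ∈ O j
    · have e : {σ | lt (Glu M O fun j => T j σ) x y} = {σ | lt (T h.choose σ) x y} := by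
        ext σ
        simp only [Glu, lt_mk, dif_pos h, mem_ofPred_eq]
      rw [e]
      exact hclo _ _ _
    · have e : {σ | lt (Glu M O fun j => T j σ) x y} = {_σ | lt M x y} := by
        ext σ
        simp only [Glu, lt_mk, dif_neg h, mem_ofPred_eq]
      rw [e]
      by_cases h' : lt M x y
      · simp only [h', ofPred_true]; exact isClopen_univ
      · simp only [h', ofPred_false]; exact isClopen_empty
  · by_cases h : ∃ j, x ∈ O j ∧ y ∈ O j
    · have e : {σ | ac (Glu M O fun j => T j σ) n x y} = {σ | ac (T h.choose σ) n x y} := by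
        ext σ
        simp only [Glu, ac_mk, dif_pos h, mem_ofPred_eq]
      rw [e]
      exact hclo _ _ _
    · have e : {σ | ac (Glu M O fun j => T j σ) n x y} = {_σ | ac M n x y} := by
        ext σ
        simp only [Glu, ac_mk, dif_neg h, mem_ofPred_eq]
      rw [e]
      by_cases h' : ac M n x y
      · simp only [h', ofPred_true]; exact isClopen_univ
      · simp only [h', ofPred_false]; exact isClopen_empty
  · by_cases h : ∃ j, x ∈ O j
    · have e : {σ | co (Glu M O fun j => T j σ) n x} = {σ | co (T h.choose σ) n x} := by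
        ext σ
        simp only [Glu, co_mk, dif_pos h, mem_ofPred_eq]
      rw [e]
      exact hclo _ _ _
    · have e : {σ | co (Glu M O fun j => T j σ) n x} = {_σ | co M n x} := by
        ext σ
        simp only [Glu, co_mk, dif_neg h, mem_ofPred_eq]
      rw [e]
      by_cases h' : co M n x
      · simp only [h', ofPred_true]; exact isClopen_univ
      · simp only [h', ofPred_false]; exact isClopen_empty

open Classical in
/-- the part of `x` -/
noncomputable def gpi (O : ι → Set ℕ) (x : ℕ) : Option ι :=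
  if h : ∃ j, x ∈ O j then some h.choose else none

theorem gpi_some (hd : ∀ i j, i ≠ j → Disjoint (O i) (O j)) {x : ℕ} {j : ι} :
    gpi O x = some j ↔ x ∈ O j := by
  unfold gpi
  constructor
  · intro h
    split_ifs at h with h1
    cases h
    exact h1.choose_spec
  · intro h
    have h1 : ∃ j, x ∈ O j := ⟨j, h⟩
    rw [dif_pos h1]
    by_contra hne
    exact Set.disjoint_left.1 (hd h1.choose j (fun e => hne (by rw [e]))) h1.choose_spec h

theorem gpi_none {x : ℕ} : gpi O x = none ↔ ∀ j, x ∉ O j := by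
  unfold gpi
  split_ifs with h
  · simp only [false_iff]
    intro h2
    obtain ⟨j, hj⟩ := h
    exact h2 j hj
  · simp only [true_iff]
    intro j hj
    exact h ⟨j, hj⟩

/-- Gluing variations of disjoint modules. -/
theorem glu_bf (hd : ∀ i j, i ≠ j → Disjoint (O i) (O j)) {b : ι → ℕ → ℕ}
    (hm : ∀ j, Mod (O j) (b j) M) (hv : ∀ j, Off (O j) M (V j)) {α : Ordinal.{0}}
    (hb : ∀ j, BF (lift (lc M (b j))) (lift (lc (V j) (b j))) (O j) (O j) α ∅) :
    BF (lift M) (lift (Glu M O V)) univ univ α (idOn {x | ∀ j, x ∉ O j}) := by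
  set Mc : Option ι → R2 := fun c => match c with
    | none => ex (fun k v => v = k) M
    | some j => lc M (b j) with hMc
  set Nc : Option ι → R2 := fun c => match c with
    | none => ex (fun k v => v = k) M
    | some j => lc (V j) (b j) with hNc
  refine gsumBF (gpi O) (gpi O) Mc Nc univ univ (idOn {x | ∀ j, x ∉ O j}) ?_ α _ Subset.rfl ?_
    (fun u hu => Or.inl hu) ?_
  · intro q _ hπ _ hp
    have hn : ∀ u ∈ q, gpi O u.1 = none → u.1 = u.2 := by
      intro u hu h
      have h1 := hp none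
      have h2 := (piso_ex.1 h1).2 u.1 u ⟨hu, h⟩
      exact (h2.1 rfl).symm
    have hin : ∀ u ∈ q, ∀ j, (u.1 ∈ O j ↔ u.2 ∈ O j) := by
      intro u hu j
      rw [← gpi_some hd, ← gpi_some hd, hπ u hu]
    have hA : ∀ u ∈ q, ∀ w, (∀ j, u.1 ∈ O j → w ∉ O j) → E M M u.1 w u.2 w := by
      intro u hu w hw
      by_cases h : ∃ j, u.1 ∈ O j
      · obtain ⟨j, hj⟩ := h
        have hj2 := (hin u hu j).1 hj
        have h1 := hp (some j)
        refine ((hm j).2 u.1 hj u.2 hj2 (fun i => ?_) w (hw j hj)).swap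
        have h2 := (piso_lc.1 h1).2 u ⟨hu, (gpi_some hd).2 hj⟩ i
        exact h2.trans (off_E (hv j) fun h => (hm j).1 i h.1)
      · push Not at h
        rw [← hn u hu (gpi_none.2 h)]
        exact E.rfl
    rw [piso_E]
    refine ⟨?_, ?_, ?_⟩
    · intro u hu v hv'
      by_cases h : gpi O u.1 = gpi O v.1
      · exact (hp (gpi O u.1)).1 u ⟨hu, rfl⟩ v ⟨hv', h.symm⟩
      · constructor
        · intro e
          exact absurd (by rw [e]) h
        · intro e
          exact absurd (by rw [hπ u hu, hπ v hv', e]) h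
    · intro u hu v hv'
      by_cases h : gpi O u.1 = gpi O v.1
      · cases h1 : gpi O u.1 with
        | none =>
          have h2 : gpi O v.1 = none := by rw [← h, h1]
          rw [← hn u hu h1, ← hn v hv' h2]
          exact (Glu_out fun j hj => absurd hj (gpi_none.1 h1 j)).symm
        | some j =>
          have h2 : gpi O v.1 = some j := by rw [← h, h1]
          have h3 := (hin u hu j).1 ((gpi_some hd).1 h1)
          have h4 := (hin v hv' j).1 ((gpi_some hd).1 h2)
          have h5 := (piso_lc.1 (hp (some j))).1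
          exact ((piso_E.1 h5).2.1 u ⟨hu, h1⟩ v ⟨hv', h2⟩).trans (Glu_in hd h3 h4).symm
      · have h1 : ∀ j, u.1 ∈ O j → v.1 ∉ O j := by
          intro j hj hj'
          exact h (by rw [(gpi_some hd).2 hj, (gpi_some hd).2 hj'])
        have h2 : ∀ j, v.1 ∈ O j → u.2 ∉ O j := fun j hj hj' =>
          h1 j ((hin u hu j).2 hj') hj
        have h3 : ∀ j, u.2 ∈ O j → v.2 ∉ O j := fun j hj hj' =>
          h1 j ((hin u hu j).2 hj) ((hin v hv' j).2 hj')
        exact ((hA u hu v.1 h1).trans (hA v hv' u.2 h2).swap).trans (Glu_out h3).symm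
    · intro n u hu
      cases h1 : gpi O u.1 with
      | none =>
        rw [← hn u hu h1, Glu_co_out (gpi_none.1 h1)]
      | some j =>
        have h3 := (hin u hu j).1 ((gpi_some hd).1 h1)
        rw [Glu_co hd h3]
        exact (piso_E.1 (piso_lc.1 (hp (some j))).1).2.2 n u ⟨hu, h1⟩
  · rintro ⟨x, y⟩ ⟨h, _⟩
    simp only at h
    rw [h]
  · intro c
    cases c with
    | none =>
      have e : {x | x ∈ (univ : Set ℕ) ∧ gpi O x = none} = {x | ∀ j, x ∉ O j} := by
        ext x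
        simp only [mem_univ, true_and, mem_ofPred_eq, gpi_none]
      rw [e]
      exact (BF.refl _ _ _).subset fun u hu => hu.1
    | some j =>
      have e : {x | x ∈ (univ : Set ℕ) ∧ gpi O x = some j} = O j := by
        ext x
        simp only [mem_univ, true_and, mem_ofPred_eq, gpi_some hd]
      rw [e]
      refine (hb j).subset ?_
      rintro u ⟨hu, h⟩
      exact absurd ((gpi_some hd).1 h) (hu.2 j)

end glu

/-- A variation of a module in place. -/
theorem off_bf {O : Set ℕ} {b : ℕ → ℕ} {M V : R2} (hm : Mod O b M) (hv : Off O M V)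
    {α : Ordinal.{0}} (hb : BF (lift (lc M b)) (lift (lc V b)) O O α ∅) :
    BF (lift M) (lift V) univ univ α (idOn Oᶜ) := by
  have hd : ∀ i j : Unit, i ≠ j → Disjoint ((fun _ : Unit => O) i) ((fun _ : Unit => O) j) :=
    fun i j h => absurd rfl h
  have h := glu_bf (ι := Unit) (M := M) (O := fun _ => O) (V := fun _ => V) hd
    (b := fun _ => b) (fun _ => hm) (fun _ => hv) (fun _ => hb)
  have e : Glu M (fun _ : Unit => O) (fun _ => V) = V := by
    have hE : ∀ x y, E (Glu M (fun _ : Unit => O) (fun _ => V)) V x y x y := by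
      intro x y
      by_cases hxy : x ∈ O ∧ y ∈ O
      · exact Glu_in (j := ()) hd hxy.1 hxy.2
      · exact (Glu_out fun _ hx hy => hxy ⟨hx, hy⟩).trans (off_E hv hxy).symm
    refine R2_ext (fun x y => (hE x y).l) (fun n x y => (hE x y).a n) (fun n x => ?_)
    by_cases hx : x ∈ O
    · exact Glu_co (j := ()) hd hx
    · rw [Glu_co_out fun _ => hx, hv.2.2 n x hx]
  rw [e] at h
  refine h.subset (idOn_mono fun x hx _ => hx)

/-- matching -/
def fmt (R : R2) (b : ℕ → ℕ) (T : R2) (v w : ℕ) : Prop := ∀ k, La R b k v ↔ co T (2 * k + 1) w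

theorem fill_iso {R T : R2} {O Y : Set ℕ} {b : ℕ → ℕ} (hO : ∀ i, b i ∉ O)
    (hbf : BF (lift (lc R b)) (lift T) O Y Ordinal.omega0 ∅) :
    IsoOn (lift T) (lift (lc (Var O (mat O Y (fmt R b T)) R T) b)) Y O ∅ := by
  obtain ⟨m1, m2, m3⟩ := Pool.Agent.Y563.TG.t_MAT (lc R b) T O Y (fmt R b T)
    (fun v w v' w' a b c k => (a k).trans ((b k).symm.trans (c k)))
    hbf
    (by
      intro q x y hxy hb k
      have h1 := piso_co hb.piso (n := 2 * k + 1) hxy
      unfold lc at h1
      rwa [co_ex_odd] at h1)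
  set φ := mat O Y (fmt R b T) with hφ
  have hoff := off_var O φ R T
  have hLa : ∀ v ∈ O, ∀ k, La (Var O φ R T) b k v ↔ La R b k v := by
    intro v hv k
    exact off_E hoff (fun h => hO _ h.1) _
  refine ⟨{u | u.2 ∈ O ∧ u.1 = φ u.2}, empty_subset _, ?_, ?_, ?_, ?_⟩
  · rintro ⟨u, v⟩ ⟨h1, h2⟩
    simp only at h1 h2
    exact ⟨by rw [h2]; exact (m1 v h1).1, h1⟩
  · rw [piso_iff]
    refine ⟨?_, ?_, ?_, ?_⟩
    · rintro ⟨u, u'⟩ ⟨h1, h2⟩ ⟨v, v'⟩ ⟨h3, h4⟩
      simp only at h1 h2 h3 h4 ⊢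
      subst h2 h4
      exact ⟨fun h => m2 h1 h3 h, fun h => by rw [h]⟩
    · rintro ⟨u, u'⟩ ⟨h1, h2⟩ ⟨v, v'⟩ ⟨h3, h4⟩
      simp only at h1 h2 h3 h4 ⊢
      subst h2 h4
      unfold lc
      rw [lt_ex]
      unfold Var
      rw [lt_mk, if_pos ⟨h1, h3⟩]
    · rintro n ⟨u, u'⟩ ⟨h1, h2⟩ ⟨v, v'⟩ ⟨h3, h4⟩
      simp only at h1 h2 h3 h4 ⊢
      subst h2 h4
      unfold lc
      rw [ac_ex]
      unfold Var
      rw [ac_mk, if_pos ⟨h1, h3⟩]
    · rintro n ⟨u, u'⟩ ⟨h1, h2⟩
      simp only at h1 h2 ⊢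
      subst h2
      obtain ⟨k, rfl | rfl⟩ : ∃ k, n = 2 * k ∨ n = 2 * k + 1 := ⟨n / 2, by omega⟩
      · unfold lc
        rw [co_ex_even]
        unfold Var
        rw [co_mk, if_pos h1]
      · unfold lc
        rw [co_ex_odd, hLa u' h1]
        exact ((m1 u' h1).2 k).symm
  · intro y hy
    obtain ⟨x, hx, hxy⟩ := m3 y hy
    exact ⟨x, hx, hxy.symm⟩
  · intro x hx
    exact ⟨φ x, hx, rfl⟩

/-- FILL -/
theorem fill {R T : R2} {O Y : Set ℕ} {b : ℕ → ℕ} {α : Ordinal.{0}} (hMod : Mod O b R)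
    (hα : Ordinal.omega0 ≤ α) (hbf : BF (lift (lc R b)) (lift T) O Y α ∅) :
    ∃ V : R2, Off O R V ∧ IsoOn (lift T) (lift (lc V b)) Y O ∅ ∧
      BF (lift (lc R b)) (lift (lc V b)) O O α ∅ ∧
      BF (lift R) (lift V) univ univ α (idOn Oᶜ) := by
  have h1 := fill_iso hMod.1 (hbf.mono hα)
  have h2 := bf_trans0 hbf (h1.bf α)
  exact ⟨_, off_var O _ R T, h1, h2, off_bf hMod (off_var O _ R T) h2⟩

end Pool.Agent.Run7.h201.CS
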