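import Pool.Agent.Run7.h201.CS.Defs

set_option autoImplicit false

/-!
# Coherent preorders: restriction to intervals, gluing at a point, labels of intervals
-/

namespace Pool.Agent.Run7.h201.CS

open Set
open Pool.Agent.H899R2.VP (St Adj PIso BF IsoOn idOn inv comp zipSet mem_inv BF_iff)
open Pool.Agent.H533R2.VO (RS lift RIso Dich resBF resIso)
open Pool.Agent.H566P (ar R2 lt ac co mk)
open Pool.Agent.Y560.TG (lt_mk ac_mk co_mk piso_iff ex lt_ex ac_ex co_ex_even co_ex_odd piso_ex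
  bf_trans0 bf_symm0 iso_trans0 iso_symm0 iso_refl0 Off riso_isoOn piso_lt piso_co)

variable {M N : R2} {X Y : Set ℕ} {p : Set (ℕ × ℕ)} {o : Ordinal.{0}} {c c' d d' x y z : ℕ}

theorem mem_Ic_iff {q : Set (ℕ × ℕ)} (hq : PIso (lift M) (lift N) q) (hc : (c, c') ∈ q)
    (hd : (d, d') ∈ q) {x y : ℕ} (hx : (x, y) ∈ q) : x ∈ Ic M c d ↔ y ∈ Ic N c' d' := by
  rw [mem_Ic, mem_Ic, piso_lt hq hx hc, piso_lt hq hd hx]

theorem resIc (hc : (c, c') ∈ p) (hd : (d, d') ∈ p) (hb : BF (lift M) (lift N) X Y o p) :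
    BF (lift M) (lift N) (X ∩ Ic M c d) (Y ∩ Ic N c' d') o p := by
  refine resBF inter_subset_left inter_subset_left (fun x hx y hy hp => ?_) hb
  have := mem_Ic_iff hp (mem_insert_of_mem _ hc) (mem_insert_of_mem _ hd) (mem_insert _ _)
  exact ⟨fun h => ⟨hy, this.1 h.2⟩, fun h => ⟨hx, this.2 h.2⟩⟩

theorem resIcU (hc : (c, c') ∈ p) (hd : (d, d') ∈ p)
    (hb : BF (lift M) (lift N) univ univ o p) :
    BF (lift M) (lift N) (Ic M c d) (Ic N c' d') o p := by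
  have := resIc hc hd hb
  rwa [univ_inter, univ_inter] at this

theorem isoIc (hc : (c, c') ∈ p) (hd : (d, d') ∈ p) (hb : IsoOn (lift M) (lift N) X Y p) :
    IsoOn (lift M) (lift N) (X ∩ Ic M c d) (Y ∩ Ic N c' d') {u | u ∈ p ∧ u.1 ∈ Ic M c d} := by
  refine (resIso (X' := X ∩ Ic M c d) (Y' := Y ∩ Ic N c' d') inter_subset_left
    inter_subset_left (fun x hx y hy hp => ?_) hb).mono ?_
  · have := mem_Ic_iff hp (mem_insert_of_mem _ hc) (mem_insert_of_mem _ hd) (mem_insert _ _)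
    exact ⟨fun h => ⟨hy, this.1 h.2⟩, fun h => ⟨hx, this.2 h.2⟩⟩
  · obtain ⟨q, h1, h2, _⟩ := hb
    exact fun u hu => ⟨hu.1, (h2 (h1 hu.1)).1, hu.2⟩

/-- Gluing at a point. -/
theorem lawIso (hM : WO M) (hN : WO N) (hL : Law M N)
    (h1 : IsoOn (lift M) (lift N) (X ∩ Le M c) (Y ∩ Le N c') {(c, c')})
    (h2 : IsoOn (lift M) (lift N) (X ∩ Ge M c) (Y ∩ Ge N c') {(c, c')}) :
    IsoOn (lift M) (lift N) X Y {(c, c')} := by
  obtain ⟨q1, a1, a2, a3, a4, a5⟩ := h1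
  obtain ⟨q2, b1, b2, b3, b4, b5⟩ := h2
  have a1' : (c, c') ∈ q1 := a1 rfl
  have b1' : (c, c') ∈ q2 := b1 rfl
  have a3' := piso_E.1 a3
  have b3' := piso_E.1 b3
  have hlt : ∀ u ∈ q1, lt M u.1 c → lt N u.2 c' := fun u hu h =>
    (piso_lt a3 (show (u.1, u.2) ∈ q1 from hu) a1').1 h
  have hge : ∀ u ∈ q2, ¬ lt N u.2 c' := fun u hu h =>
    (b2 hu).1.2 ((piso_lt b3 (show (u.1, u.2) ∈ q2 from hu) b1').2 h)
  have hE : ∀ u ∈ q1, lt M u.1 c → ∀ v ∈ q2, E M N u.1 v.1 u.2 v.2 := by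
    intro u hu hu' v hv
    exact hL u.1 c v.1 u.2 c' v.2 (hM.asymm hu') (b2 hv).1.2
      (piso_pair a3 (show (u.1, u.2) ∈ q1 from hu) a1')
      (piso_pair b3 b1' (show (v.1, v.2) ∈ q2 from hv))
  refine ⟨{u | u ∈ q1 ∧ lt M u.1 c} ∪ q2, ?_, ?_, ?_, ?_, ?_⟩
  · rw [singleton_subset_iff]
    exact Or.inr b1'
  · rintro u (hu | hu)
    · exact ⟨(a2 hu.1).1.1, (a2 hu.1).2.1⟩
    · exact ⟨(b2 hu).1.1, (b2 hu).2.1⟩
  · rw [piso_E]
    refine ⟨?_, ?_, ?_⟩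
    · rintro u (hu | hu) v (hv | hv)
      · exact a3'.1 u hu.1 v hv.1
      · constructor
        · intro e
          exact absurd (e ▸ hu.2) (b2 hv).1.2
        · intro e
          exact absurd (e ▸ hlt u hu.1 hu.2) (hge v hv)
      · constructor
        · intro e
          exact absurd (e.symm ▸ hv.2) (b2 hu).1.2
        · intro e
          exact absurd (e.symm ▸ hlt v hv.1 hv.2) (hge u hu)
      · exact b3'.1 u hu v hv
    · rintro u (hu | hu) v (hv | hv)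
      · exact a3'.2.1 u hu.1 v hv.1
      · exact hE u hu.1 hu.2 v hv
      · exact (hE v hv.1 hv.2 u hu).swap
      · exact b3'.2.1 u hu v hv
    · rintro n u (hu | hu)
      · exact a3'.2.2 n u hu.1
      · exact b3'.2.2 n u hu
  · intro x hx
    by_cases hxc : lt M x c
    · obtain ⟨y, hy⟩ := a4 x ⟨hx, hM.asymm hxc⟩
      exact ⟨y, Or.inl ⟨hy, hxc⟩⟩
    · obtain ⟨y, hy⟩ := b4 x ⟨hx, hxc⟩
      exact ⟨y, Or.inr hy⟩
  · intro y hy
    by_cases hyc : lt N y c'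
    · obtain ⟨x, hx⟩ := a5 y ⟨hy, hN.asymm hyc⟩
      exact ⟨x, Or.inl ⟨hx, (piso_lt a3 hx a1').2 hyc⟩⟩
    · obtain ⟨x, hx⟩ := b5 y ⟨hy, hyc⟩
      exact ⟨x, Or.inr hx⟩

/-- The interior of an interval. -/
theorem mod_int (hM : WO M) (hL : Law M M) :
    Mod (Ic M x y \ {x, y}) (bs x y) M := by
  refine ⟨bs_notMem (fun h => h.2 (Or.inl rfl)) (fun h => h.2 (Or.inr rfl)), ?_⟩
  intro z hz z' hz' h w hw
  rw [E_bs] at h
  by_cases hwx : w = x
  · rw [hwx]; exact h.1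
  by_cases hwy : w = y
  · rw [hwy]; exact h.2
  have hw' : w ∉ Ic M x y := by
    intro h'
    refine hw ⟨h', ?_⟩
    rintro (h'' | h'')
    · exact hwx h''
    · exact hwy h''
  have hw2 : lt M w x ∨ lt M y w := by
    by_contra hcon
    push Not at hcon
    exact hw' hcon
  rcases hw2 with h1 | h1
  · exact hL w x z w x z' (hM.asymm h1) hz.1.1 E.rfl h.1
  · exact (hL z y w z' y w hz.1.2 (hM.asymm h1) h.2.swap E.rfl).swap

theorem Ic_sub (hM : WO M) {x' y' : ℕ} (h1 : ¬ lt M x' x) (h3 : ¬ lt M y y') :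
    Ic M x' y' ⊆ Ic M x y := fun _ h => ⟨hM.le_trans h1 h.1, hM.le_trans h.2 h3⟩

end Pool.Agent.Run7.h201.CS
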