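import Pool.Agent.Run7.h201.CS.Str

set_option autoImplicit false

/-!
# Additive colourings of linear orders in countable semigroups
-/

namespace Pool.Agent.Run7.h201.CS.SEM

open Set MeasureTheory
open Pool.Agent.H533R2.VO (RS lift RIso Dich)
open Pool.Agent.H566P (ar R2 lt ac co mk)
open Pool.Agent.Y560.TG (lt_mk ac_mk co_mk riso_iff R2_ext meas_into meas_lt meas_ac meas_co
  cont_into)
open Pool.Agent.Run7.h201.CS

/-- `a` is in the ideal generated by `b` -/
def JLe {S : Type} [Semigroup S] (a b : S) : Prop :=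
  a = b ∨ (∃ u, a = u * b) ∨ (∃ v, a = b * v) ∨ ∃ u v, a = u * b * v

/-- stable, with ascending chain condition on principal ideals -/
structure StA (S : Type) [Semigroup S] : Prop where
  acc : ∀ s : ℕ → S, (∀ n, JLe (s n) (s (n + 1))) → ∃ n, JLe (s (n + 1)) (s n)
  right : ∀ a b : S, JLe a (a * b) → a = a * b ∨ ∃ u, a = a * b * u
  left : ∀ a b : S, JLe b (a * b) → b = a * b ∨ ∃ u, b = u * (a * b)

/-- cancellative -/
def Canc (S : Type) [Semigroup S] : Prop :=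
  (∀ a b c : S, a * b = a * c → b = c) ∧ ∀ a b c : S, a * c = b * c → a = b

section jle

variable {S : Type} [Semigroup S]

theorem JLe.rfl' (a : S) : JLe a a := Or.inl rfl

theorem JLe.trans {a b c : S} (h : JLe a b) (h' : JLe b c) : JLe a c := by
  rcases h' with rfl | ⟨u, rfl⟩ | ⟨v, rfl⟩ | ⟨u, v, rfl⟩
  · exact h
  · rcases h with rfl | ⟨s, rfl⟩ | ⟨t, rfl⟩ | ⟨s, t, rfl⟩
    · exact Or.inr (Or.inl ⟨u, rfl⟩)
    · exact Or.inr (Or.inl ⟨s * u, by rw [mul_assoc]⟩)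
    · exact Or.inr (Or.inr (Or.inr ⟨u, t, rfl⟩))
    · exact Or.inr (Or.inr (Or.inr ⟨s * u, t, by simp only [mul_assoc]⟩))
  · rcases h with rfl | ⟨s, rfl⟩ | ⟨t, rfl⟩ | ⟨s, t, rfl⟩
    · exact Or.inr (Or.inr (Or.inl ⟨v, rfl⟩))
    · exact Or.inr (Or.inr (Or.inr ⟨s, v, by simp only [mul_assoc]⟩))
    · exact Or.inr (Or.inr (Or.inl ⟨v * t, by simp only [mul_assoc]⟩))
    · exact Or.inr (Or.inr (Or.inr ⟨s, v * t, by simp only [mul_assoc]⟩))
  · rcases h with rfl | ⟨s, rfl⟩ | ⟨t, rfl⟩ | ⟨s, t, rfl⟩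
    · exact Or.inr (Or.inr (Or.inr ⟨u, v, rfl⟩))
    · exact Or.inr (Or.inr (Or.inr ⟨s * u, v, by simp only [mul_assoc]⟩))
    · exact Or.inr (Or.inr (Or.inr ⟨u, v * t, by simp only [mul_assoc]⟩))
    · exact Or.inr (Or.inr (Or.inr ⟨s * u, v * t, by simp only [mul_assoc]⟩))

end jle

/-- strict linear order -/
structure Lin (r : ℕ → ℕ → Prop) : Prop where
  irr : ∀ a, ¬ r a a
  tr : ∀ a b c, r a b → r b c → r a c
  tot : ∀ a b, a ≠ b → r a b ∨ r b a

theorem Lin.le_lt {r : ℕ → ℕ → Prop} (h : Lin r) {a b c : ℕ} (h1 : ¬ r b a) (h2 : r b c) :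
    r a c := by
  by_cases e : a = b
  · rwa [e]
  · rcases h.tot a b e with h3 | h3
    · exact h.tr _ _ _ h3 h2
    · exact absurd h3 h1

theorem Lin.lt_le {r : ℕ → ℕ → Prop} (h : Lin r) {a b c : ℕ} (h1 : r a b) (h2 : ¬ r c b) :
    r a c := by
  by_cases e : b = c
  · rwa [← e]
  · rcases h.tot b c e with h3 | h3
    · exact h.tr _ _ _ h1 h3
    · exact absurd h3 h2

theorem Lin.rev {r : ℕ → ℕ → Prop} (h : Lin r) : Lin (fun a b => r b a) :=
  ⟨h.irr, fun a b c h1 h2 => h.tr c b a h2 h1, fun a b hne => (h.tot a b hne).symm⟩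

/-- additive colouring -/
def Add {S : Type} [Semigroup S] (r : ℕ → ℕ → Prop) (c : ℕ → ℕ → S) : Prop :=
  ∀ a b d, r a b → r b d → c a d = c a b * c b d

/-- `b` decides the colours over the cut `A` -/
def Pt {S : Type} (_r : ℕ → ℕ → Prop) (c : ℕ → ℕ → S) (A : Set ℕ) (b : ℕ) : Prop :=
  b ∉ A ∧ ∀ x ∈ A, ∀ x' ∈ A, c x b = c x' b → ∀ y, y ∉ A → c x y = c x' y

section pt

variable {S : Type} [Semigroup S] {r : ℕ → ℕ → Prop} {c : ℕ → ℕ → S} {A : Set ℕ}

/-- deciding points are closed downwards -/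
theorem Pt.down (hr : Lin r) (hc : Add r c) (hA : ∀ x ∈ A, ∀ y, y ∉ A → r x y) {b b' : ℕ}
    (hb : Pt r c A b) (hb' : b' ∉ A) (hbb : ¬ r b b') : Pt r c A b' := by
  refine ⟨hb', fun x hx x' hx' h y hy => ?_⟩
  by_cases e : b' = b
  · rw [e] at h
    exact hb.2 x hx x' hx' h y hy
  · rcases hr.tot b' b e with h1 | h1
    · refine hb.2 x hx x' hx' ?_ y hy
      rw [hc x b' b (hA x hx b' hb') h1, hc x' b' b (hA x' hx' b' hb') h1, h]
    · exact absurd h1 hbb

/-- cancellative colourings -/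
theorem pt_canc (hr : Lin r) (hc : Add r c) (hS : Canc S) (hA : ∀ x ∈ A, ∀ y, y ∉ A → r x y)
    {b : ℕ} (hb : b ∉ A) : Pt r c A b := by
  refine ⟨hb, fun x hx x' hx' h y hy => ?_⟩
  by_cases e : y = b
  · rw [e]; exact h
  · rcases hr.tot y b e with h1 | h1
    · rw [hc x y b (hA x hx y hy) h1, hc x' y b (hA x' hx' y hy) h1] at h
      exact hS.2 _ _ _ h
    · rw [hc x b y (hA x hx b hb) h1, hc x' b y (hA x' hx' b hb) h1, h]

/-- finite colourings -/
theorem pt_fin [Finite S] (hr : Lin r) (hc : Add r c) (hA : ∀ x ∈ A, ∀ y, y ∉ A → r x y)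
    (hne : ∃ b, b ∉ A) : ∃ b, Pt r c A b := by
  classical
  obtain ⟨b0, hb0⟩ := hne
  have hfin : ∀ b, ((fun x => c x b) '' A).Finite := fun b => Set.toFinite _
  -- a point with the greatest number of colours
  obtain ⟨n, ⟨b, hb, hn⟩, hmax⟩ : ∃ n, (∃ b, b ∉ A ∧ ((fun x => c x b) '' A).ncard = n) ∧
      ∀ b', b' ∉ A → ((fun x => c x b') '' A).ncard ≤ n := by
    have hbd : ∀ b', ((fun x => c x b') '' A).ncard ≤ Nat.card S := by
      intro b'
      rw [← Set.ncard_univ]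
      exact Set.ncard_le_ncard (subset_univ _) (Set.toFinite _)
    set s : Set ℕ := {n | ∃ b, b ∉ A ∧ ((fun x => c x b) '' A).ncard = n} with hs
    have hne : s.Nonempty := ⟨_, b0, hb0, rfl⟩
    have hsb : BddAbove s := ⟨Nat.card S, by
      rintro _ ⟨b, -, rfl⟩
      exact hbd b⟩
    refine ⟨sSup s, Nat.sSup_mem hne hsb, fun b' hb' => le_csSup hsb ⟨b', hb', rfl⟩⟩
  refine ⟨b, hb, fun x hx x' hx' h y hy => ?_⟩
  by_cases e : y = b
  · rw [e]; exact h
  · rcases hr.tot y b e with h1 | h1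
    · -- injectivity of the multiplication by `c y b`
      have him : (fun s => s * c y b) '' ((fun x => c x y) '' A) = (fun x => c x b) '' A := by
        rw [image_image]
        refine image_congr fun x hx => ?_
        exact (hc x y b (hA x hx y hy) h1).symm
      have hcard : ((fun x => c x y) '' A).ncard ≤
          ((fun s => s * c y b) '' ((fun x => c x y) '' A)).ncard := by
        rw [him, hn]
        exact hmax y hy
      have hinj := Set.injOn_of_ncard_image_eq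
        (le_antisymm (Set.ncard_image_le (hfin y)) hcard) (hfin y)
      refine hinj ⟨x, hx, rfl⟩ ⟨x', hx', rfl⟩ ?_
      show c x y * c y b = c x' y * c y b
      rw [← hc x y b (hA x hx y hy) h1, ← hc x' y b (hA x' hx' y hy) h1, h]
    · rw [hc x b y (hA x hx b hb) h1, hc x' b y (hA x' hx' b hb) h1, h]

/-- stable colourings with ascending chain condition -/
theorem pt_sta (hr : Lin r) (hc : Add r c) (hS : StA S) (hA : ∀ x ∈ A, ∀ y, y ∉ A → r x y)
    (hne : A.Nonempty) (hne' : ∃ b, b ∉ A) : ∃ b, Pt r c A b := by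
  classical
  -- a pair with a maximal ideal
  have hJ : ∀ x x' y y', x ∈ A → x' ∈ A → y ∉ A → y' ∉ A → ¬ r x' x → ¬ r y y' →
      JLe (c x y) (c x' y') := by
    intro x x' y y' hx hx' hy hy' h1 h2
    have a1 : JLe (c x y) (c x' y) := by
      by_cases e : x = x'
      · rw [e]; exact JLe.rfl' _
      · rcases hr.tot x x' e with h3 | h3
        · exact Or.inr (Or.inl ⟨c x x', hc x x' y h3 (hA x' hx' y hy)⟩)
        · exact absurd h3 h1
    have a2 : JLe (c x' y) (c x' y') := by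
      by_cases e : y' = y
      · rw [e]; exact JLe.rfl' _
      · rcases hr.tot y' y e with h3 | h3
        · exact Or.inr (Or.inr (Or.inl ⟨c y' y, hc x' y' y (hA x' hx' y' hy') h3⟩))
        · exact absurd h3 h2
    exact a1.trans a2
  obtain ⟨x0, y0, hx0, hy0, hmax⟩ : ∃ x0 y0, x0 ∈ A ∧ y0 ∉ A ∧ ∀ x y, x ∈ A → y ∉ A →
      ¬ r x x0 → ¬ r y0 y → JLe (c x y) (c x0 y0) := by
    by_contra hcon
    push Not at hcon
    choose f g hf hg hfr hgr hfg using hcon
    obtain ⟨x1, hx1⟩ := hne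
    obtain ⟨y1, hy1⟩ := hne'
    let P : Type := {p : ℕ × ℕ // p.1 ∈ A ∧ p.2 ∉ A}
    let nx : P → P := fun p => ⟨(f p.1.1 p.1.2 p.2.1 p.2.2, g p.1.1 p.1.2 p.2.1 p.2.2),
      hf _ _ _ _, hg _ _ _ _⟩
    obtain ⟨s, hs0, hss⟩ : ∃ s : ℕ → P, s 0 = ⟨(x1, y1), hx1, hy1⟩ ∧ ∀ n, s (n + 1) = nx (s n) :=
      ⟨fun n => Nat.rec ⟨(x1, y1), hx1, hy1⟩ (fun _ p => nx p) n, rfl, fun _ => rfl⟩
    obtain ⟨n, hn⟩ := hS.acc (fun n => c (s n).1.1 (s n).1.2) (by
      intro n
      show JLe (c (s n).1.1 (s n).1.2) (c (s (n + 1)).1.1 (s (n + 1)).1.2)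
      rw [hss]
      exact hJ _ _ _ _ (s n).2.1 (hf _ _ _ _) (s n).2.2 (hg _ _ _ _) (hfr _ _ _ _)
        (hgr _ _ _ _))
    have hn' : JLe (c (s (n + 1)).1.1 (s (n + 1)).1.2) (c (s n).1.1 (s n).1.2) := hn
    rw [hss] at hn'
    exact hfg _ _ _ _ hn'
  refine ⟨y0, hy0, fun x hx x' hx' h y hy => ?_⟩
  by_cases e : y = y0
  · rw [e]; exact h
  · rcases hr.tot y y0 e with h1 | h1
    · -- an element of `A` above `x`, `x'`, `x0`
      obtain ⟨m, hm, m1, m2, m3⟩ : ∃ m ∈ A, ¬ r m x ∧ ¬ r m x' ∧ ¬ r m x0 := by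
        have hmx : ∀ a ∈ A, ∀ b ∈ A, ∃ m ∈ A, ¬ r m a ∧ ¬ r m b := by
          intro a ha b hb
          by_cases h2 : r a b
          · exact ⟨b, hb, fun h3 => hr.irr a (hr.tr _ _ _ h2 h3), hr.irr b⟩
          · exact ⟨a, ha, hr.irr a, h2⟩
        obtain ⟨m, hm, k1, k2⟩ := hmx x hx x' hx'
        obtain ⟨m', hm', k3, k4⟩ := hmx m hm x0 hx0
        exact ⟨m', hm', fun h2 => k1 (hr.le_lt k3 h2), fun h2 => k2 (hr.le_lt k3 h2), k4⟩
      have hJm : JLe (c m y) (c m y * c y y0) := by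
        rw [← hc m y y0 (hA m hm y hy) h1]
        exact (hmax m y hm hy m3 (fun h2 => hr.irr y (hr.tr _ _ _ h1 h2))).trans
          (hJ _ _ _ _ hx0 hm hy0 hy0 m3 (hr.irr y0))
      have hst := hS.right _ _ hJm
      rw [← hc m y y0 (hA m hm y hy) h1] at hst
      rcases hst with hst | ⟨u, hu⟩
      · have key : ∀ w ∈ A, ¬ r m w → c w y = c w y0 := by
          intro w hw hmw
          by_cases e : w = m
          · rw [e]; exact hst
          · rcases hr.tot w m e with h3 | h3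
            · rw [hc w m y h3 (hA m hm y hy), hc w m y0 h3 (hA m hm y0 hy0), hst]
            · exact absurd h3 hmw
        rw [key x hx m1, key x' hx' m2, h]
      · have key : ∀ w ∈ A, ¬ r m w → c w y = c w y0 * u := by
          intro w hw hmw
          by_cases e : w = m
          · rw [e]; exact hu
          · rcases hr.tot w m e with h3 | h3
            · rw [hc w m y h3 (hA m hm y hy), hc w m y0 h3 (hA m hm y0 hy0), hu, mul_assoc]
            · exact absurd h3 hmw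
        rw [key x hx m1, key x' hx' m2, h]
    · rw [hc x y0 y (hA x hx y0 hy0) h1, hc x' y0 y (hA x' hx' y0 hy0) h1, h]

end pt


/-! ### Duality -/

section dual

variable {S : Type} [Semigroup S]

open MulOpposite

theorem JLe.toOp {a b : S} (h : JLe a b) : JLe (op a) (op b) := by
  rcases h with rfl | ⟨u, rfl⟩ | ⟨v, rfl⟩ | ⟨u, v, rfl⟩
  · exact JLe.rfl' _
  · exact Or.inr (Or.inr (Or.inl ⟨op u, by rw [← op_mul]⟩))
  · exact Or.inr (Or.inl ⟨op v, by rw [← op_mul]⟩)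
  · exact Or.inr (Or.inr (Or.inr ⟨op v, op u, by rw [← op_mul, ← op_mul, mul_assoc]⟩))

theorem JLe.toUnop {a b : Sᵐᵒᵖ} (h : JLe a b) : JLe (unop a) (unop b) := by
  rcases h with rfl | ⟨u, rfl⟩ | ⟨v, rfl⟩ | ⟨u, v, rfl⟩
  · exact JLe.rfl' _
  · exact Or.inr (Or.inr (Or.inl ⟨unop u, by rw [← unop_mul]⟩))
  · exact Or.inr (Or.inl ⟨unop v, by rw [← unop_mul]⟩)
  · exact Or.inr (Or.inr (Or.inr ⟨unop v, unop u, by rw [unop_mul, unop_mul, mul_assoc]⟩))

theorem StA.toOp (h : StA S) : StA Sᵐᵒᵖ := by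
  refine ⟨fun s hs => ?_, fun a b hab => ?_, fun a b hab => ?_⟩
  · obtain ⟨n, hn⟩ := h.acc (fun n => unop (s n)) (fun n => (hs n).toUnop)
    exact ⟨n, hn.toOp⟩
  · rcases h.left (unop b) (unop a) (by rw [← unop_mul]; exact hab.toUnop) with h1 | ⟨u, h1⟩
    · left
      rw [← MulOpposite.op_unop (a * b), unop_mul, ← h1, MulOpposite.op_unop]
    · right
      refine ⟨MulOpposite.op u, ?_⟩
      rw [← unop_mul] at h1
      have h2 := congrArg MulOpposite.op h1
      rwa [op_mul, MulOpposite.op_unop, MulOpposite.op_unop] at h2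
  · rcases h.right (unop b) (unop a) (by rw [← unop_mul]; exact hab.toUnop) with h1 | ⟨u, h1⟩
    · left
      rw [← MulOpposite.op_unop (a * b), unop_mul, ← h1, MulOpposite.op_unop]
    · right
      refine ⟨MulOpposite.op u, ?_⟩
      rw [← unop_mul] at h1
      have h2 := congrArg MulOpposite.op h1
      rwa [op_mul, MulOpposite.op_unop, MulOpposite.op_unop] at h2

theorem Canc.toOp (h : Canc S) : Canc Sᵐᵒᵖ := by
  refine ⟨fun a b c hab => ?_, fun a b c hab => ?_⟩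
  · apply unop_injective
    apply h.2 _ _ (unop a)
    rw [← unop_mul, ← unop_mul, hab]
  · apply unop_injective
    apply h.1 (unop c)
    rw [← unop_mul, ← unop_mul, hab]

theorem Add.toOp {r : ℕ → ℕ → Prop} {c : ℕ → ℕ → S} (h : Add r c) :
    Add (fun a b => r b a) (fun a b => MulOpposite.op (c b a)) := by
  intro a b d h1 h2
  show MulOpposite.op (c d a) = MulOpposite.op (c b a) * MulOpposite.op (c d b)
  rw [← op_mul, h d b a h2 h1]

end dual

/-- the conditions on the semigroups -/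
def Ok (S : Type) [Semigroup S] : Prop := Finite S ∨ Canc S ∨ StA S

theorem Ok.toOp {S : Type} [Semigroup S] (h : Ok S) : Ok Sᵐᵒᵖ := by
  rcases h with h | h | h
  · exact Or.inl (Finite.of_injective MulOpposite.unop MulOpposite.unop_injective)
  · exact Or.inr (Or.inl h.toOp)
  · exact Or.inr (Or.inr h.toOp)

theorem pt_ok {S : Type} [Semigroup S] {r : ℕ → ℕ → Prop} {c : ℕ → ℕ → S} {A : Set ℕ}
    (hr : Lin r) (hc : Add r c) (hS : Ok S) (hA : ∀ x ∈ A, ∀ y, y ∉ A → r x y)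
    (hne : A.Nonempty) (hne' : ∃ b, b ∉ A) : ∃ b, Pt r c A b := by
  rcases hS with h | h | h
  · exact pt_fin hr hc hA hne'
  · obtain ⟨b, hb⟩ := hne'
    exact ⟨b, pt_canc hr hc h hA hb⟩
  · exact pt_sta hr hc h hA hne hne'

/-- one point for all colourings -/
theorem pt_all {M : ℕ → Type} [∀ j, Semigroup (M j)] {r : ℕ → ℕ → Prop} {c : ∀ j, ℕ → ℕ → M j}
    {A : Set ℕ} (hr : Lin r) (hc : ∀ j, Add r (c j)) (n : ℕ) (hS : ∀ j, j < n → Ok (M j))
    (hS' : ∀ j, n ≤ j → Canc (M j)) (hA : ∀ x ∈ A, ∀ y, y ∉ A → r x y)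
    (hne : A.Nonempty) (hne' : ∃ b, b ∉ A) : ∃ b, ∀ j, Pt r (c j) A b := by
  obtain ⟨b, hbA, hb⟩ : ∃ b, b ∉ A ∧ ∀ j < n, Pt r (c j) A b := by
    clear hS'
    induction n with
    | zero =>
      obtain ⟨b, hb⟩ := hne'
      exact ⟨b, hb, fun j hj => absurd hj (Nat.not_lt_zero j)⟩
    | succ n ih =>
      obtain ⟨b, hbA, hb⟩ := ih fun j hj => hS j (by omega)
      obtain ⟨b', hb'⟩ := pt_ok hr (hc n) (hS n (Nat.lt_succ_self n)) hA hne hne'
      by_cases h : r b b'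
      · refine ⟨b, hbA, fun j hj => ?_⟩
        rcases Nat.lt_succ_iff_lt_or_eq.1 hj with h1 | rfl
        · exact hb j h1
        · exact hb'.down hr (hc _) hA hbA (fun h2 => hr.irr _ (hr.tr _ _ _ h h2))
      · refine ⟨b', hb'.1, fun j hj => ?_⟩
        rcases Nat.lt_succ_iff_lt_or_eq.1 hj with h1 | rfl
        · exact (hb j h1).down hr (hc _) hA hb'.1 h
        · exact hb'
  refine ⟨b, fun j => ?_⟩
  rcases lt_or_ge j n with h | h
  · exact hb j h
  · exact pt_canc hr (hc j) (hS' j h) hA hbA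

/-! ### The class -/

section cls

variable {M : ℕ → Type} [∀ j, Semigroup (M j)] (e : ℕ → Option (Σ j, M j))

/-- `z` describes an order with additive colourings -/
def VS (z : R2) (c : ∀ j, ℕ → ℕ → M j) : Prop :=
  Lin (lt z) ∧ (∀ j, Add (lt z) (c j)) ∧ (∀ k a b, ac z k a b ↔
    ∃ j s, e k = some ⟨j, s⟩ ∧ lt z a b ∧ c j a b = s)

variable {e}

theorem VS.wo {z : R2} {c : ∀ j, ℕ → ℕ → M j} (h : VS e z c) : WO z := by
  refine ⟨h.1.irr, h.1.tr, fun x y w hxw => ?_⟩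
  by_cases he : x = y
  · right; rwa [← he]
  · rcases h.1.tot x y he with h1 | h1
    · exact Or.inl h1
    · exact Or.inr (h.1.tr _ _ _ h1 hxw)

theorem VS.e_lt (he : Function.Surjective e) {z z' : R2} {c c' : ∀ j, ℕ → ℕ → M j}
    (h : VS e z c) (h' : VS e z' c') {x y x' y' : ℕ} (hxy : lt z x y) :
    E z z' x y x' y' ↔ lt z' x' y' ∧ ∀ j, c j x y = c' j x' y' := by
  constructor
  · intro hE
    have h1 := hE.l.1 hxy
    refine ⟨h1, fun j => ?_⟩
    obtain ⟨k, hk⟩ := he (some ⟨j, c j x y⟩)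
    have h2 := (hE.a k).1 ((h.2.2 k x y).2 ⟨j, _, hk, hxy, rfl⟩)
    obtain ⟨j', s, h3, h4, h5⟩ := (h'.2.2 k x' y').1 h2
    rw [hk] at h3
    have h6 := Option.some.inj h3
    cases h6
    exact h5.symm
  · rintro ⟨h1, h2⟩
    rw [E_iff]
    have n1 : ¬ lt z y x := fun h3 => h.1.irr _ (h.1.tr _ _ _ hxy h3)
    have n2 : ¬ lt z' y' x' := fun h3 => h'.1.irr _ (h'.1.tr _ _ _ h1 h3)
    refine ⟨iff_of_true hxy h1, iff_of_false n1 n2, fun k => ⟨?_, ?_⟩⟩
    · rw [h.2.2, h'.2.2]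
      constructor
      · rintro ⟨j, s, h3, h4, h5⟩
        exact ⟨j, s, h3, h1, by rw [← h2, h5]⟩
      · rintro ⟨j, s, h3, h4, h5⟩
        exact ⟨j, s, h3, hxy, by rw [h2, h5]⟩
    · rw [h.2.2, h'.2.2]
      refine iff_of_false ?_ ?_
      · rintro ⟨j, s, h3, h4, h5⟩
        exact n1 h4
      · rintro ⟨j, s, h3, h4, h5⟩
        exact n2 h4

theorem VS.law (he : Function.Surjective e) {z z' : R2} {c c' : ∀ j, ℕ → ℕ → M j}
    (h : VS e z c) (h' : VS e z' c') : Law z z' := by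
  intro x m y x' m' y' hmx hym h1 h2
  by_cases e1 : x = m
  · subst e1
    have e2 : x' = m' := by
      by_contra hne
      rcases h'.1.tot _ _ hne with h3 | h3
      · exact h.1.irr _ (h1.l.2 h3)
      · exact h.1.irr _ (h1.g.2 h3)
    subst e2
    exact h2
  · by_cases e2 : m = y
    · subst e2
      have e3 : m' = y' := by
        by_contra hne
        rcases h'.1.tot _ _ hne with h3 | h3
        · exact h.1.irr _ (h2.l.2 h3)
        · exact h.1.irr _ (h2.g.2 h3)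
      subst e3
      exact h1
    · have hxm : lt z x m := by
        rcases h.1.tot _ _ e1 with h3 | h3
        · exact h3
        · exact absurd h3 hmx
      have hmy : lt z m y := by
        rcases h.1.tot _ _ e2 with h3 | h3
        · exact h3
        · exact absurd h3 hym
      obtain ⟨a1, a2⟩ := (VS.e_lt he h h' hxm).1 h1
      obtain ⟨b1, b2⟩ := (VS.e_lt he h h' hmy).1 h2
      refine (VS.e_lt he h h' (h.1.tr _ _ _ hxm hmy)).2 ⟨h'.1.tr _ _ _ a1 b1, fun j => ?_⟩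
      rw [h.2.1 j _ _ _ hxm hmy, h'.2.1 j _ _ _ a1 b1, a2, b2]

theorem VS.pc (he : Function.Surjective e) {z : R2} {c : ∀ j, ℕ → ℕ → M j} (h : VS e z c)
    (n : ℕ) (hS : ∀ j, j < n → Ok (M j)) (hS' : ∀ j, n ≤ j → Canc (M j)) : PC z := by
  intro A hA hne hne'
  refine ⟨?_, ?_⟩
  · obtain ⟨b, hb⟩ := pt_all h.1 h.2.1 n hS hS' hA hne hne'
    refine ⟨b, (hb 0).1, fun x hx x' hx' hE y hy => ?_⟩
    have h1 := ((VS.e_lt he h h (hA x hx b (hb 0).1)).1 hE).2
    exact (VS.e_lt he h h (hA x hx y hy)).2 ⟨hA x' hx' y hy,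
      fun j => (hb j).2 x hx x' hx' (h1 j) y hy⟩
  · obtain ⟨a, ha⟩ := pt_all (M := fun j => (M j)ᵐᵒᵖ) (c := fun j a b => MulOpposite.op (c j b a))
      (A := Aᶜ) h.1.rev (fun j => (h.2.1 j).toOp) n (fun j hj => (hS j hj).toOp)
      (fun j hj => (hS' j hj).toOp) (by
        intro x hx y hy
        exact hA y (by simpa using hy) x hx) (by
        obtain ⟨y, hy⟩ := hne'
        exact ⟨y, hy⟩) (by
        obtain ⟨x, hx⟩ := hne
        exact ⟨x, fun h1 => h1 hx⟩)
    have haA : a ∈ A := by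
      have := (ha 0).1
      simpa using this
    refine ⟨a, haA, fun y hy y' hy' hE x hx => ?_⟩
    have h1 := ((VS.e_lt he h h (hA a haA y hy)).1 hE).2
    refine (VS.e_lt he h h (hA x hx y hy)).2 ⟨hA x hx y' hy', fun j => ?_⟩
    have h2 := (ha j).2 y hy y' hy' (congrArg MulOpposite.op (h1 j)) x (by simpa using hx)
    exact MulOpposite.op_injective h2

end cls

end Pool.Agent.Run7.h201.CS.SEM
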