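import Pool.Agent.Run7.h201.CS.Sem

set_option autoImplicit false

/-!
# Additive colourings: coding, and the general theorem in terms of plain structures
-/

namespace Pool.Agent.Run7.h201.CS.SEM

open Set MeasureTheory
open Pool.Agent.H533R2.VO (RS lift RIso Dich)
open Pool.Agent.H566P (ar R2 lt ac co mk)
open Pool.Agent.Y560.TG (lt_mk ac_mk co_mk riso_iff R2_ext meas_into meas_lt meas_ac meas_co
  cont_into)
open Pool.Agent.Run7.h201.CS
open Pool.Agent.Run7.h201.CS.FC (m_lt m_ac m_co)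

variable {M : ℕ → Type}

/-- structures -/
abbrev XS (M : ℕ → Type) : Type :=
  (ℕ → ℕ → Bool) × (∀ j, M j → ℕ → ℕ → Bool) × (ℕ → ℕ → Bool)

/-- isomorphisms -/
def IsIsoX (σ : Equiv.Perm ℕ) (x y : XS M) : Prop :=
  (∀ a b, y.1 (σ a) (σ b) = x.1 a b) ∧ (∀ j s a b, y.2.1 j s (σ a) (σ b) = x.2.1 j s a b) ∧
    ∀ k a, y.2.2 k (σ a) = x.2.2 k a

variable (e : ℕ → Option (Σ j, M j)) (ix : (Σ j, M j) → ℕ)

/-- coding -/
noncomputable def ff (x : XS M) : R2 :=
  mk (fun a b => x.1 a b = true)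
    (fun k a b => ∃ j s, e k = some ⟨j, s⟩ ∧ x.2.1 j s a b = true)
    (fun k a => x.2.2 k a = true)

open Classical in
/-- decoding -/
noncomputable def dd (z : R2) : XS M :=
  (fun a b => decide (lt z a b), fun j s a b => decide (ac z (ix ⟨j, s⟩) a b),
    fun k a => decide (co z k a))

variable {e ix}

theorem dd_ff (hix : ∀ p, e (ix p) = some p) (x : XS M) : dd ix (ff e x) = x := by
  classical
  refine Prod.ext ?_ (Prod.ext ?_ ?_)
  · funext a b
    show decide (lt (ff e x) a b) = _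
    rw [Bool.eq_iff_iff, decide_eq_true_iff, ff, lt_mk]
  · funext j s a b
    show decide (ac (ff e x) (ix ⟨j, s⟩) a b) = _
    rw [Bool.eq_iff_iff, decide_eq_true_iff, ff, ac_mk, hix]
    constructor
    · rintro ⟨j', s', h1, h2⟩
      have h3 := Option.some.inj h1
      cases h3
      exact h2
    · exact fun h => ⟨j, s, rfl, h⟩
  · funext k a
    show decide (co (ff e x) k a) = _
    rw [Bool.eq_iff_iff, decide_eq_true_iff, ff, co_mk]

theorem ff_dd_iff {z : R2} : ff e (dd ix z) = z ↔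
    ∀ k a b, ac z k a b ↔ ∃ j s, e k = some ⟨j, s⟩ ∧ ac z (ix ⟨j, s⟩) a b := by
  classical
  constructor
  · intro h k a b
    conv_lhs => rw [← h]
    rw [ff, ac_mk]
    simp only [dd, decide_eq_true_iff]
  · intro h
    refine R2_ext ?_ ?_ ?_
    · intro a b
      rw [ff, lt_mk]
      exact decide_eq_true_iff
    · intro k a b
      rw [ff, ac_mk, h]
      simp only [dd, decide_eq_true_iff]
    · intro k a
      rw [ff, co_mk]
      exact decide_eq_true_iff

theorem dd_iso {z z' : R2} {σ : Equiv.Perm ℕ} (h1 : ∀ x y, lt z' (σ x) (σ y) ↔ lt z x y)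
    (h2 : ∀ n x y, ac z' n (σ x) (σ y) ↔ ac z n x y) (h3 : ∀ n x, co z' n (σ x) ↔ co z n x) :
    IsIsoX (M := M) σ (dd ix z) (dd ix z') := by
  classical
  refine ⟨fun a b => ?_, fun j s a b => ?_, fun k a => ?_⟩
  · exact decide_eq_decide.2 (h1 a b)
  · exact decide_eq_decide.2 (h2 _ a b)
  · exact decide_eq_decide.2 (h3 k a)

theorem ff_iso {x y : XS M} {σ : Equiv.Perm ℕ} (h : IsIsoX σ x y) : RIso (ff e x) (ff e y) := by
  refine riso_iff.2 ⟨σ, ?_, ?_, ?_⟩
  · intro a b
    rw [ff, ff, lt_mk, lt_mk, h.1]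
  · intro k a b
    rw [ff, ff, ac_mk, ac_mk]
    simp only [h.2.1]
  · intro k a
    rw [ff, ff, co_mk, co_mk, h.2.2]

theorem cont_dd : Continuous (dd ix : R2 → XS M) := by
  classical
  have key : ∀ (i : ℕ) (v : Fin (ar i) → ℕ), Continuous fun z : R2 => z i v :=
    fun i v => (continuous_apply v).comp (continuous_apply i)
  refine Continuous.prodMk ?_ (Continuous.prodMk ?_ ?_)
  · refine continuous_pi fun a => continuous_pi fun b => ?_
    have e : (fun z : R2 => decide (lt z a b)) = fun z : R2 =>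
        z 0 (Pool.Agent.H566P.v2 0 a b) := by
      funext z
      rw [Bool.eq_iff_iff, decide_eq_true_iff]
      exact Iff.rfl
    rw [e]
    exact key _ _
  · refine continuous_pi fun j => continuous_pi fun s => continuous_pi fun a =>
      continuous_pi fun b => ?_
    have e : (fun z : R2 => decide (ac z (ix ⟨j, s⟩) a b)) = fun z : R2 =>
        z (2 * ix ⟨j, s⟩ + 1) (Pool.Agent.H566P.v2 (2 * ix ⟨j, s⟩ + 1) a b) := by
      funext z
      rw [Bool.eq_iff_iff, decide_eq_true_iff]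
      exact Iff.rfl
    rw [e]
    exact key _ _
  · refine continuous_pi fun k => continuous_pi fun a => ?_
    have e : (fun z : R2 => decide (co z k a)) = fun z : R2 =>
        z (2 * k + 2) (Pool.Agent.H566P.v2 (2 * k + 2) a a) := by
      funext z
      rw [Bool.eq_iff_iff, decide_eq_true_iff]
      exact Iff.rfl
    rw [e]
    exact key _ _

theorem meas_dd : Measurable (dd ix : R2 → XS M) := by
  classical
  refine Measurable.prodMk ?_ (Measurable.prodMk ?_ ?_)
  · refine measurable_pi_lambda _ fun a => measurable_pi_lambda _ fun b => ?_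
    refine measurable_to_bool ?_
    have e : (fun z : R2 => decide (lt z a b)) ⁻¹' {true} = {z | lt z a b} := by
      ext z
      exact decide_eq_true_iff
    rw [e]
    exact meas_lt a b
  · refine measurable_pi_lambda _ fun j => measurable_pi_lambda _ fun s =>
      measurable_pi_lambda _ fun a => measurable_pi_lambda _ fun b => ?_
    refine measurable_to_bool ?_
    have e : (fun z : R2 => decide (ac z (ix ⟨j, s⟩) a b)) ⁻¹' {true} =
        {z | ac z (ix ⟨j, s⟩) a b} := by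
      ext z
      exact decide_eq_true_iff
    rw [e]
    exact meas_ac _ a b
  · refine measurable_pi_lambda _ fun k => measurable_pi_lambda _ fun a => ?_
    refine measurable_to_bool ?_
    have e : (fun z : R2 => decide (co z k a)) ⁻¹' {true} = {z | co z k a} := by
      ext z
      exact decide_eq_true_iff
    rw [e]
    exact meas_co k a

/-- The dichotomy for additive colourings. -/
theorem col [∀ j, Semigroup (M j)] [∀ j, Countable (M j)] (n : ℕ)
    (hS : ∀ j, j < n → Ok (M j)) (hS' : ∀ j, n ≤ j → Canc (M j))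
    (B : Set (XS M)) (hB : MeasurableSet B) (hinv : ∀ x ∈ B, ∀ y σ, IsIsoX σ x y → y ∈ B)
    (hlin : ∀ x ∈ B, Lin (fun a b => x.1 a b = true))
    (hadd : ∀ x ∈ B, ∀ j, ∃ c : ℕ → ℕ → M j, Add (fun a b => x.1 a b = true) c ∧
      ∀ s a b, x.2.1 j s a b = true ↔ x.1 a b = true ∧ c a b = s) :
    (∃ f : ℕ → XS M, ∀ x ∈ B, ∃ n σ, IsIsoX σ (f n) x) ∨
    ∃ c : (ℕ → Bool) → XS M, Continuous c ∧ (∀ s, c s ∈ B) ∧
      ∀ s t, (∃ σ, IsIsoX σ (c s) (c t)) → s = t := by
  classical
  have hne : Nonempty (Option (Σ j, M j)) := ⟨none⟩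
  obtain ⟨e, he⟩ : ∃ e : ℕ → Option (Σ j, M j), Function.Surjective e :=
    exists_surjective_nat _
  choose ix hix using fun p : Σ j, M j => he (some p)
  let B' : Set R2 := {z | dd ix z ∈ B ∧ ff e (dd ix z) = z}
  have hB' : MeasurableSet B' := by
    have h1 : MeasurableSet {z : R2 | ff e (dd ix z) = z} := by
      have e1 : {z : R2 | ff e (dd ix z) = z} =
          {z : R2 | ∀ k a b, ac z k a b ↔ ∃ j s, e k = some ⟨j, s⟩ ∧ ac z (ix ⟨j, s⟩) a b} := by
        ext z
        exact ff_dd_iff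
      rw [e1]
      exact measurableSet_setOfPred.2 (Measurable.forall fun k => Measurable.forall fun a =>
        Measurable.forall fun b => (m_ac _ _ _).iff (Measurable.exists fun j =>
          Measurable.exists fun s => measurable_const.and (m_ac _ _ _)))
    exact (meas_dd hB).inter h1
  have hinv' : ∀ z z', RIso z z' → z ∈ B' → z' ∈ B' := by
    rintro z z' h ⟨h1, h2⟩
    obtain ⟨σ, k1, k2, k3⟩ := riso_iff.1 h
    refine ⟨hinv _ h1 _ σ (dd_iso k1 k2 k3), ?_⟩
    rw [ff_dd_iff] at h2 ⊢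
    intro k a b
    obtain ⟨a, rfl⟩ := σ.surjective a
    obtain ⟨b, rfl⟩ := σ.surjective b
    rw [k2]
    simp only [k2]
    exact h2 k a b
  have hVS : ∀ z ∈ B', ∃ c : ∀ j, ℕ → ℕ → M j, VS e z c := by
    rintro z ⟨h1, h2⟩
    choose c hc1 hc2 using hadd _ h1
    have hl : ∀ a b, (dd ix z).1 a b = true ↔ lt z a b := fun a b => decide_eq_true_iff
    refine ⟨c, ?_, ?_, ?_⟩
    · have := hlin _ h1
      simp only [hl] at this
      exact this
    · intro j
      have := hc1 j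
      simp only [hl] at this
      exact this
    · intro k a b
      conv_lhs => rw [← h2]
      rw [ff, ac_mk]
      simp only [hc2, hl]
  have hwo : ∀ z ∈ B', WO z := fun z hz => by
    obtain ⟨c, hc⟩ := hVS z hz
    exact hc.wo
  have hlaw : ∀ z ∈ B', ∀ z' ∈ B', Law z z' := fun z hz z' hz' => by
    obtain ⟨c, hc⟩ := hVS z hz
    obtain ⟨c', hc'⟩ := hVS z' hz'
    exact hc.law he hc'
  have hpc : ∀ z ∈ B', PC z := fun z hz => by
    obtain ⟨c, hc⟩ := hVS z hz
    exact hc.pc he n hS hS'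
  rcases dich B' hB' hinv' hwo hlaw hpc with ⟨f, hf⟩ | ⟨c, hc1, hc2, hc3⟩
  · left
    refine ⟨fun n => dd ix (f n), fun x hx => ?_⟩
    obtain ⟨m, hm⟩ := hf (ff e x) ⟨by rw [dd_ff hix]; exact hx, by rw [dd_ff hix]⟩
    obtain ⟨σ, k1, k2, k3⟩ := riso_iff.1 hm
    refine ⟨m, σ, ?_⟩
    have := dd_iso (M := M) (ix := ix) k1 k2 k3
    rwa [dd_ff hix] at this
  · right
    refine ⟨fun s => dd ix (c s), cont_dd.comp hc1, fun s => (hc2 s).1, fun s t h => ?_⟩
    obtain ⟨σ, h⟩ := h
    apply hc3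
    have h1 := ff_iso (e := e) h
    rwa [(hc2 s).2, (hc2 t).2] at h1

/-! ### Coherent preorders -/

open Pool.Agent.Run7.h201.CS.STR (SS IsIso co' de co_de de_co)

/-- the pairs have the same type -/
def Same (x y : SS) (a b c d : ℕ) : Prop :=
  x.1 a b = y.1 c d ∧ x.1 b a = y.1 d c ∧
    ∀ k, x.2.1 k a b = y.2.1 k c d ∧ x.2.1 k b a = y.2.1 k d c

theorem same_iff {x y : SS} {a b c d : ℕ} : Same x y a b c d ↔ E (co' x) (co' y) a b c d := by
  rw [E_iff]
  unfold co' Same
  simp only [lt_mk, ac_mk, ← Bool.eq_iff_iff]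

theorem coh (B : Set SS) (hB : MeasurableSet B) (hinv : ∀ x ∈ B, ∀ y σ, IsIso σ x y → y ∈ B)
    (hwo : ∀ x ∈ B, (∀ a, x.1 a a = false) ∧
      (∀ a b c, x.1 a b = true → x.1 b c = true → x.1 a c = true) ∧
      ∀ a b c, x.1 a c = true → x.1 a b = true ∨ x.1 b c = true)
    (hlaw : ∀ x ∈ B, ∀ y ∈ B, ∀ a b c a' b' c', x.1 b a = false → x.1 c b = false →
      Same x y a b a' b' → Same x y b c b' c' → Same x y a c a' c')
    (hpc : ∀ x ∈ B, ∀ A : Set ℕ, (∀ a ∈ A, ∀ b, b ∉ A → x.1 a b = true) → A.Nonempty →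
      (∃ b, b ∉ A) →
      (∃ b, b ∉ A ∧ ∀ a ∈ A, ∀ a' ∈ A, Same x x a b a' b → ∀ c, c ∉ A → Same x x a c a' c) ∧
      ∃ a ∈ A, ∀ b, b ∉ A → ∀ b', b' ∉ A → Same x x a b a b' → ∀ c ∈ A, Same x x c b c b') :
    (∃ f : ℕ → SS, ∀ x ∈ B, ∃ n σ, IsIso σ (f n) x) ∨
    ∃ c : (ℕ → Bool) → SS, Continuous c ∧ (∀ s, c s ∈ B) ∧
      ∀ s t, (∃ σ, IsIso σ (c s) (c t)) → s = t := by
  have hl : ∀ (x : SS) a b, lt (co' x) a b ↔ x.1 a b = true := fun x a b => by
    unfold co'
    rw [lt_mk]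
  refine STR.out (fun z => de z ∈ B) (fun B' hB' hinv' hV => ?_) B hB hinv
    (fun x hx => by rw [de_co]; exact hx)
  refine dich B' hB' hinv' ?_ ?_ ?_
  · intro z hz
    obtain ⟨h1, h2, h3⟩ := hwo _ (hV z hz)
    simp only [← hl, co_de] at h2 h3
    refine ⟨fun a ha => ?_, h2, h3⟩
    have h4 := h1 a
    rw [← co_de z, hl] at ha
    rw [ha] at h4
    exact absurd h4 (by simp)
  · intro z hz z' hz' x m y x' m' y' h1 h2 h3 h4
    have := hlaw _ (hV z hz) _ (hV z' hz') x m y x' m' y'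
    simp only [same_iff, co_de, ← Bool.not_eq_true, ← hl] at this
    exact this h1 h2 h3 h4
  · intro z hz
    have := hpc _ (hV z hz)
    simp only [same_iff, co_de, ← hl] at this
    exact this

end Pool.Agent.Run7.h201.CS.SEM
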