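import Pool.Agent.Run7.h201.CS.Tow3

set_option autoImplicit false

/-!
# Coherent preorders: simple intervals
-/

namespace Pool.Agent.Run7.h201.CS

open Set MeasureTheory
open Pool.Agent.H899R2.VP (St Adj PIso BF IsoOn idOn inv comp zipSet mem_inv BF_iff zipSet_cons
  zipSet_nil_left labels idOn_mono BF_of_total)
open Pool.Agent.H533R2.VO (RS lift RIso Dich resBF resIso)
open Pool.Agent.H566P (ar R2 lt ac co mk)
open Pool.Agent.Y560.TG (lt_mk ac_mk co_mk piso_iff ex lt_ex ac_ex co_ex_even co_ex_odd piso_ex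
  bf_trans0 bf_symm0 iso_trans0 iso_symm0 iso_refl0 Off riso_isoOn piso_lt piso_co mat msg
  meas_lt meas_ac meas_co R2_ext cont_into piso_eq meas_into)

variable {α : Ordinal.{0}} {K : Set R2} {S : Set (R2 × Set ℕ)} {M N : R2} {x y a b : ℕ}

/-- Simple intervals: not in `S`, but every point in between has one half in `S`. -/
structure SimP (K : Set R2) (S : Set (R2 × Set ℕ)) (M : R2) (x y : ℕ) : Prop where
  mem : M ∈ K
  wo : WO M
  law : Law M M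
  pc : PC M
  fam : Fam K S
  blk : ∀ x, (M, Ic M x x) ∈ S
  ltp : lt M x y
  nin : (M, Ic M x y) ∉ S
  no : ∀ z, lt M x z → lt M z y → (M, Ic M x z) ∈ S ∨ (M, Ic M z y) ∈ S

namespace SimP

theorem L (h : SimP K S M x y) : Lw S M x ⊆ Ic M x y := by
  intro z hz
  refine ⟨hz.1, fun hyz => h.nin ?_⟩
  exact h.fam.sub M h.mem x z x y hz.2 (h.wo.irr x) (h.wo.asymm h.ltp) (h.wo.asymm hyz)

theorem U (h : SimP K S M x y) : Uw S M y ⊆ Ic M x y := by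
  intro z hz
  refine ⟨fun hzx => h.nin ?_, hz.1⟩
  exact h.fam.sub M h.mem z y x y hz.2 (h.wo.asymm hzx) (h.wo.asymm h.ltp) (h.wo.irr y)

theorem Dj (h : SimP K S M x y) {z : ℕ} (h1 : z ∈ Lw S M x) (h2 : z ∈ Uw S M y) : False :=
  h.nin (h.fam.glue M h.mem x z y h1.1 h2.1 h1.2 h2.2)

theorem C (h : SimP K S M x y) {z : ℕ} (hz : z ∈ Ic M x y) : z ∈ Lw S M x ∨ z ∈ Uw S M y := by
  by_cases h1 : lt M x z
  · by_cases h2 : lt M z y
    · rcases h.no z h1 h2 with h3 | h3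
      · exact Or.inl ⟨hz.1, h3⟩
      · exact Or.inr ⟨hz.2, h3⟩
    · exact Or.inr ⟨hz.2, h.fam.sub M h.mem y y z y (h.blk y) h2 hz.2 (h.wo.irr y)⟩
  · exact Or.inl ⟨hz.1, h.fam.sub M h.mem x x x z (h.blk x) (h.wo.irr x) hz.1 h1⟩

theorem Linit (h : SimP K S M x y) {z w : ℕ} (h1 : z ∈ Lw S M x) (h2 : ¬ lt M w x)
    (h3 : ¬ lt M z w) : w ∈ Lw S M x :=
  Lw_Ic h.fam h.mem h.wo h1 ⟨h2, h3⟩

theorem Lt (h : SimP K S M x y) {z w : ℕ} (h1 : z ∈ Lw S M x) (h2 : w ∈ Uw S M y) :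
    lt M z w := by
  by_contra h3
  exact h.Dj (h.Linit h1 (h.U h2).1 h3) h2

theorem xL (h : SimP K S M x y) : x ∈ Lw S M x := ⟨h.wo.irr x, h.blk x⟩
theorem yU (h : SimP K S M x y) : y ∈ Uw S M y := ⟨h.wo.irr y, h.blk y⟩

end SimP

/-- the lower part of the cut -/
def AS (S : Set (R2 × Set ℕ)) (M : R2) (x : ℕ) : Set ℕ := {z | ∃ w ∈ Lw S M x, ¬ lt M w z}

/-- good points for the cut of a simple interval -/
structure GP (S : Set (R2 × Set ℕ)) (M : R2) (x y a b : ℕ) : Prop where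
  ha : a ∈ Lw S M x
  hb : b ∈ Uw S M y
  ga : ∀ w, w ∉ AS S M x → ∀ w', w' ∉ AS S M x → E M M a w a w' → ∀ z ∈ AS S M x, E M M z w z w'
  gb : ∀ z ∈ AS S M x, ∀ z' ∈ AS S M x, E M M z b z' b → ∀ w, w ∉ AS S M x → E M M z w z' w

theorem L_AS (h : SimP K S M x y) : Lw S M x ⊆ AS S M x := fun z hz => ⟨z, hz, h.wo.irr z⟩

theorem AS_L (h : SimP K S M x y) {z : ℕ} (hz : z ∈ AS S M x) (h1 : ¬ lt M z x) :
    z ∈ Lw S M x := by
  obtain ⟨w, hw, hwz⟩ := hz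
  exact h.Linit hw h1 hwz

theorem U_AS (h : SimP K S M x y) {z : ℕ} (hz : z ∈ Uw S M y) : z ∉ AS S M x := by
  rintro ⟨w, hw, hwz⟩
  exact hwz (h.Lt hw hz)

theorem AS_U (h : SimP K S M x y) {z : ℕ} (hz : z ∉ AS S M x) (h1 : ¬ lt M y z) :
    z ∈ Uw S M y := by
  have h2 : ¬ lt M z x := fun h3 => hz ⟨x, h.xL, h.wo.asymm h3⟩
  rcases h.C ⟨h2, h1⟩ with h3 | h3
  · exact absurd (L_AS h h3) hz
  · exact h3

theorem AS_lt (h : SimP K S M x y) : ∀ z ∈ AS S M x, ∀ w, w ∉ AS S M x → lt M z w := by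
  rintro z ⟨v, hv, hvz⟩ w hw
  have h1 : lt M v w := by
    by_contra hcon
    exact hw ⟨v, hv, hcon⟩
  exact h.wo.le_lt hvz h1

theorem gp_ex (h : SimP K S M x y) : ∃ a b, GP S M x y a b := by
  obtain ⟨⟨b0, hb0, hb1⟩, a0, ha0, ha1⟩ := h.pc (AS S M x) (AS_lt h) ⟨x, L_AS h h.xL⟩
    ⟨y, U_AS h h.yU⟩
  -- the lower point
  obtain ⟨a, haL, haa⟩ : ∃ a ∈ Lw S M x, ¬ lt M a a0 := by
    by_cases h1 : lt M a0 x
    · exact ⟨x, h.xL, h.wo.asymm h1⟩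
    · exact ⟨a0, AS_L h ha0 h1, h.wo.irr a0⟩
  obtain ⟨b, hbU, hbb⟩ : ∃ b ∈ Uw S M y, ¬ lt M b0 b := by
    by_cases h1 : lt M y b0
    · exact ⟨y, h.yU, h.wo.asymm h1⟩
    · exact ⟨b0, AS_U h hb0 h1, h.wo.irr b0⟩
  refine ⟨a, b, haL, hbU, ?_, ?_⟩
  · intro w hw w' hw' hE z hz
    refine ha1 w hw w' hw' ?_ z hz
    exact h.law a0 a w a0 a w' haa (h.wo.asymm (AS_lt h a (L_AS h haL) w hw)) E.rfl hE
  · intro z hz z' hz' hE w hw
    refine hb1 z hz z' hz' ?_ w hw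
    exact h.law z b b0 z' b b0 (h.wo.asymm (AS_lt h z hz b (U_AS h hbU))) hbb hE E.rfl

theorem VL_gp (h : SimP K S M x y) (hg : GP S M x y a b) : VL S M x b := by
  refine ⟨⟨bs_notMem (fun h => h.2 rfl) (fun h1 => h.Dj h1.1 hg.hb), ?_⟩,
    Or.inr fun z hz => h.Lt hz hg.hb⟩
  intro z hz z' hz' hE w hw
  rw [E_bs] at hE
  by_cases hwx : w = x
  · rw [hwx]; exact hE.1
  have hwL : w ∉ Lw S M x := fun h1 => hw ⟨h1, hwx⟩
  by_cases hwA : w ∈ AS S M x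
  · have h1 : lt M w x := by
      by_contra hcon
      exact hwL (AS_L h hwA hcon)
    exact h.law w x z w x z' (h.wo.asymm h1) hz.1.1 E.rfl hE.1
  · exact (hg.gb z (L_AS h hz.1) z' (L_AS h hz'.1) hE.2.swap w hwA).swap

theorem VU_gp (h : SimP K S M x y) (hg : GP S M x y a b) : VU S M y a := by
  refine ⟨⟨bs_notMem (fun h => h.2 rfl) (fun h1 => h.Dj hg.ha h1.1), ?_⟩,
    Or.inr fun z hz => h.Lt hg.ha hz⟩
  intro z hz z' hz' hE w hw
  rw [E_bs] at hE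
  by_cases hwy : w = y
  · rw [hwy]; exact hE.1
  have hwU : w ∉ Uw S M y := fun h1 => hw ⟨h1, hwy⟩
  by_cases hwA : w ∈ AS S M x
  · exact hg.ga z (U_AS h hz.1) z' (U_AS h hz'.1) hE.2 w hwA
  · have h1 : lt M y w := by
      by_contra hcon
      exact hwU (AS_U h hwA hcon)
    exact (h.law z y w z' y w hz.1.1 (h.wo.asymm h1) hE.1.swap E.rfl).swap

/-- The type of a simple interval is determined by the labelled types of the two parts. -/
theorem sim_iso {l : Ordinal.{0}} (hl : Lev S l) {x' y' a' b' : ℕ}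
    (h : SimP K S M x y) (hg : GP S M x y a b) (h' : SimP K S N x' y')
    (hg' : GP S N x' y' a' b')
    (hbf : BF (lift M) (lift N) univ univ (l + 1 + 1) (zipSet [x, y, a, b] [x', y', a', b']))
    (hL : IsoOn (lift (lc M (bs x b))) (lift (lc N (bs x' b'))) (Lw S M x \ {x})
      (Lw S N x' \ {x'}) ∅)
    (hU : IsoOn (lift (lc M (bs y a))) (lift (lc N (bs y' a'))) (Uw S M y \ {y})
      (Uw S N y' \ {y'}) ∅) :
    IsoOn (lift M) (lift N) (Ic M x y) (Ic N x' y') ∅ := by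
  have ez : zipSet [x, y, a, b] [x', y', a', b'] = {(x, x'), (y, y'), (a, a'), (b, b')} := by
    rw [zipSet_cons, zipSet_cons, zip2]
  rw [ez] at hbf
  have px : (x, x') ∈ ({(x, x'), (y, y'), (a, a'), (b, b')} : Set (ℕ × ℕ)) := by simp
  have py : (y, y') ∈ ({(x, x'), (y, y'), (a, a'), (b, b')} : Set (ℕ × ℕ)) := by simp
  have pa : (a, a') ∈ ({(x, x'), (y, y'), (a, a'), (b, b')} : Set (ℕ × ℕ)) := by simp
  have pb : (b, b') ∈ ({(x, x'), (y, y'), (a, a'), (b, b')} : Set (ℕ × ℕ)) := by simp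
  have iL := iso_add (VL_gp h hg).1.1 (VL_gp h' hg').1.1 (hbf.piso.mono (by
    rw [bs_set]
    rintro w (rfl | rfl) <;> assumption)) hL
  have iU := iso_add (VU_gp h hg).1.1 (VU_gp h' hg').1.1 (hbf.piso.mono (by
    rw [bs_set]
    rintro w (rfl | rfl) <;> assumption)) hU
  rw [bs_set, range_bs, range_bs] at iL iU
  obtain ⟨q1, a1, a2, a3, a4, a5⟩ := iL
  obtain ⟨q2, c1, c2, c3, c4, c5⟩ := iU
  have a1b : (b, b') ∈ q1 := a1 (Or.inr rfl)
  have c1a : (a, a') ∈ q2 := c1 (Or.inr rfl)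
  have a3' := piso_E.1 a3
  have c3' := piso_E.1 c3
  -- the membership
  have hbL : b ∉ Lw S M x := fun h1 => h.Dj h1 hg.hb
  have hbL' : b' ∉ Lw S N x' := fun h1 => h'.Dj h1 hg'.hb
  have haU : a ∉ Uw S M y := fun h1 => h.Dj hg.ha h1
  have haU' : a' ∉ Uw S N y' := fun h1 => h'.Dj hg'.ha h1
  have m1 : ∀ w ∈ q1, (w.1 ∈ Lw S M x ↔ w.2 ∈ Lw S N x') := by
    rintro ⟨w, w'⟩ hw
    have e := piso_eq a3 hw a1b
    have d1 := (a2 hw).1
    have d2 := (a2 hw).2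
    simp only at d1 d2 ⊢
    by_cases hwb : w = b
    · have hwb' := e.1 hwb
      rw [hwb, hwb']
      exact ⟨fun h => absurd h hbL, fun h => absurd h hbL'⟩
    · have hwb' : w' ≠ b' := fun h => hwb (e.2 h)
      have f1 : w ∈ Lw S M x := by
        rcases d1 with d1 | d1 | d1
        · exact d1.1
        · rw [d1]; exact h.xL
        · exact absurd d1 hwb
      have f2 : w' ∈ Lw S N x' := by
        rcases d2 with d2 | d2 | d2
        · exact d2.1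
        · rw [d2]; exact h'.xL
        · exact absurd d2 hwb'
      exact ⟨fun _ => f2, fun _ => f1⟩
  have m2 : ∀ w ∈ q2, (w.1 ∈ Uw S M y ↔ w.2 ∈ Uw S N y') := by
    rintro ⟨w, w'⟩ hw
    have e := piso_eq c3 hw c1a
    have d1 := (c2 hw).1
    have d2 := (c2 hw).2
    simp only at d1 d2 ⊢
    by_cases hwa : w = a
    · have hwa' := e.1 hwa
      rw [hwa, hwa']
      exact ⟨fun h => absurd h haU, fun h => absurd h haU'⟩
    · have hwa' : w' ≠ a' := fun h => hwa (e.2 h)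
      have f1 : w ∈ Uw S M y := by
        rcases d1 with d1 | d1 | d1
        · exact d1.1
        · rw [d1]; exact h.yU
        · exact absurd d1 hwa
      have f2 : w' ∈ Uw S N y' := by
        rcases d2 with d2 | d2 | d2
        · exact d2.1
        · rw [d2]; exact h'.yU
        · exact absurd d2 hwa'
      exact ⟨fun _ => f2, fun _ => f1⟩
  -- the cross pairs
  have hcross : ∀ u ∈ q1, u.1 ∈ Lw S M x → ∀ v ∈ q2, v.1 ∈ Uw S M y → E M N u.1 v.1 u.2 v.2 := by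
    rintro ⟨z, z'⟩ hu hz ⟨w, w'⟩ hv hw
    simp only at hz hw ⊢
    have hz' : z' ∈ Lw S N x' := (m1 _ hu).1 hz
    have hw' : w' ∈ Uw S N y' := (m2 _ hv).1 hw
    obtain ⟨z2, -, hb1⟩ := hbf.forth (lt_add_one _) (mem_univ z)
    obtain ⟨w2, -, hb2⟩ := hb1.forth (lt_add_one _) (mem_univ w)
    have pz : (z, z2) ∈ insert (w, w2) (insert (z, z2)
      ({(x, x'), (y, y'), (a, a'), (b, b')} : Set (ℕ × ℕ))) := Or.inr (Or.inl rfl)
    have pw : (w, w2) ∈ insert (w, w2) (insert (z, z2)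
      ({(x, x'), (y, y'), (a, a'), (b, b')} : Set (ℕ × ℕ))) := Or.inl rfl
    have hz2 : z2 ∈ Lw S N x' := (mem_Lw_bf h.fam hl hb2 (Or.inr (Or.inr px)) pz).1 hz
    have hw2 : w2 ∈ Uw S N y' := (mem_Uw_bf h.fam hl hb2 (Or.inr (Or.inr py)) pw).1 hw
    have e1 : E M N z w z2 w2 := piso_pair hb2.piso pz pw
    have e2 : E M N z b z2 b' := piso_pair hb2.piso pz (Or.inr (Or.inr pb))
    have e3 : E M N a w a' w2 := piso_pair hb2.piso (Or.inr (Or.inr pa)) pw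
    have e4 : E M N z b z' b' := piso_pair a3 hu a1b
    have e5 : E M N a w a' w' := piso_pair c3 c1a hv
    have e6 : E N N z2 w2 z' w2 := hg'.gb z2 (L_AS h' hz2) z' (L_AS h' hz')
      (e2.symm.trans e4) w2 (U_AS h' hw2)
    have e7 : E N N z' w2 z' w' := hg'.ga w2 (U_AS h' hw2) w' (U_AS h' hw')
      (e3.symm.trans e5) z' (L_AS h' hz')
    exact (e1.trans e6).trans e7
  have hne : ∀ u ∈ q1, u.1 ∈ Lw S M x → ∀ v ∈ q2, v.1 ∈ Uw S M y →
      (u.1 ≠ v.1 ∧ u.2 ≠ v.2) := by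
    rintro ⟨z, z'⟩ hu hz ⟨w, w'⟩ hv hw
    simp only at hz hw ⊢
    refine ⟨?_, ?_⟩
    · rintro rfl
      exact h.Dj hz hw
    · rintro rfl
      exact h'.Dj ((m1 _ hu).1 hz) ((m2 _ hv).1 hw)
  refine ⟨{w | w ∈ q1 ∧ w.1 ∈ Lw S M x} ∪ {w | w ∈ q2 ∧ w.1 ∈ Uw S M y}, empty_subset _,
    ?_, ?_, ?_, ?_⟩
  · rintro w (⟨hw, hw'⟩ | ⟨hw, hw'⟩)
    · exact ⟨h.L hw', h'.L ((m1 w hw).1 hw')⟩
    · exact ⟨h.U hw', h'.U ((m2 w hw).1 hw')⟩
  · rw [piso_E]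
    refine ⟨?_, ?_, ?_⟩
    · rintro u (⟨hu, hu'⟩ | ⟨hu, hu'⟩) v (⟨hv, hv'⟩ | ⟨hv, hv'⟩)
      · exact a3'.1 u hu v hv
      · have := hne u hu hu' v hv hv'
        exact ⟨fun e => absurd e this.1, fun e => absurd e this.2⟩
      · have := hne v hv hv' u hu hu'
        exact ⟨fun e => absurd e.symm this.1, fun e => absurd e.symm this.2⟩
      · exact c3'.1 u hu v hv
    · rintro u (⟨hu, hu'⟩ | ⟨hu, hu'⟩) v (⟨hv, hv'⟩ | ⟨hv, hv'⟩)
      · exact a3'.2.1 u hu v hv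
      · exact hcross u hu hu' v hv hv'
      · exact (hcross v hv hv' u hu hu').swap
      · exact c3'.2.1 u hu v hv
    · rintro n u (⟨hu, hu'⟩ | ⟨hu, hu'⟩)
      · exact a3'.2.2 n u hu
      · exact c3'.2.2 n u hu
  · intro z hz
    rcases h.C hz with hz' | hz'
    · have : z ∈ Lw S M x \ {x} ∪ {x, b} := by
        by_cases hzx : z = x
        · exact Or.inr (Or.inl hzx)
        · exact Or.inl ⟨hz', hzx⟩
      obtain ⟨w, hw⟩ := a4 z this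
      exact ⟨w, Or.inl ⟨hw, hz'⟩⟩
    · have : z ∈ Uw S M y \ {y} ∪ {y, a} := by
        by_cases hzx : z = y
        · exact Or.inr (Or.inl hzx)
        · exact Or.inl ⟨hz', hzx⟩
      obtain ⟨w, hw⟩ := c4 z this
      exact ⟨w, Or.inr ⟨hw, hz'⟩⟩
  · intro z hz
    rcases h'.C hz with hz' | hz'
    · have : z ∈ Lw S N x' \ {x'} ∪ {x', b'} := by
        by_cases hzx : z = x'
        · exact Or.inr (Or.inl hzx)
        · exact Or.inl ⟨hz', hzx⟩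
      obtain ⟨w, hw⟩ := a5 z this
      exact ⟨w, Or.inl ⟨hw, (m1 _ hw).2 hz'⟩⟩
    · have : z ∈ Uw S N y' \ {y'} ∪ {y', a'} := by
        by_cases hzx : z = y'
        · exact Or.inr (Or.inl hzx)
        · exact Or.inl ⟨hz', hzx⟩
      obtain ⟨w, hw⟩ := c5 z this
      exact ⟨w, Or.inr ⟨hw, (m2 _ hw).2 hz'⟩⟩

/-- SIM -/
theorem sim (hK : G α K) (hS : Fam K S) (hblk : ∀ M ∈ K, ∀ x, (M, Ic M x x) ∈ S) :
    ∃ S' : Set (R2 × Set ℕ), Fam K S' ∧ S ⊆ S' ∧ ∀ M ∈ K, ∀ x y, lt M x y →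
      (M, Ic M x y) ∉ S' → ∃ z, lt M x z ∧ lt M z y ∧ (M, Ic M x z) ∉ S ∧
        (M, Ic M z y) ∉ S := by
  classical
  obtain ⟨νL, hνL⟩ := towc hK hS
  obtain ⟨νU, hνU⟩ := towr hK hS
  obtain ⟨l, hl1, hl2, hl⟩ := lev hS
  have hl3 : l + 1 + 1 < Ordinal.omega 1 := (Cardinal.isSuccLimit_omega 1).add_one_lt
    ((Cardinal.isSuccLimit_omega 1).add_one_lt hl1)
  obtain ⟨c, hc⟩ := lab hK hl3
  obtain ⟨e, he⟩ := hS.cnt
  obtain ⟨f, hf⟩ := g_code (C := ℕ × ℕ × ℕ)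
    {P : R2 × ℕ × ℕ | SimP K S P.1 P.2.1 P.2.2}
    (fun κ P => ∃ a b, GP S P.1 P.2.1 P.2.2 a b ∧ c P.1 [P.2.1, P.2.2, a, b] = κ.1 ∧
      νL P.1 P.2.1 b = κ.2.1 ∧ νU P.1 P.2.2 a = κ.2.2)
    (fun P Q => IsoOn (lift P.1) (lift Q.1) (Ic P.1 P.2.1 P.2.2) (Ic Q.1 Q.2.1 Q.2.2) ∅)
    (R0, 0, 0) (by
      rintro ⟨M, x, y⟩ hP
      obtain ⟨a, b, hg⟩ := gp_ex (show SimP K S M x y from hP)
      exact ⟨(_, _, _), a, b, hg, rfl, rfl, rfl⟩) (by
      rintro ⟨κ1, κ2, κ3⟩ ⟨M, x, y⟩ hP ⟨N, x', y'⟩ hQ ⟨a, b, hg, k1, k2, k3⟩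
        ⟨a', b', hg', k1', k2', k3'⟩
      have hP' : SimP K S M x y := hP
      have hQ' : SimP K S N x' y' := hQ
      simp only at k1 k2 k3 k1' k2' k3' hg hg' ⊢
      refine sim_iso hl hP' hg hQ' hg' (hc M hP'.mem N hQ'.mem _ _ rfl (by rw [k1, k1'])) ?_ ?_
      · exact hνL M hP'.mem N hQ'.mem x b x' b' (VL_gp hP' hg) (VL_gp hQ' hg')
          (by rw [k2, k2'])
      · exact hνU M hP'.mem N hQ'.mem y a y' a' (VU_gp hP' hg) (VU_gp hQ' hg')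
          (by rw [k3, k3']))
  obtain ⟨S', hS', hF⟩ := genf hK.wo hK.law (fun n => if n % 2 = 0 then e (n / 2) else
    ((f (n / 2)).1, Ic (f (n / 2)).1 (f (n / 2)).2.1 (f (n / 2)).2.2))
  have hS1 : ∀ n, e n ∈ S' := by
    intro n
    have := hF (2 * n)
    simpa using this
  have hS2 : ∀ n, ((f n).1, Ic (f n).1 (f n).2.1 (f n).2.2) ∈ S' := by
    intro n
    have h := hF (2 * n + 1)
    have h4 : (2 * n + 1) % 2 = 1 := by omega
    have h5 : (2 * n + 1) / 2 = n := by omega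
    simpa [h4, h5] using h
  have hsub : S ⊆ S' := by
    rintro ⟨M, X⟩ h
    obtain ⟨n, hn⟩ := he M X h
    exact hS'.iso _ _ _ _ (hS1 n) hn
  refine ⟨S', hS', hsub, ?_⟩
  intro M hM x y hxy hn
  by_contra hcon
  apply hn
  have hs : SimP K S M x y := by
    refine ⟨hM, hK.wo M hM, hK.law M hM M hM, hK.pc M hM, hS, hblk M hM, hxy,
      fun h => hn (hsub h), ?_⟩
    intro z hxz hzy
    by_contra h4
    rw [not_or] at h4
    exact hcon ⟨z, hxz, hzy, h4.1, h4.2⟩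
  obtain ⟨n, hn⟩ := hf (M, x, y) hs
  exact hS'.iso _ _ _ _ (hS2 n) hn

end Pool.Agent.Run7.h201.CS
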