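import Pool.Agent.Run7.h201.CS.Glue

set_option autoImplicit false

/-!
# Coherent preorders: filling intervals which are not small
-/

namespace Pool.Agent.Run7.h201.CS

open Set
open Pool.Agent.H899R2.VP (St Adj PIso BF IsoOn idOn inv comp zipSet mem_inv BF_iff zipSet_cons
  zipSet_nil_left labels idOn_mono)
open Pool.Agent.H533R2.VO (RS lift RIso Dich resBF resIso)
open Pool.Agent.H566P (ar R2 lt ac co mk)
open Pool.Agent.Y560.TG (lt_mk ac_mk co_mk piso_iff ex lt_ex ac_ex co_ex_even co_ex_odd piso_ex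
  bf_trans0 bf_symm0 iso_trans0 iso_symm0 iso_refl0 Off riso_isoOn piso_lt piso_co mat msg
  meas_lt R2_ext cont_into piso_eq)

/-- the interval `[x, y]` without the points `x`, `y` -/
def Io (M : R2) (x y : ℕ) : Set ℕ := Ic M x y \ {x, y}

theorem left_nIo {M : R2} {x y : ℕ} : x ∉ Io M x y := fun h => h.2 (Or.inl rfl)
theorem right_nIo {M : R2} {x y : ℕ} : y ∉ Io M x y := fun h => h.2 (Or.inr rfl)

theorem Io_union {M : R2} (hM : WO M) {x y : ℕ} (h : ¬ lt M y x) :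
    Io M x y ∪ range (bs x y) = Ic M x y := by
  rw [range_bs]
  ext z
  constructor
  · rintro (hz | hz | hz)
    · exact hz.1
    · rw [hz]; exact left_mem_Ic hM h
    · rw [hz]; exact right_mem_Ic hM h
  · intro hz
    by_cases h' : z ∈ ({x, y} : Set ℕ)
    · exact Or.inr h'
    · exact Or.inl ⟨hz, h'⟩

theorem ic_off {M V : R2} {x y : ℕ} (h : Off (Io M x y) M V) : Ic V x y = Ic M x y := by
  ext z
  rw [mem_Ic, mem_Ic, h.1 z x (fun h => left_nIo h.2), h.1 y z (fun h => right_nIo h.1)]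

theorem piso_Io {M N : R2} {x y x' y' : ℕ} {q : Set (ℕ × ℕ)} (hq : PIso (lift M) (lift N) q)
    (hx : (x, x') ∈ q) (hy : (y, y') ∈ q) {u : ℕ × ℕ} (hu : u ∈ q) :
    u.1 ∈ Io M x y ↔ u.2 ∈ Io N x' y' := by
  have h1 := mem_Ic_iff hq hx hy (show (u.1, u.2) ∈ q from hu)
  have h2 := piso_eq hq (show (u.1, u.2) ∈ q from hu) hx
  have h3 := piso_eq hq (show (u.1, u.2) ∈ q from hu) hy
  unfold Io
  simp only [mem_sdiff, mem_insert_iff, mem_singleton_iff]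
  rw [h1, h2, h3]

variable {α : Ordinal.{0}} {K : Set R2} {M : R2}

theorem fillS (hK : G α K) (hM : M ∈ K) {x y : ℕ} (hxy : lt M x y)
    (hns : ¬ Small K α M x y) (F : Set (R2 × Set ℕ)) (hF : F.Countable) :
    ∃ T : R2, Off (Io M x y) M T ∧
      BF (lift (lc M (bs x y))) (lift (lc T (bs x y))) (Io M x y) (Io M x y) α ∅ ∧ T ∈ K ∧
      ∃ s ∈ Ic M x y, ∃ t ∈ Ic M x y, ¬ lt T t s ∧
        ∀ P ∈ F, ¬ IsoOn (lift P.1) (lift T) P.2 (Ic T s t) ∅ := by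
  obtain ⟨f, hf⟩ := (hF.insert (M, (∅ : Set ℕ))).exists_eq_range (insert_nonempty _ _)
  have hex : ∃ N ∈ K, ∃ x' y', BF (lift M) (lift N) univ univ α {(x, x'), (y, y')} ∧
      ∃ s ∈ Ic N x' y', ∃ t ∈ Ic N x' y', ¬ lt N t s ∧
      ∀ n, ¬ IsoOn (lift (f n).1) (lift N) (f n).2 (Ic N s t) ∅ := by
    by_contra hcon
    apply hns
    refine ⟨f, fun N hN x' y' hb s hs t ht hst => ?_⟩
    by_contra hno
    exact hcon ⟨N, hN, x', y', hb, s, hs, t, ht, hst, fun n hn => hno ⟨n, hn⟩⟩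
  obtain ⟨N, hN, x', y', hbf, s, hs, t, ht, hst, hno⟩ := hex
  have hMo := hK.wo M hM
  have hNo := hK.wo N hN
  have hpx : (x, x') ∈ ({(x, x'), (y, y')} : Set (ℕ × ℕ)) := Or.inl rfl
  have hpy : (y, y') ∈ ({(x, x'), (y, y')} : Set (ℕ × ℕ)) := Or.inr rfl
  have hxy' : lt N x' y' := (piso_lt hbf.piso hpx hpy).1 hxy
  have hb2 : BF (lift (lc M (bs x y))) (lift (lc N (bs x' y'))) (Io M x y) (Io N x' y') α ∅ :=
    (bf_lc (Y := Io M x y) (Y' := Io N x' y') (subset_univ _) (subset_univ _)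
      (bs_mem hpx hpy) (fun q hq hi u hu => piso_Io hi (hq hpx) (hq hpy) hu) hbf).subset
        (empty_subset _)
  obtain ⟨V, hoff, hiso, hbV, hbfV⟩ := fill (mod_int hMo (hK.law M hM M hM)) hK.om hb2
  have hVK : V ∈ K := hK.closed M hM V (hbfV.subset (empty_subset _))
  have hVo := hK.wo V hVK
  have hp : PIso (lift N) (lift V) {u | ∃ i, u = (bs x' y' i, bs x y i)} := by
    rw [bs_set]
    refine (hbf.piso.symm.comp hbfV.piso).mono ?_
    rintro u (rfl | rfl)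
    · exact ⟨x, hpx, rfl, left_nIo⟩
    · exact ⟨y, hpy, rfl, right_nIo⟩
  have h1 := iso_add (bs_notMem left_nIo right_nIo) (bs_notMem left_nIo right_nIo) hp hiso
  change IsoOn _ _ (Io N x' y' ∪ range (bs x' y')) (Io M x y ∪ range (bs x y)) _ at h1
  rw [Io_union hMo (hMo.asymm hxy), Io_union hNo (hNo.asymm hxy')] at h1
  obtain ⟨q, h2, h3, h4, h5, h6⟩ := h1
  obtain ⟨s1, hs1⟩ := h5 s hs
  obtain ⟨t1, ht1⟩ := h5 t ht
  have hs1' := (h3 hs1).2
  have ht1' := (h3 ht1).2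
  have h7 : IsoOn (lift N) (lift V) (Ic N s t) (Ic V s1 t1) ∅ := by
    have h8 := isoIc (p := q) hs1 ht1 ⟨q, Subset.rfl, h3, h4, h5, h6⟩
    have e1 : Ic N x' y' ∩ Ic N s t = Ic N s t := inter_eq_right.2 (Ic_sub hNo hs.1 ht.2)
    have e2 : Ic M x y ∩ Ic V s1 t1 = Ic V s1 t1 := by
      rw [← ic_off hoff] at hs1' ht1' ⊢
      exact inter_eq_right.2 (Ic_sub hVo hs1'.1 ht1'.2)
    rw [e1, e2] at h8
    exact h8.mono (empty_subset _)
  refine ⟨V, hoff, hbV, hVK, s1, hs1', t1, ht1', ?_, ?_⟩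
  · exact fun h => hst ((piso_lt h4 ht1 hs1).2 h)
  · intro P hP hPI
    have hPr : P ∈ range f := by
      rw [← hf]
      exact Or.inr hP
    obtain ⟨n, rfl⟩ := hPr
    exact hno n (iso_trans0 hPI (iso_symm0 h7))

/-- Structures which agree on `X` are isomorphic on `X` by the identity. -/
theorem iso_agree {M N : R2} {X : Set ℕ} (h1 : ∀ x ∈ X, ∀ y ∈ X, E M N x y x y)
    (h2 : ∀ n, ∀ x ∈ X, (co M n x ↔ co N n x)) : IsoOn (lift M) (lift N) X X (idOn X) := by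
  refine ⟨idOn X, Subset.rfl, ?_, ?_, fun x hx => ⟨x, rfl, hx⟩, fun x hx => ⟨x, rfl, hx⟩⟩
  · rintro ⟨u, v⟩ ⟨h, h'⟩
    simp only at h h'
    subst h
    exact ⟨h', h'⟩
  · rw [piso_E]
    refine ⟨?_, ?_, ?_⟩
    · rintro ⟨u, u'⟩ ⟨h3, _⟩ ⟨v, v'⟩ ⟨h4, _⟩
      simp only at h3 h4
      subst h3 h4
      exact Iff.rfl
    · rintro ⟨u, u'⟩ ⟨h3, h5⟩ ⟨v, v'⟩ ⟨h4, h6⟩
      simp only at h3 h4 h5 h6
      subst h3 h4
      exact h1 _ h5 _ h6
    · rintro n ⟨u, u'⟩ ⟨h3, h5⟩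
      simp only at h3 h5
      subst h3
      exact h2 n _ h5

end Pool.Agent.Run7.h201.CS
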