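import Pool.Agent.Run7.h201.CS.Tr

set_option autoImplicit false

/-!
# Structures with an order, binary relations and unary predicates
-/

namespace Pool.Agent.Run7.h201.CS.STR

open Set MeasureTheory
open Pool.Agent.H533R2.VO (RS lift RIso Dich)
open Pool.Agent.H566P (ar R2 lt ac co mk)
open Pool.Agent.Y560.TG (lt_mk ac_mk co_mk riso_iff R2_ext meas_into meas_lt meas_ac meas_co
  cont_into)

/-- structures -/
abbrev SS : Type := (ℕ → ℕ → Bool) × (ℕ → ℕ → ℕ → Bool) × (ℕ → ℕ → Bool)

/-- isomorphisms -/
def IsIso (σ : Equiv.Perm ℕ) (x y : SS) : Prop :=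
  (∀ a b, y.1 (σ a) (σ b) = x.1 a b) ∧ (∀ k a b, y.2.1 k (σ a) (σ b) = x.2.1 k a b) ∧
    ∀ k a, y.2.2 k (σ a) = x.2.2 k a

/-- coding -/
noncomputable def co' (x : SS) : R2 :=
  mk (fun a b => x.1 a b = true) (fun k a b => x.2.1 k a b = true) (fun k a => x.2.2 k a = true)

open Classical in
/-- decoding -/
noncomputable def de (z : R2) : SS :=
  (fun a b => decide (lt z a b), fun k a b => decide (ac z k a b), fun k a => decide (co z k a))

theorem co_de (z : R2) : co' (de z) = z := by
  classical
  refine R2_ext ?_ ?_ ?_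
  · intro a b
    rw [co', lt_mk]
    exact decide_eq_true_iff
  · intro k a b
    rw [co', ac_mk]
    exact decide_eq_true_iff
  · intro k a
    rw [co', co_mk]
    exact decide_eq_true_iff

theorem de_co (x : SS) : de (co' x) = x := by
  classical
  refine Prod.ext ?_ (Prod.ext ?_ ?_)
  · funext a b
    show decide (lt (co' x) a b) = _
    rw [Bool.eq_iff_iff, decide_eq_true_iff, co', lt_mk]
  · funext k a b
    show decide (ac (co' x) k a b) = _
    rw [Bool.eq_iff_iff, decide_eq_true_iff, co', ac_mk]
  · funext k a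
    show decide (co (co' x) k a) = _
    rw [Bool.eq_iff_iff, decide_eq_true_iff, co', co_mk]

theorem iso_iff {x y : SS} : RIso (co' x) (co' y) ↔ ∃ σ, IsIso σ x y := by
  rw [riso_iff]
  unfold co'
  simp only [lt_mk, ac_mk, co_mk]
  have e : ∀ p q : Bool, (p = true ↔ q = true) ↔ p = q := by decide
  simp only [e]
  rfl

theorem meas_de : Measurable de := by
  classical
  refine Measurable.prodMk ?_ (Measurable.prodMk ?_ ?_)
  · refine measurable_pi_lambda _ fun a => measurable_pi_lambda _ fun b => ?_
    refine measurable_to_bool ?_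
    have e : (fun z : R2 => decide (lt z a b)) ⁻¹' {true} = {z | lt z a b} := by
      ext z
      exact decide_eq_true_iff
    rw [e]
    exact meas_lt a b
  · refine measurable_pi_lambda _ fun k => measurable_pi_lambda _ fun a =>
      measurable_pi_lambda _ fun b => ?_
    refine measurable_to_bool ?_
    have e : (fun z : R2 => decide (ac z k a b)) ⁻¹' {true} = {z | ac z k a b} := by
      ext z
      exact decide_eq_true_iff
    rw [e]
    exact meas_ac k a b
  · refine measurable_pi_lambda _ fun k => measurable_pi_lambda _ fun a => ?_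
    refine measurable_to_bool ?_
    have e : (fun z : R2 => decide (co z k a)) ⁻¹' {true} = {z | co z k a} := by
      ext z
      exact decide_eq_true_iff
    rw [e]
    exact meas_co k a

theorem cont_de : Continuous de := by
  classical
  have key : ∀ (i : ℕ) (v : Fin (ar i) → ℕ), Continuous fun z : R2 => z i v :=
    fun i v => (continuous_apply v).comp (continuous_apply i)
  refine Continuous.prodMk ?_ (Continuous.prodMk ?_ ?_)
  · refine continuous_pi fun a => continuous_pi fun b => ?_
    have e : (fun z : R2 => decide (lt z a b)) = fun z : R2 =>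
        z 0 (Pool.Agent.H566P.v2 0 a b) := by
      funext z
      rw [Bool.eq_iff_iff, decide_eq_true_iff]
      exact Iff.rfl
    rw [e]
    exact key _ _
  · refine continuous_pi fun k => continuous_pi fun a => continuous_pi fun b => ?_
    have e : (fun z : R2 => decide (ac z k a b)) = fun z : R2 =>
        z (2 * k + 1) (Pool.Agent.H566P.v2 (2 * k + 1) a b) := by
      funext z
      rw [Bool.eq_iff_iff, decide_eq_true_iff]
      exact Iff.rfl
    rw [e]
    exact key _ _
  · refine continuous_pi fun k => continuous_pi fun a => ?_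
    have e : (fun z : R2 => decide (co z k a)) = fun z : R2 =>
        z (2 * k + 2) (Pool.Agent.H566P.v2 (2 * k + 2) a a) := by
      funext z
      rw [Bool.eq_iff_iff, decide_eq_true_iff]
      exact Iff.rfl
    rw [e]
    exact key _ _

/-- Transfer of the dichotomy. -/
theorem out (V : R2 → Prop) (hV : ∀ B : Set R2, MeasurableSet B → (∀ x y, RIso x y → x ∈ B → y ∈ B) →
      (∀ z ∈ B, V z) → Dich B)
    (B : Set SS) (hB : MeasurableSet B) (hinv : ∀ x ∈ B, ∀ y σ, IsIso σ x y → y ∈ B)
    (hBV : ∀ x ∈ B, V (co' x)) :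
    (∃ f : ℕ → SS, ∀ x ∈ B, ∃ n σ, IsIso σ (f n) x) ∨
    ∃ c : (ℕ → Bool) → SS, Continuous c ∧ (∀ s, c s ∈ B) ∧
      ∀ s t, (∃ σ, IsIso σ (c s) (c t)) → s = t := by
  rcases hV (de ⁻¹' B) (meas_de hB) (by
    intro x y hxy hx
    have h1 : RIso (co' (de x)) (co' (de y)) := by rw [co_de, co_de]; exact hxy
    obtain ⟨σ, hσ⟩ := iso_iff.1 h1
    exact hinv _ hx _ _ hσ) (by
    intro z hz
    have := hBV _ hz
    rwa [co_de] at this) with ⟨f, hf⟩ | ⟨c, hc1, hc2, hc3⟩
  · left
    refine ⟨fun n => de (f n), fun x hx => ?_⟩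
    obtain ⟨n, hn⟩ := hf (co' x) (show de (co' x) ∈ B by rw [de_co]; exact hx)
    refine ⟨n, iso_iff.1 ?_⟩
    rw [co_de]
    exact hn
  · right
    refine ⟨fun s => de (c s), cont_de.comp hc1, hc2, fun s t h => ?_⟩
    apply hc3
    have h1 := iso_iff.2 h
    rwa [co_de, co_de] at h1

end Pool.Agent.Run7.h201.CS.STR
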