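import Pool.Agent.Run7.h201.CS.Bas

set_option autoImplicit false

/-!
# Coherent preorders: preparations for the tower argument
-/

namespace Pool.Agent.Run7.h201.CS

open Set MeasureTheory
open Pool.Agent.H899R2.VP (St Adj PIso BF IsoOn idOn inv comp zipSet mem_inv BF_iff zipSet_cons
  zipSet_nil_left labels idOn_mono BF_of_total)
open Pool.Agent.H533R2.VO (RS lift RIso Dich resBF resIso)
open Pool.Agent.H566P (ar R2 lt ac co mk)
open Pool.Agent.Y560.TG (lt_mk ac_mk co_mk piso_iff ex lt_ex ac_ex co_ex_even co_ex_odd piso_ex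
  bf_trans0 bf_symm0 iso_trans0 iso_symm0 iso_refl0 Off riso_isoOn piso_lt piso_co mat msg
  meas_lt meas_ac meas_co R2_ext cont_into piso_eq meas_into)
open Pool.Agent.Y560.TG.PL (nth_iff meas_count meas_nth count_inst)
open Pool.Agent.Y839.TF (Var off_var off_refl)

/-- permutations as partial isomorphisms -/
theorem piso_perm {x y : R2} {σ : Equiv.Perm ℕ} : PIso (lift x) (lift y) {u | u.2 = σ u.1} ↔
    ∀ (i : ℕ) (v : Fin (ar i) → ℕ), y i (⇑σ ∘ v) = x i v := by
  constructor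
  · intro h i v
    exact (h.2.2 i (fun k => (v k, σ (v k))) fun k => rfl).symm
  · intro h
    refine ⟨?_, fun _ _ _ _ => rfl, ?_⟩
    · rintro ⟨u, u'⟩ hu ⟨v, v'⟩ hv
      simp only [Set.mem_ofPred_eq] at hu hv
      subst hu hv
      simp
    · intro i t ht
      have h3 : (fun k => (t k).2) = ⇑σ ∘ fun k => (t k).1 := by
        funext k
        exact ht k
      rw [h3]
      exact (h i _).symm

/-- pull back along a function -/
noncomputable def pul (e : ℕ → ℕ) (T : R2) : R2 :=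
  mk (fun x y => lt T (e x) (e y)) (fun n x y => ac T n (e x) (e y)) (fun n x => co T n (e x))

theorem pul_piso (e : ℕ → ℕ) (he : Function.Injective e) (T : R2) :
    PIso (lift (pul e T)) (lift T) {u | u.2 = e u.1} := by
  rw [piso_iff]
  unfold pul
  simp only [lt_mk, ac_mk, co_mk]
  refine ⟨?_, ?_, ?_, ?_⟩
  · rintro ⟨u, u'⟩ hu ⟨v, v'⟩ hv
    simp only [Set.mem_ofPred_eq] at hu hv
    subst hu hv
    exact ⟨fun h => congrArg e h, fun h => he h⟩
  · rintro ⟨u, u'⟩ hu ⟨v, v'⟩ hv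
    simp only [Set.mem_ofPred_eq] at hu hv
    subst hu hv
    exact Iff.rfl
  · rintro n ⟨u, u'⟩ hu ⟨v, v'⟩ hv
    simp only [Set.mem_ofPred_eq] at hu hv
    subst hu hv
    exact Iff.rfl
  · rintro n ⟨u, u'⟩ hu
    simp only [Set.mem_ofPred_eq] at hu
    subst hu
    exact Iff.rfl

theorem pul_iso (T : R2) {O : Set ℕ} (hO : O.Infinite) :
    ∃ W : R2, IsoOn (lift W) (lift T) univ O ∅ := by
  classical
  have h1 : Function.Injective (Nat.nth (· ∈ O)) := Nat.nth_injective hO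
  refine ⟨pul (Nat.nth (· ∈ O)) T, {u | u.2 = Nat.nth (· ∈ O) u.1}, empty_subset _, ?_,
    pul_piso _ h1 T, fun x _ => ⟨Nat.nth (· ∈ O) x, rfl⟩, fun y hy => ?_⟩
  · rintro ⟨u, v⟩ h
    simp only [Set.mem_ofPred_eq] at h
    subst h
    exact ⟨mem_univ _, Nat.nth_mem_of_infinite hO u⟩
  · refine ⟨Nat.count (· ∈ O) y, ?_⟩
    show y = _
    rw [Nat.nth_count hy]

/-- Restriction of a total partial isomorphism. -/
theorem iso_res {M M' : R2} {X X' Y Y' : Set ℕ} {q : Set (ℕ × ℕ)} {b b' : ℕ → ℕ}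
    (h3 : PIso (lift M) (lift M') q)
    (h4 : ∀ x ∈ X, ∃ y, (x, y) ∈ q) (h5 : ∀ y ∈ X', ∃ x, (x, y) ∈ q)
    (hY : Y ⊆ X) (hY' : Y' ⊆ X') (hb : ∀ i, (b i, b' i) ∈ q)
    (H : ∀ u ∈ q, (u.1 ∈ Y ↔ u.2 ∈ Y')) :
    IsoOn (lift (lc M b)) (lift (lc M' b')) Y Y' {u | u ∈ q ∧ u.1 ∈ Y} := by
  refine ⟨{u | u ∈ q ∧ u.1 ∈ Y}, Subset.rfl, ?_, ?_, ?_, ?_⟩
  · rintro u ⟨hu, hu'⟩
    exact ⟨hu', (H u hu).1 hu'⟩
  · rw [piso_lc]
    refine ⟨h3.mono fun u hu => hu.1, fun u hu i => ?_⟩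
    exact piso_pair h3 (hb i) (show (u.1, u.2) ∈ q from hu.1)
  · intro x hx
    obtain ⟨y, hy⟩ := h4 x (hY hx)
    exact ⟨y, hy, hx⟩
  · intro y hy
    obtain ⟨x, hx⟩ := h5 y (hY' hy)
    exact ⟨x, hx, (H _ hx).2 hy⟩

/-- Transfer of the order axioms and of the law. -/
theorem wo_iso {W V : R2} {O : Set ℕ} (h : IsoOn (lift W) (lift V) univ O ∅) (hV : WO V) :
    WO W := by
  obtain ⟨q, -, h2, h3, h4, h5⟩ := h
  refine ⟨fun x hx => ?_, fun x y z h6 h7 => ?_, fun x y z h6 => ?_⟩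
  · obtain ⟨x', hx'⟩ := h4 x (mem_univ _)
    exact hV.irr x' ((piso_lt h3 hx' hx').1 hx)
  · obtain ⟨x', hx'⟩ := h4 x (mem_univ _)
    obtain ⟨y', hy'⟩ := h4 y (mem_univ _)
    obtain ⟨z', hz'⟩ := h4 z (mem_univ _)
    rw [piso_lt h3 hx' hy'] at h6
    rw [piso_lt h3 hy' hz'] at h7
    rw [piso_lt h3 hx' hz']
    exact hV.tr _ _ _ h6 h7
  · obtain ⟨x', hx'⟩ := h4 x (mem_univ _)
    obtain ⟨y', hy'⟩ := h4 y (mem_univ _)
    obtain ⟨z', hz'⟩ := h4 z (mem_univ _)
    rw [piso_lt h3 hx' hz'] at h6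
    rw [piso_lt h3 hx' hy', piso_lt h3 hy' hz']
    exact hV.ntr _ _ _ h6

theorem law_iso {W V : R2} {O : Set ℕ} (h : IsoOn (lift W) (lift V) univ O ∅) (hV : Law V V) :
    Law W W := by
  obtain ⟨q, -, h2, h3, h4, h5⟩ := h
  intro x c y x' c' y' g1 g2 g3 g4
  obtain ⟨x1, hx1⟩ := h4 x (mem_univ _)
  obtain ⟨c1, hc1⟩ := h4 c (mem_univ _)
  obtain ⟨y1, hy1⟩ := h4 y (mem_univ _)
  obtain ⟨x1', hx1'⟩ := h4 x' (mem_univ _)
  obtain ⟨c1', hc1'⟩ := h4 c' (mem_univ _)
  obtain ⟨y1', hy1'⟩ := h4 y' (mem_univ _)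
  rw [piso_lt h3 hc1 hx1] at g1
  rw [piso_lt h3 hy1 hc1] at g2
  have g5 := ((piso_pair h3 hx1 hc1).symm.trans g3).trans (piso_pair h3 hx1' hc1')
  have g6 := ((piso_pair h3 hc1 hy1).symm.trans g4).trans (piso_pair h3 hc1' hy1')
  exact ((piso_pair h3 hx1 hy1).trans (hV x1 c1 y1 x1' c1' y1' g1 g2 g5 g6)).trans
    (piso_pair h3 hx1' hy1').symm

theorem wo_lc {V : R2} {b : ℕ → ℕ} (h : WO V) : WO (lc V b) := by
  unfold lc
  refine ⟨fun x => ?_, fun x y z => ?_, fun x y z => ?_⟩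
  · rw [lt_ex]; exact h.irr x
  · rw [lt_ex, lt_ex, lt_ex]; exact h.tr x y z
  · rw [lt_ex, lt_ex, lt_ex]; exact h.ntr x y z

theorem E_lc {V V' : R2} {b b' : ℕ → ℕ} {x y x' y' : ℕ} :
    E (lc V b) (lc V' b') x y x' y' ↔ E V V' x y x' y' := E_ex

theorem law_lc {V : R2} {b : ℕ → ℕ} (h : Law V V) : Law (lc V b) (lc V b) := by
  intro x c y x' c' y' g1 g2 g3 g4
  rw [E_lc] at g3 g4 ⊢
  unfold lc at g1 g2
  rw [lt_ex] at g1 g2
  exact h x c y x' c' y' g1 g2 g3 g4

/-! ### Measurability of the variation -/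

/-- the matching -/
noncomputable def ph (R : R2) (O : Set ℕ) (b : ℕ → ℕ) (W : R2) : ℕ → ℕ :=
  mat O univ (fmt R b W)

/-- the variation -/
noncomputable def VW (R : R2) (O : Set ℕ) (b : ℕ → ℕ) (W : R2) : R2 := Var O (ph R O b W) R W

theorem meas_fmt (R : R2) (b : ℕ → ℕ) (v w : ℕ) : Measurable fun W : R2 => fmt R b W v w := by
  unfold fmt
  exact Measurable.forall fun k => measurable_const.iff (measurableSet_setOfPred.1 (meas_co _ _))

theorem meas_ph (R : R2) (O : Set ℕ) (b : ℕ → ℕ) (x y : ℕ) :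
    Measurable fun W : R2 => ph R O b W x = y := by
  classical
  have h1 : (fun W : R2 => ph R O b W x = y) = fun W : R2 => ∃ c,
      Nat.count (fun v => v ∈ O ∧ ∃ w ∈ univ, fmt R b W x w ∧ fmt R b W v w) x = c ∧
      Nat.nth (fun w => w ∈ univ ∧ fmt R b W x w) c = y := by
    funext W
    unfold ph mat
    apply propext
    constructor
    · intro h
      exact ⟨_, rfl, Eq.trans (congrArg (Nat.nth _) (count_inst _ _ _ _)) h⟩
    · rintro ⟨c, rfl, h⟩
      exact Eq.trans (congrArg (Nat.nth _) (count_inst _ _ _ _)) h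
  rw [h1]
  refine Measurable.exists fun c => Measurable.and ?_ ?_
  · refine meas_count (fun (W : R2) v => v ∈ O ∧ ∃ w ∈ univ, fmt R b W x w ∧ fmt R b W v w)
      (fun v => ?_) x c
    refine measurable_const.and (Measurable.exists fun w => measurable_const.and ?_)
    exact (meas_fmt R b x w).and (meas_fmt R b v w)
  · exact meas_nth (fun (W : R2) w => w ∈ univ ∧ fmt R b W x w)
      (fun w => measurable_const.and (meas_fmt R b x w)) c y

theorem meas_VW (R : R2) (O : Set ℕ) (b : ℕ → ℕ) : Measurable (VW R O b) := by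
  classical
  refine meas_into (fun x y => ?_) (fun n x y => ?_) (fun n x => ?_)
  · by_cases hxy : x ∈ O ∧ y ∈ O
    · have h1 : {W : R2 | lt (VW R O b W) x y} = {W : R2 | ∃ a c, ph R O b W x = a ∧
          ph R O b W y = c ∧ lt W a c} := by
        ext W
        simp only [VW, Var, lt_mk, if_pos hxy, mem_ofPred_eq]
        constructor
        · exact fun h => ⟨_, _, rfl, rfl, h⟩
        · rintro ⟨a, b, rfl, rfl, h⟩
          exact h
      rw [h1]
      refine measurableSet_setOfPred.2 (Measurable.exists fun a => Measurable.exists fun c => ?_)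
      exact (meas_ph R O b x a).and ((meas_ph R O b y c).and
        (measurableSet_setOfPred.1 (meas_lt a c)))
    · have h1 : {W : R2 | lt (VW R O b W) x y} = {_W : R2 | lt R x y} := by
        ext W
        simp only [VW, Var, lt_mk, if_neg hxy, mem_ofPred_eq]
      rw [h1]
      exact MeasurableSet.const _
  · by_cases hxy : x ∈ O ∧ y ∈ O
    · have h1 : {W : R2 | ac (VW R O b W) n x y} = {W : R2 | ∃ a c, ph R O b W x = a ∧
          ph R O b W y = c ∧ ac W n a c} := by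
        ext W
        simp only [VW, Var, ac_mk, if_pos hxy, mem_ofPred_eq]
        constructor
        · exact fun h => ⟨_, _, rfl, rfl, h⟩
        · rintro ⟨a, b, rfl, rfl, h⟩
          exact h
      rw [h1]
      refine measurableSet_setOfPred.2 (Measurable.exists fun a => Measurable.exists fun c => ?_)
      exact (meas_ph R O b x a).and ((meas_ph R O b y c).and
        (measurableSet_setOfPred.1 (meas_ac n a c)))
    · have h1 : {W : R2 | ac (VW R O b W) n x y} = {_W : R2 | ac R n x y} := by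
        ext W
        simp only [VW, Var, ac_mk, if_neg hxy, mem_ofPred_eq]
      rw [h1]
      exact MeasurableSet.const _
  · by_cases hx : x ∈ O
    · have h1 : {W : R2 | co (VW R O b W) n x} = {W : R2 | ∃ a, ph R O b W x = a ∧
          co W (2 * n) a} := by
        ext W
        simp only [VW, Var, co_mk, if_pos hx, mem_ofPred_eq]
        constructor
        · exact fun h => ⟨_, rfl, h⟩
        · rintro ⟨a, rfl, h⟩
          exact h
      rw [h1]
      refine measurableSet_setOfPred.2 (Measurable.exists fun a => ?_)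
      exact (meas_ph R O b x a).and (measurableSet_setOfPred.1 (meas_co (2 * n) a))
    · have h1 : {W : R2 | co (VW R O b W) n x} = {_W : R2 | co R n x} := by
        ext W
        simp only [VW, Var, co_mk, if_neg hx, mem_ofPred_eq]
      rw [h1]
      exact MeasurableSet.const _

/-! ### The facts on the variation -/

section

variable {α γ l : Ordinal.{0}} {K : Set R2} {S : Set (R2 × Set ℕ)} {R W : R2} {u b : ℕ}

/-- The standing assumptions. -/
structure TA (α γ l : Ordinal.{0}) (K : Set R2) (S : Set (R2 × Set ℕ)) (R : R2) (u b : ℕ) :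
    Prop where
  hK : G α K
  hS : Fam K S
  hl : Lev S l
  hαγ : α ≤ γ
  hlγ : l < γ
  hR : R ∈ K
  md : Mod (Lw S R u \ {u}) (bs u b) R
  up : b = u ∨ ∀ z ∈ Lw S R u, lt R z b

/-- the class of structures which are equivalent to the piece -/
def WW (γ : Ordinal.{0}) (S : Set (R2 × Set ℕ)) (R : R2) (u b : ℕ) : Set R2 :=
  {W | BF (lift (lc R (bs u b))) (lift W) (Lw S R u \ {u}) univ γ ∅}

/-- the variation of `R` -/
noncomputable def VV (S : Set (R2 × Set ℕ)) (R : R2) (u b : ℕ) (W : R2) : R2 :=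
  VW R (Lw S R u \ {u}) (bs u b) W

theorem tw1 (h : TA α γ l K S R u b) (hW : W ∈ WW γ S R u b) :
    Off (Lw S R u \ {u}) R (VV S R u b W) ∧
    IsoOn (lift W) (lift (lc (VV S R u b W) (bs u b))) univ (Lw S R u \ {u}) ∅ ∧
    BF (lift R) (lift (VV S R u b W)) univ univ γ (idOn (Lw S R u \ {u})ᶜ) ∧
    VV S R u b W ∈ K := by
  have hω : Ordinal.omega0 ≤ γ := h.hK.om.trans h.hαγ
  have h1 := fill_iso (O := Lw S R u \ {u}) (b := bs u b) h.md.1 (hW.mono hω)
  have h2 := bf_trans0 hW (h1.bf γ)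
  have h3 := off_bf h.md (off_var _ _ R W) h2
  exact ⟨off_var _ _ R W, h1, h3, h.hK.closed R h.hR _ ((h3.subset (empty_subset _)).mono h.hαγ)⟩

theorem tw2 (h : TA α γ l K S R u b) (hW : W ∈ WW γ S R u b) :
    Lw S (VV S R u b W) u \ {u} = Lw S R u \ {u} := by
  obtain ⟨h1, h2, h3, h4⟩ := tw1 h hW
  have hu : u ∉ Lw S R u \ {u} := h.md.1 0
  ext z
  by_cases hz : z ∈ Lw S R u \ {u}
  · simp only [hz, iff_true]
    obtain ⟨z0, -, h5⟩ := h3.back h.hlγ (mem_univ z)
    have h6 : z0 ∈ Lw S R u \ {u} := by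
      by_contra hcon
      have h7 := (piso_eq h5.piso (x := z0) (x' := z) (y := z0) (y' := z0) (mem_insert _ _)
        (mem_insert_of_mem _ ⟨rfl, hcon⟩)).1 rfl
      rw [h7] at hz
      exact hcon hz
    refine ⟨(mem_Lw_bf h.hS h.hl h5 (mem_insert_of_mem _ ⟨rfl, hu⟩) (mem_insert _ _)).1 h6.1, ?_⟩
    rintro rfl
    exact hu hz
  · simp only [hz, iff_false]
    rintro ⟨h5, h6⟩
    refine hz ⟨(mem_Lw_bf h.hS h.hl (h3.mono h.hlγ.le) (x := u) (x' := u) (y := z) (y' := z)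
      ⟨rfl, hu⟩ ⟨rfl, hz⟩).2 h5, h6⟩

/-- Every element of the piece looks like an element of the original piece. -/
theorem tw3 (h : TA α γ l K S R u b) (hW : W ∈ WW γ S R u b) {z : ℕ}
    (hz : z ∈ Lw S R u \ {u}) : ∃ z0 ∈ Lw S R u \ {u}, E R (VV S R u b W) z0 b z b := by
  obtain ⟨h1, h2, h3, h4⟩ := tw1 h hW
  obtain ⟨z0, -, h5⟩ := h3.back h.hlγ (mem_univ z)
  have h6 : z0 ∈ Lw S R u \ {u} := by
    by_contra hcon
    have h7 := (piso_eq h5.piso (x := z0) (x' := z) (y := z0) (y' := z0) (mem_insert _ _)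
      (mem_insert_of_mem _ ⟨rfl, hcon⟩)).1 rfl
    rw [h7] at hz
    exact hcon hz
  exact ⟨z0, h6, piso_pair h5.piso (mem_insert _ _) (mem_insert_of_mem _ ⟨rfl, h.md.1 1⟩)⟩

theorem tw4 (h : TA α γ l K S R u b) (hW : W ∈ WW γ S R u b) : WO W ∧ Law W W := by
  obtain ⟨h1, h2, h3, h4⟩ := tw1 h hW
  exact ⟨wo_iso h2 (wo_lc (h.hK.wo _ h4)), law_iso h2 (law_lc (h.hK.law _ h4 _ h4))⟩

end

end Pool.Agent.Run7.h201.CS
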