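import Pool.Agent.Run7.h201.CS.Tow1

set_option autoImplicit false

/-!
# Coherent preorders: the tower argument
-/

namespace Pool.Agent.Run7.h201.CS

open Set MeasureTheory
open Pool.Agent.H899R2.VP (St Adj PIso BF IsoOn idOn inv comp zipSet mem_inv BF_iff zipSet_cons
  zipSet_nil_left labels idOn_mono BF_of_total few_base not_countable_cantor)
open Pool.Agent.H533R2.VO (RS lift RIso Dich resBF resIso)
open Pool.Agent.H566P (ar R2 lt ac co mk)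
open Pool.Agent.Y560.TG (lt_mk ac_mk co_mk piso_iff ex lt_ex ac_ex co_ex_even co_ex_odd piso_ex
  bf_trans0 bf_symm0 iso_trans0 iso_symm0 iso_refl0 Off riso_isoOn piso_lt piso_co mat msg
  meas_lt meas_ac meas_co R2_ext cont_into piso_eq meas_into)
open Pool.Agent.Y560.TT (tower_gen Pre SegIso encD adj_enc le_enc sgr exists_gr Full)
open Pool.Agent.Y117.TG (cantor_of_unc)

variable {α γ l : Ordinal.{0}} {K : Set R2} {S : Set (R2 × Set ℕ)} {R W : R2} {u b : ℕ}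

theorem Lw_Ic (hS : Fam K S) {V : R2} (hV : V ∈ K) (hVo : WO V) {m z : ℕ}
    (hm : m ∈ Lw S V u) (hz : z ∈ Ic V u m) : z ∈ Lw S V u :=
  ⟨hz.1, hS.sub V hV u m u z hm.2 (hVo.irr u) hz.1 hz.2⟩

theorem ww_few (h : TA α γ l K S R u b) :
    ¬ ∃ c : (ℕ → Bool) → R2, Continuous c ∧ (∀ A, c A ∈ WW γ S R u b) ∧
      ∀ A A', RIso (c A) (c A') → A = A' := by
  rintro ⟨c, hc, hcW, hinj⟩
  obtain ⟨f, hfi, hfc⟩ := cantor_of_unc (Ω := ℕ → Bool) not_countable_cantor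
    (fun A => VV S R u b (c A)) ((meas_VW _ _ _).comp hc.measurable)
  have hlc : Continuous (lift : R2 → St ar) := continuous_const.prodMk continuous_id
  refine few_base (lift_meas h.hK.meas) (lift_few h.hK.few) (F := {u, b})
    ((finite_singleton b).insert u) (fun A => lift (VV S R u b (c (f A)))) (hlc.comp hfc)
    (fun A => ⟨rfl, (tw1 h (hcW _)).2.2.2⟩) ?_
  intro A A' hAA
  apply hfi
  apply hinj
  rw [riso_isoOn]
  have h1 := tw1 h (hcW (f A))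
  have h2 := tw1 h (hcW (f A'))
  have h3 := tw2 h (hcW (f A))
  have h4 := tw2 h (hcW (f A'))
  obtain ⟨q, g1, g2, g3, g4, g5⟩ := hAA
  have gu : (u, u) ∈ q := g1 ⟨rfl, Or.inl rfl⟩
  have gb : (b, b) ∈ q := g1 ⟨rfl, Or.inr rfl⟩
  have hbf : BF (lift (VV S R u b (c (f A)))) (lift (VV S R u b (c (f A')))) univ univ l q :=
    BF_of_total g2 g3 g4 g5
  have hmem : ∀ w ∈ q, (w.1 ∈ Lw S R u \ {u} ↔ w.2 ∈ Lw S R u \ {u}) := by
    rintro ⟨w, w'⟩ hw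
    have e1 := mem_Lw_bf h.hS h.hl hbf gu hw
    have e2 := piso_eq g3 hw gu
    nth_rewrite 1 [← h3]
    nth_rewrite 1 [← h4]
    simp only [mem_sdiff, mem_singleton_iff]
    rw [e1, e2]
  have h5 : IsoOn (lift (lc (VV S R u b (c (f A))) (bs u b)))
      (lift (lc (VV S R u b (c (f A'))) (bs u b))) (Lw S R u \ {u}) (Lw S R u \ {u}) ∅ :=
    (iso_res (Y := Lw S R u \ {u}) (Y' := Lw S R u \ {u}) g3 g4 g5 (subset_univ _)
      (subset_univ _) (bs_mem gu gb) hmem).mono (empty_subset _)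
  exact iso_trans0 (iso_trans0 h1.2.1 h5) (iso_symm0 h2.2.1)

theorem g_code' {T : Type*} {C : Type*} [Countable C] (S : Set T)
    (R : C → T → Prop) (I : T → T → Prop) (t0 : T) (ht0 : t0 ∈ S) (h1 : ∀ P ∈ S, ∃ c, R c P)
    (h2 : ∀ c, ∀ P ∈ S, ∀ Q ∈ S, R c P → R c Q → I P Q) :
    ∃ f : ℕ → T, (∀ n, f n ∈ S) ∧ ∀ P ∈ S, ∃ n, I (f n) P := by
  obtain ⟨f, hf⟩ := g_code (univ : Set S) (fun c (P : S) => R c P.1)
    (fun (P Q : S) => I P.1 Q.1) ⟨t0, ht0⟩ (fun P _ => h1 P.1 P.2)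
    (fun c P _ Q _ => h2 c P.1 P.2 Q.1 Q.2)
  exact ⟨fun n => (f n).1, fun n => (f n).2, fun P hP => hf ⟨P, hP⟩ (mem_univ _)⟩

/-- the preorder -/
def D (x : RS ar) (m n : ℕ) : Prop := ¬ lt x n m

theorem tw5 (h : TA α γ l K S R u b) (hW : W ∈ WW γ S R u b) {m m' : ℕ}
    (hi : IsoOn (lift W) (lift (lc (VV S R u b W) (bs u b))) univ (Lw S R u \ {u}) {(m, m')}) :
    m' ∈ Lw S R u \ {u} ∧ IsoOn (lift W) (lift (lc (VV S R u b W) (bs u b))) {k | D W k m}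
      (Ic (VV S R u b W) u m' \ {u}) ∅ := by
  obtain ⟨h1, h2, h3, h4⟩ := tw1 h hW
  have h5 := tw2 h hW
  have hVo := h.hK.wo _ h4
  obtain ⟨q, g1, g2, g3, g4, g5⟩ := hi
  have gm : (m, m') ∈ q := g1 rfl
  have hm' := (g2 gm).2
  have hlt : ∀ w ∈ q, (lt W m w.1 ↔ lt (VV S R u b W) m' w.2) := by
    rintro ⟨w, w'⟩ hw
    have := piso_lt g3 gm hw
    unfold lc at this
    rwa [lt_ex] at this
  refine ⟨hm', {w | w ∈ q ∧ D W w.1 m}, empty_subset _, ?_, g3.mono fun w hw => hw.1, ?_, ?_⟩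
  · rintro ⟨w, w'⟩ ⟨hw, hw'⟩
    have e1 := (g2 hw).2
    have e2 : w' ∈ Lw S (VV S R u b W) u \ {u} := by rw [h5]; exact e1
    exact ⟨hw', ⟨e2.1.1, fun h => hw' ((hlt _ hw).2 h)⟩, e2.2⟩
  · intro x hx
    obtain ⟨y, hy⟩ := g4 x (mem_univ _)
    exact ⟨y, hy, hx⟩
  · rintro y ⟨hy, hy'⟩
    have e1 : m' ∈ Lw S (VV S R u b W) u \ {u} := by rw [h5]; exact hm'
    have e2 : y ∈ Lw S R u \ {u} := by
      rw [← h5]
      exact ⟨Lw_Ic h.hS h4 hVo e1.1 hy, hy'⟩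
    obtain ⟨x, hx⟩ := g5 y e2
    exact ⟨x, hx, fun h => hy.2 ((hlt _ hx).1 h)⟩

theorem tw6 (h : TA α γ l K S R u b) (hW : W ∈ WW γ S R u b) {m' : ℕ}
    (hm' : m' ∈ Lw S R u \ {u}) : b = u ∨ ¬ lt (VV S R u b W) b m' := by
  rcases h.up with h1 | h1
  · exact Or.inl h1
  · right
    obtain ⟨z0, hz0, hE⟩ := tw3 h hW hm'
    exact (h.hK.wo _ (tw1 h hW).2.2.2).asymm (hE.l.1 (h1 z0 hz0.1))

theorem D_total {x : R2} (hx : WO x) (m n : ℕ) : D x m n ∨ D x n m := by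
  unfold D
  by_cases h : lt x n m
  · exact Or.inr (hx.asymm h)
  · exact Or.inl h

theorem seg_of_iso {x y : R2} (hx : WO x) (hy : WO y) {m n : ℕ}
    (h : IsoOn (lift x) (lift y) {k | D x k m} {k | D y k n} ∅) :
    ∃ φ, SegIso D x m y n φ := by
  obtain ⟨q, -, g2, g3, g4, g5⟩ := h
  have hf : Full (encD D x) (encD D y) (Pool.Agent.H533R2.VO.Le (encD D x) m)
      (Pool.Agent.H533R2.VO.Le (encD D y) n) q := by
    rw [le_enc (D_total hx), le_enc (D_total hy)]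
    refine ⟨g2, ⟨g3.1, ?_, g3.2.2⟩, g4, g5⟩
    rintro ⟨w, w'⟩ hw ⟨v, v'⟩ hv
    have h1 := adj_enc (D := D) (x := x) (n := w) (m := v)
    have h2 := adj_enc (D := D) (x := y) (n := w') (m := v')
    unfold Adj at h1 h2
    rw [Bool.eq_iff_iff, h1, h2]
    unfold D
    rw [piso_lt g3 hw hv, piso_lt g3 hv hw]
  obtain ⟨φ, hφ, -⟩ := exists_gr (D_total hx) (D_total hy) hf
  exact ⟨φ, hφ⟩

theorem ww_cnt (h : TA α γ l K S R u b) (hne : (WW γ S R u b).Nonempty) :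
    ∃ f : ℕ → RS ar × ℕ, (∀ n, (f n).1 ∈ WW γ S R u b) ∧ ∀ x ∈ WW γ S R u b, ∀ m, ∃ n φ,
      SegIso D (f n).1 (f n).2 x m φ := by
  obtain ⟨W0, hW0⟩ := hne
  obtain ⟨f, hf⟩ := h.hS.cnt
  suffices hs : ∃ g : ℕ → R2 × ℕ, (∀ n, g n ∈ {P : R2 × ℕ | P.1 ∈ WW γ S R u b}) ∧
      ∀ P ∈ {P : R2 × ℕ | P.1 ∈ WW γ S R u b}, ∃ n,
        ∃ φ, SegIso D (g n).1 (g n).2 P.1 P.2 φ by
    obtain ⟨g, hg1, hg2⟩ := hs
    exact ⟨g, hg1, fun x hx m => hg2 (x, m) hx⟩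
  refine g_code' (C := ℕ × ℕ × ℕ × ℕ)
    {P : R2 × ℕ | P.1 ∈ WW γ S R u b}
    (fun c P => ∃ m', IsoOn (lift P.1) (lift (lc (VV S R u b P.1) (bs u b))) univ
      (Lw S R u \ {u}) {(P.2, m')} ∧
      IsoOn (lift (f c.1).1) (lift (VV S R u b P.1)) (f c.1).2 (Ic (VV S R u b P.1) u m')
        {(c.2.1, u), (c.2.2.1, m')} ∧ E R (VV S R u b P.1) c.2.2.2 b m' b)
    (fun P Q => ∃ φ, SegIso D P.1 P.2 Q.1 Q.2 φ) (W0, 0) hW0 ?_ ?_
  · rintro ⟨W, m⟩ hW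
    have hW' : W ∈ WW γ S R u b := hW
    obtain ⟨h1, h2, h3, h4⟩ := tw1 h hW'
    have hVo := h.hK.wo _ h4
    obtain ⟨q, g1, g2, g3, g4, g5⟩ := h2
    obtain ⟨m', hm'⟩ := g4 m (mem_univ _)
    have hm'O := (g2 hm').2
    have e1 : m' ∈ Lw S (VV S R u b W) u \ {u} := by rw [tw2 h hW']; exact hm'O
    obtain ⟨n, q', k1, k2, k3, k4, k5⟩ := hf _ _ e1.1.2
    obtain ⟨u1, hu1⟩ := k5 u (left_mem_Ic hVo e1.1.1)
    obtain ⟨m1, hm1⟩ := k5 m' (right_mem_Ic hVo e1.1.1)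
    obtain ⟨m0, -, hm0⟩ := tw3 h hW' hm'O
    exact ⟨(n, u1, m1, m0), m', ⟨q, singleton_subset_iff.2 hm', g2, g3, g4, g5⟩,
      ⟨q', by rintro w (rfl | rfl) <;> assumption, k2, k3, k4, k5⟩, hm0⟩
  · rintro ⟨n, u1, m1, m0⟩ ⟨W, m⟩ hW ⟨W2, m2⟩ hW2 ⟨m', i1, i2, i3⟩ ⟨m2', j1, j2, j3⟩
    have hW' : W ∈ WW γ S R u b := hW
    have hW2' : W2 ∈ WW γ S R u b := hW2
    simp only at i1 i2 i3 j1 j2 j3 ⊢
    obtain ⟨-, -, -, h4⟩ := tw1 h hW'
    obtain ⟨-, -, -, h4'⟩ := tw1 h hW2'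
    obtain ⟨hm', i4⟩ := tw5 h hW' i1
    obtain ⟨hm2', j4⟩ := tw5 h hW2' j1
    have hle := tw6 h hW' hm'
    have hE : E (VV S R u b W) (VV S R u b W2) m' b m2' b := i3.symm.trans j3
    have k : IsoOn (lift (VV S R u b W)) (lift (VV S R u b W2)) (Ic (VV S R u b W) u m')
        (Ic (VV S R u b W2) u m2') {(u, u), (m', m2')} := by
      refine (i2.symm.trans j2).mono ?_
      rintro w (rfl | rfl)
      · exact ⟨u1, Or.inl rfl, Or.inl rfl⟩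
      · exact ⟨m1, Or.inr rfl, Or.inr rfl⟩
    obtain ⟨q, k1, k2, k3, k4, k5⟩ := k
    have ku : (u, u) ∈ q := k1 (Or.inl rfl)
    have km : (m', m2') ∈ q := k1 (Or.inr rfl)
    have kk : IsoOn (lift (lc (VV S R u b W) (bs u b))) (lift (lc (VV S R u b W2) (bs u b)))
        (Ic (VV S R u b W) u m' \ {u}) (Ic (VV S R u b W2) u m2' \ {u}) ∅ := by
      have hne : ∀ w ∈ q, (w.1 = u ↔ w.2 = u) := by
        rintro ⟨w, w'⟩ hw
        exact piso_eq k3 hw ku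
      refine ⟨{w | w ∈ q ∧ w.1 ≠ u}, empty_subset _, ?_, ?_, ?_, ?_⟩
      · rintro w ⟨hw, hw'⟩
        exact ⟨⟨(k2 hw).1, hw'⟩, (k2 hw).2, fun e => hw' ((hne w hw).2 e)⟩
      · rw [piso_lc]
        refine ⟨k3.mono fun w hw => hw.1, fun w hw => E_bs.2 ⟨?_, ?_⟩⟩
        · exact piso_pair k3 ku (show (w.1, w.2) ∈ q from hw.1)
        · rcases hle with e | hle
          · subst e
            exact piso_pair k3 ku (show (w.1, w.2) ∈ q from hw.1)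
          · have hz := (k2 hw.1).1
            exact (h.hK.law _ h4 _ h4' w.1 m' b w.2 m2' b hz.2 hle
              (piso_pair k3 (show (w.1, w.2) ∈ q from hw.1) km) hE).swap
      · rintro x ⟨hx, hx'⟩
        obtain ⟨y, hy⟩ := k4 x hx
        exact ⟨y, hy, hx'⟩
      · rintro y ⟨hy, hy'⟩
        obtain ⟨x, hx⟩ := k5 y hy
        exact ⟨x, hx, fun e => hy' ((hne _ hx).1 e)⟩
    exact seg_of_iso (tw4 h hW').1 (tw4 h hW2').1 (iso_trans0 (iso_trans0 i4 kk) (iso_symm0 j4))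

theorem ww_ext {y : R2} (hy : WO y) (hL : Law y y) {x : R2} {m n : ℕ}
    (hx : D x m m)
    (φ : {k // D x k m} ≃ {k // D y k n}) (hφ : SegIso D x m y n φ)
    (ψ : {k // D y k n} ≃ {k // D y k n}) (hψ : SegIso D y n y n ψ)
    (hc : ψ (φ ⟨m, hx⟩) = φ ⟨m, hx⟩) :
    ∃ σ : Equiv.Perm ℕ, (∀ (i : ℕ) (v : Fin (ar i) → ℕ), y i (⇑σ ∘ v) = y i v) ∧
      ∀ p : {k // D y k n}, σ p = ψ p := by
  classical
  obtain ⟨m1, hm1⟩ : ∃ m1, m1 = φ ⟨m, hx⟩ := ⟨_, rfl⟩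
  rw [← hm1] at hc
  -- `m1` is in the block of `n`
  have hn : D y n n := hy.irr n
  have h1 : ¬ lt y n m1 := m1.2
  have h2 : ¬ lt y m1 n := by
    obtain ⟨p, hp⟩ := φ.surjective ⟨n, hn⟩
    have h3 := (hφ.2 p ⟨m, hx⟩).2 p.2
    rw [← hm1, hp] at h3
    exact h3
  -- the isomorphism of the segment
  have hpi : PIso (lift y) (lift y) {w : ℕ × ℕ | ∃ p : {k // D y k n}, w = (↑p, ↑(ψ p))} := by
    refine ⟨?_, fun _ _ _ _ => rfl, ?_⟩
    · rintro _ ⟨p, rfl⟩ _ ⟨q, rfl⟩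
      constructor
      · intro e
        have : p = q := Subtype.ext e
        rw [this]
      · intro e
        have : ψ p = ψ q := Subtype.ext e
        rw [ψ.injective this]
    · intro i t ht
      choose p hp using ht
      have e1 : (fun k => (t k).1) = fun k => (p k : ℕ) := by
        funext k; rw [hp k]
      have e2 : (fun k => (t k).2) = fun k => (ψ (p k) : ℕ) := by
        funext k; rw [hp k]
      rw [e1, e2]
      exact (hψ.1 i p).symm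
  set σ : Equiv.Perm ℕ := Equiv.Perm.ofSubtype ψ with hσ
  have hσ1 : ∀ p : {k // D y k n}, σ p = ψ p := fun p => by
    rw [hσ]
    exact Equiv.Perm.ofSubtype_apply_coe ψ p
  have hσ2 : ∀ z, ¬ D y z n → σ z = z := fun z hz => by
    rw [hσ]
    exact Equiv.Perm.ofSubtype_apply_of_not_mem ψ hz
  refine ⟨σ, ?_, hσ1⟩
  rw [← piso_perm, piso_E]
  have hpE := piso_E.1 hpi
  have hcross : ∀ z w, D y z n → ¬ D y w n → E y y z w (σ z) (σ w) := by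
    intro z w hz hw
    rw [hσ2 w hw]
    have hw' : lt y n w := not_not.1 hw
    have h3 : E y y z m1 (σ z) m1 := by
      have h4 := hpE.2.1 (z, ↑(ψ ⟨z, hz⟩)) ⟨⟨z, hz⟩, rfl⟩ (↑m1, ↑(ψ m1)) ⟨m1, rfl⟩
      rw [hc] at h4
      simp only at h4
      have h5 : σ z = ψ ⟨z, hz⟩ := hσ1 ⟨z, hz⟩
      rw [h5]
      exact h4
    exact hL z m1 w (σ z) m1 w (hy.le_trans hz h2) (hy.asymm (hy.le_lt h1 hw')) h3 E.rfl
  refine ⟨?_, ?_, ?_⟩
  · rintro ⟨z, z'⟩ hz ⟨w, w'⟩ hw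
    simp only [Set.mem_ofPred_eq] at hz hw
    subst hz hw
    exact (σ.injective.eq_iff).symm
  · rintro ⟨z, z'⟩ hz ⟨w, w'⟩ hw
    simp only [Set.mem_ofPred_eq] at hz hw
    subst hz hw
    simp only
    by_cases hz : D y z n
    · by_cases hw : D y w n
      · have h4 := hpE.2.1 (z, ↑(ψ ⟨z, hz⟩)) ⟨⟨z, hz⟩, rfl⟩ (w, ↑(ψ ⟨w, hw⟩)) ⟨⟨w, hw⟩, rfl⟩
        have h5 : σ z = ψ ⟨z, hz⟩ := hσ1 ⟨z, hz⟩
        have h6 : σ w = ψ ⟨w, hw⟩ := hσ1 ⟨w, hw⟩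
        rw [h5, h6]
        exact h4
      · exact hcross z w hz hw
    · by_cases hw : D y w n
      · exact (hcross w z hw hz).swap
      · rw [hσ2 z hz, hσ2 w hw]
        exact E.rfl
  · rintro k ⟨z, z'⟩ hz
    simp only [Set.mem_ofPred_eq] at hz
    subst hz
    simp only
    by_cases hz : D y z n
    · have h4 := hpE.2.2 k (z, ↑(ψ ⟨z, hz⟩)) ⟨⟨z, hz⟩, rfl⟩
      have h5 : σ z = ψ ⟨z, hz⟩ := hσ1 ⟨z, hz⟩
      rw [h5]
      exact h4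
    · rw [hσ2 z hz]

theorem ww_meas (hγ : γ < Ordinal.omega 1) : MeasurableSet (WW γ S R u b) :=
  msg ar (lift (lc R (bs u b))) (Lw S R u \ {u}) R2 lift (fun _ => univ) lift_measurable
    (fun z => by simp) γ hγ ∅

theorem ww_inv {x y : R2} (hxy : RIso x y) (hx : x ∈ WW γ S R u b) : y ∈ WW γ S R u b :=
  bf_trans0 hx ((riso_isoOn.1 hxy).bf γ)

theorem riso_symm {x y : R2} (h : RIso x y) : RIso y x :=
  riso_isoOn.2 (iso_symm0 (riso_isoOn.1 h))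

theorem ww_dich (h : TA α γ l K S R u b) (hγ : γ < Ordinal.omega 1)
    (hne : (WW γ S R u b).Nonempty) : Dich (WW γ S R u b) := by
  refine tower_gen ar (WW γ S R u b) (ww_meas hγ)
    (fun x y hxy => ⟨ww_inv hxy, ww_inv (riso_symm hxy)⟩) D ⟨?_, ?_, ?_, ?_⟩ (ww_cnt h hne) ?_
  · intro m n
    exact (ww_meas hγ).inter (meas_lt n m).compl
  · intro x _ y σ hσ m n
    have h1 := piso_perm.2 hσ
    unfold D
    rw [piso_lt h1 (x := n) (x' := σ n) (y := m) (y' := σ m) rfl rfl]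
  · intro x hx m n
    exact D_total (tw4 h hx).1 m n
  · intro x hx k m n h1 h2
    exact (tw4 h hx).1.le_trans h1 h2
  · intro x hx m
    refine ⟨{m}, finite_singleton m, fun c hc => ?_, ?_⟩
    · rw [mem_singleton_iff.1 hc]
      exact (tw4 h hx).1.irr m
    · intro y hy n φ hφ ψ hψ hC
      have hxm : D x m m := (tw4 h hx).1.irr m
      exact ww_ext (tw4 h hy).1 (tw4 h hy).2 hxm φ hφ ψ hψ (hC ⟨m, hxm⟩ rfl)

theorem ww_thin (h : TA α γ l K S R u b) (hγ : γ < Ordinal.omega 1) :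
    ∃ f : ℕ → R2, ∀ W ∈ WW γ S R u b, ∃ n, RIso (f n) W := by
  by_cases hne : (WW γ S R u b).Nonempty
  · rcases ww_dich h hγ hne with h1 | h1
    · exact h1
    · exact absurd h1 (ww_few h)
  · exact ⟨fun _ => R0, fun W hW => absurd ⟨W, hW⟩ hne⟩

end Pool.Agent.Run7.h201.CS
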