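import Pool.Agent.Run7.h201.CS.Tow2

set_option autoImplicit false

/-!
# Coherent preorders: countably many labelled lower and upper pieces
-/

namespace Pool.Agent.Run7.h201.CS

open Set MeasureTheory
open Pool.Agent.H899R2.VP (St Adj PIso BF IsoOn idOn inv comp zipSet mem_inv BF_iff zipSet_cons
  zipSet_nil_left labels idOn_mono BF_of_total)
open Pool.Agent.H533R2.VO (RS lift RIso Dich resBF resIso)
open Pool.Agent.H566P (ar R2 lt ac co mk)
open Pool.Agent.Y560.TG (lt_mk ac_mk co_mk piso_iff ex lt_ex ac_ex co_ex_even co_ex_odd piso_ex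
  bf_trans0 bf_symm0 iso_trans0 iso_symm0 iso_refl0 Off riso_isoOn piso_lt piso_co mat msg
  meas_lt meas_ac meas_co R2_ext cont_into piso_eq meas_into)

variable {α : Ordinal.{0}} {K : Set R2} {S : Set (R2 × Set ℕ)}

/-- admissible base points for the lower piece -/
def VL (S : Set (R2 × Set ℕ)) (M : R2) (u b : ℕ) : Prop :=
  Mod (Lw S M u \ {u}) (bs u b) M ∧ (b = u ∨ ∀ z ∈ Lw S M u, lt M z b)

/-- admissible base points for the upper piece -/
def VU (S : Set (R2 × Set ℕ)) (M : R2) (u b : ℕ) : Prop :=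
  Mod (Uw S M u \ {u}) (bs u b) M ∧ (b = u ∨ ∀ z ∈ Uw S M u, lt M b z)

theorem towc0 (hK : G α K) (hS : Fam K S) : ∃ β : Ordinal.{0}, β < Ordinal.omega 1 ∧
    ∀ R ∈ K, ∀ u b, VL S R u b → ∃ f : ℕ → R2 × Set ℕ, ∀ M ∈ K, ∀ u' b', VL S M u' b' →
      BF (lift R) (lift M) univ univ β {(u, u'), (b, b')} →
      ∃ n, IsoOn (lift (f n).1) (lift (lc M (bs u' b'))) (f n).2 (Lw S M u' \ {u'}) ∅ := by
  obtain ⟨l, hl1, hl2, hl⟩ := lev hS
  have hadd : Ordinal.IsPrincipal (· + ·) (Ordinal.omega 1 : Ordinal.{0}) :=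
    Ordinal.isPrincipal_add_omega 1
  set γ := max α (l + 1) with hγd
  have hγ : γ < Ordinal.omega 1 :=
    max_lt hK.lt1 ((Cardinal.isSuccLimit_omega 1).add_one_lt hl1)
  refine ⟨l + γ, hadd hl1 hγ, fun R hR u b hub => ?_⟩
  have hTA : TA α γ l K S R u b := ⟨hK, hS, hl, le_max_left _ _,
    lt_of_lt_of_le (lt_add_one l) (le_max_right _ _), hR, hub.1, hub.2⟩
  obtain ⟨f, hf⟩ := ww_thin hTA hγ
  refine ⟨fun n => if n = 0 then (lc R (bs u b), Lw S R u \ {u}) else (f (n - 1), univ),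
    fun M hM u' b' hub' hbf => ?_⟩
  have hpu : (u, u') ∈ ({(u, u'), (b, b')} : Set (ℕ × ℕ)) := Or.inl rfl
  have hpb : (b, b') ∈ ({(u, u'), (b, b')} : Set (ℕ × ℕ)) := Or.inr rfl
  have h1 : BF (lift (lc R (bs u b))) (lift (lc M (bs u' b'))) (Lw S R u \ {u})
      (Lw S M u' \ {u'}) γ ∅ := by
    refine (Pool.Agent.Y275.TG.t_EXT R M (lc R (bs u b)) (lc M (bs u' b')) univ univ
      (Lw S R u \ {u}) (Lw S M u' \ {u'}) {(u, u'), (b, b')} ∅ l (subset_univ _)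
      (subset_univ _) (fun q hq hb => ⟨?_, ?_⟩) γ hbf).subset (empty_subset _)
    · rw [union_empty, piso_lc]
      refine ⟨hb.piso.mono fun w hw => hw.1, fun w hw i => ?_⟩
      exact piso_pair hb.piso (hq (bs_mem hpu hpb i)) (show (w.1, w.2) ∈ q from hw.1)
    · rintro ⟨w, w'⟩ hw
      have e1 := mem_Lw_bf hS hl hb (hq hpu) hw
      have e2 := piso_eq hb.piso hw (hq hpu)
      simp only [mem_sdiff, mem_singleton_iff]
      rw [e1, e2]
  by_cases hfin : (Lw S M u' \ {u'}).Finite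
  · refine ⟨0, ?_⟩
    simp only [if_true]
    have h2 := Pool.Agent.H533R2.VO.t_FIN ar _ _ _ _ hfin
      ((bf_symm0 h1).mono (hK.om.trans (le_max_left _ _)))
    exact iso_symm0 h2
  · obtain ⟨W, hW⟩ := pul_iso (lc M (bs u' b')) hfin
    obtain ⟨n, hn⟩ := hf W (bf_trans0 h1 ((iso_symm0 hW).bf γ))
    refine ⟨n + 1, ?_⟩
    simp only [Nat.succ_ne_zero, if_false, Nat.add_sub_cancel]
    exact iso_trans0 (riso_isoOn.1 hn) hW

/-- TOWC: countably many labelled lower pieces -/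
theorem towc (hK : G α K) (hS : Fam K S) : ∃ ν : R2 → ℕ → ℕ → ℕ, ∀ M ∈ K, ∀ N ∈ K,
    ∀ u b u' b', VL S M u b → VL S N u' b' → ν M u b = ν N u' b' →
    IsoOn (lift (lc M (bs u b))) (lift (lc N (bs u' b'))) (Lw S M u \ {u})
      (Lw S N u' \ {u'}) ∅ := by
  classical
  obtain ⟨β, hβ, h0⟩ := towc0 hK hS
  obtain ⟨c, hc⟩ := lab hK hβ
  have hg : ∀ κ : ℕ, ∃ g : ℕ → R2 × Set ℕ, ∀ M ∈ K, ∀ u b, VL S M u b → c M [u, b] = κ →
      ∃ n, IsoOn (lift (g n).1) (lift (lc M (bs u b))) (g n).2 (Lw S M u \ {u}) ∅ := by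
    intro κ
    by_cases h : ∃ M ∈ K, ∃ u b, VL S M u b ∧ c M [u, b] = κ
    · obtain ⟨R, hR, u, b, hub, hκ⟩ := h
      obtain ⟨f, hf⟩ := h0 R hR u b hub
      refine ⟨f, fun M hM u' b' hub' hκ' => hf M hM u' b' hub' ?_⟩
      have := hc R hR M hM [u, b] [u', b'] rfl (by rw [hκ, hκ'])
      rwa [zip2] at this
    · exact ⟨fun _ => (R0, ∅), fun M hM u b hub hκ => absurd ⟨M, hM, u, b, hub, hκ⟩ h⟩
  choose g hg using hg
  refine ⟨fun M u b => if h : ∃ n, IsoOn (lift (g (c M [u, b]) n).1) (lift (lc M (bs u b)))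
    (g (c M [u, b]) n).2 (Lw S M u \ {u}) ∅ then Nat.pair (c M [u, b]) h.choose else 0, ?_⟩
  intro M hM N hN u b u' b' hub hub' he
  have e1 := hg _ M hM u b hub rfl
  have e2 := hg _ N hN u' b' hub' rfl
  simp only [dif_pos e1, dif_pos e2] at he
  obtain ⟨a1, a2⟩ := Nat.pair_eq_pair.1 he
  have k1 := e1.choose_spec
  have k2 := e2.choose_spec
  rw [a2] at k1
  generalize e2.choose = k at k1 k2
  rw [← a1] at k2
  exact iso_trans0 (iso_symm0 k1) k2

/-! ### Reversal -/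

/-- The reversed structure. -/
noncomputable def rev (M : R2) : R2 := mk (fun x y => lt M y x) (ac M) (co M)

theorem lt_rev (M : R2) (x y : ℕ) : lt (rev M) x y ↔ lt M y x := lt_mk _ _ _ _ _
theorem ac_rev (M : R2) (n x y : ℕ) : ac (rev M) n x y ↔ ac M n x y := ac_mk _ _ _ _ _ _
theorem co_rev (M : R2) (n x : ℕ) : co (rev M) n x ↔ co M n x := co_mk _ _ _ _ _

theorem rev_rev (M : R2) : rev (rev M) = M := by
  refine R2_ext (fun x y => ?_) (fun n x y => ?_) (fun n x => ?_)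
  · rw [lt_rev, lt_rev]
  · rw [ac_rev, ac_rev]
  · rw [co_rev, co_rev]

theorem E_rev {M N : R2} {x y x' y' : ℕ} : E (rev M) (rev N) x y x' y' ↔ E M N x y x' y' := by
  simp only [E_iff, lt_rev, ac_rev]
  constructor
  · rintro ⟨h1, h2, h3⟩
    exact ⟨h2, h1, h3⟩
  · rintro ⟨h1, h2, h3⟩
    exact ⟨h2, h1, h3⟩

theorem piso_rev {M N : R2} {p : Set (ℕ × ℕ)} :
    PIso (lift (rev M)) (lift (rev N)) p ↔ PIso (lift M) (lift N) p := by
  rw [piso_E, piso_E]
  simp only [E_rev, co_rev]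

theorem piso_lc_rev {M N : R2} {b b' : ℕ → ℕ} {p : Set (ℕ × ℕ)} :
    PIso (lift (lc (rev M) b)) (lift (lc (rev N) b')) p ↔
      PIso (lift (lc M b)) (lift (lc N b')) p := by
  rw [piso_lc, piso_lc, piso_rev]
  simp only [E_rev]

theorem bf_rev1 {M N : R2} {X Y : Set ℕ} {o : Ordinal.{0}} {p : Set (ℕ × ℕ)}
    (h : BF (lift M) (lift N) X Y o p) : BF (lift (rev M)) (lift (rev N)) X Y o p := by
  induction o using WellFoundedLT.induction generalizing p with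
  | ind o ih =>
    rw [BF_iff]
    refine ⟨piso_rev.2 h.piso, fun o' ho' => ⟨fun x hx => ?_, fun y hy => ?_⟩⟩
    · obtain ⟨y, hy, hb⟩ := h.forth ho' hx
      exact ⟨y, hy, ih o' ho' hb⟩
    · obtain ⟨x, hx, hb⟩ := h.back ho' hy
      exact ⟨x, hx, ih o' ho' hb⟩

theorem bf_rev {M N : R2} {X Y : Set ℕ} {o : Ordinal.{0}} {p : Set (ℕ × ℕ)} :
    BF (lift (rev M)) (lift (rev N)) X Y o p ↔ BF (lift M) (lift N) X Y o p := by
  refine ⟨fun h => ?_, bf_rev1⟩
  have := bf_rev1 h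
  rwa [rev_rev, rev_rev] at this

theorem iso_rev {M N : R2} {X Y : Set ℕ} {p : Set (ℕ × ℕ)} :
    IsoOn (lift (rev M)) (lift (rev N)) X Y p ↔ IsoOn (lift M) (lift N) X Y p := by
  constructor
  · rintro ⟨q, h1, h2, h3, h4, h5⟩
    exact ⟨q, h1, h2, piso_rev.1 h3, h4, h5⟩
  · rintro ⟨q, h1, h2, h3, h4, h5⟩
    exact ⟨q, h1, h2, piso_rev.2 h3, h4, h5⟩

theorem iso_lc_rev {M N : R2} {b b' : ℕ → ℕ} {X Y : Set ℕ} {p : Set (ℕ × ℕ)} :
    IsoOn (lift (lc (rev M) b)) (lift (lc (rev N) b')) X Y p ↔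
      IsoOn (lift (lc M b)) (lift (lc N b')) X Y p := by
  constructor
  · rintro ⟨q, h1, h2, h3, h4, h5⟩
    exact ⟨q, h1, h2, piso_lc_rev.1 h3, h4, h5⟩
  · rintro ⟨q, h1, h2, h3, h4, h5⟩
    exact ⟨q, h1, h2, piso_lc_rev.2 h3, h4, h5⟩

theorem Ic_rev (M : R2) (x y : ℕ) : Ic (rev M) x y = Ic M y x := by
  ext z
  rw [mem_Ic, mem_Ic, lt_rev, lt_rev]
  exact and_comm

theorem wo_rev {M : R2} (h : WO M) : WO (rev M) := by
  refine ⟨fun x => ?_, fun x y z => ?_, fun x y z => ?_⟩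
  · rw [lt_rev]; exact h.irr x
  · rw [lt_rev, lt_rev, lt_rev]; exact fun h1 h2 => h.tr z y x h2 h1
  · rw [lt_rev, lt_rev, lt_rev]; exact fun h1 => (h.ntr z y x h1).symm

theorem law_rev {M N : R2} (h : Law M N) : Law (rev M) (rev N) := by
  intro x c y x' c' y' h1 h2 h3 h4
  rw [lt_rev] at h1 h2
  rw [E_rev] at h3 h4 ⊢
  exact (h y c x y' c' x' h2 h1 h4.swap h3.swap).swap

theorem pc_rev {M : R2} (h : PC M) : PC (rev M) := by
  intro A hA hne hne'
  have h1 := h Aᶜ (fun x hx y hy => by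
    have := hA y (not_not.1 hy) x hx
    rwa [lt_rev] at this) hne' (by
      obtain ⟨x, hx⟩ := hne
      exact ⟨x, fun h => h hx⟩)
  obtain ⟨⟨b, hb1, hb2⟩, a, ha1, ha2⟩ := h1
  simp only [E_rev]
  refine ⟨⟨a, ha1, fun z hz z' hz' hE w hw => ?_⟩, b, not_not.1 hb1, fun w hw w' hw' hE z hz => ?_⟩
  · exact (ha2 z (fun h => h hz) z' (fun h => h hz') hE.swap w hw).swap
  · exact (hb2 w hw w' hw' hE.swap z (fun h => h hz)).swap

theorem rev_cont : Continuous rev := by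
  have hclo : ∀ (i : ℕ) (v : Fin (ar i) → ℕ), IsClopen {R : R2 | R i v = true} := by
    intro i v
    have : Continuous fun R : R2 => R i v := (continuous_apply v).comp (continuous_apply i)
    exact (isClopen_discrete {true}).preimage this
  refine cont_into (fun x y => ?_) (fun n x y => ?_) (fun n x => ?_)
  · simp only [lt_rev]
    exact hclo _ _
  · simp only [ac_rev]
    exact hclo _ _
  · simp only [co_rev]
    exact hclo _ _

theorem riso_rev {M N : R2} : RIso (rev M) (rev N) ↔ RIso M N := by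
  rw [riso_isoOn, riso_isoOn, iso_rev]

theorem G_rev (hK : G α K) : G α {M | rev M ∈ K} where
  meas := rev_cont.measurable hK.meas
  lt1 := hK.lt1
  om := hK.om
  closed := fun M hM N h => hK.closed _ hM _ (bf_rev1 h)
  few := by
    rintro ⟨c, h1, h2, h3⟩
    exact hK.few ⟨fun A => rev (c A), rev_cont.comp h1, h2, fun A A' h => h3 A A' (riso_rev.1 h)⟩
  wo := fun M hM => by
    have := wo_rev (hK.wo _ hM)
    rwa [rev_rev] at this
  law := fun M hM N hN => by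
    have := law_rev (hK.law _ hM _ hN)
    rwa [rev_rev, rev_rev] at this
  pc := fun M hM => by
    have := pc_rev (hK.pc _ hM)
    rwa [rev_rev] at this

/-- The reversed family. -/
def revS (S : Set (R2 × Set ℕ)) : Set (R2 × Set ℕ) := {P | (rev P.1, P.2) ∈ S}

theorem fam_rev (hS : Fam K S) : Fam {M | rev M ∈ K} (revS S) where
  iso := fun M X N Y h h' => hS.iso _ _ _ _ h (iso_rev.2 h')
  cnt := by
    obtain ⟨f, hf⟩ := hS.cnt
    refine ⟨fun n => (rev (f n).1, (f n).2), fun M X h => ?_⟩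
    obtain ⟨n, hn⟩ := hf _ _ h
    refine ⟨n, ?_⟩
    have := iso_rev.2 hn
    rwa [rev_rev] at this
  sub := by
    intro M hM x y x' y' h h1 h2 h3
    have h' : (rev M, Ic M x y) ∈ S := h
    show (rev M, Ic M x' y') ∈ S
    rw [← rev_rev M, Ic_rev, rev_rev] at h' ⊢
    exact hS.sub _ hM y x y' x' h' (by rwa [lt_rev]) (by rwa [lt_rev]) (by rwa [lt_rev])
  glue := by
    intro M hM x y z h1 h2 h h'
    have h3 : (rev M, Ic M x y) ∈ S := h
    have h4 : (rev M, Ic M y z) ∈ S := h'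
    show (rev M, Ic M x z) ∈ S
    rw [← rev_rev M, Ic_rev, rev_rev] at h3 h4 ⊢
    exact hS.glue _ hM z y x (by rwa [lt_rev]) (by rwa [lt_rev]) h4 h3

theorem Lw_rev (S : Set (R2 × Set ℕ)) (M : R2) (u : ℕ) : Lw (revS S) (rev M) u = Uw S M u := by
  ext x
  unfold Lw Uw revS
  simp only [mem_ofPred_eq, lt_rev, rev_rev, Ic_rev]

theorem mod_rev {M : R2} {O : Set ℕ} {b : ℕ → ℕ} : Mod O b (rev M) ↔ Mod O b M := by
  unfold Mod
  simp only [E_rev]

theorem VL_rev {M : R2} {u b : ℕ} : VL (revS S) (rev M) u b ↔ VU S M u b := by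
  unfold VL VU
  rw [Lw_rev, mod_rev]
  simp only [lt_rev]

/-- TOWR: countably many labelled upper pieces -/
theorem towr (hK : G α K) (hS : Fam K S) : ∃ ν : R2 → ℕ → ℕ → ℕ, ∀ M ∈ K, ∀ N ∈ K,
    ∀ u b u' b', VU S M u b → VU S N u' b' → ν M u b = ν N u' b' →
    IsoOn (lift (lc M (bs u b))) (lift (lc N (bs u' b'))) (Uw S M u \ {u})
      (Uw S N u' \ {u'}) ∅ := by
  obtain ⟨ν, hν⟩ := towc (G_rev hK) (fam_rev hS)
  refine ⟨fun M u b => ν (rev M) u b, fun M hM N hN u b u' b' h1 h2 h3 => ?_⟩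
  have h4 := hν (rev M) (by show rev (rev M) ∈ K; rwa [rev_rev]) (rev N)
    (by show rev (rev N) ∈ K; rwa [rev_rev]) u b u' b' (VL_rev.2 h1) (VL_rev.2 h2) h3
  rw [Lw_rev, Lw_rev, iso_lc_rev] at h4
  exact h4

end Pool.Agent.Run7.h201.CS
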