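import Pool.Agent.Run7.h201.CS.Enc3

set_option autoImplicit false

/-!
# From Borel classes of structures to first-order theories

The lemmas `meas_term` and `meas_realize` are as in `Pool.Agent.N649.KA.FO`.
-/

namespace Pool.Agent.Run7.h201.CS.TR

open Set MeasureTheory FirstOrder FirstOrder.Language
open Pool.Agent.H533R2.VO (RS lift RIso Dich)
open Pool.Agent.H566P (ar R2 lt ac co mk)
open Pool.Agent.Y560.TG (lt_mk ac_mk co_mk riso_iff R2_ext meas_into)

variable {L : FirstOrder.Language.{0, 0}}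

section meas

variable {Y : Type} [MeasurableSpace Y]

/-- values of terms are measurable -/
theorem meas_term {f : Y → L.Structure ℕ}
    (hF : ∀ (n : ℕ) (F : L.Functions n) (v : Fin n → ℕ) (b : ℕ),
      MeasurableSet {y | @Structure.funMap L ℕ (f y) n F v = b}) {β : Type}
    (c : β → ℕ) (t : L.Term β) : ∀ b : ℕ,
      MeasurableSet {y | @Term.realize L ℕ (f y) _ c t = b} := by
  induction t with
  | var i =>
    intro b
    show MeasurableSet {_y : Y | c i = b}
    exact MeasurableSet.const _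
  | @func n g ts ih =>
    intro b
    have e1 : {y | @Term.realize L ℕ (f y) _ c (Term.func g ts) = b} =
        ⋃ v : Fin n → ℕ, ((⋂ i, {y | @Term.realize L ℕ (f y) _ c (ts i) = v i}) ∩
          {y | @Structure.funMap L ℕ (f y) n g v = b}) := by
      ext y
      simp only [mem_iUnion, mem_inter_iff, mem_iInter]
      constructor
      · intro h
        exact ⟨fun i => @Term.realize L ℕ (f y) _ c (ts i), fun i => rfl, h⟩
      · rintro ⟨v, h1, h2⟩
        have h3 : (fun i => @Term.realize L ℕ (f y) _ c (ts i)) = v := funext h1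
        show @Structure.funMap L ℕ (f y) n g (fun i => @Term.realize L ℕ (f y) _ c (ts i)) = b
        rw [h3]
        exact h2
    rw [e1]
    exact MeasurableSet.iUnion fun v => (MeasurableSet.iInter fun i => ih i (v i)).inter
      (hF n g v b)

/-- satisfaction is measurable -/
theorem meas_realize {f : Y → L.Structure ℕ}
    (hF : ∀ (n : ℕ) (F : L.Functions n) (v : Fin n → ℕ) (b : ℕ),
      MeasurableSet {y | @Structure.funMap L ℕ (f y) n F v = b})
    (hf : ∀ (n : ℕ) (R : L.Relations n) (v : Fin n → ℕ),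
      MeasurableSet {y | @Structure.RelMap L ℕ (f y) n R v}) {β : Type} {n : ℕ}
    (φ : L.BoundedFormula β n) (c : β → ℕ) (d : Fin n → ℕ) :
    MeasurableSet {y | @BoundedFormula.Realize L ℕ (f y) _ _ φ c d} := by
  induction φ with
  | falsum =>
    have e1 : {y : Y | @BoundedFormula.Realize L ℕ (f y) _ _ BoundedFormula.falsum c d} = ∅ := rfl
    rw [e1]
    exact MeasurableSet.empty
  | @equal n t1 t2 =>
    have e1 : {y : Y | @BoundedFormula.Realize L ℕ (f y) _ _ (BoundedFormula.equal t1 t2) c d} =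
        ⋃ b : ℕ, ({y | @Term.realize L ℕ (f y) _ (Sum.elim c d) t1 = b} ∩
          {y | @Term.realize L ℕ (f y) _ (Sum.elim c d) t2 = b}) := by
      ext y
      simp only [mem_iUnion, mem_inter_iff]
      constructor
      · intro h
        have h1 : @Term.realize L ℕ (f y) _ (Sum.elim c d) t1 =
          @Term.realize L ℕ (f y) _ (Sum.elim c d) t2 := h
        exact ⟨_, rfl, h1.symm⟩
      · rintro ⟨b, h1, h2⟩
        show @Term.realize L ℕ (f y) _ (Sum.elim c d) t1 =
          @Term.realize L ℕ (f y) _ (Sum.elim c d) t2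
        exact Eq.trans h1 (Eq.symm h2)
    rw [e1]
    exact MeasurableSet.iUnion fun b => (meas_term hF _ _ b).inter (meas_term hF _ _ b)
  | @rel n l R ts =>
    have e1 : {y : Y | @BoundedFormula.Realize L ℕ (f y) _ _ (BoundedFormula.rel R ts) c d} =
        ⋃ v : Fin l → ℕ, ((⋂ i, {y | @Term.realize L ℕ (f y) _ (Sum.elim c d) (ts i) = v i}) ∩
          {y | @Structure.RelMap L ℕ (f y) l R v}) := by
      ext y
      simp only [mem_iUnion, mem_inter_iff, mem_iInter]
      constructor
      · intro h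
        exact ⟨fun i => @Term.realize L ℕ (f y) _ (Sum.elim c d) (ts i), fun i => rfl, h⟩
      · rintro ⟨v, h1, h2⟩
        have h3 : (fun i => @Term.realize L ℕ (f y) _ (Sum.elim c d) (ts i)) = v := funext h1
        show @Structure.RelMap L ℕ (f y) l R
          (fun i => @Term.realize L ℕ (f y) _ (Sum.elim c d) (ts i))
        rw [h3]
        exact h2
    rw [e1]
    exact MeasurableSet.iUnion fun v => (MeasurableSet.iInter fun i =>
      meas_term hF _ _ (v i)).inter (hf l R v)
  | @imp n f1 f2 h1 h2 =>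
    have e1 : {y : Y | @BoundedFormula.Realize L ℕ (f y) _ _ (f1.imp f2) c d} =
        {y | @BoundedFormula.Realize L ℕ (f y) _ _ f1 c d}ᶜ ∪
          {y | @BoundedFormula.Realize L ℕ (f y) _ _ f2 c d} := by
      ext y
      show (_ → _) ↔ (¬ _) ∨ _
      exact imp_iff_not_or
    rw [e1]
    exact (h1 d).compl.union (h2 d)
  | @all n g h =>
    have e1 : {y : Y | @BoundedFormula.Realize L ℕ (f y) _ _ g.all c d} =
        ⋂ k : ℕ, {y | @BoundedFormula.Realize L ℕ (f y) _ _ g c (Fin.snoc d k)} := by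
      ext y
      rw [mem_iInter]
      exact Iff.rfl
    rw [e1]
    exact MeasurableSet.iInter fun k => h (Fin.snoc d k)

end meas

/-! ### Codes -/

/-- atomic facts -/
abbrev Ix (L : FirstOrder.Language.{0, 0}) : Type :=
  (Σ n, L.Functions n × (Fin n → ℕ)) ⊕ (Σ n, L.Relations n × (Fin n → ℕ))

/-- codes -/
abbrev XL (L : FirstOrder.Language.{0, 0}) : Type := Ix L → ℕ

theorem cnt_ix (hL : Countable L.Symbols) : Countable (Ix L) := by
  have hL' : Countable ((Σ n, L.Functions n) ⊕ Σ n, L.Relations n) := hL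
  have hF : Countable (Σ n, L.Functions n) :=
    (Sum.inl_injective (β := Σ n, L.Relations n)).countable
  have hR : Countable (Σ n, L.Relations n) :=
    (Sum.inr_injective (α := Σ n, L.Functions n)).countable
  have hF' : ∀ n, Countable (L.Functions n) := fun n =>
    (sigma_mk_injective (β := fun n => L.Functions n) (i := n)).countable
  have hR' : ∀ n, Countable (L.Relations n) := fun n =>
    (sigma_mk_injective (β := fun n => L.Relations n) (i := n)).countable
  infer_instance

/-- decoding -/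
@[reducible] def toS (x : XL L) : L.Structure ℕ where
  funMap := fun {n} F v => x (Sum.inl ⟨n, F, v⟩)
  RelMap := fun {n} R v => x (Sum.inr ⟨n, R, v⟩) = 1

open Classical in
/-- coding -/
noncomputable def cd (S : L.Structure ℕ) : XL L := fun i =>
  match i with
  | Sum.inl f => @Structure.funMap L ℕ S f.1 f.2.1 f.2.2
  | Sum.inr R => if @Structure.RelMap L ℕ S R.1 R.2.1 R.2.2 then 1 else 0

theorem toS_cd (S : L.Structure ℕ) : toS (cd S) = S := by
  apply Structure.ext
  · funext n F v
    rfl
  · funext n R v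
    show ((cd S) (Sum.inr ⟨n, R, v⟩) = 1) = _
    simp only [cd]
    by_cases h : @Structure.RelMap L ℕ S n R v
    · simp [h]
    · simp [h]

theorem cd_toS_iff (x : XL L) : cd (toS x) = x ↔
    ∀ R : Σ n, L.Relations n × (Fin n → ℕ), x (Sum.inr R) = 0 ∨ x (Sum.inr R) = 1 := by
  classical
  constructor
  · intro h R
    rw [← h]
    show (if _ then 1 else 0) = 0 ∨ (if _ then 1 else 0) = 1
    split
    · exact Or.inr rfl
    · exact Or.inl rfl
  · intro h
    funext i
    rcases i with f | R
    · rfl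
    · have e : cd (toS x) (Sum.inr R) = if x (Sum.inr R) = 1 then 1 else 0 := by
        simp only [cd]
        congr
      rw [e]
      rcases h R with h1 | h1 <;> simp [h1]

/-- the reduct to the relations defined by the formulas -/
noncomputable def red (lf : L.Formula (Fin 2)) (ψ : ℕ → L.Formula (Fin 2))
    (θ : ℕ → L.Formula (Fin 1)) (S : L.Structure ℕ) : R2 :=
  mk (fun a b => @Formula.Realize L ℕ S _ lf ![a, b])
    (fun k a b => @Formula.Realize L ℕ S _ (ψ k) ![a, b])
    (fun k a => @Formula.Realize L ℕ S _ (θ k) ![a])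

/-- `σ` is an isomorphism of the structures -/
def IsI (S S' : L.Structure ℕ) (σ : Equiv.Perm ℕ) : Prop :=
  (∀ (n : ℕ) (F : L.Functions n) (v : Fin n → ℕ),
    @Structure.funMap L ℕ S' n F (⇑σ ∘ v) = σ (@Structure.funMap L ℕ S n F v)) ∧
  ∀ (n : ℕ) (R : L.Relations n) (v : Fin n → ℕ),
    @Structure.RelMap L ℕ S' n R (⇑σ ∘ v) ↔ @Structure.RelMap L ℕ S n R v

theorem IsI.equiv {S S' : L.Structure ℕ} {σ : Equiv.Perm ℕ} (h : IsI S S' σ) :
    Nonempty (@FirstOrder.Language.Equiv L ℕ ℕ S S') :=
  ⟨@FirstOrder.Language.Equiv.mk L ℕ ℕ S S' σ (fun F v => (h.1 _ F v).symm) (fun R v => h.2 _ R v)⟩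

theorem IsI.eq {S S' : L.Structure ℕ} (h : IsI S S' (Equiv.refl ℕ)) : S = S' := by
  apply Structure.ext
  · funext n F v
    exact (h.1 n F v).symm
  · funext n R v
    exact propext (h.2 n R v).symm

theorem real_equiv {S S' : L.Structure ℕ} (τ : @FirstOrder.Language.Equiv L ℕ ℕ S S') {β : Type}
    (φ : L.Formula β) (v : β → ℕ) :
    @Formula.Realize L ℕ S' _ φ (fun i => τ (v i)) ↔ @Formula.Realize L ℕ S _ φ v :=
  @StrongHomClass.realize_formula L ℕ ℕ S S' _ _ _ _ τ φ v

theorem red_iso (lf : L.Formula (Fin 2)) (ψ : ℕ → L.Formula (Fin 2)) (θ : ℕ → L.Formula (Fin 1))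
    {S S' : L.Structure ℕ} (τ : @FirstOrder.Language.Equiv L ℕ ℕ S S') :
    (∀ x y, lt (red lf ψ θ S') (τ x) (τ y) ↔ lt (red lf ψ θ S) x y) ∧
    (∀ n x y, ac (red lf ψ θ S') n (τ x) (τ y) ↔ ac (red lf ψ θ S) n x y) ∧
    ∀ n x, co (red lf ψ θ S') n (τ x) ↔ co (red lf ψ θ S) n x := by
  have e2 : ∀ x y, (![τ x, τ y] : Fin 2 → ℕ) = fun i => τ (![x, y] i) := by
    intro x y
    funext i
    fin_cases i <;> rfl
  have e1 : ∀ x, (![τ x] : Fin 1 → ℕ) = fun i => τ (![x] i) := by
    intro x
    funext i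
    fin_cases i
    rfl
  refine ⟨fun x y => ?_, fun n x y => ?_, fun n x => ?_⟩
  · rw [red, red, lt_mk, lt_mk, e2]
    exact real_equiv τ _ _
  · rw [red, red, ac_mk, ac_mk, e2]
    exact real_equiv τ _ _
  · rw [red, red, co_mk, co_mk, e1]
    exact real_equiv τ _ _

theorem meas_fun (n : ℕ) (F : L.Functions n) (v : Fin n → ℕ) (b : ℕ) :
    MeasurableSet {x : XL L | @Structure.funMap L ℕ (toS x) n F v = b} := by
  have h : Measurable fun x : XL L => x (Sum.inl ⟨n, F, v⟩) := measurable_pi_apply _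
  exact h (measurableSet_singleton b)

theorem meas_rel (n : ℕ) (R : L.Relations n) (v : Fin n → ℕ) :
    MeasurableSet {x : XL L | @Structure.RelMap L ℕ (toS x) n R v} := by
  have h : Measurable fun x : XL L => x (Sum.inr ⟨n, R, v⟩) := measurable_pi_apply _
  exact h (measurableSet_singleton 1)

theorem meas_red (lf : L.Formula (Fin 2)) (ψ : ℕ → L.Formula (Fin 2))
    (θ : ℕ → L.Formula (Fin 1)) : Measurable fun x : XL L => red lf ψ θ (toS x) := by
  refine meas_into ?_ ?_ ?_
  · intro a b
    simp only [red, lt_mk]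
    exact meas_realize (f := toS) meas_fun meas_rel _ _ _
  · intro k a b
    simp only [red, ac_mk]
    exact meas_realize (f := toS) meas_fun meas_rel _ _ _
  · intro k a
    simp only [red, co_mk]
    exact meas_realize (f := toS) meas_fun meas_rel _ _ _

/-- codes of models -/
def BT (T : L.Theory) : Set (XL L) := {x | cd (toS x) = x ∧ @Theory.Model L ℕ (toS x) T}

theorem meas_BT (hL : Countable L.Symbols) (T : L.Theory) : MeasurableSet (BT T) := by
  have hix := cnt_ix hL
  have hR : Countable (Σ n, L.Relations n × (Fin n → ℕ)) :=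
    (Sum.inr_injective (α := Σ n, L.Functions n × (Fin n → ℕ))).countable
  have h1 : MeasurableSet {x : XL L | cd (toS x) = x} := by
    have e1 : {x : XL L | cd (toS x) = x} = ⋂ R : Σ n, L.Relations n × (Fin n → ℕ),
        {x : XL L | x (Sum.inr R) = 0 ∨ x (Sum.inr R) = 1} := by
      ext x
      rw [mem_iInter]
      exact cd_toS_iff x
    rw [e1]
    refine MeasurableSet.iInter fun R => ?_
    have h : Measurable fun x : XL L => x (Sum.inr R) := measurable_pi_apply _
    exact (h (measurableSet_singleton 0)).union (h (measurableSet_singleton 1))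
  have hcs : Countable L.Sentence := by
    have h3 : Cardinal.mk (Σ n, L.BoundedFormula Empty n) ≤ Cardinal.aleph0 := by
      refine BoundedFormula.card_le.trans ?_
      refine max_le le_rfl ?_
      rw [Cardinal.mk_eq_zero Empty]
      simp only [zero_add, Cardinal.lift_id]
      exact Cardinal.mk_le_aleph0
    have h4 : Countable (Σ n, L.BoundedFormula Empty n) := Cardinal.mk_le_aleph0_iff.1 h3
    exact (sigma_mk_injective (β := fun n => L.BoundedFormula Empty n) (i := 0)).countable
  have h2 : MeasurableSet {x : XL L | @Theory.Model L ℕ (toS x) T} := by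
    have e1 : {x : XL L | @Theory.Model L ℕ (toS x) T} =
        ⋂ φ : T, {x | @Sentence.Realize L ℕ (toS x) φ} := by
      ext x
      rw [mem_iInter]
      constructor
      · intro h φ
        exact @Theory.realize_sentence_of_mem L ℕ (toS x) T h φ φ.2
      · intro h
        exact @Theory.Model.mk L ℕ (toS x) T fun φ hφ => h ⟨φ, hφ⟩
    rw [e1]
    have : Countable T := Subtype.countable
    exact MeasurableSet.iInter fun φ => meas_realize (f := toS) meas_fun meas_rel _ _ _
  exact h1.inter h2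

/-- The dichotomy of the problem. -/
def FDich (T : L.Theory) : Prop :=
  (∃ g : ℕ → L.Structure ℕ, ∀ S : L.Structure ℕ, @Theory.Model L ℕ S T →
      ∃ n : ℕ, Nonempty (@FirstOrder.Language.Equiv L ℕ ℕ S (g n))) ∨
  (∃ f : (ℕ → Bool) → L.Structure ℕ, (∀ x : ℕ → Bool, @Theory.Model L ℕ (f x) T) ∧
    (∀ x y : ℕ → Bool, Nonempty (@FirstOrder.Language.Equiv L ℕ ℕ (f x) (f y)) → x = y) ∧
    (∀ (n : ℕ) (R : L.Relations n) (a : Fin n → ℕ),
      IsClopen {x : ℕ → Bool | @Structure.RelMap L ℕ (f x) n R a}) ∧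
    (∀ (n : ℕ) (F : L.Functions n) (a : Fin n → ℕ) (b : ℕ),
      IsOpen {x : ℕ → Bool | @Structure.funMap L ℕ (f x) n F a = b}))

/-- Transfer from classes of structures to theories. -/
theorem transfer (hL : Countable L.Symbols) (T : L.Theory) (lf : L.Formula (Fin 2))
    (ψ : ℕ → L.Formula (Fin 2)) (θ : ℕ → L.Formula (Fin 1))
    (hdet : ∀ S S' : L.Structure ℕ, @Theory.Model L ℕ S T → @Theory.Model L ℕ S' T →
      ∀ σ : Equiv.Perm ℕ,
        (∀ x y, lt (red lf ψ θ S') (σ x) (σ y) ↔ lt (red lf ψ θ S) x y) →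
        (∀ n x y, ac (red lf ψ θ S') n (σ x) (σ y) ↔ ac (red lf ψ θ S) n x y) →
        (∀ n x, co (red lf ψ θ S') n (σ x) ↔ co (red lf ψ θ S) n x) → IsI S S' σ)
    (V : R2 → Prop) (hV : ∀ B : Set R2, MeasurableSet B → (∀ x y, RIso x y → x ∈ B → y ∈ B) →
      (∀ z ∈ B, V z) → Dich B)
    (hT : ∀ S : L.Structure ℕ, @Theory.Model L ℕ S T → V (red lf ψ θ S)) : FDich T := by
  have hix := cnt_ix hL
  set c : XL L → R2 := fun x => red lf ψ θ (toS x) with hc
  have hcm : Measurable c := meas_red lf ψ θ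
  have hBT := meas_BT hL T
  have hinj : InjOn c (BT T) := by
    intro x hx y hy hxy
    have h1 : IsI (toS x) (toS y) (Equiv.refl ℕ) := by
      refine hdet _ _ hx.2 hy.2 _ ?_ ?_ ?_
      · intro a b
        have : red lf ψ θ (toS y) = red lf ψ θ (toS x) := hxy.symm
        rw [this]
        rfl
      · intro n a b
        have : red lf ψ θ (toS y) = red lf ψ θ (toS x) := hxy.symm
        rw [this]
        rfl
      · intro n a
        have : red lf ψ θ (toS y) = red lf ψ θ (toS x) := hxy.symm
        rw [this]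
        rfl
    rw [← hx.1, ← hy.1, h1.eq]
  have hsB : StandardBorelSpace (XL L) := inferInstance
  have sR : SecondCountableTopology R2 := inferInstance
  have tR : T2Space R2 := inferInstance
  have bR : BorelSpace R2 := inferInstance
  have hB : MeasurableSet (c '' BT T) := hBT.image_of_measurable_injOn hcm hinj
  have hinv : ∀ z z', RIso z z' → z ∈ c '' BT T → z' ∈ c '' BT T := by
    rintro _ z' hz ⟨x, hx, rfl⟩
    obtain ⟨σ, h1, h2, h3⟩ := riso_iff.1 hz
    let S' : L.Structure ℕ := @Equiv.inducedStructure L ℕ ℕ (toS x) σ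
    let τ : @FirstOrder.Language.Equiv L ℕ ℕ (toS x) S' :=
      @Equiv.inducedStructureEquiv L ℕ ℕ (toS x) σ
    have hτ : ∀ a, τ a = σ a := fun a => rfl
    obtain ⟨k1, k2, k3⟩ := red_iso lf ψ θ τ
    refine ⟨cd S', ⟨by rw [toS_cd], ?_⟩, ?_⟩
    · rw [toS_cd]
      exact @StrongHomClass.theory_model L ℕ ℕ (toS x) S' T _ _ _ τ hx.2
    · show red lf ψ θ (toS (cd S')) = z'
      rw [toS_cd]
      refine R2_ext ?_ ?_ ?_
      · intro a b
        obtain ⟨a, rfl⟩ := σ.surjective a
        obtain ⟨b, rfl⟩ := σ.surjective b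
        rw [h1, ← hτ, ← hτ]
        exact k1 a b
      · intro n a b
        obtain ⟨a, rfl⟩ := σ.surjective a
        obtain ⟨b, rfl⟩ := σ.surjective b
        rw [h2, ← hτ, ← hτ]
        exact k2 n a b
      · intro n a
        obtain ⟨a, rfl⟩ := σ.surjective a
        rw [h3, ← hτ]
        exact k3 n a
  rcases hV _ hB hinv (by
    rintro _ ⟨x, hx, rfl⟩
    exact hT _ hx.2) with ⟨f, hf⟩ | ⟨g, hg1, hg2, hg3⟩
  · left
    have hch : ∀ n, ∃ x : XL L, f n ∈ c '' BT T → x ∈ BT T ∧ c x = f n := by
      intro n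
      by_cases h : f n ∈ c '' BT T
      · obtain ⟨x, hx⟩ := h
        exact ⟨x, fun _ => hx⟩
      · exact ⟨fun _ => 0, fun h1 => absurd h1 h⟩
    choose x hx using hch
    refine ⟨fun n => toS (x n), fun S hS => ?_⟩
    have hmem : c (cd S) ∈ c '' BT T := ⟨cd S, ⟨by rw [toS_cd], by rw [toS_cd]; exact hS⟩, rfl⟩
    obtain ⟨n, hn⟩ := hf _ hmem
    have hfn : f n ∈ c '' BT T := hinv _ _ (FC.riso_symm hn) hmem
    obtain ⟨h1, h2⟩ := hx n hfn
    refine ⟨n, ?_⟩
    have h3 : RIso (c (cd S)) (c (x n)) := by rw [h2]; exact FC.riso_symm hn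
    obtain ⟨σ, k1, k2, k3⟩ := riso_iff.1 h3
    have h4 := hdet (toS (cd S)) (toS (x n)) (by rw [toS_cd]; exact hS) h1.2 σ k1 k2 k3
    rw [toS_cd] at h4
    exact h4.equiv
  · right
    -- the Borel inverse
    have hs : StandardBorelSpace (BT T) := hBT.standardBorel
    have hce : MeasurableEmbedding fun x : BT T => c x.1 := by
      refine Measurable.measurableEmbedding (hcm.comp measurable_subtype_coe) ?_
      intro x y hxy
      exact Subtype.ext (hinj x.2 y.2 hxy)
    have hr : ∀ A, g A ∈ range fun x : BT T => c x.1 := by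
      intro A
      obtain ⟨x, hx, hxg⟩ := hg2 A
      exact ⟨⟨x, hx⟩, hxg⟩
    let G : (ℕ → Bool) → BT T := fun A => hce.equivRange.symm ⟨g A, hr A⟩
    have hG : Measurable G :=
      hce.equivRange.symm.measurable.comp (hg1.measurable.subtype_mk)
    have hcG : ∀ A, c (G A).1 = g A := by
      intro A
      have h1 := congrArg Subtype.val (hce.equivRange.apply_symm_apply ⟨g A, hr A⟩)
      have h2 : ∀ x : BT T, (hce.equivRange x).1 = c x.1 := fun x => by
        rw [MeasurableEmbedding.equivRange_apply]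
      rw [h2] at h1
      exact h1
    obtain ⟨f, hf1, hf2⟩ := Pool.Agent.Y117.TG.cantor_of_unc (Ω := ℕ → Bool) (X := XL L)
      Pool.Agent.H899R2.VP.not_countable_cantor (fun A => (G A).1)
      (measurable_subtype_coe.comp hG)
    refine ⟨fun A => toS (G (f A)).1, fun A => (G (f A)).2.2, ?_, ?_, ?_⟩
    · rintro A A' ⟨τ⟩
      apply hf1
      apply hg3
      rw [← hcG, ← hcG]
      refine riso_iff.2 ⟨@FirstOrder.Language.Equiv.toEquiv L ℕ ℕ (toS (G (f A)).1)
        (toS (G (f A')).1) τ, ?_⟩
      exact red_iso lf ψ θ τ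
    · intro n R a
      have h1 : Continuous fun A => (G (f A)).1 (Sum.inr ⟨n, R, a⟩) :=
        (continuous_apply _).comp hf2
      exact (isClopen_discrete {1}).preimage h1
    · intro n F a b
      have h1 : Continuous fun A => (G (f A)).1 (Sum.inl ⟨n, F, a⟩) :=
        (continuous_apply _).comp hf2
      exact ((isClopen_discrete {b}).preimage h1).isOpen

end Pool.Agent.Run7.h201.CS.TR
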